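import Mathlib

/-!
# Bounded solutions of nonautonomous linear recursions

`Dich A K`: for every bounded sequence `w : ℤ → E` there is a unique bounded solution `v` of
`v (n + 1) = A n (v n) + w n`, and `‖v‖ ≤ K ‖w‖`.
-/

open Set Filter Topology Metric
open scoped NNReal BoundedContinuousFunction

set_option linter.unusedSectionVars false

namespace OmSt

variable {E : Type*} [NormedAddCommGroup E] [NormedSpace ℝ E]

/-- Every bounded right hand side has a unique bounded solution, with bound `K`. -/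
structure Dich (A : ℤ → E →L[ℝ] E) (K : ℝ) : Prop where
  exists_sol : ∀ (w : ℤ → E) (C : ℝ), (∀ n, ‖w n‖ ≤ C) →
    ∃ v : ℤ → E, (∀ n, ‖v n‖ ≤ K * C) ∧ ∀ n, v (n + 1) = A n (v n) + w n
  unique : ∀ (v : ℤ → E) (C : ℝ), (∀ n, ‖v n‖ ≤ C) → (∀ n, v (n + 1) = A n (v n)) →
    ∀ n, v n = 0

/-- A bounded sequence as a bounded continuous function. -/
noncomputable def bmk (f : ℤ → E) (C : ℝ) (h : ∀ n, ‖f n‖ ≤ C) : ℤ →ᵇ E :=
  BoundedContinuousFunction.ofNormedAddCommGroupDiscrete f C h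

theorem bmk_apply (f : ℤ → E) (C : ℝ) (h : ∀ n, ‖f n‖ ≤ C) (n : ℤ) : bmk f C h n = f n := rfl

theorem norm_le_iff' {f : ℤ →ᵇ E} {C : ℝ} : ‖f‖ ≤ C ↔ ∀ n, ‖f n‖ ≤ C :=
  BoundedContinuousFunction.norm_le_of_nonempty

variable {A B : ℤ → E →L[ℝ] E} {K : ℝ}

theorem Dich.exists_op (h : Dich A K) :
    ∃ S : (ℤ →ᵇ E) → (ℤ →ᵇ E), (∀ w n, S w (n + 1) = A n (S w n) + w n) ∧
      (∀ w w', ‖S w - S w'‖ ≤ K * ‖w - w'‖) ∧
      (∀ v w : ℤ →ᵇ E, (∀ n, v (n + 1) = A n (v n) + w n) → v = S w) := by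
  have h1 : ∀ w : ℤ →ᵇ E, ∃ v : ℤ →ᵇ E, ‖v‖ ≤ K * ‖w‖ ∧ ∀ n, v (n + 1) = A n (v n) + w n := by
    intro w
    obtain ⟨v, hv1, hv2⟩ := h.exists_sol w ‖w‖ (fun n => w.norm_coe_le_norm n)
    exact ⟨bmk v _ hv1, norm_le_iff'.2 hv1, hv2⟩
  choose S hS1 hS2 using h1
  have huniq : ∀ v w : ℤ →ᵇ E, (∀ n, v (n + 1) = A n (v n) + w n) → v = S w := by
    intro v w hv
    have h2 := h.unique (v - S w : ℤ →ᵇ E) ‖v - S w‖
      (fun n => (v - S w).norm_coe_le_norm n) (fun n => by
        simp only [BoundedContinuousFunction.coe_sub, Pi.sub_apply, hv n, hS2 w n, map_sub]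
        abel)
    ext n
    have h3 := h2 n
    simp only [BoundedContinuousFunction.coe_sub, Pi.sub_apply] at h3
    rw [sub_eq_zero.1 h3]
  refine ⟨S, hS2, fun w w' => ?_, huniq⟩
  have h4 : S w - S w' = S (w - w') := by
    apply huniq
    intro n
    simp only [BoundedContinuousFunction.coe_sub, Pi.sub_apply, hS2 w n, hS2 w' n, map_sub]
    abel
  rw [h4]
  exact hS1 _

theorem Dich.mono (h : Dich A K) {K' : ℝ} (hK : K ≤ K') : Dich A K' := by
  refine ⟨fun w C hw => ?_, h.unique⟩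
  obtain ⟨v, hv, hv'⟩ := h.exists_sol w C hw
  have hC : 0 ≤ C := (norm_nonneg _).trans (hw 0)
  exact ⟨v, fun n => (hv n).trans (by gcongr), hv'⟩

/-- Translation of the index. -/
theorem Dich.shift (h : Dich A K) (m : ℤ) : Dich (fun n => A (n - m)) K := by
  constructor
  · intro w C hw
    obtain ⟨v, hv, hv'⟩ := h.exists_sol (fun n => w (n + m)) C (fun n => hw _)
    refine ⟨fun n => v (n - m), fun n => hv _, fun n => ?_⟩
    have := hv' (n - m)
    simp only [sub_add_cancel] at this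
    rw [← this]
    congr 1
    ring
  · intro v C hv hv' n
    have := h.unique (fun n => v (n + m)) C (fun n => hv _) (fun n => by
      have := hv' (n + m)
      simp only [add_sub_cancel_right] at this
      rw [← this]
      congr 1
      ring) (n - m)
    simpa using this

/-- The `Newton` (shadowing) lemma. -/
theorem Dich.newton [CompleteSpace E] (h : Dich A K) (hK : 0 ≤ K) {F : ℤ → E → E} {y : ℤ → E}
    {ρ η e : ℝ} (hη0 : 0 ≤ η) (hη : K * η ≤ 1 / 2)
    (hLip : ∀ n, ∀ u ∈ closedBall (y n) ρ, ∀ u' ∈ closedBall (y n) ρ,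
      ‖F n u - F n u' - A n (u - u')‖ ≤ η * ‖u - u'‖)
    (herr : ∀ n, ‖F n (y n) - y (n + 1)‖ ≤ e) (he : 2 * K * e ≤ ρ) :
    ∃ z : ℤ → E, (∀ n, ‖z n - y n‖ ≤ 2 * K * e) ∧ ∀ n, z (n + 1) = F n (z n) := by
  classical
  obtain ⟨S, hS1, hS2, hS3⟩ := h.exists_op
  have he0 : 0 ≤ e := (norm_nonneg _).trans (herr 0)
  have hρ0 : 0 ≤ ρ := le_trans (by positivity) he
  have hyb : ∀ n, y n ∈ closedBall (y n) ρ := fun n => mem_closedBall_self hρ0
  have hvb : ∀ v : ℤ →ᵇ E, ‖v‖ ≤ ρ → ∀ n, y n + v n ∈ closedBall (y n) ρ := by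
    intro v hv n
    rw [mem_closedBall, dist_eq_norm, add_sub_cancel_left]
    exact (v.norm_coe_le_norm n).trans hv
  have hG : ∀ v : ℤ →ᵇ E, ∃ g : ℤ →ᵇ E, ‖v‖ ≤ ρ →
      ∀ n, g n = F n (y n + v n) - y (n + 1) - A n (v n) := by
    intro v
    by_cases hv : ‖v‖ ≤ ρ
    · refine ⟨bmk (fun n => F n (y n + v n) - y (n + 1) - A n (v n)) (e + η * ρ) (fun n => ?_),
        fun _ n => rfl⟩
      have h1 := hLip n _ (hvb v hv n) _ (hyb n)
      rw [add_sub_cancel_left] at h1
      calc ‖F n (y n + v n) - y (n + 1) - A n (v n)‖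
          = ‖(F n (y n) - y (n + 1)) + (F n (y n + v n) - F n (y n) - A n (v n))‖ := by
            congr 1; abel
        _ ≤ e + η * ‖v n‖ := (norm_add_le _ _).trans (add_le_add (herr n) h1)
        _ ≤ e + η * ρ := by
            gcongr
            exact (v.norm_coe_le_norm n).trans hv
    · exact ⟨0, fun h => absurd h hv⟩
  choose G hG using hG
  have hGlip : ∀ v v' : ℤ →ᵇ E, ‖v‖ ≤ ρ → ‖v'‖ ≤ ρ → ‖G v - G v'‖ ≤ η * ‖v - v'‖ := by
    intro v v' hv hv'
    rw [norm_le_iff']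
    intro n
    simp only [BoundedContinuousFunction.coe_sub, Pi.sub_apply, hG v hv n, hG v' hv' n]
    have h1 := hLip n _ (hvb v hv n) _ (hvb v' hv' n)
    have e1 : y n + v n - (y n + v' n) = v n - v' n := by abel
    rw [e1] at h1
    have e2 : F n (y n + v n) - y (n + 1) - A n (v n) -
        (F n (y n + v' n) - y (n + 1) - A n (v' n)) =
        F n (y n + v n) - F n (y n + v' n) - A n (v n - v' n) := by
      rw [map_sub]; abel
    rw [e2]
    refine h1.trans ?_
    gcongr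
    exact (v - v').norm_coe_le_norm n
  have hG0 : ‖G 0‖ ≤ e := by
    rw [norm_le_iff']
    intro n
    rw [hG 0 (by simpa using hρ0) n]
    simpa using herr n
  have hS0 : ∀ w, ‖S w‖ ≤ K * ‖w‖ := by
    intro w
    have h0 : (0 : ℤ →ᵇ E) = S 0 := hS3 0 0 (fun n => by simp)
    have := hS2 w 0
    rw [← h0, sub_zero, sub_zero] at this
    exact this
  set B := closedBall (0 : ℤ →ᵇ E) (2 * K * e) with hB
  have hBρ : ∀ v ∈ B, ‖v‖ ≤ ρ := fun v hv => by
    rw [hB, mem_closedBall, dist_zero_right] at hv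
    exact hv.trans he
  have hmaps : MapsTo (fun v => S (G v)) B B := by
    intro v hv
    have hv' := hBρ v hv
    have hv2 : ‖v‖ ≤ 2 * K * e := by
      rwa [hB, mem_closedBall, dist_zero_right] at hv
    rw [hB, mem_closedBall, dist_zero_right]
    have h1 : ‖G v‖ ≤ e + η * ‖v‖ := by
      have h2 := hGlip v 0 hv' (by simpa using hρ0)
      rw [sub_zero] at h2
      calc ‖G v‖ = ‖G 0 + (G v - G 0)‖ := by congr 1; abel
        _ ≤ e + η * ‖v‖ := (norm_add_le _ _).trans (add_le_add hG0 h2)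
    calc ‖S (G v)‖ ≤ K * ‖G v‖ := hS0 _
      _ ≤ K * (e + η * ‖v‖) := by gcongr
      _ = K * e + (K * η) * ‖v‖ := by ring
      _ ≤ K * e + (1 / 2) * (2 * K * e) := by gcongr
      _ = 2 * K * e := by ring
  have hcontr : ContractingWith (1 / 2 : ℝ≥0) (hmaps.restrict (fun v => S (G v)) B B) := by
    refine ⟨by
      rw [← NNReal.coe_lt_coe]; norm_num, LipschitzWith.of_dist_le_mul fun v v' => ?_⟩
    rw [Subtype.dist_eq, Subtype.dist_eq, MapsTo.val_restrict_apply,
      MapsTo.val_restrict_apply, dist_eq_norm, dist_eq_norm]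
    calc ‖S (G v) - S (G v')‖ ≤ K * ‖G v - G v'‖ := hS2 _ _
      _ ≤ K * (η * ‖(v : ℤ →ᵇ E) - v'‖) := by
          gcongr
          exact hGlip _ _ (hBρ _ v.2) (hBρ _ v'.2)
      _ = (K * η) * ‖(v : ℤ →ᵇ E) - v'‖ := by ring
      _ ≤ ((1 / 2 : ℝ≥0) : ℝ) * ‖(v : ℤ →ᵇ E) - v'‖ := by
          gcongr
          simpa using hη
  have hcomp : IsComplete B := isClosed_closedBall.isComplete
  obtain ⟨v, hvB, hv, -⟩ := hcontr.exists_fixedPoint' hcomp hmaps
    (x := 0) (mem_closedBall_self (by positivity)) (edist_ne_top _ _)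
  have hv : S (G v) = v := hv
  have hvρ := hBρ v hvB
  refine ⟨fun n => y n + v n, fun n => ?_, fun n => ?_⟩
  · rw [add_sub_cancel_left]
    refine (v.norm_coe_le_norm n).trans ?_
    rwa [hB, mem_closedBall, dist_zero_right] at hvB
  · have h1 := hS1 (G v) n
    rw [hv, hG v hvρ n] at h1
    change y (n + 1) + v (n + 1) = F n (y n + v n)
    rw [h1]
    abel

theorem Dich.newton_unique (h : Dich A K) (hK : 0 ≤ K) {F : ℤ → E → E} {y : ℤ → E}
    {ρ η : ℝ} (hη0 : 0 ≤ η) (hη : K * η ≤ 1 / 2)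
    (hLip : ∀ n, ∀ u ∈ closedBall (y n) ρ, ∀ u' ∈ closedBall (y n) ρ,
      ‖F n u - F n u' - A n (u - u')‖ ≤ η * ‖u - u'‖)
    {z z' : ℤ → E} (hz : ∀ n, ‖z n - y n‖ ≤ ρ) (hz' : ∀ n, ‖z' n - y n‖ ≤ ρ)
    (hzF : ∀ n, z (n + 1) = F n (z n)) (hzF' : ∀ n, z' (n + 1) = F n (z' n)) : z = z' := by
  obtain ⟨S, hS1, hS2, hS3⟩ := h.exists_op
  have hb : ∀ n, ‖z n - z' n‖ ≤ 2 * ρ := by
    intro n
    calc ‖z n - z' n‖ = ‖(z n - y n) - (z' n - y n)‖ := by congr 1; abel
      _ ≤ ρ + ρ := (norm_sub_le _ _).trans (add_le_add (hz n) (hz' n))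
      _ = 2 * ρ := by ring
  set v : ℤ →ᵇ E := bmk (fun n => z n - z' n) _ hb with hv
  have hmem : ∀ n, z n ∈ closedBall (y n) ρ := fun n => by
    rw [mem_closedBall, dist_eq_norm]; exact hz n
  have hmem' : ∀ n, z' n ∈ closedBall (y n) ρ := fun n => by
    rw [mem_closedBall, dist_eq_norm]; exact hz' n
  have hw : ∀ n, ‖F n (z n) - F n (z' n) - A n (z n - z' n)‖ ≤ η * ‖v‖ := by
    intro n
    refine (hLip n _ (hmem n) _ (hmem' n)).trans ?_
    gcongr
    exact v.norm_coe_le_norm n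
  set w : ℤ →ᵇ E := bmk _ _ hw with hwdef
  have h1 : v = S w := by
    apply hS3
    intro n
    simp only [hv, hwdef, bmk_apply, hzF n, hzF' n]
    abel
  have h0 : (0 : ℤ →ᵇ E) = S 0 := hS3 0 0 (fun n => by simp)
  have h2 : ‖v‖ ≤ K * ‖w‖ := by
    have := hS2 w 0
    rwa [← h0, sub_zero, sub_zero, ← h1] at this
  have h3 : ‖w‖ ≤ η * ‖v‖ := norm_le_iff'.2 hw
  have h4 : ‖v‖ ≤ (1 / 2) * ‖v‖ := by
    calc ‖v‖ ≤ K * ‖w‖ := h2
      _ ≤ K * (η * ‖v‖) := by gcongr
      _ = (K * η) * ‖v‖ := by ring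
      _ ≤ (1 / 2) * ‖v‖ := by gcongr
  have h5 : ‖v‖ = 0 := by linarith [norm_nonneg v]
  funext n
  have h6 : ‖v n‖ ≤ 0 := by rw [← h5]; exact v.norm_coe_le_norm n
  have h7 : v n = 0 := norm_le_zero_iff.1 h6
  rw [hv, bmk_apply] at h7
  exact sub_eq_zero.1 h7

/-- Stability under small perturbations of the coefficients. -/
theorem Dich.perturb [CompleteSpace E] (h : Dich A K) (hK : 0 ≤ K) {ε : ℝ} (hε0 : 0 ≤ ε)
    (hε : K * ε ≤ 1 / 2) (hB : ∀ n, ‖B n - A n‖ ≤ ε) : Dich B (2 * K) := by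
  constructor
  · intro w C hw
    obtain ⟨v, hv, hv'⟩ := h.newton hK (F := fun n u => B n u + w n) (y := fun _ => 0)
      (ρ := 2 * K * C) (e := C) hε0 hε
      (fun n u _ u' _ => by
        have : B n u + w n - (B n u' + w n) - A n (u - u') = (B n - A n) (u - u') := by
          simp only [sub_apply, map_sub]; abel
        rw [this]
        exact ((B n - A n).le_opNorm _).trans (by gcongr; exact hB n))
      (fun n => by simpa using hw n) le_rfl
    exact ⟨v, fun n => by simpa using hv n, hv'⟩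
  · intro v C hv hv' n
    have := h.newton_unique hK (F := fun n u => B n u) (y := fun _ => 0) (ρ := C) hε0 hε
      (fun n u _ u' _ => by
        have : B n u - B n u' - A n (u - u') = (B n - A n) (u - u') := by
          simp only [sub_apply, map_sub]; abel
        rw [this]
        exact ((B n - A n).le_opNorm _).trans (by gcongr; exact hB n))
      (z := v) (z' := fun _ => 0) (fun n => by simpa using hv n)
      (fun n => by simpa using (norm_nonneg _).trans (hv 0)) hv' (fun n => by simp)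
    rw [this]

/-- Hyperbolic linear maps. -/
def IsHyp (T : E →L[ℝ] E) : Prop :=
  ∃ (T' P : E →L[ℝ] E) (c μ : ℝ), T * T' = 1 ∧ T' * T = 1 ∧ P * P = P ∧ P * T = T * P ∧
    0 ≤ c ∧ 0 ≤ μ ∧ μ < 1 ∧ ∀ n : ℕ, ‖T ^ n * P‖ ≤ c * μ ^ n ∧ ‖T' ^ n * (1 - P)‖ ≤ c * μ ^ n

theorem IsHyp.dich [CompleteSpace E] {T : E →L[ℝ] E} (hT : IsHyp T) :
    ∃ K, 0 ≤ K ∧ Dich (fun _ => T) K := by
  obtain ⟨T', P, c, μ, hTT', hT'T, hPP, hPT, hc, hμ0, hμ1, hb⟩ := hT
  have hsum : Summable (fun k : ℕ => μ ^ k) := summable_geometric_of_lt_one hμ0 hμ1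
  have hPT' : P * T' = T' * P := by
    calc P * T' = (T' * T) * (P * T') := by rw [hT'T, one_mul]
      _ = T' * (T * P) * T' := by simp only [mul_assoc]
      _ = T' * (P * T) * T' := by rw [hPT]
      _ = T' * P * (T * T') := by simp only [mul_assoc]
      _ = T' * P := by rw [hTT', mul_one]
  have hPTn : ∀ k : ℕ, P * T ^ k = T ^ k * P := fun k => (Commute.pow_right hPT k)
  have hPTn' : ∀ k : ℕ, P * T' ^ k = T' ^ k * P := fun k => (Commute.pow_right hPT' k)
  have hcan : ∀ k : ℕ, T' ^ k * T ^ k = 1 := by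
    intro k
    have hcomm : Commute T' T := by rw [Commute, SemiconjBy, hTT', hT'T]
    rw [← hcomm.mul_pow, hT'T, one_pow]
  refine ⟨2 * c * ∑' k : ℕ, μ ^ k, by positivity, ?_, ?_⟩
  · intro w C hw
    have hC : 0 ≤ C := (norm_nonneg _).trans (hw 0)
    set a : ℤ → ℕ → E := fun n k => (T ^ k * P) (w (n - 1 - k)) with ha
    set b : ℤ → ℕ → E := fun n k => (T' ^ k * (1 - P)) (w (n - 1 + k)) with hbdef
    have ha1 : ∀ n k, ‖a n k‖ ≤ (c * C) * μ ^ k := by
      intro n k
      calc ‖a n k‖ ≤ ‖T ^ k * P‖ * ‖w (n - 1 - k)‖ := ContinuousLinearMap.le_opNorm _ _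
        _ ≤ (c * μ ^ k) * C := by
            gcongr
            · exact (hb k).1
            · exact hw _
        _ = (c * C) * μ ^ k := by ring
    have hb1 : ∀ n k, ‖b n k‖ ≤ (c * C) * μ ^ k := by
      intro n k
      calc ‖b n k‖ ≤ ‖T' ^ k * (1 - P)‖ * ‖w (n - 1 + k)‖ := ContinuousLinearMap.le_opNorm _ _
        _ ≤ (c * μ ^ k) * C := by
            gcongr
            · exact (hb k).2
            · exact hw _
        _ = (c * C) * μ ^ k := by ring
    have has : ∀ n, Summable (a n) := fun n =>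
      Summable.of_norm_bounded (hsum.mul_left (c * C)) (ha1 n)
    have hbs : ∀ n, Summable (b n) := fun n =>
      Summable.of_norm_bounded (hsum.mul_left (c * C)) (hb1 n)
    have hgs : HasSum (fun k : ℕ => (c * C) * μ ^ k) ((c * C) * ∑' k : ℕ, μ ^ k) :=
      hsum.hasSum.mul_left _
    have hbs' : ∀ n, Summable (fun k => b n (k + 1)) := fun n =>
      (summable_nat_add_iff 1).2 (hbs n)
    have hbsum' : ∀ n, ‖∑' k, b n (k + 1)‖ ≤ (c * C) * ∑' k : ℕ, μ ^ k := by
      intro n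
      refine tsum_of_norm_bounded hgs (fun k => ?_)
      refine (hb1 n (k + 1)).trans ?_
      have : μ ^ (k + 1) ≤ μ ^ k := pow_le_pow_of_le_one hμ0 hμ1.le (Nat.le_succ k)
      gcongr
    refine ⟨fun n => (∑' k, a n k) - ∑' k, b n (k + 1), fun n => ?_, fun n => ?_⟩
    · calc ‖(∑' k, a n k) - ∑' k, b n (k + 1)‖
          ≤ (c * C) * (∑' k : ℕ, μ ^ k) + (c * C) * ∑' k : ℕ, μ ^ k :=
            (norm_sub_le _ _).trans (add_le_add (tsum_of_norm_bounded hgs (ha1 n)) (hbsum' n))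
        _ = (2 * c * ∑' k : ℕ, μ ^ k) * C := by ring
    · have e1 : ∑' k, a (n + 1) k = P (w n) + T (∑' k, a n k) := by
        rw [(has (n + 1)).tsum_eq_zero_add, T.map_tsum (has n)]
        congr 1
        · simp [ha]
        · congr 1
          funext k
          simp only [ha, pow_succ', mul_apply_eq_comp]
          congr 4
          push_cast
          ring
      have e2 : T (∑' k, b n (k + 1)) = (1 - P) (w n) + ∑' k, b (n + 1) (k + 1) := by
        rw [T.map_tsum (hbs' n)]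
        have e3 : ∀ k : ℕ, T (b n (k + 1)) = b (n + 1) k := by
          intro k
          have e4 : T * (T' ^ (k + 1) * (1 - P)) = T' ^ k * (1 - P) := by
            rw [pow_succ', ← mul_assoc, ← mul_assoc, hTT', one_mul]
          have e5 := congrArg (fun L : E →L[ℝ] E => L (w (n + k))) e4
          simp only [hbdef]
          have i1 : n - 1 + ((k + 1 : ℕ) : ℤ) = n + k := by push_cast; ring
          have i2 : n + 1 - 1 + (k : ℤ) = n + k := by ring
          rw [i1, i2]
          exact e5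
        simp_rw [e3]
        rw [(hbs (n + 1)).tsum_eq_zero_add]
        congr 1
        simp [hbdef]
      change (∑' k, a (n + 1) k) - ∑' k, b (n + 1) (k + 1) =
        T ((∑' k, a n k) - ∑' k, b n (k + 1)) + w n
      rw [e1, map_sub, e2]
      simp only [sub_apply, one_apply_eq_self]
      abel
  · intro v C hv hv' n
    have hC : 0 ≤ C := (norm_nonneg _).trans (hv 0)
    have hfw : ∀ (k : ℕ) (m : ℤ), v (m + k) = (T ^ k) (v m) := by
      intro k
      induction k with
      | zero => intro m; simp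
      | succ k ih =>
        intro m
        have : m + ((k + 1 : ℕ) : ℤ) = (m + k) + 1 := by push_cast; ring
        rw [this, hv', ih, pow_succ', mul_apply_eq_comp]
    have hlim : Tendsto (fun k : ℕ => c * μ ^ k * C) atTop (𝓝 0) := by
      have := (tendsto_pow_atTop_nhds_zero_of_lt_one hμ0 hμ1).const_mul c
      simpa using this.mul_const C
    have hP : P (v n) = 0 := by
      have h1 : ∀ k : ℕ, ‖P (v n)‖ ≤ c * μ ^ k * C := by
        intro k
        have e : v n = (T ^ k) (v (n - k)) := by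
          rw [← hfw k (n - k), sub_add_cancel]
        have e2 : P (v n) = (T ^ k * P) (v (n - k)) := by
          rw [e, ← hPTn k, mul_apply_eq_comp]
        rw [e2]
        refine (ContinuousLinearMap.le_opNorm _ _).trans ?_
        exact mul_le_mul (hb k).1 (hv _) (norm_nonneg _) (by positivity)
      have := ge_of_tendsto' hlim h1
      exact norm_le_zero_iff.1 this
    have hQ : (1 - P) (v n) = 0 := by
      have h1 : ∀ k : ℕ, ‖(1 - P) (v n)‖ ≤ c * μ ^ k * C := by
        intro k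
        have e : v n = (T' ^ k) (v (n + k)) := by
          rw [hfw k n, ← mul_apply_eq_comp, hcan]; rfl
        have e2 : (1 - P) (v n) = (T' ^ k * (1 - P)) (v (n + k)) := by
          have : (1 - P) * T' ^ k = T' ^ k * (1 - P) := by
            rw [sub_mul, mul_sub, hPTn' k, one_mul, mul_one]
          rw [← this, mul_apply_eq_comp, ← e]
        rw [e2]
        refine (ContinuousLinearMap.le_opNorm _ _).trans ?_
        exact mul_le_mul (hb k).2 (hv _) (norm_nonneg _) (by positivity)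
      have := ge_of_tendsto' hlim h1
      exact norm_le_zero_iff.1 this
    have : v n = P (v n) + (1 - P) (v n) := by
      simp [sub_apply]
    rw [this, hP, hQ, add_zero]

end OmSt
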