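import Mathlib

/-!
# Diffeomorphisms of closed manifolds, the `C^r` topology, `Ω`-stability, Axiom A

`M` is a smooth manifold without boundary modelled on the finite dimensional real vector
space `E`; compactness and the Hausdorff property are assumed where they are needed.
-/

open Set Filter Topology Manifold ContDiff Metric

namespace OmSt

variable (E : Type*) [NormedAddCommGroup E] [NormedSpace ℝ E]
  (M : Type*) [TopologicalSpace M] [ChartedSpace E M]

/-- `C^r` diffeomorphisms of `M`, `0 ≤ r ≤ ∞`. -/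
abbrev Dyn (r : ℕ∞) : Type _ := Diffeomorph 𝓘(ℝ, E) 𝓘(ℝ, E) M M r

variable {E M} {r : ℕ∞}

/-- The `C^k` closeness sets: all `g` whose expression in the charts `φ`, `ψ` is, together with
all its derivatives of order at most `k`, uniformly `ε`-close to that of `f` on the set `K`. -/
def crNhd (f : Dyn E M r) (φ ψ : OpenPartialHomeomorph M E) (K : Set M) (k : ℕ) (ε : ℝ) :
    Set (Dyn E M r) :=
  {g | MapsTo g K ψ.source ∧ ∀ x ∈ K, ∀ j ≤ k,
    ‖iteratedFDeriv ℝ j (ψ ∘ g ∘ φ.symm) (φ x) - iteratedFDeriv ℝ j (ψ ∘ f ∘ φ.symm) (φ x)‖ < ε}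

variable (E M r) in
/-- The `C^r` topology on the set of `C^r` diffeomorphisms (uniform convergence, in charts, of all
derivatives of order at most `r`; for `r = ∞` of all derivatives). -/
@[reducible]
def crTopology : TopologicalSpace (Dyn E M r) :=
  TopologicalSpace.generateFrom {S | ∃ (f : Dyn E M r) (φ ψ : OpenPartialHomeomorph M E)
    (K : Set M) (k : ℕ) (ε : ℝ), φ ∈ IsManifold.maximalAtlas 𝓘(ℝ, E) ∞ M ∧
      ψ ∈ IsManifold.maximalAtlas 𝓘(ℝ, E) ∞ M ∧ IsCompact K ∧ K ⊆ φ.source ∧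
      MapsTo f K ψ.source ∧ (k : ℕ∞) ≤ r ∧ 0 < ε ∧ S = crNhd f φ ψ K k ε}

/-- The nonwandering set. -/
def nonwandering (f : M → M) : Set M :=
  {x | ∀ U ∈ 𝓝 x, ∃ n > 0, (f^[n] '' U ∩ U).Nonempty}

/-- `f` and `g` are conjugate on their nonwandering sets: there is a homeomorphism
`h : Ω(f) → Ω(g)` with `h ∘ f = g ∘ h` on `Ω(f)`. -/
def OmegaConj (f g : M → M) : Prop :=
  ∃ h : nonwandering f ≃ₜ nonwandering g,
    ∀ x y : nonwandering f, (y : M) = f x → (h y : M) = g (h x)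

/-- `Ω`-stability in the space of `C^r` diffeomorphisms. -/
def OmegaStable (f : Dyn E M r) : Prop :=
  ∃ N : Set (Dyn E M r), IsOpen[crTopology E M r] N ∧ f ∈ N ∧ ∀ g ∈ N, OmegaConj f g

/-- `x` is (positively) recurrent: its forward orbit returns to every neighbourhood of `x`
at arbitrarily late times, i.e. `x` belongs to its own `ω`-limit set. -/
def Recurrent (f : M → M) (x : M) : Prop :=
  ∀ U ∈ 𝓝 x, ∀ N : ℕ, ∃ n ≥ N, f^[n] x ∈ U

variable (E M) in
/-- Fields of endomorphisms of the tangent spaces of `M`. -/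
abbrev EndoField : Type _ :=
  ∀ x : M, TangentSpace 𝓘(ℝ, E) x →L[ℝ] TangentSpace 𝓘(ℝ, E) x

/-- The field of subspaces `E^s_x = {v | P_x v = v}`. -/
def stableSp (P : EndoField E M) (x : M) : Set (TangentSpace 𝓘(ℝ, E) x) := {v | P x v = v}

/-- The field of subspaces `E^u_x = {v | P_x v = 0}`. -/
def unstableSp (P : EndoField E M) (x : M) : Set (TangentSpace 𝓘(ℝ, E) x) := {v | P x v = 0}

variable [IsManifold 𝓘(ℝ, E) ∞ M]

/-- The field of endomorphisms `P` is continuous on `Λ`. -/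
def ContinuousField (P : EndoField E M) (Λ : Set M) : Prop :=
  ContinuousOn (fun x => (Bundle.TotalSpace.mk' (E →L[ℝ] E) x (P x) :
    Bundle.TotalSpace (E →L[ℝ] E)
      (fun x : M => TangentSpace 𝓘(ℝ, E) x →L[ℝ] TangentSpace 𝓘(ℝ, E) x))) Λ

variable (E M) in
/-- Riemannian metrics of class `C^∞` on `M`. -/
abbrev RMetric : Type _ :=
  Bundle.ContMDiffRiemannianMetric 𝓘(ℝ, E) ∞ E (fun x : M => TangentSpace 𝓘(ℝ, E) x)

/-- The norm of the tangent vector `v` at `x` with respect to the Riemannian metric `γ`. -/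
noncomputable def rnorm (γ : RMetric E M) (x : M) (v : TangentSpace 𝓘(ℝ, E) x) : ℝ :=
  √(γ.inner x v v)

/-- `|DG^m v| ≤ c μ^m |v|` for all `m` and all `v ∈ V`, where `V` consists of tangent vectors
at `x`. -/
def Contracts (γ : RMetric E M) (G : M → M) (x : M) (V : Set (TangentSpace 𝓘(ℝ, E) x))
    (c μ : ℝ) : Prop :=
  ∀ m : ℕ, ∀ v ∈ V,
    rnorm γ (G^[m] x) (mfderiv 𝓘(ℝ, E) 𝓘(ℝ, E) G^[m] x v) ≤ c * μ ^ m * rnorm γ x v

/-- The invariant set `Λ` of the diffeomorphism `f` is hyperbolic: `P x` is the projection of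
`T_x M` onto `E^s_x = {v | P x v = v}` along `E^u_x = {v | P x v = 0}`, it depends continuously on
`x ∈ Λ`, the subspaces `E^s_x` and `E^u_x` are mapped onto `E^s_{f x}` and `E^u_{f x}` by the
derivative of `f`, and for every Riemannian metric there are constants `c > 0` and `0 < μ < 1`
such that `|Df^m v| ≤ c μ^m |v|` for `v ∈ E^s` and `|Df^{-m} v| ≤ c μ^m |v|` for `v ∈ E^u`. -/
def IsHyperbolicSet (f : Dyn E M r) (Λ : Set M) : Prop :=
  ∃ P : EndoField E M, (∀ x ∈ Λ, ∀ v, P x (P x v) = P x v) ∧ ContinuousField P Λ ∧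
    (∀ x ∈ Λ, mfderiv 𝓘(ℝ, E) 𝓘(ℝ, E) f x '' stableSp P x = stableSp P (f x)) ∧
    (∀ x ∈ Λ, mfderiv 𝓘(ℝ, E) 𝓘(ℝ, E) f x '' unstableSp P x = unstableSp P (f x)) ∧
    ∀ γ : RMetric E M, ∃ c > 0, ∃ μ : ℝ, 0 < μ ∧ μ < 1 ∧ ∀ x ∈ Λ,
      Contracts γ f x (stableSp P x) c μ ∧ Contracts γ f.symm x (unstableSp P x) c μ

/-- Axiom A: the nonwandering set is hyperbolic and the periodic points are dense in it. -/
def AxiomA (f : Dyn E M r) : Prop :=
  IsHyperbolicSet f (nonwandering f) ∧ nonwandering f ⊆ closure (Function.periodicPts f)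

end OmSt
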