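import Pool.Agent.OmSt.Glue
import Pool.Agent.OmSt.Defs

/-!
# Smooth families of diffeomorphisms; families which are affine in a chart
-/

open Set Filter Topology Manifold ContDiff Metric
open scoped NNReal

set_option linter.unusedSectionVars false

namespace OmSt

variable {E : Type*} [NormedAddCommGroup E] [NormedSpace ℝ E]
  {M : Type*} [TopologicalSpace M] [ChartedSpace E M]
  {V : Type*} [NormedAddCommGroup V] [NormedSpace ℝ V]
  {V' : Type*} [NormedAddCommGroup V'] [NormedSpace ℝ V']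

variable (E M V) in
/-- A family of `C^∞` diffeomorphisms of `M`, depending smoothly on the parameter near `0`,
which is the identity for the parameter `0`. -/
structure Fam where
  toFun : V → Diffeomorph 𝓘(ℝ, E) 𝓘(ℝ, E) M M ∞
  map_zero : ∀ x, toFun 0 x = x
  smooth : ∀ᶠ v in 𝓝 (0 : V), ∀ x, ContMDiffAt (𝓘(ℝ, V).prod 𝓘(ℝ, E)) 𝓘(ℝ, E) ∞
    (fun p : V × M => toFun p.1 p.2) (v, x)

/-- An injective map which is the identity off `W` maps `W` into itself. -/
theorem mapsTo_of_eq_self {X : Type*} {ψ : X → X} (hψ : Function.Injective ψ) {W : Set X}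
    (h : ∀ x ∉ W, ψ x = x) : MapsTo ψ W W := by
  intro x hx
  by_contra hc
  have := hψ (h _ hc)
  rw [this] at hc
  exact hc hx

/-- The diffeomorphism of `M` given by a diffeomorphism of the chart domain. -/
theorem exists_glue_diffeo [T2Space M] [IsManifold 𝓘(ℝ, E) ∞ M] {e : OpenPartialHomeomorph M E}
    (he : e ∈ IsManifold.maximalAtlas 𝓘(ℝ, E) ∞ M) {K : Set E} (hK : IsCompact K)
    (hKt : K ⊆ e.target) {τ : E ≃ₜ E} (hτ : ContDiff ℝ ∞ τ) (hτ' : ContDiff ℝ ∞ τ.symm)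
    (hid : ∀ y ∉ K, τ y = y) :
    ∃ ψ : Diffeomorph 𝓘(ℝ, E) 𝓘(ℝ, E) M M ∞, ∀ x, ψ x = glue e τ x := by
  have hmap : MapsTo τ K K := mapsTo_of_eq_self τ.injective hid
  have hid' : ∀ y ∉ K, τ.symm y = y := by
    intro y hy
    rw [τ.symm_apply_eq]
    exact (hid y hy).symm
  have hmap' : MapsTo τ.symm K K := mapsTo_of_eq_self τ.symm.injective hid'
  have ht : ∀ y ∈ e.target, τ y ∈ e.target := by
    intro y hy
    by_cases h : y ∈ K
    · exact hKt (hmap h)
    · rwa [hid y h]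
  have ht' : ∀ y ∈ e.target, τ.symm y ∈ e.target := by
    intro y hy
    by_cases h : y ∈ K
    · exact hKt (hmap' h)
    · rwa [hid' y h]
  have key : ∀ {T : E → E}, ContDiff ℝ ∞ T → (∀ y ∉ K, T y = y) →
      (∀ y ∈ e.target, T y ∈ e.target) → ContMDiff 𝓘(ℝ, E) 𝓘(ℝ, E) ∞ (glue e T) := by
    intro T hT hTid hTt x
    have h1 := glue_contMDiffAt (V := ℝ) he hK hKt (T := fun _ => T) (v₀ := 0)
      (Eventually.of_forall fun _ => hTid) hTt
      (fun y => (hT.comp contDiff_snd).contDiffAt) x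
    have h2 : ContMDiffAt 𝓘(ℝ, E) (𝓘(ℝ, ℝ).prod 𝓘(ℝ, E)) ∞ (fun x : M => ((0 : ℝ), x)) x :=
      contMDiffAt_const.prodMk contMDiffAt_id
    exact ContMDiffAt.comp x (g := fun p : ℝ × M => glue e T p.2) h1 h2
  exact ⟨{ toFun := glue e τ
           invFun := glue e τ.symm
           left_inv := glue_glue e ht (fun y => by simp)
           right_inv := glue_glue e ht' (fun y => by simp)
           contMDiff_toFun := key hτ hid ht
           contMDiff_invFun := key hτ' hid' ht' }, fun x => rfl⟩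

theorem exists_affT [FiniteDimensional ℝ E] (c : E) {R : ℝ} (hR : 0 < R) :
    ∃ T : (E × (E →L[ℝ] E)) → E → E, ∃ δ > 0,
      (ContDiff ℝ ∞ fun p : (E × (E →L[ℝ] E)) × E => T p.1 p.2) ∧
      (∀ v, ∀ y ∉ closedBall c R, T v y = y) ∧ (∀ y, T 0 y = y) ∧
      (∀ v, ∀ y ∈ closedBall c (R / 2), T v y = y + (v.1 + v.2 (y - c))) ∧
      ∀ v, ‖v‖ < δ → ∃ τ : E ≃ₜ E, (∀ y, τ y = T v y) ∧ ContDiff ℝ ∞ τ ∧
        ContDiff ℝ ∞ τ.symm := by
  let β : ContDiffBump c := ⟨R / 2, R, by positivity, by linarith⟩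
  have hβs : ContDiff ℝ ∞ β := β.contDiff
  have hγs : ContDiff ℝ ∞ (fun y => β y • (y - c)) := hβs.smul (contDiff_id.sub contDiff_const)
  obtain ⟨C₁, hC₁⟩ := ContDiff.lipschitzWith_of_hasCompactSupport β.hasCompactSupport hβs
    (by simp)
  obtain ⟨C₂, hC₂⟩ := ContDiff.lipschitzWith_of_hasCompactSupport
    (f := fun y => β y • (y - c)) β.hasCompactSupport.smul_right hγs (by simp)
  have hδ0 : 0 < 1 / (2 * ((C₁ : ℝ) + C₂ + 1)) := by positivity
  refine ⟨fun v y => y + (β y • v.1 + v.2 (β y • (y - c))), 1 / (2 * ((C₁ : ℝ) + C₂ + 1)), hδ0,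
    ?_, ?_, ?_, ?_, ?_⟩
  · refine contDiff_snd.add (ContDiff.add ?_ ?_)
    · exact (hβs.comp contDiff_snd).smul contDiff_fst.fst
    · exact contDiff_fst.snd.clm_apply (hγs.comp contDiff_snd)
  · intro v y hy
    have : β y = 0 := β.zero_of_le_dist (by
      have : R < dist y c := by simpa [mem_closedBall] using hy
      exact this.le)
    simp only [this, zero_smul, map_zero, add_zero]
  · intro y
    simp
  · intro v y hy
    have hβ : β y = 1 := β.one_of_mem_closedBall hy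
    simp only [hβ, one_smul]
  · intro v hv
    have hlip : LipschitzWith ((C₁ + C₂) * ‖v‖₊)
        (fun y => β y • v.1 + v.2 (β y • (y - c))) := by
      refine LipschitzWith.of_dist_le_mul fun y z => ?_
      have e1 : (β y • v.1 + v.2 (β y • (y - c))) - (β z • v.1 + v.2 (β z • (z - c))) =
          (β y - β z) • v.1 + v.2 (β y • (y - c) - β z • (z - c)) := by
        rw [map_sub, sub_smul]
        abel
      rw [dist_eq_norm, e1]
      have h1 := hC₁.dist_le_mul y z
      have h2 := hC₂.dist_le_mul y z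
      rw [dist_eq_norm] at h1 h2
      have h3 : ‖v.1‖ ≤ ‖v‖ := norm_fst_le v
      have h4 : ‖v.2‖ ≤ ‖v‖ := norm_snd_le v
      calc ‖(β y - β z) • v.1 + v.2 (β y • (y - c) - β z • (z - c))‖
          ≤ ‖β y - β z‖ * ‖v.1‖ + ‖v.2‖ * ‖β y • (y - c) - β z • (z - c)‖ := by
            refine (norm_add_le _ _).trans (add_le_add ?_ (v.2.le_opNorm _))
            rw [norm_smul]
        _ ≤ (C₁ * dist y z) * ‖v‖ + ‖v‖ * (C₂ * dist y z) := by gcongr
        _ = ((C₁ + C₂) * ‖v‖₊ : ℝ≥0) * dist y z := by push_cast; ring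
    have hs : ContDiff ℝ ∞ (fun y => β y • v.1 + v.2 (β y • (y - c))) :=
      (hβs.smul contDiff_const).add (v.2.contDiff.comp hγs)
    refine diffeo_of_lip hs hlip ?_
    have : ((C₁ : ℝ) + C₂) * ‖v‖ < 1 := by
      calc ((C₁ : ℝ) + C₂) * ‖v‖ ≤ (C₁ + C₂) * (1 / (2 * ((C₁ : ℝ) + C₂ + 1))) := by gcongr
        _ < 1 := by
          rw [mul_one_div, div_lt_one (by positivity)]
          linarith [C₁.2, C₂.2]
    exact_mod_cast this

/-- Families of perturbations supported near a point, which are affine in a chart near the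
point. -/
theorem exists_localFam [FiniteDimensional ℝ E] [T2Space M] [IsManifold 𝓘(ℝ, E) ∞ M]
    {e : OpenPartialHomeomorph M E}
    (he : e ∈ IsManifold.maximalAtlas 𝓘(ℝ, E) ∞ M) {c : E} (hc : c ∈ e.target) {W : Set M}
    (hW : W ∈ 𝓝 (e.symm c)) :
    ∃ Ψ : Fam E M (E × (E →L[ℝ] E)), ∃ ρ > 0, closedBall c ρ ⊆ e.target ∧
      e.symm '' closedBall c ρ ⊆ W ∧ (∀ v, ∀ x ∉ W, Ψ.toFun v x = x) ∧
      ∀ᶠ v in 𝓝 (0 : E × (E →L[ℝ] E)), ∀ y ∈ closedBall c ρ,
        Ψ.toFun v (e.symm y) = e.symm (y + (v.1 + v.2 (y - c))) ∧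
        y + (v.1 + v.2 (y - c)) ∈ e.target := by
  classical
  -- the radius
  have h1 : e.target ∩ e.symm ⁻¹' W ∈ 𝓝 c :=
    inter_mem (e.open_target.mem_nhds hc) ((e.continuousAt_symm hc) hW)
  obtain ⟨R, hR, hRs⟩ := nhds_basis_closedBall.mem_iff.1 h1
  have hK : IsCompact (closedBall c R) := isCompact_closedBall c R
  have hKt : closedBall c R ⊆ e.target := fun y hy => (hRs hy).1
  have hKW : e.symm '' closedBall c R ⊆ W := by
    rintro _ ⟨y, hy, rfl⟩
    exact (hRs hy).2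
  obtain ⟨T, δ, hδ0, hTs, hTid, hT0, hTin, hex⟩ := exists_affT c hR
  have hex2 : ∀ v : E × (E →L[ℝ] E), ∃ ψ : Diffeomorph 𝓘(ℝ, E) 𝓘(ℝ, E) M M ∞,
      (‖v‖ < δ → ∀ x, ψ x = glue e (T v) x) ∧ (¬ ‖v‖ < δ → ∀ x, ψ x = x) := by
    intro v
    by_cases hv : ‖v‖ < δ
    · obtain ⟨τ, hτ, h2, h3⟩ := hex v hv
      obtain ⟨ψ, hψ⟩ := exists_glue_diffeo he hK hKt h2 h3 (fun y hy => by
        rw [hτ]; exact hTid v y hy)
      refine ⟨ψ, fun _ x => ?_, fun h => absurd hv h⟩
      rw [hψ]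
      have : (τ : E → E) = T v := funext hτ
      rw [this]
    · exact ⟨Diffeomorph.refl _ _ _, fun h => absurd h hv, fun _ x => rfl⟩
  choose Ψ hΨ1 hΨ2 using hex2
  have hev : ∀ᶠ v in 𝓝 (0 : E × (E →L[ℝ] E)), ‖v‖ < δ := by
    filter_upwards [ball_mem_nhds (0 : E × (E →L[ℝ] E)) hδ0] with v hv
    simpa using hv
  have hTt : ∀ v : E × (E →L[ℝ] E), ‖v‖ < δ → ∀ y ∈ e.target, T v y ∈ e.target := by
    intro v hv y hy
    by_cases h : y ∈ closedBall c R
    · obtain ⟨τ, hτ, -, -⟩ := hex v hv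
      have : MapsTo τ (closedBall c R) (closedBall c R) :=
        mapsTo_of_eq_self τ.injective (fun y hy => by rw [hτ]; exact hTid v y hy)
      have h2 := this h
      rw [hτ] at h2
      exact hKt h2
    · rwa [hTid v y h]
  refine ⟨⟨Ψ, ?_, ?_⟩, R / 2, by positivity, ?_, ?_, ?_, ?_⟩
  · intro x
    rw [hΨ1 0 (by simpa using hδ0) x]
    by_cases hx : x ∈ e.source
    · rw [glue_of_mem e _ hx, hT0, e.left_inv hx]
    · exact glue_of_not_mem e _ hx
  · filter_upwards [hev] with v hv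
    intro x
    have h2 := glue_contMDiffAt he hK hKt (T := T) (v₀ := v)
      (Eventually.of_forall fun w => hTid w) (hTt v hv)
      (fun y => hTs.contDiffAt) x
    refine h2.congr_of_eventuallyEq ?_
    have h3 : ∀ᶠ p : (E × (E →L[ℝ] E)) × M in 𝓝 (v, x), ‖p.1‖ < δ :=
      (continuous_fst.norm.continuousAt (x := (v, x))).eventually (Iio_mem_nhds hv)
    filter_upwards [h3] with p hp
    exact hΨ1 _ hp _
  · exact (closedBall_subset_closedBall (by linarith)).trans hKt
  · exact (image_mono (closedBall_subset_closedBall (by linarith))).trans hKW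
  · intro v x hx
    by_cases hv : ‖v‖ < δ
    · change Ψ v x = x
      rw [hΨ1 v hv]
      exact glue_eq_self e (hTid v) (fun h => hx (hKW h))
    · exact hΨ2 v hv x
  · filter_upwards [hev] with v hv
    intro y hy
    have hyK : y ∈ closedBall c R := closedBall_subset_closedBall (by linarith) hy
    have hyt : y ∈ e.target := hKt hyK
    have hTy : T v y = y + (v.1 + v.2 (y - c)) := hTin v y hy
    refine ⟨?_, ?_⟩
    · change Ψ v (e.symm y) = _
      rw [hΨ1 v hv, glue_of_mem e _ (e.map_target hyt), e.right_inv hyt, hTy]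
    · rw [← hTy]
      exact hTt v hv y hyt

end OmSt
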