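import Pool.Agent.OmSt.LinAlg3

/-!
# Bifurcation of cycles from a non hyperbolic fixed point
-/

open Set Filter Topology Metric

set_option linter.unusedSectionVars false

namespace OmSt

variable {X : Type*} [NormedAddCommGroup X] [NormedSpace ℝ X]
  {Y : Type*} [NormedAddCommGroup Y] [NormedSpace ℝ Y]
  {Z : Type*} [NormedAddCommGroup Z] [NormedSpace ℝ Z]

/-- Locally uniform `C¹` convergence, as the parameter tends to `0` from the right. -/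
def C1Lim (Φ : ℝ → X → Y) (Φ₀ : X → Y) (Φ₀' : X → X →L[ℝ] Y) : Prop :=
  ∀ x₀, Tendsto (fun p : ℝ × X => Φ p.1 p.2) (𝓝[>] 0 ×ˢ 𝓝 x₀) (𝓝 (Φ₀ x₀)) ∧
    (∀ᶠ p : ℝ × X in 𝓝[>] 0 ×ˢ 𝓝 x₀, DifferentiableAt ℝ (Φ p.1) p.2) ∧
    Tendsto (fun p : ℝ × X => fderiv ℝ (Φ p.1) p.2) (𝓝[>] 0 ×ˢ 𝓝 x₀) (𝓝 (Φ₀' x₀))

theorem C1Lim.comp {Φ : ℝ → X → Y} {Φ₀ : X → Y} {Φ₀' : X → X →L[ℝ] Y} (h : C1Lim Φ Φ₀ Φ₀')
    {Ψ : ℝ → Y → Z} {Ψ₀ : Y → Z} {Ψ₀' : Y → Y →L[ℝ] Z} (h' : C1Lim Ψ Ψ₀ Ψ₀') :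
    C1Lim (fun δ x => Ψ δ (Φ δ x)) (fun x => Ψ₀ (Φ₀ x))
      (fun x => (Ψ₀' (Φ₀ x)).comp (Φ₀' x)) := by
  intro x₀
  obtain ⟨a1, a2, a3⟩ := h x₀
  obtain ⟨b1, b2, b3⟩ := h' (Φ₀ x₀)
  have ht : Tendsto (fun p : ℝ × X => (p.1, Φ p.1 p.2)) (𝓝[>] 0 ×ˢ 𝓝 x₀)
      (𝓝[>] 0 ×ˢ 𝓝 (Φ₀ x₀)) := tendsto_fst.prodMk a1
  refine ⟨b1.comp ht, ?_, ?_⟩
  · filter_upwards [a2, ht.eventually b2] with p hp hp'
    exact DifferentiableAt.comp p.2 hp' hp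
  · have h1 : Tendsto (fun p : ℝ × X => (fderiv ℝ (Ψ p.1) (Φ p.1 p.2)).comp
        (fderiv ℝ (Φ p.1) p.2)) (𝓝[>] 0 ×ˢ 𝓝 x₀) (𝓝 ((Ψ₀' (Φ₀ x₀)).comp (Φ₀' x₀))) := by
      have hc : Continuous (fun q : (Y →L[ℝ] Z) × (X →L[ℝ] Y) => q.1.comp q.2) :=
        isBoundedBilinearMap_comp.continuous
      exact (hc.tendsto _).comp ((b3.comp ht).prodMk_nhds a3)
    refine h1.congr' ?_
    filter_upwards [a2, ht.eventually b2] with p hp hp'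
    exact (fderiv_comp (x := p.2) hp' hp).symm

theorem C1Lim.prodMk {Φ : ℝ → X → Y} {Φ₀ : X → Y} {Φ₀' : X → X →L[ℝ] Y} (h : C1Lim Φ Φ₀ Φ₀')
    {Ψ : ℝ → X → Z} {Ψ₀ : X → Z} {Ψ₀' : X → X →L[ℝ] Z} (h' : C1Lim Ψ Ψ₀ Ψ₀') :
    C1Lim (fun δ x => (Φ δ x, Ψ δ x)) (fun x => (Φ₀ x, Ψ₀ x))
      (fun x => (Φ₀' x).prod (Ψ₀' x)) := by
  intro x₀
  obtain ⟨a1, a2, a3⟩ := h x₀
  obtain ⟨b1, b2, b3⟩ := h' x₀
  refine ⟨a1.prodMk_nhds b1, ?_, ?_⟩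
  · filter_upwards [a2, b2] with p hp hp'
    exact DifferentiableAt.prodMk hp hp'
  · have h1 : Tendsto (fun p : ℝ × X => (fderiv ℝ (Φ p.1) p.2).prod
        (fderiv ℝ (Ψ p.1) p.2)) (𝓝[>] 0 ×ˢ 𝓝 x₀) (𝓝 ((Φ₀' x₀).prod (Ψ₀' x₀))) := by
      have := (ContinuousLinearMap.prodₗᵢ ℝ : (X →L[ℝ] Y) × (X →L[ℝ] Z) ≃ₗᵢ[ℝ]
        (X →L[ℝ] Y × Z)).continuous.tendsto (Φ₀' x₀, Ψ₀' x₀)
      exact this.comp (a3.prodMk_nhds b3)
    refine h1.congr' ?_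
    filter_upwards [a2, b2] with p hp hp'
    exact (DifferentiableAt.fderiv_prodMk hp hp').symm

theorem C1Lim.of_contDiff {h : X → Y} (hh : ContDiff ℝ 1 h) :
    C1Lim (fun _ => h) h (fderiv ℝ h) := by
  intro x₀
  refine ⟨?_, ?_, ?_⟩
  · exact (hh.continuous.tendsto x₀).comp tendsto_snd
  · exact Eventually.of_forall fun p => hh.differentiable (by simp) p.2
  · exact ((hh.continuous_fderiv (by simp)).tendsto x₀).comp tendsto_snd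

/-- The derivative of an iterate. -/
noncomputable def iterD (Γ₀ : X → X) (Γ₀' : X → X →L[ℝ] X) : ℕ → X → X →L[ℝ] X
  | 0, _ => ContinuousLinearMap.id ℝ X
  | k + 1, x => (Γ₀' (Γ₀^[k] x)).comp (iterD Γ₀ Γ₀' k x)

theorem C1Lim.iterate {Γ : ℝ → X → X} {Γ₀ : X → X} {Γ₀' : X → X →L[ℝ] X} (h : C1Lim Γ Γ₀ Γ₀')
    (k : ℕ) : C1Lim (fun δ => (Γ δ)^[k]) (Γ₀^[k]) (iterD Γ₀ Γ₀' k) := by
  induction k with
  | zero =>
    have := C1Lim.of_contDiff (contDiff_id : ContDiff ℝ 1 (id : X → X))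
    intro x₀
    have h1 := this x₀
    refine ⟨h1.1, h1.2.1, ?_⟩
    change Tendsto (fun p : ℝ × X => fderiv ℝ (id : X → X) p.2) _
      (𝓝 (ContinuousLinearMap.id ℝ X))
    simp only [fderiv_id]
    exact tendsto_const_nhds
  | succ k ih =>
    have h1 := ih.comp h
    intro x₀
    have h2 := h1 x₀
    simp only [Function.iterate_succ']
    exact h2

/-- Zeros of maps which are `C¹` close to a map with a surjective derivative. -/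
theorem C1Lim.exists_zero [CompleteSpace X] [CompleteSpace Y] {Φ : ℝ → X → Y} {Φ₀ : X → Y}
    {Φ₀' : X → X →L[ℝ] Y} (h : C1Lim Φ Φ₀ Φ₀') {x₀ : X} (h0 : Φ₀ x₀ = 0)
    (hs : Function.Surjective (Φ₀' x₀)) : ∃ᶠ p in 𝓝[>] (0 : ℝ) ×ˢ 𝓝 x₀, Φ p.1 p.2 = 0 := by
  obtain ⟨a1, a2, a3⟩ := h x₀
  rw [h0] at a1
  set Λ := Φ₀' x₀ with hΛ
  have hrange : Λ.range = ⊤ := LinearMap.range_eq_top.2 hs
  set R := Λ.nonlinearRightInverseOfSurjective hrange with hR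
  have hRpos : 0 < R.nnnorm := Λ.nonlinearRightInverseOfSurjective_nnnorm_pos hrange
  set κ : NNReal := R.nnnorm⁻¹ / 2 with hκ
  have hκpos : 0 < κ := by positivity
  rw [Filter.frequently_iff]
  intro S hS
  have h1 : ∀ᶠ p : ℝ × X in 𝓝[>] 0 ×ˢ 𝓝 x₀, DifferentiableAt ℝ (Φ p.1) p.2 ∧
      ‖fderiv ℝ (Φ p.1) p.2 - Λ‖ ≤ κ ∧ p ∈ S := by
    have h2 : ∀ᶠ p : ℝ × X in 𝓝[>] 0 ×ˢ 𝓝 x₀, ‖fderiv ℝ (Φ p.1) p.2 - Λ‖ ≤ κ := by
      have h3 := (tendsto_iff_norm_sub_tendsto_zero.1 a3).eventually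
        (Iio_mem_nhds (by exact_mod_cast hκpos : (0 : ℝ) < κ))
      exact h3.mono fun p hp => le_of_lt hp
    exact a2.and (h2.and hS)
  obtain ⟨pa, ha, pb, hb, hab⟩ := Filter.eventually_prod_iff.1 h1
  obtain ⟨ε, hε, hεb⟩ := Metric.nhds_basis_closedBall.mem_iff.1 hb
  have h2 : ∀ᶠ δ in 𝓝[>] (0 : ℝ), ‖Φ δ x₀‖ < κ * ε := by
    have h3 : Tendsto (fun δ : ℝ => (δ, x₀)) (𝓝[>] 0) (𝓝[>] 0 ×ˢ 𝓝 x₀) :=
      tendsto_id.prodMk (tendsto_const_nhds)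
    have h4 := (a1.comp h3).norm
    rw [norm_zero] at h4
    exact h4.eventually (Iio_mem_nhds (by positivity))
  obtain ⟨δ, hδa, hδ2⟩ := (ha.and h2).exists
  have happ : ApproximatesLinearOn (Φ δ) Λ (closedBall x₀ ε) κ := by
    intro x hx y hy
    exact (convex_closedBall x₀ ε).norm_image_sub_le_of_norm_hasFDerivWithin_le'
      (f := Φ δ) (f' := fderiv ℝ (Φ δ))
      (fun z hz => ((hab hδa (hεb hz)).1).hasFDerivAt.hasFDerivWithinAt)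
      (fun z hz => (hab hδa (hεb hz)).2.1) hy hx
  have hsurj := happ.surjOn_closedBall_of_nonlinearRightInverse R hε.le subset_rfl
  have h0mem : (0 : Y) ∈ closedBall (Φ δ x₀) (((R.nnnorm : ℝ)⁻¹ - κ) * ε) := by
    rw [mem_closedBall, dist_comm, dist_zero_right]
    have e1 : ((R.nnnorm : ℝ)⁻¹ - κ) = κ := by
      rw [hκ]
      push_cast
      ring
    rw [e1]
    exact hδ2.le
  obtain ⟨x, hx, hx0⟩ := hsurj h0mem
  exact ⟨(δ, x), (hab hδa (hεb hx)).2.2, hx0⟩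

variable {E : Type*} [NormedAddCommGroup E] [NormedSpace ℝ E]

/-- Rescaling of a map at a fixed point. -/
theorem C1Lim.rescale {F : E → E} (hF : ContDiffAt ℝ 1 F 0) (hF0 : F 0 = 0) :
    C1Lim (fun δ z => δ⁻¹ • F (δ • z)) (fun z => fderiv ℝ F 0 z) (fun _ => fderiv ℝ F 0) := by
  intro z₀
  set A := fderiv ℝ F 0 with hA
  have hsm : Tendsto (fun p : ℝ × E => p.1 • p.2) (𝓝[>] 0 ×ˢ 𝓝 z₀) (𝓝 0) := by
    have h1 : Tendsto (fun p : ℝ × E => p.1 • p.2) (𝓝 0 ×ˢ 𝓝 z₀) (𝓝 ((0 : ℝ) • z₀)) :=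
      tendsto_fst.smul tendsto_snd
    rw [zero_smul] at h1
    exact h1.mono_left (Filter.prod_mono nhdsWithin_le_nhds le_rfl)
  have hpos : ∀ᶠ p : ℝ × E in 𝓝[>] 0 ×ˢ 𝓝 z₀, 0 < p.1 :=
    (tendsto_fst.eventually self_mem_nhdsWithin)
  have hdiff : ∀ᶠ z in 𝓝 (0 : E), DifferentiableAt ℝ F z := by
    filter_upwards [hF.eventually (by simp)] with z hz
    exact hz.differentiableAt (by simp)
  have hfd : ∀ᶠ p : ℝ × E in 𝓝[>] 0 ×ˢ 𝓝 z₀, HasFDerivAt (fun z => p.1⁻¹ • F (p.1 • z))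
      (fderiv ℝ F (p.1 • p.2)) p.2 := by
    filter_upwards [hpos, hsm.eventually hdiff] with p hp hp'
    have h1 : HasFDerivAt (fun z : E => p.1 • z) (p.1 • ContinuousLinearMap.id ℝ E) p.2 :=
      (hasFDerivAt_id p.2).const_smul p.1
    have h2 := (hp'.hasFDerivAt.comp p.2 h1).const_smul p.1⁻¹
    refine h2.congr_fderiv ?_
    ext u
    simp [smul_smul, inv_mul_cancel₀ hp.ne']
  refine ⟨?_, ?_, ?_⟩
  · rw [Metric.tendsto_nhds]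
    intro ε hε
    set η : ℝ := ε / (2 * (‖z₀‖ + 1)) with hη
    have hηpos : 0 < η := by positivity
    have hlit := (hF.hasStrictFDerivAt (by simp)).hasFDerivAt.isLittleO
    have h1 := hlit.def hηpos
    have h2 : ∀ᶠ p : ℝ × E in 𝓝[>] 0 ×ˢ 𝓝 z₀, ‖p.2‖ < ‖z₀‖ + 1 :=
      tendsto_snd.eventually (continuous_norm.continuousAt.eventually
        (Iio_mem_nhds (by linarith)))
    have h3 : ∀ᶠ p : ℝ × E in 𝓝[>] 0 ×ˢ 𝓝 z₀, ‖A (p.2 - z₀)‖ < ε / 2 := by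
      have : Continuous (fun z => ‖A (z - z₀)‖) := by fun_prop
      refine tendsto_snd.eventually (this.continuousAt.eventually (Iio_mem_nhds ?_))
      simp only [sub_self, map_zero, norm_zero]
      positivity
    filter_upwards [hpos, hsm.eventually h1, h2, h3] with p hp hp1 hp2 hp3
    rw [hF0, sub_zero, sub_zero] at hp1
    rw [dist_eq_norm]
    have e1 : p.1⁻¹ • F (p.1 • p.2) - A z₀ = p.1⁻¹ • (F (p.1 • p.2) - A (p.1 • p.2)) +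
        A (p.2 - z₀) := by
      rw [smul_sub, map_smul, smul_smul, inv_mul_cancel₀ hp.ne', one_smul, map_sub]
      abel
    rw [e1]
    calc ‖p.1⁻¹ • (F (p.1 • p.2) - A (p.1 • p.2)) + A (p.2 - z₀)‖
        ≤ ‖p.1⁻¹ • (F (p.1 • p.2) - A (p.1 • p.2))‖ + ‖A (p.2 - z₀)‖ := norm_add_le _ _
      _ < η * (‖z₀‖ + 1) + ε / 2 := by
          refine add_lt_add_of_le_of_lt ?_ hp3
          rw [norm_smul, norm_inv, Real.norm_of_nonneg hp.le]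
          rw [norm_smul, Real.norm_of_nonneg hp.le] at hp1
          calc p.1⁻¹ * ‖F (p.1 • p.2) - A (p.1 • p.2)‖ ≤ p.1⁻¹ * (η * (p.1 * ‖p.2‖)) := by
                gcongr
            _ = η * ‖p.2‖ := by field_simp
            _ ≤ η * (‖z₀‖ + 1) := by gcongr
      _ = ε := by
          rw [hη]
          field_simp
          ring
  · exact hfd.mono fun p hp => hp.differentiableAt
  · have h1 : Tendsto (fun p : ℝ × E => fderiv ℝ F (p.1 • p.2)) (𝓝[>] 0 ×ˢ 𝓝 z₀) (𝓝 A) :=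
      (hF.continuousAt_fderiv (by simp)).tendsto.comp hsm
    refine h1.congr' ?_
    exact hfd.mono fun p hp => hp.fderiv.symm

variable {𝕜 : Type*} [RCLike 𝕜]

/-- **Bifurcation of a cycle.** -/
theorem exists_cycle_of_nice [FiniteDimensional ℝ E] {F : E → E} (hF : ContDiffAt ℝ 1 F 0)
    (hF0 : F 0 = 0) {ι : 𝕜 →L[ℝ] E} {ω : 𝕜} {l : ℕ} (h : Nice (fderiv ℝ F 0) ι ω l) {ε : ℝ}
    (hε : 0 < ε) : ∃ (B : E →L[ℝ] E) (u : E), ‖B‖ < ε ∧ u ≠ 0 ∧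
      (∀ i ≤ l, ‖(fun z => F (z + B z))^[i] u‖ < ε) ∧ (fun z => F (z + B z))^[l] u = u := by
  obtain ⟨π, hπ⟩ : ∃ π : E →L[ℝ] 𝕜, ∀ ζ, π (ι ζ) = ζ := by
    obtain ⟨π, hπ⟩ := LinearMap.exists_leftInverse_of_injective (ι : 𝕜 →ₗ[ℝ] E)
      (LinearMap.ker_eq_bot.2 h.inj)
    exact ⟨LinearMap.toContinuousLinearMap π, fun ζ => congrArg (fun T : 𝕜 →ₗ[ℝ] 𝕜 => T ζ) hπ⟩
  set A := fderiv ℝ F 0 with hA
  -- the bilinear part
  set b : 𝕜 × E → E := fun p => p.2 + ι (p.1 * π p.2) with hb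
  have hbs : ContDiff ℝ 1 b := by
    refine contDiff_snd.add (ι.contDiff.comp ?_)
    exact contDiff_fst.mul (π.contDiff.comp contDiff_snd)
  have hbd : ∀ p : 𝕜 × E, ∀ q : 𝕜 × E, fderiv ℝ b p q =
      q.2 + ι (p.1 * π q.2 + q.1 * π p.2) := by
    intro p q
    have h1 : HasFDerivAt (fun p : 𝕜 × E => p.1) (ContinuousLinearMap.fst ℝ 𝕜 E) p :=
      hasFDerivAt_fst
    have h2 : HasFDerivAt (fun p : 𝕜 × E => π p.2) (π.comp (ContinuousLinearMap.snd ℝ 𝕜 E)) p :=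
      π.hasFDerivAt.comp p hasFDerivAt_snd
    have h3 := (hasFDerivAt_snd (𝕜 := ℝ) (p := p)).add (ι.hasFDerivAt.comp p (h1.mul h2))
    have h4 : HasFDerivAt b _ p := h3
    rw [h4.fderiv]
    simp [smul_eq_mul, mul_comm]
  set Γ : ℝ → 𝕜 × E → 𝕜 × E := fun δ p => (p.1, δ⁻¹ • F (δ • b p)) with hΓ
  set Γ₀ : 𝕜 × E → 𝕜 × E := fun p => (p.1, A (b p)) with hΓ₀
  have hlim : C1Lim Γ Γ₀ (fun p => (fderiv ℝ (fun p : 𝕜 × E => p.1) p).prod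
      (A.comp (fderiv ℝ b p))) :=
    (C1Lim.of_contDiff contDiff_fst).prodMk ((C1Lim.of_contDiff hbs).comp (C1Lim.rescale hF hF0))
  set Γ₀' : 𝕜 × E → 𝕜 × E →L[ℝ] 𝕜 × E := fun p => (fderiv ℝ (fun p : 𝕜 × E => p.1) p).prod
      (A.comp (fderiv ℝ b p)) with hΓ₀'
  set x₀ : 𝕜 × E := (0, ι 1) with hx₀
  have horb : ∀ k : ℕ, Γ₀^[k] x₀ = (0, ι (ω ^ k)) := by
    intro k
    induction k with
    | zero => simp [hx₀]
    | succ k ih =>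
      rw [Function.iterate_succ_apply', ih]
      simp only [hΓ₀, hb, zero_mul, map_zero, add_zero, h.eig, pow_succ']
  have hD : ∀ (k : ℕ) (q : 𝕜 × E), iterD Γ₀ Γ₀' k x₀ q =
      (q.1, (A ^ k) q.2 + k • ι (q.1 * ω ^ k)) := by
    intro k
    induction k with
    | zero => intro q; simp [iterD]
    | succ k ih =>
      intro q
      have e1 : iterD Γ₀ Γ₀' (k + 1) x₀ q = Γ₀' (Γ₀^[k] x₀) (iterD Γ₀ Γ₀' k x₀ q) := rfl
      rw [e1, ih, horb]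
      have e2 : ∀ p q : 𝕜 × E, Γ₀' p q = (q.1, A (fderiv ℝ b p q)) := by
        intro p q
        simp only [hΓ₀', ContinuousLinearMap.prod_apply, ContinuousLinearMap.comp_apply,
          fderiv_fst]
        rfl
      rw [e2, hbd]
      simp only [zero_mul, zero_add, hπ, map_add, map_nsmul, h.eig]
      have e3 : (A ^ (k + 1)) q.2 = A ((A ^ k) q.2) := by rw [pow_succ']; rfl
      have e4 : ω * (q.1 * ω ^ k) = q.1 * ω ^ (k + 1) := by ring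
      rw [e3, e4, add_smul, one_smul, add_assoc]
  set Θ : ℝ → 𝕜 × E → E := fun δ p => ((Γ δ)^[l] p).2 - p.2 with hΘ
  have hsub : ContDiff ℝ 1 (fun q : (𝕜 × E) × (𝕜 × E) => q.1.2 - q.2.2) := by fun_prop
  have hΘlim := ((hlim.iterate l).prodMk (C1Lim.of_contDiff contDiff_id)).comp
    (C1Lim.of_contDiff hsub)
  have hsubd : ∀ q q', fderiv ℝ (fun q : (𝕜 × E) × (𝕜 × E) => q.1.2 - q.2.2) q q' =
      q'.1.2 - q'.2.2 := by
    intro q q'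
    set Lm : (𝕜 × E) × (𝕜 × E) →L[ℝ] E :=
      (ContinuousLinearMap.snd ℝ 𝕜 E).comp (ContinuousLinearMap.fst ℝ (𝕜 × E) (𝕜 × E)) -
      (ContinuousLinearMap.snd ℝ 𝕜 E).comp (ContinuousLinearMap.snd ℝ (𝕜 × E) (𝕜 × E)) with hLm
    have : (fun q : (𝕜 × E) × (𝕜 × E) => q.1.2 - q.2.2) = Lm := by
      funext q
      simp [hLm]
    rw [this, Lm.fderiv]
    simp [hLm]
  have hfreq := hΘlim.exists_zero (x₀ := x₀) (by
      change (Γ₀^[l] x₀).2 - x₀.2 = 0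
      rw [horb, h.root, hx₀, sub_self]) (by
    intro w
    obtain ⟨z, ζ, hz⟩ := h.surj w
    refine ⟨((l : 𝕜)⁻¹ * ζ, z), ?_⟩
    have hl0 : (l : 𝕜) ≠ 0 := by exact_mod_cast h.hl.ne'
    change fderiv ℝ (fun q : (𝕜 × E) × (𝕜 × E) => q.1.2 - q.2.2) (Γ₀^[l] x₀, id x₀)
      (iterD Γ₀ Γ₀' l x₀ ((l : 𝕜)⁻¹ * ζ, z), fderiv ℝ id x₀ ((l : 𝕜)⁻¹ * ζ, z)) = w
    rw [hsubd, hD, fderiv_id]
    change ((A ^ l) z + l • ι ((l : 𝕜)⁻¹ * ζ * ω ^ l)) - z = w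
    rw [h.root, mul_one, ← map_nsmul, nsmul_eq_mul, ← mul_assoc, mul_inv_cancel₀ hl0, one_mul,
      ← hz]
    abel)
  -- conditions on the solution
  have hι1 : ι (1 : 𝕜) ≠ 0 := by
    intro h0
    have : (1 : 𝕜) = 0 := h.inj (by rw [h0, map_zero])
    exact one_ne_zero this
  have hc1 : ∀ᶠ p : ℝ × (𝕜 × E) in 𝓝[>] 0 ×ˢ 𝓝 x₀, 0 < p.1 :=
    tendsto_fst.eventually self_mem_nhdsWithin
  have hc2 : ∀ᶠ p : ℝ × (𝕜 × E) in 𝓝[>] 0 ×ˢ 𝓝 x₀,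
      ‖ι.comp ((ContinuousLinearMap.mul ℝ 𝕜 p.2.1).comp π)‖ < ε := by
    have : Continuous (fun q : 𝕜 × E => ‖ι.comp ((ContinuousLinearMap.mul ℝ 𝕜 q.1).comp π)‖) := by
      fun_prop
    refine tendsto_snd.eventually (this.continuousAt.eventually (Iio_mem_nhds ?_))
    simp only [hx₀, map_zero, ContinuousLinearMap.zero_comp, ContinuousLinearMap.comp_zero,
      norm_zero]
    exact hε
  have hc3 : ∀ᶠ p : ℝ × (𝕜 × E) in 𝓝[>] 0 ×ˢ 𝓝 x₀, p.2.2 ≠ 0 := by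
    have : Continuous (fun q : 𝕜 × E => q.2) := continuous_snd
    exact tendsto_snd.eventually (this.continuousAt.eventually_ne hι1)
  have hc4 : ∀ᶠ p : ℝ × (𝕜 × E) in 𝓝[>] 0 ×ˢ 𝓝 x₀, ∀ i ∈ Set.Iic l,
      ‖p.1 • ((Γ p.1)^[i] p.2).2‖ < ε := by
    rw [eventually_all_finite (Set.finite_Iic l)]
    intro i _
    have h1 := (hlim.iterate i x₀).1
    have h2 : Tendsto (fun p : ℝ × (𝕜 × E) => p.1) (𝓝[>] 0 ×ˢ 𝓝 x₀) (𝓝 0) :=
      (tendsto_fst).mono_right nhdsWithin_le_nhds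
    have h3 : Tendsto (fun p : ℝ × (𝕜 × E) => ((Γ p.1)^[i] p.2).2) (𝓝[>] 0 ×ˢ 𝓝 x₀)
        (𝓝 (Γ₀^[i] x₀).2) := (continuous_snd.tendsto _).comp h1
    have h4 := (h2.smul h3).norm
    rw [zero_smul, norm_zero] at h4
    exact h4.eventually (Iio_mem_nhds hε)
  obtain ⟨⟨δ, c, u⟩, h0, h1, h2, h3, h4⟩ :=
    (hfreq.and_eventually (hc1.and (hc2.and (hc3.and hc4)))).exists
  simp only at h0 h1 h2 h3 h4
  set B : E →L[ℝ] E := ι.comp ((ContinuousLinearMap.mul ℝ 𝕜 c).comp π) with hB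
  have hit : ∀ i : ℕ, (Γ δ)^[i] (c, u) = (c, δ⁻¹ • (fun z => F (z + B z))^[i] (δ • u)) := by
    intro i
    induction i with
    | zero =>
      simp only [Function.iterate_zero, id, smul_smul, inv_mul_cancel₀ h1.ne', one_smul]
    | succ i ih =>
      rw [Function.iterate_succ_apply', ih, Function.iterate_succ_apply']
      simp only [hΓ, hb]
      congr 3
      rw [smul_add, smul_smul, mul_inv_cancel₀ h1.ne', one_smul]
      congr 1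
      change δ • ι (c * π (δ⁻¹ • _)) = ι (c * π _)
      rw [← map_smul ι, map_smul π]
      congr 1
      rw [mul_smul_comm, smul_smul, mul_inv_cancel₀ h1.ne', one_smul]
  refine ⟨B, δ • u, h2, ?_, fun i hi => ?_, ?_⟩
  · rw [smul_ne_zero_iff]
    exact ⟨h1.ne', h3⟩
  · have h5 := h4 i hi
    rw [hit] at h5
    simp only [smul_smul, mul_inv_cancel₀ h1.ne', one_smul] at h5
    exact h5
  · rw [hit] at h0
    simp only [id] at h0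
    have h6 := sub_eq_zero.1 h0
    calc (fun z => F (z + B z))^[l] (δ • u)
        = δ • (δ⁻¹ • (fun z => F (z + B z))^[l] (δ • u)) := by
          rw [smul_smul, mul_inv_cancel₀ h1.ne', one_smul]
      _ = δ • u := by rw [h6]

end OmSt
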