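import Pool.Agent.OmSt.Finite
import Pool.Agent.OmSt.Bif

/-!
# Hyperbolicity of the periodic points
-/

open Set Filter Topology Manifold ContDiff Metric

set_option linter.unusedSectionVars false

namespace OmSt

variable {E : Type*} [NormedAddCommGroup E] [NormedSpace ℝ E]
  {M : Type*} [TopologicalSpace M] [ChartedSpace E M]
  {V : Type*} [NormedAddCommGroup V] [NormedSpace ℝ V] {r : ℕ∞}

/-- If the perturbing map fixes the orbit of `x`, the orbit does not change. -/
theorem iterate_pert_eq {g : Dyn E M r} {ψ : Diffeomorph 𝓘(ℝ, E) 𝓘(ℝ, E) M M ∞} {x : M} {n : ℕ}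
    (h : ∀ k < n, ψ (g^[k] x) = g^[k] x) : (pert g ψ)^[n] x = g^[n] x := by
  induction n with
  | zero => rfl
  | succ n ih =>
    rw [Function.iterate_succ_apply', Function.iterate_succ_apply', ih fun k hk => h k (by omega),
      pert_apply, h n (by omega)]

variable [IsManifold 𝓘(ℝ, E) ∞ M]

theorem contDiffAt_chart_iterate {g : Dyn E M r} (hr : 1 ≤ r) {e e' : OpenPartialHomeomorph M E}
    (he : e ∈ IsManifold.maximalAtlas 𝓘(ℝ, E) ∞ M)
    (he' : e' ∈ IsManifold.maximalAtlas 𝓘(ℝ, E) ∞ M) (m : ℕ) {z : E} (hz : z ∈ e.target)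
    (hgz : g^[m] (e.symm z) ∈ e'.source) :
    ContDiffAt ℝ 1 (fun z => e' (g^[m] (e.symm z))) z := by
  have h1 := contDiffAt_chart (V := ℝ) (v := 0) (G := fun p : ℝ × M => g^[m] p.2) (z := z)
    (n := 1) he he' (contMDiffAt_comp_snd
      ((contMDiff_iterate (Dyn.contMDiff_one g hr) m).contMDiffAt) 0) hz hgz
  exact h1.comp z (contDiffAt_const.prodMk contDiffAt_id)

/-- There is no periodic point with a nice non hyperbolic derivative. -/
theorem Stab.not_nice [FiniteDimensional ℝ E] [CompactSpace M] [T2Space M]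
    {N : Set (Dyn E M r)} (hN : Stab N) (hr : 1 ≤ r) {g : Dyn E M r} (hg : g ∈ N) {p : M} {m : ℕ}
    (hm : 0 < m) (hp : g^[m] p = p) (hmin : ∀ k, 0 < k → k < m → g^[k] p ≠ p)
    {𝕜 : Type*} [RCLike 𝕜] {ι : 𝕜 →L[ℝ] E} {τ : 𝕜} {l : ℕ}
    (h : Nice (fderiv ℝ (fun z => (chartAt E p) (g^[m] ((chartAt E p).symm z))) (chartAt E p p))
      ι τ l) : False := by
  set e := chartAt E p with he
  have hmax : e ∈ IsManifold.maximalAtlas 𝓘(ℝ, E) ∞ M := IsManifold.chart_mem_maximalAtlas p
  have hpe : p ∈ e.source := mem_chart_source E p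
  set c := e p with hc
  have hct : c ∈ e.target := e.map_source hpe
  have hcp : e.symm c = p := e.left_inv hpe
  have hl := h.hl
  have hml : 0 < m * l := Nat.mul_pos hm hl
  have hfin := hN.fix_finite hr (m * l) hml g hg
  have hpl : g^[m * l] p = p := by
    have h1 : Function.IsPeriodicPt g m p := hp
    exact h1.mul_const l
  -- the neighbourhood
  have hU : ({x | g^[m * l] x = x} \ {p})ᶜ ∈ 𝓝 p :=
    (hfin.subset diff_subset).isClosed.isOpen_compl.mem_nhds (fun h => h.2 rfl)
  obtain ⟨W, hW, hWc, hWU, hWk⟩ := exists_nhds_noreturn g.continuous hmin hU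
  obtain ⟨Ψ, ρ, hρ, hρt, hρW, hΨW, hΨ⟩ := exists_localFam hmax hct (W := W) (by rwa [hcp])
  -- the map in the chart
  set F : E → E := fun z => e (g^[m] (e.symm (c + z))) - c with hF
  have hsrc : g^[m] (e.symm c) ∈ e.source := by rw [hcp, hp]; exact hpe
  have hφ : ContDiffAt ℝ 1 (fun z => e (g^[m] (e.symm z))) c :=
    contDiffAt_chart_iterate hr hmax hmax m hct hsrc
  have hFs : ContDiffAt ℝ 1 F 0 := by
    have h1 : ContDiffAt ℝ 1 (fun z : E => c + z) 0 := contDiffAt_const.add contDiffAt_id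
    have h2 : ContDiffAt ℝ 1 (fun z => e (g^[m] (e.symm z))) (c + 0) := by rwa [add_zero]
    exact (h2.comp (0 : E) h1).sub contDiffAt_const
  have hF0 : F 0 = 0 := by
    simp only [hF, add_zero, hcp, hp]
    exact sub_self _
  have hFd : fderiv ℝ F 0 = fderiv ℝ (fun z => e (g^[m] (e.symm z))) c := by
    have h1 : HasFDerivAt (fun z => e (g^[m] (e.symm z)))
        (fderiv ℝ (fun z => e (g^[m] (e.symm z))) c) (c + 0) := by
      rw [add_zero]
      exact (hφ.differentiableAt (by simp)).hasFDerivAt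
    have h2 : HasFDerivAt (fun z : E => c + z) (ContinuousLinearMap.id ℝ E) 0 :=
      (hasFDerivAt_id (0 : E)).const_add c
    have h3 := (h1.comp (0 : E) h2).sub_const c
    rw [ContinuousLinearMap.comp_id] at h3
    exact h3.fderiv
  rw [← hFd] at h
  -- the size of the perturbation
  have hL : Tendsto (fun B : E →L[ℝ] E => ((0, B) : E × (E →L[ℝ] E))) (𝓝 0) (𝓝 0) := by
    have : Continuous (fun B : E →L[ℝ] E => ((0, B) : E × (E →L[ℝ] E))) := by fun_prop
    exact this.tendsto' _ _ rfl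
  have h1 := (hL.eventually (Ψ.eventually_mem g hN.isOpen hg)).and (hL.eventually hΨ)
  obtain ⟨ε₁, hε₁, hball⟩ := Metric.nhds_basis_ball.mem_iff.1 h1
  have h2 : ∀ᶠ z in 𝓝 (0 : E), g^[m] (e.symm (c + z)) ∈ e.source := by
    have h3 : ContinuousAt (fun z : E => g^[m] (e.symm (c + z))) 0 := by
      refine ((g.continuous.iterate m).continuousAt).comp ?_
      refine ContinuousAt.comp (g := e.symm) ?_ (by fun_prop)
      rw [add_zero]
      exact e.continuousAt_symm hct
    refine h3.eventually (e.open_source.mem_nhds ?_)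
    change g^[m] (e.symm (c + 0)) ∈ e.source
    rw [add_zero]
    exact hsrc
  obtain ⟨ε₂, hε₂, hball₂⟩ := Metric.nhds_basis_ball.mem_iff.1 h2
  have hεpos : 0 < min (min ε₁ (ε₂ / 2)) (min ρ 1) := by positivity
  obtain ⟨B, u, hB, hu, hui, hucyc⟩ := exists_cycle_of_nice hFs hF0 h hεpos
  have hB1 : ‖B‖ < ε₁ := hB.trans_le ((min_le_left _ _).trans (min_le_left _ _))
  have hB2 : ‖B‖ < 1 := hB.trans_le ((min_le_right _ _).trans (min_le_right _ _))
  obtain ⟨hgN, hform⟩ := hball (by simpa using hB1 : B ∈ ball (0 : E →L[ℝ] E) ε₁)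
  set g' := pert g (Ψ.toFun (0, B)) with hg'
  -- the extra fixed point
  have hstep : ∀ z : E, ‖z‖ < ρ → ‖z‖ < ε₂ / 2 →
      g'^[m] (e.symm (c + z)) = e.symm (c + F (z + B z)) := by
    intro z hz hz2
    have hzρ : c + z ∈ closedBall c ρ := by
      rw [mem_closedBall, dist_eq_norm, add_sub_cancel_left]
      exact hz.le
    rw [hg', iterate_pert (hΨW (0, B)) hWk (hρW ⟨c + z, hzρ, rfl⟩) hm le_rfl,
      (hform _ hzρ).1]
    have e1 : c + z + ((0, B).1 + (0, B).2 (c + z - c)) = c + (z + B z) := by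
      simp only [add_sub_cancel_left, zero_add]
      abel
    rw [e1]
    have h3 : ‖z + B z‖ < ε₂ := by
      calc ‖z + B z‖ ≤ ‖z‖ + ‖B z‖ := norm_add_le _ _
        _ ≤ ‖z‖ + ‖B‖ * ‖z‖ := by gcongr; exact B.le_opNorm z
        _ ≤ ‖z‖ + 1 * ‖z‖ := by gcongr
        _ < ε₂ := by linarith
    have h4 := hball₂ (by simpa using h3 : z + B z ∈ ball (0 : E) ε₂)
    have h4 : g^[m] (e.symm (c + (z + B z))) ∈ e.source := h4
    simp only [hF, add_sub_cancel]
    rw [e.left_inv h4]
  have hcyc : ∀ i ≤ l, g'^[m * i] (e.symm (c + u)) =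
      e.symm (c + (fun z => F (z + B z))^[i] u) := by
    intro i
    induction i with
    | zero => intro _; simp
    | succ i ih =>
      intro hi
      have hui' := hui i (by omega)
      rw [Function.iterate_succ_apply', mul_add, mul_one, add_comm, Function.iterate_add_apply,
        ih (by omega)]
      refine hstep _ (hui'.trans_le ((min_le_right _ _).trans (min_le_left _ _)))
        (hui'.trans_le ((min_le_left _ _).trans (min_le_right _ _)))
  have hxfix : g'^[m * l] (e.symm (c + u)) = e.symm (c + u) := by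
    rw [hcyc l le_rfl, hucyc]
  -- counting
  have hsub : {x | g^[m * l] x = x} ⊆ {x | g'^[m * l] x = x} := by
    intro x hx
    have hx : g^[m * l] x = x := hx
    change g'^[m * l] x = x
    rw [hg', iterate_pert_eq fun k _ => ?_, hx]
    by_cases hkW : g^[k] x ∈ W
    · have h5 : g^[m * l] (g^[k] x) = g^[k] x := by
        rw [← Function.iterate_add_apply, add_comm, Function.iterate_add_apply, hx]
      have h6 : g^[k] x = p := by
        by_contra hne
        exact hWU hkW ⟨h5, hne⟩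
      rw [h6]
      have h7 := (hform c (mem_closedBall_self hρ.le)).1
      simp only [sub_self, map_zero, add_zero, hcp] at h7
      exact h7
    · exact hΨW _ _ hkW
  have heq : {x | g^[m * l] x = x} = {x | g'^[m * l] x = x} := by
    refine hfin.eq_of_subset_of_encard_le hsub ?_
    exact (hN.encard_eq hgN hg (fun S => m * l ∈ S) (fun S hS => ⟨m * l, hml, hS⟩)).le
  have hxmem : e.symm (c + u) ∈ {x | g^[m * l] x = x} := by
    rw [heq]
    exact hxfix
  have huρ : ‖u‖ < ρ := by
    have := hui 0 (Nat.zero_le _)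
    exact this.trans_le ((min_le_right _ _).trans (min_le_left _ _))
  have hcu : c + u ∈ closedBall c ρ := by
    rw [mem_closedBall, dist_eq_norm, add_sub_cancel_left]
    exact huρ.le
  have hxW : e.symm (c + u) ∈ W := hρW ⟨c + u, hcu, rfl⟩
  have hxp : e.symm (c + u) = p := by
    by_contra hne
    exact hWU hxW ⟨hxmem, hne⟩
  have h8 : c + u = c := by
    have := e.right_inv (hρt hcu)
    rw [hxp] at this
    exact this.symm
  exact hu (by simpa using h8)

/-- No eigenvalue of modulus one. -/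
theorem Stab.not_eig [FiniteDimensional ℝ E] [CompactSpace M] [T2Space M]
    {N : Set (Dyn E M r)} (hN : Stab N) (hr : 1 ≤ r) {g : Dyn E M r} (hg : g ∈ N) {p : M} {m : ℕ}
    (hm : 0 < m) (hp : g^[m] p = p) (hmin : ∀ k, 0 < k → k < m → g^[k] p ≠ p)
    {𝕜 : Type*} [RCLike 𝕜] {ι : 𝕜 →L[ℝ] E} (hι : Function.Injective ι) {τ : 𝕜} (hτ : ‖τ‖ = 1)
    (hroot : ∀ U ∈ 𝓝 τ, ∃ τ' ∈ U, ∃ l > 0, τ' ^ l = 1)
    (hA : ∀ ζ, fderiv ℝ (fun z => (chartAt E p) (g^[m] ((chartAt E p).symm z))) (chartAt E p p)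
      (ι ζ) = ι (τ * ζ)) : False := by
  set e := chartAt E p with he
  have hmax : e ∈ IsManifold.maximalAtlas 𝓘(ℝ, E) ∞ M := IsManifold.chart_mem_maximalAtlas p
  have hpe : p ∈ e.source := mem_chart_source E p
  set c := e p with hc
  have hct : c ∈ e.target := e.map_source hpe
  have hcp : e.symm c = p := e.left_inv hpe
  obtain ⟨W, hW, hWc, hWU, hWk⟩ := exists_nhds_noreturn g.continuous hmin univ_mem
  obtain ⟨Ψ, ρ, hρ, hρt, hρW, hΨW, hΨ⟩ := exists_localFam hmax hct (W := W) (by rwa [hcp])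
  have hL : Tendsto (fun B : E →L[ℝ] E => ((0, B) : E × (E →L[ℝ] E))) (𝓝 0) (𝓝 0) := by
    have : Continuous (fun B : E →L[ℝ] E => ((0, B) : E × (E →L[ℝ] E))) := by fun_prop
    exact this.tendsto' _ _ rfl
  have h1 := (hL.eventually (Ψ.eventually_mem g hN.isOpen hg)).and (hL.eventually hΨ)
  obtain ⟨B, ⟨hB1, hform⟩, τ', l, hnice⟩ := exists_nice hι hτ hA hroot h1
  set g' := pert g (Ψ.toFun (0, B)) with hg'
  have hΨp : Ψ.toFun (0, B) p = p := by
    have h7 := (hform c (mem_closedBall_self hρ.le)).1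
    simp only [sub_self, map_zero, add_zero, hcp] at h7
    exact h7
  have horb : ∀ k < m, Ψ.toFun (0, B) (g^[k] p) = g^[k] p := by
    intro k hk
    rcases Nat.eq_zero_or_pos k with rfl | hk0
    · exact hΨp
    · exact hΨW _ _ (hWk k hk0 hk p (mem_of_mem_nhds hW))
  have hit : ∀ k ≤ m, g'^[k] p = g^[k] p := fun k hk =>
    iterate_pert_eq fun j hj => horb j (by omega)
  refine hN.not_nice hr hB1 hm ((hit m le_rfl).trans hp) (fun k hk hkm => ?_) (l := l) (ι := ι)
    (τ := τ') ?_
  · rw [hit k hkm.le]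
    exact hmin k hk hkm
  · have hsrc : g^[m] (e.symm c) ∈ e.source := by rw [hcp, hp]; exact hpe
    have hφ : ContDiffAt ℝ 1 (fun z => e (g^[m] (e.symm z))) c :=
      contDiffAt_chart_iterate hr hmax hmax m hct hsrc
    have hlin : HasFDerivAt (fun z => z + B (z - c)) (1 + B) c :=
      (hasFDerivAt_id (𝕜 := ℝ) c).add
        (B.hasFDerivAt.comp c ((hasFDerivAt_id (𝕜 := ℝ) c).sub_const c))
    have h2 : HasFDerivAt (fun z => e (g^[m] (e.symm z)))
        (fderiv ℝ (fun z => e (g^[m] (e.symm z))) c) (c + B (c - c)) := by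
      rw [sub_self, map_zero, add_zero]
      exact (hφ.differentiableAt (by simp)).hasFDerivAt
    have h3 := HasFDerivAt.comp (g := fun z => e (g^[m] (e.symm z)))
      (f := fun z => z + B (z - c)) c h2 hlin
    have h4 : (fun z => e (g'^[m] (e.symm z))) =ᶠ[𝓝 c]
        (fun z => e (g^[m] (e.symm z))) ∘ (fun z => z + B (z - c)) := by
      filter_upwards [closedBall_mem_nhds c hρ] with z hz
      rw [hg', iterate_pert (hΨW (0, B)) hWk (hρW ⟨z, hz, rfl⟩) hm le_rfl, (hform z hz).1]
      simp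
    have h5 := (h3.congr_of_eventuallyEq h4).fderiv
    rw [h5]
    exact hnice

/-- **Hyperbolicity of the periodic points.** -/
theorem Stab.isHyp [FiniteDimensional ℝ E] [CompactSpace M] [T2Space M]
    {N : Set (Dyn E M r)} (hN : Stab N) (hr : 1 ≤ r) {g : Dyn E M r} (hg : g ∈ N) {p : M} {m : ℕ}
    (hm : 0 < m) (hp : g^[m] p = p) : IsHyp (D g^[m] p : E →L[ℝ] E) := by
  -- reduction to the minimal period
  suffices key : ∀ m : ℕ, 0 < m → g^[m] p = p → (∀ k, 0 < k → k < m → g^[k] p ≠ p) →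
      IsHyp (D g^[m] p : E →L[ℝ] E) by
    have hper : Function.IsPeriodicPt g m p := hp
    obtain ⟨k, hk⟩ := hper.minimalPeriod_dvd
    have hmpos : 0 < Function.minimalPeriod g p := hper.minimalPeriod_pos hm
    have hkpos : 0 < k := Nat.pos_of_ne_zero fun h => by rw [h, mul_zero] at hk; omega
    have h1 : g^[Function.minimalPeriod g p] p = p :=
      Function.isPeriodicPt_minimalPeriod g p
    have h2 := key _ hmpos h1 (fun k hk hkm h =>
      Function.not_isPeriodicPt_of_pos_of_lt_minimalPeriod hk.ne' hkm h)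
    rw [hk, D_iterate_mul (Dyn.mdiff g hr) _ _ h1]
    exact h2.pow hkpos
  clear hp hm m
  intro m hm hp hmin
  obtain ⟨L, L', hL1, hL2, hL3⟩ := exists_chart_conj (E := E)
    (IsManifold.chart_mem_maximalAtlas (n := ∞) (I := 𝓘(ℝ, E)) p) (mem_chart_source E p)
  have hfd := (hL3 g^[m] (mdiff_iterate (Dyn.mdiff g hr) m p) hp).fderiv
  obtain ⟨hinv1, hinv2⟩ := Dyn.D_inv g hr m (x := p)
  set T : E →L[ℝ] E := D g^[m] p with hT
  set T' : E →L[ℝ] E := D g.symm^[m] (g^[m] p) with hT'
  have hm1 : ∀ A B : E →L[ℝ] E, (L * A * L') * (L * B * L') = L * (A * B) * L' := by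
    intro A B
    calc (L * A * L') * (L * B * L') = L * A * (L' * L) * B * L' := by simp only [mul_assoc]
      _ = L * (A * B) * L' := by rw [hL2, mul_one]; simp only [mul_assoc]
  have hA1 : (L * T * L') * (L * T' * L') = 1 := by rw [hm1, hinv2, mul_one, hL1]
  have hA2 : (L * T' * L') * (L * T * L') = 1 := by rw [hm1, hinv1, mul_one, hL1]
  rcases hyp_or hA1 hA2 with h | ⟨v, hv, σ, hσ, hTv⟩ | ⟨ι, hι, τ, hτ, hTι⟩
  · have h2 := h.conj hL2 hL1
    have e1 : L' * (L * T * L') * L = T := by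
      calc L' * (L * T * L') * L = (L' * L) * T * (L' * L) := by simp only [mul_assoc]
        _ = T := by rw [hL2, one_mul, mul_one]
    rwa [e1] at h2
  · exfalso
    refine hN.not_eig hr hg hm hp hmin (𝕜 := ℝ) (ι := ContinuousLinearMap.toSpanSingleton ℝ v)
      (fun a b hab => ?_) (τ := σ) hσ (root_real hσ) (fun ζ => ?_)
    · have hab' : a • v = b • v := hab
      exact smul_left_injective ℝ hv hab'
    · rw [hfd]
      change (L * T * L') (ζ • v) = (σ * ζ) • v
      rw [map_smul, hTv, smul_smul, mul_comm]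
  · exfalso
    refine hN.not_eig hr hg hm hp hmin (𝕜 := ℂ) (ι := LinearMap.toContinuousLinearMap ι)
      hι (τ := τ) hτ (root_complex hτ) (fun ζ => ?_)
    rw [hfd]
    exact hTι ζ

end OmSt
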