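import Pool.Agent.OmSt.Fam

/-!
# Smooth families of perturbations are continuous for the `C^r` topology
-/

open Set Filter Topology Manifold ContDiff Metric
open scoped NNReal

set_option linter.unusedSectionVars false

namespace OmSt

section Partial

variable {E : Type*} [NormedAddCommGroup E] [NormedSpace ℝ E]
  {F : Type*} [NormedAddCommGroup F] [NormedSpace ℝ F]
  {V : Type*} [NormedAddCommGroup V] [NormedSpace ℝ V]

theorem iteratedFDeriv_partial {f : V × E → F} {q : V × E} {k : ℕ} (h : ContDiffAt ℝ k f q)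
    {j : ℕ} (hj : j ≤ k) :
    iteratedFDeriv ℝ j (fun z => f (q.1, z)) q.2 =
      (iteratedFDeriv ℝ j f q).compContinuousLinearMap
        (fun _ => ContinuousLinearMap.inr ℝ V E) := by
  obtain ⟨u, hu, hqu, hf⟩ : ∃ u, IsOpen u ∧ q ∈ u ∧ ContDiffOn ℝ k f u := by
    have h' : ContDiffWithinAt ℝ k f univ q := h
    obtain ⟨u, h1, h2, h3⟩ := h'.contDiffOn' le_rfl (by simp)
    exact ⟨u, h1, h2, by simpa using h3⟩
  set a : V × E := (q.1, 0) with ha
  set f1 : V × E → F := fun w => f (a + w) with hf1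
  set s : Set (V × E) := (fun w => a + w) ⁻¹' u with hs
  have hso : IsOpen s := hu.preimage (continuous_const.add continuous_id)
  have hf1s : ContDiffOn ℝ k f1 s :=
    hf.comp (contDiff_const.add contDiff_id).contDiffOn (fun w hw => hw)
  set g : E →L[ℝ] V × E := ContinuousLinearMap.inr ℝ V E with hg
  have e1 : (fun z => f (q.1, z)) = f1 ∘ g := by
    funext z
    simp [f1, g, a]
  have hq : a + g q.2 = q := by simp [a, g]
  have hqs : g q.2 ∈ s := by
    change a + g q.2 ∈ u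
    rw [hq]
    exact hqu
  have hgso : IsOpen (g ⁻¹' s) := hso.preimage g.continuous
  have h1 := g.iteratedFDerivWithin_comp_right hf1s hso.uniqueDiffOn hgso.uniqueDiffOn hqs
    (i := j) (by exact_mod_cast hj)
  rw [iteratedFDerivWithin_of_isOpen j hgso hqs, iteratedFDerivWithin_of_isOpen j hso hqs] at h1
  rw [e1, h1]
  congr 1
  rw [hf1, iteratedFDeriv_comp_add_left, hq]

theorem continuousAt_iteratedFDeriv_partial {f : V × E → F} {p : V × E} {k : ℕ}
    (h : ContDiffAt ℝ k f p) {j : ℕ} (hj : j ≤ k) :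
    ContinuousAt (fun q : V × E => iteratedFDeriv ℝ j (fun z => f (q.1, z)) q.2) p := by
  have h1 : ContinuousAt (fun q => (iteratedFDeriv ℝ j f q).compContinuousLinearMap
        (fun _ => ContinuousLinearMap.inr ℝ V E)) p := by
    have h2 := h.continuousAt_iteratedFDeriv (k := j) (by exact_mod_cast hj)
    exact ((ContinuousMultilinearMap.compContinuousLinearMapL (𝕜 := ℝ) (F := F)
      (fun _ : Fin j => ContinuousLinearMap.inr ℝ V E)).continuous.continuousAt).comp h2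
  refine h1.congr ?_
  filter_upwards [h.eventually (by simp)] with q hq
  exact (iteratedFDeriv_partial hq hj).symm

end Partial

variable {E : Type*} [NormedAddCommGroup E] [NormedSpace ℝ E]
  {M : Type*} [TopologicalSpace M] [ChartedSpace E M]
  {V : Type*} [NormedAddCommGroup V] [NormedSpace ℝ V] {r : ℕ∞}

/-- The perturbed diffeomorphism `g ∘ ψ`. -/
noncomputable def pert (g : Dyn E M r) (ψ : Diffeomorph 𝓘(ℝ, E) 𝓘(ℝ, E) M M ∞) : Dyn E M r :=
  Diffeomorph.trans
    { toEquiv := ψ.toEquiv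
      contMDiff_toFun := ψ.contMDiff_toFun.of_le (by exact_mod_cast le_top)
      contMDiff_invFun := ψ.contMDiff_invFun.of_le (by exact_mod_cast le_top) } g

theorem pert_apply (g : Dyn E M r) (ψ : Diffeomorph 𝓘(ℝ, E) 𝓘(ℝ, E) M M ∞) (x : M) :
    pert g ψ x = g (ψ x) := rfl

theorem pert_zero (g : Dyn E M r) (Ψ : Fam E M V) : pert g (Ψ.toFun 0) = g := by
  ext x
  rw [pert_apply, Ψ.map_zero]

variable [IsManifold 𝓘(ℝ, E) ∞ M]

/-- The expression of a family in charts is smooth. -/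
theorem contDiffAt_chart {e e' : OpenPartialHomeomorph M E}
    (he : e ∈ IsManifold.maximalAtlas 𝓘(ℝ, E) ∞ M)
    (he' : e' ∈ IsManifold.maximalAtlas 𝓘(ℝ, E) ∞ M)
    {G : V × M → M} {v : V} {z : E} {n : ℕ∞}
    (hG : ContMDiffAt (𝓘(ℝ, V).prod 𝓘(ℝ, E)) 𝓘(ℝ, E) n G (v, e.symm z))
    (hz : z ∈ e.target) (hGz : G (v, e.symm z) ∈ e'.source) :
    ContDiffAt ℝ n (fun q : V × E => e' (G (q.1, e.symm q.2))) (v, z) := by
  have hn : ((n : ℕ∞) : WithTop ℕ∞) ≤ ∞ := by exact_mod_cast le_top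
  have h1 : ContMDiffAt (𝓘(ℝ, V).prod 𝓘(ℝ, E)) (𝓘(ℝ, V).prod 𝓘(ℝ, E)) n
      (fun q : V × E => (q.1, e.symm q.2)) (v, z) :=
    contMDiffAt_fst.prodMk
      (((contMDiffAt_symm_of_mem_maximalAtlas he hz).of_le hn).comp (v, z) contMDiffAt_snd)
  have h2 : ContMDiffAt 𝓘(ℝ, E) 𝓘(ℝ, E) n e' (G (v, e.symm z)) :=
    (contMDiffAt_of_mem_maximalAtlas he' hGz).of_le hn
  have h3 : ContMDiffAt (𝓘(ℝ, V).prod 𝓘(ℝ, E)) 𝓘(ℝ, E) n
      (e' ∘ G ∘ (fun q : V × E => (q.1, e.symm q.2))) (v, z) :=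
    ContMDiffAt.comp (v, z) h2 (ContMDiffAt.comp (v, z) hG h1)
  rw [← modelWithCornersSelf_prod, chartedSpaceSelf_prod] at h3
  exact h3.contDiffAt

/-- **Continuity of perturbations in the `C^r` topology.** -/
theorem Fam.eventually_mem (Ψ : Fam E M V) (g : Dyn E M r) {N : Set (Dyn E M r)}
    (hN : IsOpen[crTopology E M r] N) (hg : g ∈ N) :
    ∀ᶠ v in 𝓝 (0 : V), pert g (Ψ.toFun v) ∈ N := by
  have hcont : Tendsto (fun v => pert g (Ψ.toFun v)) (𝓝 (0 : V))
      (@nhds _ (crTopology E M r) g) := by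
    rw [TopologicalSpace.tendsto_nhds_generateFrom_iff]
    rintro S ⟨f, φ, ψ, K, k, ε, hφ, hψ, hK, hKφ, hfK, hk, hε, rfl⟩ ⟨hg1, hg2⟩
    have hkr : ((k : ℕ∞) : WithTop ℕ∞) ≤ (r : WithTop ℕ∞) := by exact_mod_cast hk
    have hloc : ∀ x ∈ K, ∀ᶠ p : V × M in 𝓝 (0, x), g (Ψ.toFun p.1 p.2) ∈ ψ.source ∧
        ∀ j ≤ k, ‖iteratedFDeriv ℝ j (ψ ∘ (pert g (Ψ.toFun p.1)) ∘ φ.symm) (φ p.2) -
          iteratedFDeriv ℝ j (ψ ∘ f ∘ φ.symm) (φ p.2)‖ < ε := by
      intro x hx
      have hxφ : x ∈ φ.source := hKφ hx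
      have hΨ : ContMDiffAt (𝓘(ℝ, V).prod 𝓘(ℝ, E)) 𝓘(ℝ, E) ∞
          (fun p : V × M => Ψ.toFun p.1 p.2) (0, x) := Ψ.smooth.self_of_nhds x
      have hG : ContMDiffAt (𝓘(ℝ, V).prod 𝓘(ℝ, E)) 𝓘(ℝ, E) r
          (fun p : V × M => g (Ψ.toFun p.1 p.2)) (0, x) :=
        ContMDiffAt.comp (0, x) (g := g) g.contMDiffAt (hΨ.of_le (by exact_mod_cast le_top))
      have hgx : g (Ψ.toFun 0 x) ∈ ψ.source := by
        rw [Ψ.map_zero]
        exact hg1 hx
      have hF : ContDiffAt ℝ r (fun q : V × E => ψ (g (Ψ.toFun q.1 (φ.symm q.2)))) (0, φ x) := by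
        refine contDiffAt_chart (G := fun p : V × M => g (Ψ.toFun p.1 p.2)) hφ hψ ?_
          (φ.map_source hxφ) ?_
        · rw [φ.left_inv hxφ]
          exact hG
        · rw [φ.left_inv hxφ]
          exact hgx
      have hf : ContDiffAt ℝ r (ψ ∘ f ∘ φ.symm) (φ x) := by
        have h0 := contDiffAt_chart (V := ℝ) (v := 0) (G := fun p : ℝ × M => f p.2) (z := φ x)
          (n := r) hφ hψ (f.contMDiff.contMDiffAt.comp _ contMDiffAt_snd) (φ.map_source hxφ) (by
            rw [φ.left_inv hxφ]; exact hfK hx)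
        exact h0.comp (φ x) (contDiffAt_const.prodMk contDiffAt_id)
      refine Filter.Eventually.and ?_ ?_
      · exact hG.continuousAt.eventually (ψ.open_source.mem_nhds hgx)
      · refine Eventually.mono ((eventually_all_finite (Set.finite_Iic k)).2 ?_)
          (fun p hp j hj => hp j (Set.mem_Iic.2 hj))
        intro j hj
        have hj : j ≤ k := Set.mem_Iic.1 hj
        have c1 : ContinuousAt (fun p : V × M => (p.1, φ p.2)) (0, x) :=
          continuousAt_fst.prodMk ((φ.continuousAt hxφ).comp continuousAt_snd)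
        have c2 := ContinuousAt.comp (x := ((0 : V), x)) (f := fun p : V × M => (p.1, φ p.2))
          (continuousAt_iteratedFDeriv_partial (hF.of_le hkr) hj) c1
        have c3 : ContinuousAt (fun p : V × M => iteratedFDeriv ℝ j (ψ ∘ f ∘ φ.symm) (φ p.2))
            (0, x) := by
          have := (hf.of_le hkr).continuousAt_iteratedFDeriv (k := j) (by exact_mod_cast hj)
          exact ContinuousAt.comp (g := iteratedFDeriv ℝ j (ψ ∘ f ∘ φ.symm))
            (f := fun p : V × M => φ p.2) (x := ((0 : V), x)) this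
            ((φ.continuousAt hxφ).comp continuousAt_snd)
        have c4 := (c2.sub c3).norm
        refine c4.eventually (Iio_mem_nhds ?_)
        have := hg2 x hx j hj
        have e0 : (fun z => ψ (g (Ψ.toFun 0 (φ.symm z)))) = ψ ∘ g ∘ φ.symm := by
          funext z
          simp only [Ψ.map_zero, Function.comp]
        rw [← e0] at this
        exact this
    have hK2 := hK.eventually_forall_of_forall_eventually (x₀ := (0 : V))
      (P := fun v x => g (Ψ.toFun v x) ∈ ψ.source ∧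
        ∀ j ≤ k, ‖iteratedFDeriv ℝ j (ψ ∘ (pert g (Ψ.toFun v)) ∘ φ.symm) (φ x) -
          iteratedFDeriv ℝ j (ψ ∘ f ∘ φ.symm) (φ x)‖ < ε) hloc
    change ∀ᶠ v in 𝓝 (0 : V), pert g (Ψ.toFun v) ∈ crNhd f φ ψ K k ε
    filter_upwards [hK2] with v hv
    exact ⟨fun x hx => (hv x hx).1, fun x hx => (hv x hx).2⟩
  let := crTopology E M r
  exact hcont (hN.mem_nhds hg)

end OmSt
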