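import Pool.Agent.OmSt.Base2

/-!
# Families of perturbations which scale at finitely many points
-/

open Set Filter Topology Manifold ContDiff Metric

set_option linter.unusedSectionVars false

namespace OmSt

variable {E : Type*} [NormedAddCommGroup E] [NormedSpace ℝ E]
  {M : Type*} [TopologicalSpace M] [ChartedSpace E M]
  {V : Type*} [NormedAddCommGroup V] [NormedSpace ℝ V]
  {V' : Type*} [NormedAddCommGroup V'] [NormedSpace ℝ V'] {r : ℕ∞}

/-- Reparametrisation of a family. -/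
noncomputable def Fam.reparam (Ψ : Fam E M V) (L : V' →L[ℝ] V) : Fam E M V' where
  toFun v := Ψ.toFun (L v)
  map_zero x := by rw [_root_.map_zero, Ψ.map_zero]
  smooth := by
    have h1 : ∀ᶠ v in 𝓝 (0 : V'), ∀ x, ContMDiffAt (𝓘(ℝ, V).prod 𝓘(ℝ, E)) 𝓘(ℝ, E) ∞
        (fun p : V × M => Ψ.toFun p.1 p.2) (L v, x) := by
      have h2 : Tendsto L (𝓝 0) (𝓝 0) := by
        have := L.continuous.tendsto 0
        rwa [_root_.map_zero] at this
      exact h2.eventually Ψ.smooth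
    filter_upwards [h1] with v hv
    intro x
    have h3 : ContMDiffAt (𝓘(ℝ, V').prod 𝓘(ℝ, E)) (𝓘(ℝ, V).prod 𝓘(ℝ, E)) ∞
        (fun p : V' × M => (L p.1, p.2)) (v, x) :=
      (L.contMDiff.contMDiffAt.comp (v, x) contMDiffAt_fst).prodMk contMDiffAt_snd
    exact ContMDiffAt.comp (v, x) (g := fun p : V × M => Ψ.toFun p.1 p.2) (hv x) h3

theorem Fam.reparam_apply (Ψ : Fam E M V) (L : V' →L[ℝ] V) (v : V') (x : M) :
    (Ψ.reparam L).toFun v x = Ψ.toFun (L v) x := rfl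

/-- Composition of two families with the same parameter. -/
noncomputable def Fam.comp (Ψ₁ Ψ₂ : Fam E M V) : Fam E M V where
  toFun v := (Ψ₂.toFun v).trans (Ψ₁.toFun v)
  map_zero x := by
    change Ψ₁.toFun 0 (Ψ₂.toFun 0 x) = x
    rw [Ψ₂.map_zero, Ψ₁.map_zero]
  smooth := by
    filter_upwards [Ψ₁.smooth, Ψ₂.smooth] with v h1 h2
    intro x
    have h3 : ContMDiffAt (𝓘(ℝ, V).prod 𝓘(ℝ, E)) (𝓘(ℝ, V).prod 𝓘(ℝ, E)) ∞
        (fun p : V × M => (p.1, Ψ₂.toFun p.1 p.2)) (v, x) := contMDiffAt_fst.prodMk (h2 x)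
    exact ContMDiffAt.comp (v, x) (g := fun p : V × M => Ψ₁.toFun p.1 p.2) (h1 _) h3

theorem Fam.comp_apply (Ψ₁ Ψ₂ : Fam E M V) (v : V) (x : M) :
    (Ψ₁.comp Ψ₂).toFun v x = Ψ₁.toFun v (Ψ₂.toFun v x) := rfl

theorem D_congr {G H : M → M} {x : M} (h : G =ᶠ[𝓝 x] H) : (D G x : E →L[ℝ] E) = D H x :=
  h.mfderiv_eq

theorem D_eq_one {G : M → M} {x : M} (h : ∀ᶠ y in 𝓝 x, G y = y) :
    (D G x : E →L[ℝ] E) = 1 := by
  rw [D_congr (H := id) h]
  exact D_id x

theorem D_pert (g : Dyn E M r) (hr : 1 ≤ r) (ψ : Diffeomorph 𝓘(ℝ, E) 𝓘(ℝ, E) M M ∞) (x : M) :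
    (D (pert g ψ) x : E →L[ℝ] E) = (D g (ψ x) : E →L[ℝ] E) * D ψ x :=
  D_comp (G := g) (H := ψ) (Dyn.mdiff g hr _) (ψ.contMDiff.mdifferentiable (by simp) x)

theorem nd_scale [FiniteDimensional ℝ E] (A : E →L[ℝ] E) {m : ℕ} (hm : 0 < m) :
    ∀ᶠ s : ℝ in 𝓝[≠] 0, ND ((1 + s) ^ m • A) := by
  have hfin : {μ : ℝ | Module.End.HasEigenvalue (A : Module.End ℝ E) μ}.Finite :=
    Module.End.finite_hasEigenvalue _
  have h1 : ∀ a : ℝ, ∀ᶠ s : ℝ in 𝓝[≠] 0, (1 + s) ^ m * a ≠ 1 := by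
    intro a
    by_cases ha : a = 1
    · subst ha
      have h2 : ∀ᶠ s : ℝ in 𝓝[≠] 0, -1 < s :=
        Filter.Eventually.filter_mono nhdsWithin_le_nhds (Ioi_mem_nhds (by norm_num))
      filter_upwards [h2, self_mem_nhdsWithin] with s hs hs0 hs1
      rw [mul_one] at hs1
      have h3 := (pow_eq_one_iff_of_nonneg (by linarith : 0 ≤ 1 + s) hm.ne').1 hs1
      exact hs0 (by simpa using h3)
    · have h2 : ContinuousAt (fun s : ℝ => (1 + s) ^ m * a) 0 := by fun_prop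
      refine Filter.Eventually.filter_mono nhdsWithin_le_nhds (h2.eventually_ne ?_)
      simpa using ha
  have h2 := (eventually_all_finite hfin).2 (fun a _ => h1 a)
  have h3 : ∀ᶠ s : ℝ in 𝓝[≠] 0, -1 < s :=
    Filter.Eventually.filter_mono nhdsWithin_le_nhds (Ioi_mem_nhds (by norm_num))
  filter_upwards [h2, h3] with s hs hs3
  intro u hu
  by_contra hu0
  have h4 : (1 + s) ^ m ≠ 0 := (pow_pos (by linarith) m).ne'
  have hu' : (1 + s) ^ m • A u = u := hu
  have h5 : A u = ((1 + s) ^ m)⁻¹ • u := by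
    rw [← hu', smul_smul, inv_mul_cancel₀ h4, one_smul]
    congr 1
  have h6 : Module.End.HasEigenvalue (A : Module.End ℝ E) ((1 + s) ^ m)⁻¹ :=
    Module.End.hasEigenvalue_of_hasEigenvector ⟨Module.End.mem_eigenspace_iff.2 h5, hu0⟩
  exact hs _ h6 (mul_inv_cancel₀ h4)

variable [IsManifold 𝓘(ℝ, E) ∞ M]

/-- The derivative, at the centre, of the members of a local family. -/
theorem D_local {e : OpenPartialHomeomorph M E}
    (he : e ∈ IsManifold.maximalAtlas 𝓘(ℝ, E) ∞ M) {x : M} (hx : x ∈ e.source)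
    {ψ : Diffeomorph 𝓘(ℝ, E) 𝓘(ℝ, E) M M ∞} {B : E →L[ℝ] E} {ρ : ℝ} (hρ : 0 < ρ)
    (h : ∀ y ∈ closedBall (e x) ρ, ψ (e.symm y) = e.symm (y + B (y - e x)) ∧
        y + B (y - e x) ∈ e.target) :
    ψ x = x ∧ ∃ L L' : E →L[ℝ] E, L * L' = 1 ∧ L' * L = 1 ∧ (D ψ x : E →L[ℝ] E) = L' * (1 + B) * L ∧
      ∀ G : M → M, MDifferentiableAt 𝓘(ℝ, E) 𝓘(ℝ, E) G x → G x = x →
        HasFDerivAt (fun z => e (G (e.symm z))) (L * D G x * L') (e x) := by
  obtain ⟨L, L', h1, h2, h3⟩ := exists_chart_conj he hx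
  have hfix : ψ x = x := by
    have := (h (e x) (mem_closedBall_self hρ.le)).1
    rwa [sub_self, map_zero, add_zero, e.left_inv hx] at this
  have h4 := h3 ψ (ψ.contMDiff.mdifferentiable (by simp) x) hfix
  have h5 : HasFDerivAt (fun z => e (ψ (e.symm z))) (1 + B) (e x) := by
    have h6 : HasFDerivAt (fun z => z + B (z - e x)) (1 + B) (e x) := by
      have h7 := (hasFDerivAt_id (𝕜 := ℝ) (e x)).add
        (B.hasFDerivAt.comp (e x) ((hasFDerivAt_id (𝕜 := ℝ) (e x)).sub_const (e x)))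
      exact h7
    refine h6.congr_of_eventuallyEq ?_
    filter_upwards [closedBall_mem_nhds (e x) hρ] with y hy
    rw [(h y hy).1, e.right_inv (h y hy).2]
  have h6 := h4.unique h5
  refine ⟨hfix, L, L', h1, h2, ?_, h3⟩
  rw [← h6]
  calc (D ψ x : E →L[ℝ] E) = (L' * L) * D ψ x * (L' * L) := by rw [h2, one_mul, mul_one]
    _ = L' * (L * D ψ x * L') * L := by simp only [mul_assoc]

theorem exists_scaling [FiniteDimensional ℝ E] [CompactSpace M] [T2Space M] {P : Set M}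
    (hP : P.Finite) : ∀ C : Set M, IsClosed C → Disjoint P C →
    ∃ Ψ : Fam E M ℝ, (∀ s, ∀ x ∈ C, Ψ.toFun s x = x) ∧
      ∀ᶠ s in 𝓝 (0 : ℝ), ∀ p ∈ P, Ψ.toFun s p = p ∧
        (D (Ψ.toFun s) p : E →L[ℝ] E) = (1 + s) • (1 : E →L[ℝ] E) := by
  induction P, hP using Set.Finite.induction_on with
  | empty =>
    intro C _ _
    exact ⟨⟨fun _ => Diffeomorph.refl _ _ _, fun _ => rfl,
      Eventually.of_forall fun v x => contMDiffAt_snd⟩, fun _ _ _ => rfl, by simp⟩
  | @insert p P hpP hP ih =>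
    intro C hC hdisj
    have hpC : p ∉ C := fun h => hdisj.le_bot ⟨mem_insert _ _, h⟩
    have hPC : Disjoint P C := hdisj.mono_left (subset_insert _ _)
    -- a small neighbourhood of `p`
    have hcl : IsClosed (C ∪ P) := hC.union hP.isClosed
    have hnh : (C ∪ P)ᶜ ∈ 𝓝 p := hcl.isOpen_compl.mem_nhds (by
      rintro (h | h)
      · exact hpC h
      · exact hpP h)
    obtain ⟨W, hWn, hWc, hWs⟩ := exists_mem_nhds_isClosed_subset hnh
    obtain ⟨Ψ₁, h1, h2⟩ := ih (C ∪ W) (hC.union hWc) (by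
      rw [disjoint_union_right]
      refine ⟨hPC, disjoint_left.2 fun q hq hqW => hWs hqW (Or.inr hq)⟩)
    set e := chartAt E p with he
    have hmax : e ∈ IsManifold.maximalAtlas 𝓘(ℝ, E) ∞ M := IsManifold.chart_mem_maximalAtlas p
    have hpe : p ∈ e.source := mem_chart_source E p
    obtain ⟨Ψ₂, ρ, hρ, -, -, h3, h4⟩ := exists_localFam hmax (e.map_source hpe) (W := W)
      (by rwa [e.left_inv hpe])
    set L : ℝ →L[ℝ] (E × (E →L[ℝ] E)) :=
      (ContinuousLinearMap.inr ℝ E (E →L[ℝ] E)).comp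
        (ContinuousLinearMap.toSpanSingleton ℝ (1 : E →L[ℝ] E)) with hL
    have hLs : ∀ s, L s = (0, s • (1 : E →L[ℝ] E)) := fun s => rfl
    refine ⟨Ψ₁.comp (Ψ₂.reparam L), fun s x hx => ?_, ?_⟩
    · rw [Fam.comp_apply, Fam.reparam_apply, h3, h1 s x (Or.inl hx)]
      exact fun hxW => hWs hxW (Or.inl hx)
    · have hLt : Tendsto L (𝓝 0) (𝓝 0) := by
        have := L.continuous.tendsto 0
        rwa [map_zero] at this
      filter_upwards [h2, hLt.eventually h4] with s hs hs4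
      have hcomp : ((Ψ₁.comp (Ψ₂.reparam L)).toFun s : M → M) =
          (Ψ₁.toFun s) ∘ (Ψ₂.toFun (L s)) := rfl
      rintro q (rfl | hq)
      · -- at the point `p`
        have h5 : ∀ y ∈ closedBall (e q) ρ, Ψ₂.toFun (L s) (e.symm y) =
            e.symm (y + (s • (1 : E →L[ℝ] E)) (y - e q)) ∧
            y + (s • (1 : E →L[ℝ] E)) (y - e q) ∈ e.target := by
          intro y hy
          have := hs4 y hy
          simp only [hLs, zero_add] at this
          exact this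
        obtain ⟨h6, A, A', hA1, hA2, h7, -⟩ := D_local hmax hpe hρ h5
        have hnear : ∀ᶠ y in 𝓝 q, Ψ₁.toFun s y = y := by
          filter_upwards [hWn] with y hy
          exact h1 s y (Or.inr hy)
        refine ⟨?_, ?_⟩
        · rw [Fam.comp_apply, Fam.reparam_apply, h6]
          exact hnear.self_of_nhds
        · rw [hcomp, D_comp ((Ψ₁.toFun s).contMDiff.mdifferentiable (by simp) _)
            ((Ψ₂.toFun (L s)).contMDiff.mdifferentiable (by simp) _), h6, D_eq_one hnear, one_mul, h7]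
          have h8 : (1 + s • (1 : E →L[ℝ] E)) = (1 + s) • (1 : E →L[ℝ] E) := by
            rw [add_smul, one_smul]
          rw [h8, mul_smul_comm, mul_one, smul_mul_assoc, hA2]
      · -- at the other points
        have hnear : ∀ᶠ y in 𝓝 q, Ψ₂.toFun (L s) y = y := by
          have : Wᶜ ∈ 𝓝 q := hWc.isOpen_compl.mem_nhds fun h => hWs h (Or.inr hq)
          filter_upwards [this] with y hy
          exact h3 _ y hy
        refine ⟨?_, ?_⟩
        · rw [Fam.comp_apply, Fam.reparam_apply, hnear.self_of_nhds]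
          exact (hs q hq).1
        · rw [hcomp, D_comp ((Ψ₁.toFun s).contMDiff.mdifferentiable (by simp) _)
            ((Ψ₂.toFun (L s)).contMDiff.mdifferentiable (by simp) _), hnear.self_of_nhds,
            D_eq_one hnear, mul_one]
          exact (hs q hq).2

/-- Scaling at the points of an invariant set. -/
theorem D_iterate_scale (g : Dyn E M r) (hr : 1 ≤ r) {P : Set M} (hPg : ∀ p ∈ P, g p ∈ P)
    {ψ : Diffeomorph 𝓘(ℝ, E) 𝓘(ℝ, E) M M ∞} {s : ℝ}
    (h : ∀ p ∈ P, ψ p = p ∧ (D ψ p : E →L[ℝ] E) = (1 + s) • (1 : E →L[ℝ] E)) (k : ℕ) :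
    ∀ p ∈ P, (pert g ψ)^[k] p = g^[k] p ∧
      (D (pert g ψ)^[k] p : E →L[ℝ] E) = (1 + s) ^ k • (D g^[k] p : E →L[ℝ] E) := by
  intro p hp
  have hinv : ∀ k : ℕ, g^[k] p ∈ P := by
    intro k
    induction k with
    | zero => exact hp
    | succ k ih =>
      rw [Function.iterate_succ_apply']
      exact hPg _ ih
  induction k with
  | zero =>
    refine ⟨rfl, ?_⟩
    simp only [Function.iterate_zero, pow_zero, one_smul]
  | succ k ih =>
    have h1 := h _ (hinv k)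
    refine ⟨?_, ?_⟩
    · rw [Function.iterate_succ_apply', Function.iterate_succ_apply', ih.1, pert_apply, h1.1]
    · rw [D_iterate_succ (Dyn.mdiff _ hr), D_iterate_succ (Dyn.mdiff _ hr), ih.1, ih.2,
        D_pert g hr, h1.1, h1.2]
      simp only [mul_smul_comm, smul_mul_assoc, mul_one, smul_smul, pow_succ]

end OmSt
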