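import Pool.Agent.OmSt.Homoc

/-!
# The nonwandering set is finite
-/

open Set Filter Topology Manifold ContDiff Metric

set_option linter.unusedSectionVars false

namespace OmSt

variable {E : Type*} [NormedAddCommGroup E] [NormedSpace ℝ E]

theorem Stab.no_cycle {M : Type*} [FiniteDimensional ℝ E] [MetricSpace M] [CompactSpace M]
    [ChartedSpace E M] [IsManifold 𝓘(ℝ, E) ∞ M] {r : ℕ∞} {N : Set (Dyn E M r)} (hN : Stab N)
    (hr : 1 ≤ r) (hrec : ∀ g ∈ N, ∀ x, Recurrent g x → x ∈ Function.periodicPts g) (n : ℕ) :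
    ∀ g ∈ N, ∀ (m : ℕ) (p x : ℕ → M), ¬ ZCyc g.toEquiv m n p x := by
  induction n using Nat.strong_induction_on with
  | _ n IH =>
  intro g hg m p x h
  rcases Nat.lt_or_ge n 2 with hn | hn
  · have hn1 : n = 1 := by have := h.hn; omega
    subst hn1
    exact hN.no_homoclinic hr hrec hg h
  · by_cases hd : ∀ i j, i < j → j < n → ∀ s : ℤ, p j ≠ zi g.toEquiv s (p i)
    · obtain ⟨g', hg', p', x', h'⟩ := hN.merge hr hg h hn hd
      exact IH (n - 1) (by omega) g' hg' m p' x' h'
    · push Not at hd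
      obtain ⟨i, j, hij, hj, s, hs⟩ := hd
      refine IH (j - i) (by omega) g hg m (fun k => p (i + k)) (fun k => x (i + k))
        ⟨h.hm, by omega, fun k hk => h.per _ (by omega), ⟨s, ?_⟩, fun k hk => ?_⟩
      · have e1 : i + (j - i) = j := by omega
        simp only [e1, add_zero]
        exact hs
      · exact h.conn (i + k) (by omega)

theorem Cyc.zcyc {X : Type*} [MetricSpace X] [CompactSpace X] {f : X ≃ₜ X} {m n : ℕ} {p : ℕ → X}
    (h : Cyc f m n p) : ∃ x, ZCyc f.toEquiv m n p x := by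
  have h1 : ∀ i : ℕ, ∃ x : X, i < n → IsConn f.toEquiv m (p i) (p (i + 1)) x := by
    intro i
    by_cases hi : i < n
    · obtain ⟨x, hx, h1, h2⟩ := h.conn i hi
      refine ⟨x, fun _ => ⟨⟨?_, ?_⟩, fun k hk hkx => hx ?_⟩⟩
      · rw [tendsto_int_atTop_iff]
        refine h1.congr fun k => ?_
        have e1 : (m : ℤ) * (k : ℤ) = ((m * k : ℕ) : ℤ) := by push_cast; ring
        rw [e1, zi_nat]
        rfl
      · rw [tendsto_int_atBot_iff]
        refine h2.congr fun k => ?_
        have e1 : (m : ℤ) * (-(k : ℤ)) = -((m * k : ℕ) : ℤ) := by push_cast; ring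
        rw [e1, zi_neg]
        rfl
      · obtain ⟨l, rfl | rfl⟩ := k.eq_nat_or_neg
        · rw [zi_nat] at hkx
          exact ⟨l, by omega, hkx⟩
        · have h3 : zi f.toEquiv l x = x := by
            have := zi_mul_of_fix hkx (-1)
            simpa using this
          rw [zi_nat] at h3
          exact ⟨l, by omega, h3⟩
    · exact ⟨p i, fun h => absurd h hi⟩
  choose x hx using h1
  refine ⟨x, h.hM, h.hn, fun i hi => ?_, ?_, hx⟩
  · rw [zi_nat]
    exact h.per i hi
  · obtain ⟨s, hs⟩ := h.close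
    refine ⟨s, ?_⟩
    rw [zi_nat]
    exact hs

/-- **The nonwandering set is a finite set of periodic points.** -/
theorem Stab.finite_nonwandering {M : Type*} [FiniteDimensional ℝ E] [MetricSpace M]
    [CompactSpace M] [ChartedSpace E M] [IsManifold 𝓘(ℝ, E) ∞ M] {r : ℕ∞} {N : Set (Dyn E M r)}
    (hN : Stab N) (hr : 1 ≤ r)
    (hrec : ∀ g ∈ N, ∀ x, Recurrent g x → x ∈ Function.periodicPts g) {g : Dyn E M r}
    (hg : g ∈ N) : (nonwandering g).Finite ∧ nonwandering g ⊆ Function.periodicPts g := by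
  by_contra hcon
  obtain ⟨m, n, p, hc⟩ := exists_cycle (hN.hyps hr hrec hg) hcon
  obtain ⟨x, hx⟩ := hc.zcyc
  exact hN.no_cycle hr hrec n g hg m p x hx

/-- If the nonwandering set is countable, then the recurrence is trivial. -/
theorem recurrent_periodic_of_countable {X : Type*} [TopologicalSpace X] [T2Space X]
    [CompactSpace X] (f : X ≃ₜ X) (h : (nonwandering f).Countable) {x : X}
    (hx : Recurrent f x) : x ∈ Function.periodicPts f := by
  have hclosed : IsClosed (nonwandering f) := by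
    rw [← isOpen_compl_iff, isOpen_iff_mem_nhds]
    intro y hy
    have hy' : ∃ U ∈ 𝓝 y, ¬ ∃ n > 0, ((f : X → X)^[n] '' U ∩ U).Nonempty := by
      by_contra hcon
      push Not at hcon
      refine hy fun U hU => ?_
      obtain ⟨n, hn, hne⟩ := hcon U hU
      exact ⟨n, hn, hne⟩
    obtain ⟨U, hU, hUn⟩ := hy'
    filter_upwards [eventually_mem_nhds_iff.2 hU] with z hz hzΩ
    exact hUn (hzΩ U hz)
  set K : Set X := closure (range fun n : ℕ => f^[n] x) with hK
  have hKΩ : K ⊆ nonwandering f := by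
    refine closure_minimal ?_ hclosed
    rintro _ ⟨n, rfl⟩
    exact nonwandering_iterate f.isOpenMap f.continuous (mem_nonwandering_of_recurrent hx) n
  have hKc : K.Countable := h.mono hKΩ
  have hxK : ∀ n : ℕ, f^[n] x ∈ K := fun n => subset_closure ⟨n, rfl⟩
  have : Countable K := hKc.to_subtype
  have : CompactSpace K := isCompact_iff_compactSpace.1 isClosed_closure.isCompact
  have : Nonempty K := ⟨⟨x, hxK 0⟩⟩
  obtain ⟨y, hy⟩ := nonempty_interior_of_iUnion_of_closed (f := fun y : K => ({y} : Set K))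
    (fun y => isClosed_singleton) (eq_univ_of_forall fun y => mem_iUnion.2 ⟨y, rfl⟩)
  obtain ⟨V, hV, hVy⟩ := isOpen_induced_iff.1 (isOpen_interior (s := ({y} : Set K)))
  have hVK : ∀ z ∈ V, z ∈ K → z = y := by
    intro z hz hzK
    have h1 : (⟨z, hzK⟩ : K) ∈ interior ({y} : Set K) := by
      rw [← hVy]
      exact hz
    have h2 := interior_subset h1
    exact congrArg Subtype.val h2
  have hyV : (y : X) ∈ V := by
    obtain ⟨z, hz⟩ := hy
    have h1 := interior_subset hz
    have h2 : z = y := h1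
    rw [h2] at hz
    rw [← hVy] at hz
    exact hz
  -- the orbit visits `y`
  obtain ⟨_, hzV, ⟨i, rfl⟩⟩ := mem_closure_iff.1 y.2 V hV hyV
  have hi := hVK _ hzV (hxK i)
  -- and returns
  have h1 : f^[i] ⁻¹' V ∈ 𝓝 x := (f.continuous.iterate i).continuousAt (hV.mem_nhds hzV)
  obtain ⟨n, hn, hnV⟩ := hx _ h1 1
  have hnV' : f^[i] (f^[n] x) ∈ V := hnV
  have h2 : f^[i] (f^[n] x) = y := hVK _ hnV' (by
    rw [← Function.iterate_add_apply]
    exact hxK _)
  have h3 : f^[i] (f^[n] x) = f^[i] x := h2.trans hi.symm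
  exact ⟨n, hn, (f.injective.iterate i) h3⟩

end OmSt
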