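import Pool.Agent.OmSt.Isol2

/-!
# Asymptotic orbits, perturbations supported away from orbits
-/

open Set Filter Topology Manifold ContDiff Metric

set_option linter.unusedSectionVars false

namespace OmSt

section Top

variable {X : Type*} [TopologicalSpace X]

/-- The orbit of `x` under the `m`-th power goes from `p` to `q`. -/
structure Asy (σ : Equiv.Perm X) (m : ℕ) (p q x : X) : Prop where
  fwd : Tendsto (fun k : ℤ => zi σ (m * k) x) atTop (𝓝 q)
  bwd : Tendsto (fun k : ℤ => zi σ (m * k) x) atBot (𝓝 p)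

theorem tendsto_int_atTop_iff {α : Type*} {u : ℤ → α} {l : Filter α} :
    Tendsto u atTop l ↔ Tendsto (fun k : ℕ => u k) atTop l := by
  rw [← Nat.map_cast_int_atTop, tendsto_map'_iff]
  rfl

theorem tendsto_int_atBot_iff {α : Type*} {u : ℤ → α} {l : Filter α} :
    Tendsto u atBot l ↔ Tendsto (fun k : ℕ => u (-k)) atTop l := by
  rw [← tendsto_int_atTop_iff (u := fun k : ℤ => u (-k))]
  constructor
  · intro h
    exact h.comp tendsto_neg_atTop_atBot
  · intro h
    have := h.comp tendsto_neg_atBot_atTop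
    refine this.congr fun k => ?_
    simp

theorem Asy.shift {σ : Equiv.Perm X} {m : ℕ} {p q x : X} (h : Asy σ m p q x) (j : ℤ) :
    Asy σ m p q (zi σ (m * j) x) := by
  have e : ∀ k : ℤ, zi σ (m * k) (zi σ (m * j) x) = zi σ (m * (k + j)) x := by
    intro k
    rw [← zi_add, mul_add]
  constructor
  · simp only [e]
    exact h.fwd.comp (tendsto_atTop_add_const_right _ j tendsto_id)
  · simp only [e]
    exact h.bwd.comp (tendsto_atBot_add_const_right _ j tendsto_id)

theorem Asy.const {σ : Equiv.Perm X} {m : ℕ} {p : X} (h : zi σ m p = p) : Asy σ m p p p := by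
  have e : ∀ k : ℤ, zi σ (m * k) p = p := fun k => by
    refine zi_mul_fix ?_ k
    rw [← zi_nat]
    exact h
  constructor <;> simp only [e] <;> exact tendsto_const_nhds

theorem zi_comm (σ : Equiv.Perm X) (a b : ℤ) (x : X) : zi σ a (zi σ b x) = zi σ b (zi σ a x) := by
  rw [← zi_add, ← zi_add, add_comm]

theorem continuous_zi (f : X ≃ₜ X) (k : ℤ) : Continuous (zi f.toEquiv k) := by
  obtain ⟨n, rfl | rfl⟩ := k.eq_nat_or_neg
  · have : zi f.toEquiv (n : ℤ) = f^[n] := funext fun x => zi_nat _ n x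
    rw [this]
    exact f.continuous.iterate n
  · have : zi f.toEquiv (-(n : ℤ)) = f.symm^[n] := funext fun x => zi_neg _ n x
    rw [this]
    exact f.symm.continuous.iterate n

/-- Translates of an asymptotic orbit. -/
theorem Asy.translate (f : X ≃ₜ X) {m : ℕ} {p q x : X} (h : Asy f.toEquiv m p q x) (j : ℤ) :
    Asy f.toEquiv m (OmSt.zi f.toEquiv j p) (OmSt.zi f.toEquiv j q) (OmSt.zi f.toEquiv j x) := by
  constructor
  · have := ((continuous_zi f j).tendsto q).comp h.fwd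
    refine this.congr fun k => ?_
    exact zi_comm _ _ _ _
  · have := ((continuous_zi f j).tendsto p).comp h.bwd
    refine this.congr fun k => ?_
    exact zi_comm _ _ _ _

theorem Asy.unique [T2Space X] {σ : Equiv.Perm X} {m : ℕ} {p q p' q' x : X}
    (h : Asy σ m p q x) (h' : Asy σ m p' q' x) : p = p' ∧ q = q' :=
  ⟨tendsto_nhds_unique h.bwd h'.bwd, tendsto_nhds_unique h.fwd h'.fwd⟩

/-- The orbit is eventually in every neighbourhood of the limiting periodic orbit. -/
theorem Asy.eventually_top (f : X ≃ₜ X) {m : ℕ} (hm : 0 < m) {p q x : X}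
    (h : Asy f.toEquiv m p q x) {V : Set X} (hV : IsOpen V)
    (hq : ∀ k : ℤ, OmSt.zi f.toEquiv k q ∈ V) :
    ∀ᶠ n : ℤ in atTop, OmSt.zi f.toEquiv n x ∈ V := by
  have hm' : (0 : ℤ) < m := by exact_mod_cast hm
  have h1 : ∀ᶠ k : ℤ in atTop, ∀ s ∈ Set.Ico (0 : ℤ) m,
      OmSt.zi f.toEquiv s (OmSt.zi f.toEquiv (m * k) x) ∈ V := by
    rw [eventually_all_finite (Set.finite_Ico _ _)]
    intro s _
    have h2 := ((continuous_zi f s).tendsto q).comp h.fwd
    exact h2.eventually (hV.mem_nhds (hq s))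
  obtain ⟨K, hK⟩ := eventually_atTop.1 h1
  filter_upwards [eventually_ge_atTop (m * K)] with n hn
  have h2 := Int.mul_ediv_add_emod n m
  have h3 := Int.emod_nonneg n hm'.ne'
  have h4 := Int.emod_lt_of_pos n hm'
  have h5 : K ≤ n / m := by
    rw [Int.le_ediv_iff_mul_le hm']
    linarith
  have h6 := hK (n / m) h5 (n % m) ⟨h3, h4⟩
  rw [← zi_add] at h6
  have h7 : n % m + m * (n / m) = n := by linarith
  rwa [h7] at h6

theorem Asy.eventually_bot (f : X ≃ₜ X) {m : ℕ} (hm : 0 < m) {p q x : X}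
    (h : Asy f.toEquiv m p q x) {V : Set X} (hV : IsOpen V)
    (hp : ∀ k : ℤ, OmSt.zi f.toEquiv k p ∈ V) :
    ∀ᶠ n : ℤ in atBot, OmSt.zi f.toEquiv n x ∈ V := by
  have hm' : (0 : ℤ) < m := by exact_mod_cast hm
  have h1 : ∀ᶠ k : ℤ in atBot, ∀ s ∈ Set.Ico (0 : ℤ) m,
      OmSt.zi f.toEquiv s (OmSt.zi f.toEquiv (m * k) x) ∈ V := by
    rw [eventually_all_finite (Set.finite_Ico _ _)]
    intro s _
    have h2 := ((continuous_zi f s).tendsto p).comp h.bwd
    exact h2.eventually (hV.mem_nhds (hp s))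
  obtain ⟨K, hK⟩ := eventually_atBot.1 h1
  filter_upwards [eventually_le_atBot (m * K)] with n hn
  have h2 := Int.mul_ediv_add_emod n m
  have h3 := Int.emod_nonneg n hm'.ne'
  have h4 := Int.emod_lt_of_pos n hm'
  have h5 : n / m ≤ K := by
    have h8 : (n / m) * m ≤ n := by linarith
    by_contra hcon
    have h9 : K + 1 ≤ n / m := by omega
    nlinarith
  have h6 := hK (n / m) h5 (n % m) ⟨h3, h4⟩
  rw [← zi_add] at h6
  have h7 : n % m + m * (n / m) = n := by linarith
  rwa [h7] at h6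

theorem finite_range_zi {σ : Equiv.Perm X} {m : ℕ} (hm : 0 < m) {p : X} (h : zi σ m p = p) :
    (range (fun k : ℤ => zi σ k p)).Finite := by
  have hm' : (0 : ℤ) < m := by exact_mod_cast hm
  refine ((Set.finite_Ico (0 : ℤ) m).image (fun k => zi σ k p)).subset ?_
  rintro _ ⟨k, rfl⟩
  refine ⟨k % m, ⟨Int.emod_nonneg k hm'.ne', Int.emod_lt_of_pos k hm'⟩, ?_⟩
  have e : k = k % m + m * (k / m) := by
    have := Int.mul_ediv_add_emod k m
    linarith
  have h1 : zi σ (m * (k / m)) p = p := zi_mul_fix (by rw [← zi_nat]; exact h) _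
  calc zi σ (k % m) p = zi σ (k % m) (zi σ (m * (k / m)) p) := by rw [h1]
    _ = zi σ (k % m + m * (k / m)) p := (zi_add _ _ _ _).symm
    _ = zi σ k p := by rw [← e]

/-- Near a point which is not on the limiting periodic orbits, an asymptotic orbit has at most
one point. -/
theorem Asy.exists_away [T2Space X] (f : X ≃ₜ X) {m : ℕ} (hm : 0 < m) {p q x : X}
    (h : Asy f.toEquiv m p q x) (hp : OmSt.zi f.toEquiv m p = p) (hq : OmSt.zi f.toEquiv m q = q)
    {w : X} (hwp : ∀ k : ℤ, OmSt.zi f.toEquiv k p ≠ w) (hwq : ∀ k : ℤ, OmSt.zi f.toEquiv k q ≠ w) :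
    ∃ U ∈ 𝓝 w, ∀ k : ℤ, OmSt.zi f.toEquiv k x ∈ U → OmSt.zi f.toEquiv k x = w := by
  set P : Set X := range (fun k : ℤ => OmSt.zi f.toEquiv k p) ∪
    range (fun k : ℤ => OmSt.zi f.toEquiv k q) with hP
  have hPfin : P.Finite := (finite_range_zi hm hp).union (finite_range_zi hm hq)
  have hwP : w ∉ P := by
    rintro (⟨k, hk⟩ | ⟨k, hk⟩)
    · exact hwp k hk
    · exact hwq k hk
  obtain ⟨V, U, hV, hU, hPV, hwU, hVU⟩ := SeparatedNhds.of_isCompact_isCompact hPfin.isCompact isCompact_singleton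
    (disjoint_singleton_right.2 hwP)
  have h1 := h.eventually_top f hm hV (fun k => hPV (Or.inr ⟨k, rfl⟩))
  have h2 := h.eventually_bot f hm hV (fun k => hPV (Or.inl ⟨k, rfl⟩))
  obtain ⟨N₁, hN₁⟩ := eventually_atTop.1 h1
  obtain ⟨N₂, hN₂⟩ := eventually_atBot.1 h2
  set F : Set X := (fun k : ℤ => OmSt.zi f.toEquiv k x) '' Set.Icc N₂ N₁ \ {w} with hF
  have hFfin : F.Finite := ((Set.finite_Icc _ _).image _).subset diff_subset
  refine ⟨U ∩ Fᶜ, inter_mem (hU.mem_nhds (hwU rfl)) (hFfin.isClosed.isOpen_compl.mem_nhds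
    (fun h => h.2 rfl)), fun k hk => ?_⟩
  by_contra hne
  have h3 : N₂ ≤ k := by
    by_contra hcon
    exact hVU.le_bot ⟨hN₂ k (by omega), hk.1⟩
  have h4 : k ≤ N₁ := by
    by_contra hcon
    exact hVU.le_bot ⟨hN₁ k (by omega), hk.1⟩
  exact hk.2 ⟨⟨k, ⟨h3, h4⟩, rfl⟩, hne⟩

end Top

variable {E : Type*} [NormedAddCommGroup E] [NormedSpace ℝ E]
  {M : Type*} [TopologicalSpace M] [ChartedSpace E M] {r : ℕ∞}

/-- Orbits which avoid the support of the perturbation are unchanged. -/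
theorem zi_pert {g : Dyn E M r} {ψ : Diffeomorph 𝓘(ℝ, E) 𝓘(ℝ, E) M M ∞} {x : M}
    (h : ∀ k : ℤ, ψ (zi g.toEquiv k x) = zi g.toEquiv k x) (k : ℤ) :
    zi (pert g ψ).toEquiv k x = zi g.toEquiv k x := by
  have hstep : ∀ k : ℤ, zi (pert g ψ).toEquiv 1 (zi g.toEquiv k x) = zi g.toEquiv (1 + k) x := by
    intro k
    have h1 : zi (pert g ψ).toEquiv 1 (zi g.toEquiv k x) = g (ψ (zi g.toEquiv k x)) := by
      simp [zi]
      rfl
    rw [h1, h k, zi_add]
    simp [zi]
  obtain ⟨n, rfl | rfl⟩ := k.eq_nat_or_neg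
  · induction n with
    | zero => simp [zi_zero]
    | succ n ih =>
      have e1 : ((n + 1 : ℕ) : ℤ) = 1 + n := by push_cast; ring
      rw [e1, zi_add, ih, hstep]
  · induction n with
    | zero => simp [zi_zero]
    | succ n ih =>
      apply zi_injective (pert g ψ).toEquiv 1
      have e1 : (1 : ℤ) + -((n + 1 : ℕ) : ℤ) = -n := by push_cast; ring
      rw [← zi_add, e1, ih, hstep, e1]

end OmSt
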