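import Pool.Agent.OmSt.Assem

/-!
# A finite nonwandering set of hyperbolic periodic points satisfies Axiom A
-/

open Set Filter Topology Manifold ContDiff Metric

set_option linter.unusedSectionVars false

namespace OmSt

variable {E : Type*} [NormedAddCommGroup E] [NormedSpace ℝ E]

/-- The data of a hyperbolic linear map. -/
structure HypData (T T' P : E →L[ℝ] E) (c μ : ℝ) : Prop where
  h1 : T * T' = 1
  h2 : T' * T = 1
  hPP : P * P = P
  hPT : P * T = T * P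
  hc : 0 ≤ c
  hμ : 0 ≤ μ
  hμ1 : μ < 1
  hb : ∀ n : ℕ, ‖T ^ n * P‖ ≤ c * μ ^ n ∧ ‖T' ^ n * (1 - P)‖ ≤ c * μ ^ n

theorem HypData.swap {T T' P : E →L[ℝ] E} {c μ : ℝ} (h : HypData T T' P c μ) :
    HypData T' T (1 - P) c μ := by
  have hPT' : P * T' = T' * P := by
    calc P * T' = (T' * T) * (P * T') := by rw [h.h2, one_mul]
      _ = T' * (T * P) * T' := by simp only [mul_assoc]
      _ = T' * (P * T) * T' := by rw [h.hPT]
      _ = T' * P * (T * T') := by simp only [mul_assoc]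
      _ = T' * P := by rw [h.h1, mul_one]
  refine ⟨h.h2, h.h1, ?_, ?_, h.hc, h.hμ, h.hμ1, fun n => ⟨(h.hb n).2, ?_⟩⟩
  · rw [mul_sub, sub_mul, sub_mul, h.hPP]
    simp
  · rw [sub_mul, mul_sub, hPT', one_mul, mul_one]
  · rw [sub_sub_cancel]
    exact (h.hb n).1

theorem HypData.char {T T' P : E →L[ℝ] E} {c μ : ℝ} (h : HypData T T' P c μ) (v : E) :
    P v = v ↔ Tendsto (fun n : ℕ => (T ^ n) v) atTop (𝓝 0) := by
  have hpow : Tendsto (fun n : ℕ => c * μ ^ n) atTop (𝓝 0) := by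
    have := (tendsto_pow_atTop_nhds_zero_of_lt_one h.hμ h.hμ1).const_mul c
    rwa [mul_zero] at this
  constructor
  · intro hv
    have h3 : Tendsto (fun n : ℕ => c * μ ^ n * ‖v‖) atTop (𝓝 0) := by
      have := hpow.mul_const ‖v‖
      rwa [zero_mul] at this
    refine squeeze_zero_norm (fun n => ?_) h3
    have e1 : (T ^ n) v = (T ^ n * P) v := by
      change _ = (T ^ n) (P v)
      rw [hv]
    rw [e1]
    exact (ContinuousLinearMap.le_opNorm _ _).trans (by gcongr; exact (h.hb n).1)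
  · intro hv
    have h3 : ∀ n : ℕ, ‖(1 - P) v‖ ≤ (c * μ ^ n) * ‖(T ^ n) v‖ := by
      intro n
      have hcomm : (1 - P) * T ^ n = T ^ n * (1 - P) := by
        have h4 : Commute P T := h.hPT
        have h5 : Commute P (T ^ n) := h4.pow_right n
        rw [sub_mul, mul_sub, one_mul, mul_one, h5.eq]
      have hcan : T' ^ n * T ^ n = 1 := by
        have h4 : Commute T' T := by rw [Commute, SemiconjBy, h.h1, h.h2]
        rw [← h4.mul_pow, h.h2, one_pow]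
      have e1 : (1 - P) v = (T' ^ n * (1 - P)) ((T ^ n) v) := by
        have e2 : T' ^ n * (1 - P) * T ^ n = 1 - P := by
          rw [mul_assoc, hcomm, ← mul_assoc, hcan, one_mul]
        calc (1 - P) v = (T' ^ n * (1 - P) * T ^ n) v := by rw [e2]
          _ = _ := rfl
      rw [e1]
      exact (ContinuousLinearMap.le_opNorm _ _).trans (by gcongr; exact (h.hb n).2)
    have h4 : Tendsto (fun n : ℕ => (c * μ ^ n) * ‖(T ^ n) v‖) atTop (𝓝 0) := by
      have := hpow.mul hv.norm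
      rwa [norm_zero, mul_zero] at this
    have h5 := ge_of_tendsto' h4 h3
    have h6 : (1 - P) v = 0 := norm_le_zero_iff.1 h5
    have h7 : v - P v = 0 := h6
    exact (sub_eq_zero.1 h7).symm

theorem HypData.char' {T T' P : E →L[ℝ] E} {c μ : ℝ} (h : HypData T T' P c μ) (v : E) :
    P v = 0 ↔ Tendsto (fun n : ℕ => (T' ^ n) v) atTop (𝓝 0) := by
  rw [← h.swap.char v]
  change P v = 0 ↔ v - P v = v
  rw [sub_eq_self]

theorem image_decay {A A' S S₁ : E →L[ℝ] E} (h1 : A * A' = 1) (h2 : A' * A = 1)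
    (hS : S₁ * A = A * S) :
    A '' {v | Tendsto (fun n : ℕ => (S ^ n) v) atTop (𝓝 0)} =
      {w | Tendsto (fun n : ℕ => (S₁ ^ n) w) atTop (𝓝 0)} := by
  have hSn : ∀ n : ℕ, S₁ ^ n * A = A * S ^ n := by
    intro n
    induction n with
    | zero => simp
    | succ n ih => rw [pow_succ, mul_assoc, hS, ← mul_assoc, ih, mul_assoc, ← pow_succ]
  have hSn' : ∀ n : ℕ, S ^ n * A' = A' * S₁ ^ n := by
    intro n
    calc S ^ n * A' = A' * (A * S ^ n) * A' := by rw [← mul_assoc, h2, one_mul]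
      _ = A' * (S₁ ^ n * A) * A' := by rw [hSn]
      _ = A' * S₁ ^ n * (A * A') := by simp only [mul_assoc]
      _ = A' * S₁ ^ n := by rw [h1, mul_one]
  ext w
  constructor
  · rintro ⟨v, hv, rfl⟩
    have h3 : Tendsto (fun n : ℕ => A ((S ^ n) v)) atTop (𝓝 0) := by
      have := (A.continuous.tendsto 0).comp hv
      rwa [map_zero] at this
    refine h3.congr fun n => ?_
    exact (congrArg (fun L : E →L[ℝ] E => L v) (hSn n)).symm
  · intro hw
    refine ⟨A' w, ?_, congrArg (fun L : E →L[ℝ] E => L w) h1⟩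
    have h3 : Tendsto (fun n : ℕ => A' ((S₁ ^ n) w)) atTop (𝓝 0) := by
      have := (A'.continuous.tendsto 0).comp hw
      rwa [map_zero] at this
    refine h3.congr fun n => ?_
    exact (congrArg (fun L : E →L[ℝ] E => L w) (hSn' n)).symm

/-- Combination of finitely many pairs of constants. -/
theorem exists_common {ι : Type*} {S : Set ι} (hS : S.Finite) {Q : ι → ℝ → ℝ → Prop}
    (mono : ∀ x C C' μ μ', 0 < C → 0 < μ → C ≤ C' → μ ≤ μ' → Q x C μ → Q x C' μ')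
    (h : ∀ x ∈ S, ∃ C > 0, ∃ μ, 0 < μ ∧ μ < 1 ∧ Q x C μ) :
    ∃ C > 0, ∃ μ : ℝ, 0 < μ ∧ μ < 1 ∧ ∀ x ∈ S, Q x C μ := by
  induction S, hS using Set.Finite.induction_on with
  | empty => exact ⟨1, one_pos, 1 / 2, by norm_num, by norm_num, by simp⟩
  | @insert a S ha hS ih =>
    obtain ⟨C, hC, μ, hμ, hμ1, h1⟩ := ih fun x hx => h x (mem_insert_of_mem _ hx)
    obtain ⟨C', hC', μ', hμ', hμ1', h2⟩ := h a (mem_insert _ _)
    refine ⟨max C C', lt_max_of_lt_left hC, max μ μ', lt_max_of_lt_left hμ, max_lt hμ1 hμ1',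
      fun x hx => ?_⟩
    rcases hx with rfl | hx
    · exact mono _ _ _ _ _ hC' hμ' (le_max_right _ _) (le_max_right _ _) h2
    · exact mono _ _ _ _ _ hC hμ (le_max_left _ _) (le_max_left _ _) (h1 x hx)

variable {M : Type*} [TopologicalSpace M] [ChartedSpace E M]

theorem exists_rate {G : M → M} (hG : MDifferentiable 𝓘(ℝ, E) 𝓘(ℝ, E) G) {m₀ : ℕ} (hm₀ : 0 < m₀)
    {x : M} (hx : G^[m₀] x = x) {Q : E →L[ℝ] E} {c μ : ℝ} (hc : 0 ≤ c) (hμ : 0 ≤ μ) (hμ1 : μ < 1)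
    (hb : ∀ k : ℕ, ‖(D G^[m₀] x : E →L[ℝ] E) ^ k * Q‖ ≤ c * μ ^ k) :
    ∃ C > 0, ∃ μ', 0 < μ' ∧ μ' < 1 ∧ ∀ (m : ℕ) (v : E), Q v = v →
      ‖(D G^[m] x : E →L[ℝ] E) v‖ ≤ C * μ' ^ m * ‖v‖ := by
  obtain ⟨μ', ⟨hμ', hμμ'⟩, hμ'1⟩ : ∃ μ' : ℝ, (0 < μ' ∧ μ < μ' ^ m₀) ∧ μ' < 1 := by
    have h1 : Tendsto (fun t : ℝ => t ^ m₀) (𝓝[<] 1) (𝓝 1) := by
      have : Continuous (fun t : ℝ => t ^ m₀) := by fun_prop
      exact (this.tendsto' 1 1 (one_pow _)).mono_left nhdsWithin_le_nhds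
    have h2 := h1.eventually (Ioi_mem_nhds hμ1)
    have h3 : ∀ᶠ t : ℝ in 𝓝[<] 1, t ∈ Ioi (0 : ℝ) :=
      Filter.Eventually.filter_mono nhdsWithin_le_nhds (Ioi_mem_nhds one_pos)
    obtain ⟨t, ht⟩ := ((h3.and h2).and self_mem_nhdsWithin).exists
    exact ⟨t, ht⟩
  set T : E →L[ℝ] E := D G^[m₀] x with hT
  set C₁ : ℝ := ∑ s ∈ Finset.range m₀, ‖(D G^[s] x : E →L[ℝ] E)‖ with hC₁
  have hC₁0 : 0 ≤ C₁ := Finset.sum_nonneg fun _ _ => norm_nonneg _
  refine ⟨(C₁ + 1) * (c + 1) / μ' ^ m₀, by positivity, μ', hμ', hμ'1, fun m v hv => ?_⟩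
  set k := m / m₀ with hk
  set s := m % m₀ with hs
  have hms : m = s + m₀ * k := (Nat.mod_add_div m m₀).symm
  have hsm : s < m₀ := Nat.mod_lt _ hm₀
  have hfix : G^[m₀ * k] x = x := by
    have h1 : Function.IsPeriodicPt G m₀ x := hx
    exact h1.mul_const k
  have hD : (D G^[m] x : E →L[ℝ] E) v = (D G^[s] x : E →L[ℝ] E) ((T ^ k * Q) v) := by
    have e1 : (T ^ k * Q) v = (T ^ k) v := by
      change (T ^ k) (Q v) = _
      rw [hv]
    rw [e1, hms, D_iterate_add hG s (m₀ * k) x, hfix, D_iterate_mul hG m₀ k hx]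
    rfl
  have hle : ‖(D G^[s] x : E →L[ℝ] E)‖ ≤ C₁ :=
    Finset.single_le_sum (f := fun s => ‖(D G^[s] x : E →L[ℝ] E)‖) (fun _ _ => norm_nonneg _)
      (Finset.mem_range.2 hsm)
  have hpow : μ ^ k ≤ μ' ^ m / μ' ^ m₀ := by
    rw [le_div_iff₀ (by positivity)]
    calc μ ^ k * μ' ^ m₀ ≤ (μ' ^ m₀) ^ k * μ' ^ s :=
          mul_le_mul (pow_le_pow_left₀ hμ hμμ'.le k) (pow_le_pow_of_le_one hμ'.le hμ'1.le hsm.le)
            (by positivity) (by positivity)
      _ = μ' ^ m := by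
          rw [← pow_mul, ← pow_add]
          congr 1
          omega
  rw [hD]
  calc ‖(D G^[s] x : E →L[ℝ] E) ((T ^ k * Q) v)‖
      ≤ ‖(D G^[s] x : E →L[ℝ] E)‖ * (‖T ^ k * Q‖ * ‖v‖) :=
        (ContinuousLinearMap.le_opNorm _ _).trans (by
          gcongr
          exact ContinuousLinearMap.le_opNorm _ _)
    _ ≤ (C₁ + 1) * (((c + 1) * (μ' ^ m / μ' ^ m₀)) * ‖v‖) := by
        gcongr
        · linarith
        · calc ‖T ^ k * Q‖ ≤ c * μ ^ k := hb k
            _ ≤ (c + 1) * (μ' ^ m / μ' ^ m₀) := by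
                gcongr
                linarith
    _ = (C₁ + 1) * (c + 1) / μ' ^ m₀ * μ' ^ m * ‖v‖ := by ring

variable [IsManifold 𝓘(ℝ, E) ∞ M]

/-- Riemannian norms are equivalent to the norm of the model space. -/
theorem exists_norm_equiv
    (γ : Bundle.ContMDiffRiemannianMetric 𝓘(ℝ, E) ∞ E (fun x : M => TangentSpace 𝓘(ℝ, E) x))
    (y : M) : ∃ a > 0, ∀ v : E, ‖v‖ ≤ a * √(γ.inner y v v) ∧ √(γ.inner y v v) ≤ a * ‖v‖ := by
  obtain ⟨R, hR⟩ : ∃ R : ℝ, ∀ v : E, γ.inner y v v < 1 → ‖v‖ ≤ R := by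
    have h1 := γ.isVonNBounded y
    have h2 : Bornology.IsVonNBounded ℝ {v : E | γ.inner y v v < 1} := h1
    rw [NormedSpace.isVonNBounded_iff, isBounded_iff_forall_norm_le] at h2
    obtain ⟨R, hR⟩ := h2
    exact ⟨R, fun v hv => hR v hv⟩
  let G : E →L[ℝ] E →L[ℝ] ℝ := γ.inner y
  refine ⟨2 * |R| + √‖G‖ + 1, by positivity, fun v => ⟨?_, ?_⟩⟩
  · by_cases hv : v = 0
    · subst hv
      rw [norm_zero]
      positivity
    · have hpos : 0 < γ.inner y v v := γ.pos y v hv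
      set s := √(γ.inner y v v) with hs
      have hs0 : 0 < s := Real.sqrt_pos.2 hpos
      have hss : γ.inner y v v = s ^ 2 := (Real.sq_sqrt hpos.le).symm
      have h3 : G ((2 * s)⁻¹ • v) ((2 * s)⁻¹ • v) < 1 := by
        have e1 : G ((2 * s)⁻¹ • v) ((2 * s)⁻¹ • v) = (2 * s)⁻¹ * ((2 * s)⁻¹ * G v v) := by
          simp only [map_smul, smul_apply, smul_eq_mul]
        have e2 : G v v = s ^ 2 := hss
        rw [e1, e2]
        field_simp
        norm_num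
      have h4 := hR _ h3
      rw [norm_smul, norm_inv, Real.norm_of_nonneg (by positivity), inv_mul_le_iff₀ (by positivity)]
        at h4
      have h5 : R ≤ |R| := le_abs_self R
      have h6 : 0 ≤ √‖G‖ := Real.sqrt_nonneg _
      nlinarith
  · have h1 : G v v ≤ ‖G‖ * (‖v‖ * ‖v‖) := by
      calc G v v ≤ ‖G v v‖ := Real.le_norm_self _
        _ ≤ ‖G v‖ * ‖v‖ := (G v).le_opNorm v
        _ ≤ (‖G‖ * ‖v‖) * ‖v‖ := by gcongr; exact G.le_opNorm v
        _ = ‖G‖ * (‖v‖ * ‖v‖) := by ring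
    calc √(γ.inner y v v) ≤ √(‖G‖ * (‖v‖ * ‖v‖)) := Real.sqrt_le_sqrt h1
      _ = √‖G‖ * ‖v‖ := by
          rw [Real.sqrt_mul (norm_nonneg G), Real.sqrt_mul_self (norm_nonneg v)]
      _ ≤ (2 * |R| + √‖G‖ + 1) * ‖v‖ := by
          gcongr
          linarith [abs_nonneg R]

end OmSt
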