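import Pool.Agent.OmSt.AxA

/-!
# A finite nonwandering set of hyperbolic periodic points satisfies Axiom A
-/

open Set Filter Topology Manifold ContDiff Metric

set_option linter.unusedSectionVars false

namespace OmSt

variable {E : Type*} [NormedAddCommGroup E] [NormedSpace ℝ E]
  {M : Type*} [TopologicalSpace M] [ChartedSpace E M] {r : ℕ∞}

theorem exists_common_period {X : Type*} {f : X → X} {S : Set X} (hS : S.Finite)
    (hper : S ⊆ Function.periodicPts f) : ∃ m₀ > 0, ∀ x ∈ S, f^[m₀] x = x := by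
  refine ⟨∏ x ∈ hS.toFinset, Function.minimalPeriod f x, ?_, fun x hx => ?_⟩
  · exact Finset.prod_pos fun x hx =>
      Function.minimalPeriod_pos_of_mem_periodicPts (hper (hS.mem_toFinset.1 hx))
  · have h1 : Function.IsPeriodicPt f (Function.minimalPeriod f x) x :=
      Function.isPeriodicPt_minimalPeriod f x
    exact h1.trans_dvd (Finset.dvd_prod_of_mem _ (hS.mem_toFinset.2 hx))

theorem symm_iterate_fix (f : Dyn E M r) {m : ℕ} {x : M} (hx : f^[m] x = x) :
    f.symm^[m] x = x := by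
  have h1 : f.symm^[m] (f^[m] x) = x :=
    (Function.LeftInverse.iterate f.symm_apply_apply m) x
  rwa [hx] at h1

theorem exists_hypData (f : Dyn E M r) (hr : 1 ≤ r) {m : ℕ} {x : M} (hx : f^[m] x = x)
    (h : IsHyp (D f^[m] x : E →L[ℝ] E)) :
    ∃ P : E →L[ℝ] E, ∃ c μ : ℝ, HypData (D f^[m] x) (D f.symm^[m] x) P c μ := by
  obtain ⟨T', P, c, μ, h1, h2, h3, h4, h5, h6, h7, h8⟩ := h
  obtain ⟨hi1, hi2⟩ := Dyn.D_inv f hr m (x := x)
  rw [hx] at hi1 hi2
  have hT' : T' = D f.symm^[m] x := by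
    calc T' = T' * (D f^[m] x * D f.symm^[m] x) := by rw [hi2, mul_one]
      _ = D f.symm^[m] x := by rw [← mul_assoc, h2, one_mul]
  subst hT'
  exact ⟨P, c, μ, h1, h2, h3, h4, h5, h6, h7, h8⟩

variable [IsManifold 𝓘(ℝ, E) ∞ M]

theorem axiomA_of_finite [T2Space M] (hr : 1 ≤ r) (f : Dyn E M r)
    (hfin : (nonwandering f).Finite) (hper : nonwandering f ⊆ Function.periodicPts f)
    (hhyp : ∀ x ∈ nonwandering f, ∀ m > 0, f^[m] x = x → IsHyp (D f^[m] x : E →L[ℝ] E)) :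
    AxiomA f := by
  refine ⟨?_, hper.trans subset_closure⟩
  obtain ⟨m₀, hm₀, hfix⟩ := exists_common_period hfin hper
  have hdata : ∀ x ∈ nonwandering f, ∃ P : E →L[ℝ] E, ∃ c μ : ℝ,
      HypData (D f^[m₀] x) (D f.symm^[m₀] x) P c μ := fun x hx =>
    exists_hypData f hr (hfix x hx) (hhyp x hx m₀ hm₀ (hfix x hx))
  choose! P c μ hP using hdata
  have hΩ : ∀ x ∈ nonwandering f, f x ∈ nonwandering f := fun x hx =>
    nonwandering_apply (Dyn.isOpenMap f) f.continuous hx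
  -- invertibility and conjugation at one step
  have hinv : ∀ x, (D f x : E →L[ℝ] E) * D f.symm (f x) = 1 ∧
      (D f.symm (f x) : E →L[ℝ] E) * D f x = 1 := fun x =>
    ⟨(Dyn.D_inv f hr 1 (x := x)).2, (Dyn.D_inv f hr 1 (x := x)).1⟩
  have hcomm : ∀ x ∈ nonwandering f,
      (D f^[m₀] (f x) : E →L[ℝ] E) * D f x = (D f x : E →L[ℝ] E) * D f^[m₀] x := by
    intro x hx
    have h1 := D_iterate_add (Dyn.mdiff f hr) m₀ 1 x
    have h2 := D_iterate_succ (Dyn.mdiff f hr) m₀ x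
    rw [hfix x hx] at h2
    exact h1.symm.trans h2
  have hcomm' : ∀ x ∈ nonwandering f,
      (D f.symm^[m₀] (f x) : E →L[ℝ] E) * D f x = (D f x : E →L[ℝ] E) * D f.symm^[m₀] x := by
    intro x hx
    have h1 := (hP x hx).h1
    have h2 := (hP (f x) (hΩ x hx)).h2
    calc (D f.symm^[m₀] (f x) : E →L[ℝ] E) * D f x
        = (D f.symm^[m₀] (f x) : E →L[ℝ] E) * D f x * (D f^[m₀] x * D f.symm^[m₀] x) := by
          rw [h1, mul_one]
      _ = (D f.symm^[m₀] (f x) : E →L[ℝ] E) * (D f x * D f^[m₀] x) * D f.symm^[m₀] x := by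
          simp only [mul_assoc]
      _ = (D f.symm^[m₀] (f x) : E →L[ℝ] E) * D f^[m₀] (f x) * (D f x * D f.symm^[m₀] x) := by
          rw [← hcomm x hx]
          simp only [mul_assoc]
      _ = _ := by rw [h2, one_mul]
  have hset : ∀ x ∈ nonwandering f, {v : E | P x v = v} =
      {v | Tendsto (fun n : ℕ => ((D f^[m₀] x : E →L[ℝ] E) ^ n) v) atTop (𝓝 0)} := fun x hx =>
    Set.ext fun v => (hP x hx).char v
  have hset' : ∀ x ∈ nonwandering f, {v : E | P x v = 0} =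
      {v | Tendsto (fun n : ℕ => ((D f.symm^[m₀] x : E →L[ℝ] E) ^ n) v) atTop (𝓝 0)} :=
    fun x hx => Set.ext fun v => (hP x hx).char' v
  refine ⟨fun x => P x, fun x hx v => ?_, hfin.continuousOn _, fun x hx => ?_, fun x hx => ?_,
    fun γ => ?_⟩
  · exact congrArg (fun L : E →L[ℝ] E => L v) (hP x hx).hPP
  · change (D f x : E →L[ℝ] E) '' {v : E | P x v = v} = {w : E | P (f x) w = w}
    rw [hset x hx, hset _ (hΩ x hx)]
    exact image_decay (hinv x).1 (hinv x).2 (hcomm x hx)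
  · change (D f x : E →L[ℝ] E) '' {v : E | P x v = 0} = {w : E | P (f x) w = 0}
    rw [hset' x hx, hset' _ (hΩ x hx)]
    exact image_decay (hinv x).1 (hinv x).2 (hcomm' x hx)
  · -- the rates
    have hΩn : ∀ x ∈ nonwandering f, ∀ m, f^[m] x ∈ nonwandering f := fun x hx m =>
      nonwandering_iterate (Dyn.isOpenMap f) f.continuous hx m
    have hΩs : ∀ x ∈ nonwandering f, f.symm x ∈ nonwandering f := by
      intro x hx
      have h1 : f.symm x = f^[m₀ - 1] x := by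
        have h2 : f (f^[m₀ - 1] x) = x := by
          rw [← Function.iterate_succ_apply' f (m₀ - 1) x]
          have e1 : (m₀ - 1).succ = m₀ := by omega
          rw [e1]
          exact hfix x hx
        calc f.symm x = f.symm (f (f^[m₀ - 1] x)) := by rw [h2]
          _ = _ := f.symm_apply_apply _
      rw [h1]
      exact hΩn x hx _
    have hΩsn : ∀ x ∈ nonwandering f, ∀ m, f.symm^[m] x ∈ nonwandering f := by
      intro x hx m
      induction m with
      | zero => exact hx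
      | succ m ih =>
        rw [Function.iterate_succ_apply']
        exact hΩs _ ih
    obtain ⟨A, hA, -, -, -, hAn⟩ := exists_common hfin
      (Q := fun y C _ => ∀ v : E, ‖v‖ ≤ C * √(γ.inner y v v) ∧ √(γ.inner y v v) ≤ C * ‖v‖)
      (fun y C C' _ _ hC _ hCC' _ h v => ⟨(h v).1.trans (by gcongr), (h v).2.trans (by gcongr)⟩)
      (fun y hy => by
        obtain ⟨a, ha, h⟩ := exists_norm_equiv γ y
        exact ⟨a, ha, 1 / 2, by norm_num, by norm_num, h⟩)
    obtain ⟨C₁, hC₁, μ₁, hμ₁, hμ₁1, h₁⟩ := exists_common hfin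
      (Q := fun x C ν => ∀ (m : ℕ) (v : E), P x v = v →
        ‖(D f^[m] x : E →L[ℝ] E) v‖ ≤ C * ν ^ m * ‖v‖)
      (fun y C C' ν ν' hC hν hCC' hνν' h m v hv => (h m v hv).trans (by
        have := hC.trans_le hCC'
        gcongr))
      (fun x hx => exists_rate (Dyn.mdiff f hr) hm₀ (hfix x hx) (hP x hx).hc (hP x hx).hμ
        (hP x hx).hμ1 fun k => ((hP x hx).hb k).1)
    obtain ⟨C₂, hC₂, μ₂, hμ₂, hμ₂1, h₂⟩ := exists_common hfin
      (Q := fun x C ν => ∀ (m : ℕ) (v : E), (1 - P x) v = v →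
        ‖(D f.symm^[m] x : E →L[ℝ] E) v‖ ≤ C * ν ^ m * ‖v‖)
      (fun y C C' ν ν' hC hν hCC' hνν' h m v hv => (h m v hv).trans (by
        have := hC.trans_le hCC'
        gcongr))
      (fun x hx => exists_rate (Dyn.mdiff_symm f hr) hm₀ (symm_iterate_fix f (hfix x hx))
        (hP x hx).hc (hP x hx).hμ (hP x hx).hμ1 fun k => ((hP x hx).hb k).2)
    have gen : ∀ (x y : M) (hx : x ∈ nonwandering f) (hy : y ∈ nonwandering f) (L : E →L[ℝ] E)
        (m : ℕ) (v : E) (C ν : ℝ) (hC : 0 < C) (hν : 0 < ν)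
        (hCC' : C ≤ max C₁ C₂) (hνν' : ν ≤ max μ₁ μ₂) (h : ‖L v‖ ≤ C * ν ^ m * ‖v‖),
        √(γ.inner y (L v) (L v)) ≤ (A * A * max C₁ C₂) * (max μ₁ μ₂) ^ m * √(γ.inner x v v) := by
      intro x y hx hy L m v C ν hC hν hCC' hνν' h
      have hmC : 0 < max C₁ C₂ := lt_max_of_lt_left hC₁
      have hmμ : 0 < max μ₁ μ₂ := lt_max_of_lt_left hμ₁
      calc √(γ.inner y (L v) (L v)) ≤ A * ‖L v‖ := (hAn y hy (L v)).2
        _ ≤ A * (C * ν ^ m * ‖v‖) := by gcongr
        _ ≤ A * (max C₁ C₂ * (max μ₁ μ₂) ^ m * (A * √(γ.inner x v v))) := by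
          gcongr
          exact (hAn x hx v).1
        _ = _ := by ring
    refine ⟨A * A * max C₁ C₂, by positivity, max μ₁ μ₂, lt_max_of_lt_left hμ₁, max_lt hμ₁1 hμ₂1,
      fun x hx => ⟨fun m v hv => ?_, fun m v hv => ?_⟩⟩
    · exact gen x _ hx (hΩn x hx m) (D f^[m] x) m v C₁ μ₁ hC₁ hμ₁ (le_max_left _ _)
        (le_max_left _ _) (h₁ x hx m v hv)
    · refine gen x _ hx (hΩsn x hx m) (D f.symm^[m] x) m v C₂ μ₂ hC₂ hμ₂ (le_max_right _ _)
        (le_max_right _ _) (h₂ x hx m v ?_)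
      have hv' : P x v = 0 := hv
      have e : ((1 : E →L[ℝ] E) - P x) v = (1 : E →L[ℝ] E) v - P x v := rfl
      rw [e, hv', sub_zero]
      rfl

end OmSt
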