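import Pool.Agent.OmSt.CrTop
import Pool.Agent.OmSt.Dich

/-!
# Derivatives of maps of a manifold at fixed points
-/

open Set Filter Topology Manifold ContDiff Metric

set_option linter.unusedSectionVars false

namespace OmSt

variable {E : Type*} [NormedAddCommGroup E] [NormedSpace ℝ E]
  {M : Type*} [TopologicalSpace M] [ChartedSpace E M]
  {V : Type*} [NormedAddCommGroup V] [NormedSpace ℝ V] {r : ℕ∞}

/-- The derivative of a map, as a linear endomorphism of the model space. -/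
noncomputable def D (G : M → M) (x : M) : E →L[ℝ] E := mfderiv 𝓘(ℝ, E) 𝓘(ℝ, E) G x

theorem D_comp {G H : M → M} {x : M} (hG : MDifferentiableAt 𝓘(ℝ, E) 𝓘(ℝ, E) G (H x))
    (hH : MDifferentiableAt 𝓘(ℝ, E) 𝓘(ℝ, E) H x) :
    (D (G ∘ H) x : E →L[ℝ] E) = (D G (H x) : E →L[ℝ] E) * D H x :=
  mfderiv_comp x hG hH

theorem D_id (x : M) : (D (id : M → M) x : E →L[ℝ] E) = 1 := mfderiv_id

/-- Iterates of differentiable maps. -/
theorem mdiff_iterate {G : M → M} (hG : MDifferentiable 𝓘(ℝ, E) 𝓘(ℝ, E) G) (n : ℕ) :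
    MDifferentiable 𝓘(ℝ, E) 𝓘(ℝ, E) G^[n] := by
  induction n with
  | zero => exact mdifferentiable_id
  | succ n ih =>
    rw [Function.iterate_succ']
    exact hG.comp ih

theorem D_iterate_succ {G : M → M} (hG : MDifferentiable 𝓘(ℝ, E) 𝓘(ℝ, E) G) (n : ℕ) (x : M) :
    (D G^[n + 1] x : E →L[ℝ] E) = (D G (G^[n] x) : E →L[ℝ] E) * D G^[n] x := by
  rw [Function.iterate_succ']
  exact D_comp (hG _) (mdiff_iterate hG n x)

theorem D_iterate_add {G : M → M} (hG : MDifferentiable 𝓘(ℝ, E) 𝓘(ℝ, E) G) (m n : ℕ) (x : M) :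
    (D G^[m + n] x : E →L[ℝ] E) = (D G^[m] (G^[n] x) : E →L[ℝ] E) * D G^[n] x := by
  rw [Function.iterate_add]
  exact D_comp (mdiff_iterate hG m _) (mdiff_iterate hG n x)

theorem D_iterate_mul {G : M → M} (hG : MDifferentiable 𝓘(ℝ, E) 𝓘(ℝ, E) G) (m k : ℕ) {x : M}
    (hx : G^[m] x = x) : (D G^[m * k] x : E →L[ℝ] E) = (D G^[m] x : E →L[ℝ] E) ^ k := by
  induction k with
  | zero =>
    rw [mul_zero, Function.iterate_zero, pow_zero]
    exact D_id x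
  | succ k ih =>
    rw [mul_add, mul_one, D_iterate_add hG (m * k) m x, hx, ih, pow_succ]

section Dyn

variable (g : Dyn E M r) (hr : 1 ≤ r)

include hr in
theorem one_le_cast : (1 : WithTop ℕ∞) ≤ ((r : ℕ∞) : WithTop ℕ∞) := by exact_mod_cast hr

include hr in
theorem Dyn.contMDiff_one : ContMDiff 𝓘(ℝ, E) 𝓘(ℝ, E) 1 g :=
  g.contMDiff.of_le (one_le_cast hr)

include hr in
theorem Dyn.mdiff : MDifferentiable 𝓘(ℝ, E) 𝓘(ℝ, E) g :=
  (Dyn.contMDiff_one g hr).mdifferentiable (by simp)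

include hr in
theorem Dyn.mdiff_symm : MDifferentiable 𝓘(ℝ, E) 𝓘(ℝ, E) g.symm :=
  (Dyn.contMDiff_one g.symm hr).mdifferentiable (by simp)

theorem contMDiff_iterate {G : M → M} {n : WithTop ℕ∞} (hG : ContMDiff 𝓘(ℝ, E) 𝓘(ℝ, E) n G)
    (k : ℕ) : ContMDiff 𝓘(ℝ, E) 𝓘(ℝ, E) n G^[k] := by
  induction k with
  | zero => exact contMDiff_id
  | succ k ih =>
    rw [Function.iterate_succ']
    exact hG.comp ih

include hr in
/-- The derivative of an iterate is invertible. -/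
theorem Dyn.D_inv (n : ℕ) {x : M} :
    (D g.symm^[n] (g^[n] x) : E →L[ℝ] E) * D g^[n] x = 1 ∧
      (D g^[n] x : E →L[ℝ] E) * D g.symm^[n] (g^[n] x) = 1 := by
  have h1 : g.symm^[n] (g^[n] x) = x :=
    (Function.LeftInverse.iterate g.symm_apply_apply n) x
  have e1 : g.symm^[n] ∘ g^[n] = id := funext fun y =>
    (Function.LeftInverse.iterate g.symm_apply_apply n) y
  have e2 : g^[n] ∘ g.symm^[n] = id := funext fun y =>
    (Function.LeftInverse.iterate g.apply_symm_apply n) y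
  constructor
  · rw [← D_comp (mdiff_iterate (Dyn.mdiff_symm g hr) n _) (mdiff_iterate (Dyn.mdiff g hr) n _), e1]
    exact D_id x
  · have h2 : (D g^[n] x : E →L[ℝ] E) = D g^[n] (g.symm^[n] (g^[n] x)) := by rw [h1]
    rw [h2, ← D_comp (mdiff_iterate (Dyn.mdiff g hr) n _) (mdiff_iterate (Dyn.mdiff_symm g hr) n _),
      e2]
    exact D_id _

end Dyn

variable [IsManifold 𝓘(ℝ, E) ∞ M]

theorem exists_chart_deriv {e : OpenPartialHomeomorph M E}
    (he : e ∈ IsManifold.maximalAtlas 𝓘(ℝ, E) ∞ M) {x : M} (hx : x ∈ e.source) :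
    ∃ L L' : E →L[ℝ] E, L * L' = 1 ∧ L' * L = 1 ∧
      HasMFDerivAt 𝓘(ℝ, E) 𝓘(ℝ, E) e x L ∧
      HasMFDerivAt 𝓘(ℝ, E) 𝓘(ℝ, E) e.symm (e x) L' := by
  have h1 : MDifferentiableAt 𝓘(ℝ, E) 𝓘(ℝ, E) e x :=
    (contMDiffAt_of_mem_maximalAtlas he hx).mdifferentiableAt (by simp)
  have h2 : MDifferentiableAt 𝓘(ℝ, E) 𝓘(ℝ, E) e.symm (e x) :=
    (contMDiffAt_symm_of_mem_maximalAtlas he (e.map_source hx)).mdifferentiableAt (by simp)
  refine ⟨mfderiv 𝓘(ℝ, E) 𝓘(ℝ, E) e x, mfderiv 𝓘(ℝ, E) 𝓘(ℝ, E) e.symm (e x), ?_, ?_,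
    h1.hasMFDerivAt, h2.hasMFDerivAt⟩
  · have h3 : HasMFDerivAt 𝓘(ℝ, E) 𝓘(ℝ, E) e (e.symm (e x))
        (mfderiv 𝓘(ℝ, E) 𝓘(ℝ, E) e (e.symm (e x))) := by
      rw [e.left_inv hx]
      exact h1.hasMFDerivAt
    have h4 := h3.comp (e x) h2.hasMFDerivAt
    have h5 : HasMFDerivAt 𝓘(ℝ, E) 𝓘(ℝ, E) (e ∘ e.symm) (e x)
        (ContinuousLinearMap.id ℝ (TangentSpace 𝓘(ℝ, E) (e x))) := by
      refine (hasMFDerivAt_id (I := 𝓘(ℝ, E)) (e x)).congr_of_eventuallyEq ?_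
      filter_upwards [e.open_target.mem_nhds (e.map_source hx)] with y hy
      exact e.right_inv hy
    have h6 := hasMFDerivAt_unique h4 h5
    rw [e.left_inv hx] at h6
    exact h6
  · have h4 := h2.hasMFDerivAt.comp x h1.hasMFDerivAt
    have h5 : HasMFDerivAt 𝓘(ℝ, E) 𝓘(ℝ, E) (e.symm ∘ e) x
        (ContinuousLinearMap.id ℝ (TangentSpace 𝓘(ℝ, E) x)) := by
      refine (hasMFDerivAt_id (I := 𝓘(ℝ, E)) x).congr_of_eventuallyEq ?_
      filter_upwards [e.open_source.mem_nhds hx] with y hy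
      exact e.left_inv hy
    exact hasMFDerivAt_unique h4 h5

end OmSt
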