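import Pool.Agent.OmSt.Base

/-!
# Nondegenerate fixed points, robustness under families of perturbations
-/

open Set Filter Topology Manifold ContDiff Metric

set_option linter.unusedSectionVars false

namespace OmSt

variable {E : Type*} [NormedAddCommGroup E] [NormedSpace ℝ E]
  {M : Type*} [TopologicalSpace M] [ChartedSpace E M]
  {V : Type*} [NormedAddCommGroup V] [NormedSpace ℝ V] {r : ℕ∞}

/-- `1` is not an eigenvalue. -/
def ND (A : E →L[ℝ] E) : Prop := ∀ u, A u = u → u = 0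

theorem ND.iff_det [FiniteDimensional ℝ E] {A : E →L[ℝ] E} :
    ND A ↔ (1 - A : E →L[ℝ] E).det ≠ 0 := by
  rw [ContinuousLinearMap.det, ← isUnit_iff_ne_zero, ← LinearMap.isUnit_iff_isUnit_det,
    LinearMap.isUnit_iff_ker_eq_bot, LinearMap.ker_eq_bot']
  constructor
  · intro h u hu
    refine h u ?_
    have : u - A u = 0 := hu
    exact (sub_eq_zero.1 this).symm
  · intro h u hu
    refine h u ?_
    change u - A u = 0
    rw [hu, sub_self]

theorem ND.conj {A L L' : E →L[ℝ] E} (h1 : L * L' = 1) (h2 : L' * L = 1) :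
    ND (L * A * L') ↔ ND A := by
  constructor
  · intro h u hu
    have h3 : (L * A * L') (L u) = L u := by
      have e : L' (L u) = u := congrArg (fun T : E →L[ℝ] E => T u) h2
      change L (A (L' (L u))) = L u
      rw [e, hu]
    have h4 := h _ h3
    have e : L' (L u) = u := congrArg (fun T : E →L[ℝ] E => T u) h2
    rw [← e, h4, map_zero]
  · intro h u hu
    have e1 : L' (L (A (L' u))) = A (L' u) := congrArg (fun T : E →L[ℝ] E => T (A (L' u))) h2
    have h3 : A (L' u) = L' u := by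
      have hu' : L (A (L' u)) = u := hu
      rw [← e1, hu']
    have h4 := h _ h3
    have e : L (L' u) = u := congrArg (fun T : E →L[ℝ] E => T u) h1
    rw [← e, h4, map_zero]

/-- The iterates of a perturbation, jointly in the parameter and the point. -/
theorem Fam.contMDiffAt_iterate (Ψ : Fam E M V) (g : Dyn E M r) (n : ℕ) :
    ∀ᶠ v in 𝓝 (0 : V), ∀ x, ContMDiffAt (𝓘(ℝ, V).prod 𝓘(ℝ, E)) 𝓘(ℝ, E) r
      (fun p : V × M => (pert g (Ψ.toFun p.1))^[n] p.2) (v, x) := by
  filter_upwards [Ψ.smooth] with v hv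
  intro x
  induction n with
  | zero => exact contMDiffAt_snd
  | succ n ih =>
    have h1 : ContMDiffAt (𝓘(ℝ, V).prod 𝓘(ℝ, E)) (𝓘(ℝ, V).prod 𝓘(ℝ, E)) r
        (fun p : V × M => (p.1, (pert g (Ψ.toFun p.1))^[n] p.2)) (v, x) :=
      contMDiffAt_fst.prodMk ih
    have h2 : ContMDiffAt (𝓘(ℝ, V).prod 𝓘(ℝ, E)) 𝓘(ℝ, E) r
        (fun p : V × M => g (Ψ.toFun p.1 p.2)) (v, (pert g (Ψ.toFun v))^[n] x) :=
      ContMDiffAt.comp _ (g := g) g.contMDiffAt
        ((hv ((pert g (Ψ.toFun v))^[n] x)).of_le (by exact_mod_cast le_top))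
    have h3 := ContMDiffAt.comp (v, x) h2 h1
    refine h3.congr_of_eventuallyEq (Eventually.of_forall fun p => ?_)
    simp only [Function.iterate_succ_apply', Function.comp]
    rfl

theorem Fam.continuousAt_iterate (Ψ : Fam E M V) (g : Dyn E M r) (n : ℕ) (x : M) :
    ContinuousAt (fun p : V × M => (pert g (Ψ.toFun p.1))^[n] p.2) (0, x) :=
  ((Ψ.contMDiffAt_iterate g n).self_of_nhds x).continuousAt

theorem Fam.iterate_zero (Ψ : Fam E M V) (g : Dyn E M r) (n : ℕ) (x : M) :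
    (pert g (Ψ.toFun 0))^[n] x = g^[n] x := by rw [pert_zero]

section Partial

variable {F : Type*} [NormedAddCommGroup F] [NormedSpace ℝ F]

theorem fderiv_partial {f : V × E → F} {q : V × E} (h : DifferentiableAt ℝ f q) :
    HasFDerivAt (fun z => f (q.1, z)) ((fderiv ℝ f q).comp (ContinuousLinearMap.inr ℝ V E)) q.2 := by
  have h1 : HasFDerivAt (fun z : E => (q.1, z)) (ContinuousLinearMap.inr ℝ V E) q.2 :=
    hasFDerivAt_prodMk_right q.1 q.2
  exact HasFDerivAt.comp (g := f) (f := fun z : E => (q.1, z)) q.2 h.hasFDerivAt h1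

theorem continuousAt_fderiv_partial {f : V × E → F} {p : V × E} (h : ContDiffAt ℝ 1 f p) :
    ContinuousAt (fun q : V × E => fderiv ℝ (fun z => f (q.1, z)) q.2) p := by
  have h1 : ContinuousAt (fun q => (fderiv ℝ f q).comp (ContinuousLinearMap.inr ℝ V E)) p := by
    have h2 : ContinuousAt (fderiv ℝ f) p := h.continuousAt_fderiv (by simp)
    exact ((ContinuousLinearMap.compL ℝ E (V × E) F).flip
      (ContinuousLinearMap.inr ℝ V E)).continuous.continuousAt.comp h2
  refine h1.congr ?_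
  filter_upwards [h.eventually (by simp)] with q hq
  exact (fderiv_partial (hq.differentiableAt (by simp))).fderiv.symm

end Partial

variable [IsManifold 𝓘(ℝ, E) ∞ M]

theorem hasMFDerivAt_comp₁ {f : E → M} {G : M → M} {z : E} {x : M} (hfx : f z = x)
    {A B : E →L[ℝ] E} (hG : HasMFDerivAt 𝓘(ℝ, E) 𝓘(ℝ, E) G x A)
    (hf : HasMFDerivAt 𝓘(ℝ, E) 𝓘(ℝ, E) f z B) :
    HasMFDerivAt 𝓘(ℝ, E) 𝓘(ℝ, E) (G ∘ f) z (A * B : E →L[ℝ] E) := by
  subst hfx
  exact hG.comp z hf

theorem hasMFDerivAt_comp₂ {f : E → M} {e : M → E} {z : E} {x : M} (hfx : f z = x)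
    {A B : E →L[ℝ] E} (hG : HasMFDerivAt 𝓘(ℝ, E) 𝓘(ℝ, E) e x A)
    (hf : HasMFDerivAt 𝓘(ℝ, E) 𝓘(ℝ, E) f z B) :
    HasFDerivAt (e ∘ f) (A * B : E →L[ℝ] E) z := by
  subst hfx
  have := hG.comp z hf
  rw [hasMFDerivAt_iff_hasFDerivAt] at this
  exact this

theorem contMDiffAt_comp_snd {G : M → M} {x : M} {n : WithTop ℕ∞}
    (hG : ContMDiffAt 𝓘(ℝ, E) 𝓘(ℝ, E) n G x) (v : V) :
    ContMDiffAt (𝓘(ℝ, V).prod 𝓘(ℝ, E)) 𝓘(ℝ, E) n (fun p : V × M => G p.2) (v, x) :=
  ContMDiffAt.comp (v, x) (g := G) hG contMDiffAt_snd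

/-- The derivative in a chart at a fixed point. -/
theorem exists_chart_conj {e : OpenPartialHomeomorph M E}
    (he : e ∈ IsManifold.maximalAtlas 𝓘(ℝ, E) ∞ M) {x : M} (hx : x ∈ e.source) :
    ∃ L L' : E →L[ℝ] E, L * L' = 1 ∧ L' * L = 1 ∧
      ∀ G : M → M, MDifferentiableAt 𝓘(ℝ, E) 𝓘(ℝ, E) G x → G x = x →
        HasFDerivAt (fun z => e (G (e.symm z))) (L * D G x * L') (e x) := by
  obtain ⟨L, L', h1, h2, h3, h4⟩ := exists_chart_deriv he hx
  refine ⟨L, L', h1, h2, fun G hG hGx => ?_⟩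
  have h5 : HasMFDerivAt 𝓘(ℝ, E) 𝓘(ℝ, E) G x (D G x : E →L[ℝ] E) := hG.hasMFDerivAt
  have h6 := hasMFDerivAt_comp₁ (e.left_inv hx) h5 h4
  have h8 := hasMFDerivAt_comp₂ (f := G ∘ e.symm) (by simp [e.left_inv hx, hGx]) h3 h6
  rw [mul_assoc]
  exact h8

/-- Nondegeneracy in a chart. -/
theorem nd_iff_chart {e : OpenPartialHomeomorph M E}
    (he : e ∈ IsManifold.maximalAtlas 𝓘(ℝ, E) ∞ M) {x : M} (hx : x ∈ e.source) {G : M → M}
    (hG : MDifferentiableAt 𝓘(ℝ, E) 𝓘(ℝ, E) G x) (hGx : G x = x) :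
    ND (fderiv ℝ (fun z => e (G (e.symm z))) (e x)) ↔ ND (D G x : E →L[ℝ] E) := by
  obtain ⟨L, L', h1, h2, h3⟩ := exists_chart_conj he hx
  rw [(h3 G hG hGx).fderiv]
  exact ND.conj h1 h2

/-- Nondegenerate fixed points are isolated. -/
theorem eventually_ne_of_nd [FiniteDimensional ℝ E] {G : M → M} {x : M}
    (hG : ContMDiffAt 𝓘(ℝ, E) 𝓘(ℝ, E) 1 G x) (hGx : G x = x) (h : ND (D G x : E →L[ℝ] E)) :
    ∀ᶠ y in 𝓝 x, G y = y → y = x := by
  set e := chartAt E x with he
  have hmax : e ∈ IsManifold.maximalAtlas 𝓘(ℝ, E) ∞ M := IsManifold.chart_mem_maximalAtlas x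
  have hx : x ∈ e.source := mem_chart_source E x
  have hφ : ContDiffAt ℝ 1 (fun z => e (G (e.symm z))) (e x) := by
    have h0 := contDiffAt_chart (V := ℝ) (v := 0) (G := fun p : ℝ × M => G p.2) (z := e x)
      (n := 1) hmax hmax (contMDiffAt_comp_snd (by rw [e.left_inv hx]; exact hG) 0)
      (e.map_source hx) (by rw [e.left_inv hx, hGx]; exact hx)
    exact h0.comp (e x) (contDiffAt_const.prodMk contDiffAt_id)
  have hnd := (nd_iff_chart hmax hx (hG.mdifferentiableAt (by simp)) hGx).2 h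
  set A := fderiv ℝ (fun z => e (G (e.symm z))) (e x) with hA
  have hdet := ND.iff_det.1 hnd
  have hs : HasStrictFDerivAt (fun z => z - e (G (e.symm z)))
      ((ContinuousLinearMap.toContinuousLinearEquivOfDetNeZero _ hdet : E ≃L[ℝ] E) :
        E →L[ℝ] E) (e x) := by
    have h1 := (hasStrictFDerivAt_id (𝕜 := ℝ) (e x)).sub (hφ.hasStrictFDerivAt (by simp))
    have e1 : ((ContinuousLinearMap.toContinuousLinearEquivOfDetNeZero _ hdet : E ≃L[ℝ] E) :
        E →L[ℝ] E) = ContinuousLinearMap.id ℝ E -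
          fderiv ℝ (fun z => e (G (e.symm z))) (e x) := by
      ext u
      simp only [ContinuousLinearMap.coe_toContinuousLinearEquivOfDetNeZero]
      rfl
    rw [e1]
    exact h1
  have hinj : ∀ᶠ z in 𝓝 (e x), e (G (e.symm z)) = z → z = e x := by
    have hsrc := hs.mem_toOpenPartialHomeomorph_source
    filter_upwards [(hs.toOpenPartialHomeomorph _).open_source.mem_nhds hsrc] with z hz hzz
    refine (hs.toOpenPartialHomeomorph _).injOn hz hsrc ?_
    rw [HasStrictFDerivAt.toOpenPartialHomeomorph_coe]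
    simp only [hzz, e.left_inv hx, hGx, sub_self]
  filter_upwards [(e.continuousAt hx).eventually hinj, e.open_source.mem_nhds hx] with y hy hys hGy
  have h2 := hy (by rw [e.left_inv hys, hGy])
  exact e.injOn hys hx h2

/-- A compact set contains finitely many nondegenerate fixed points. -/
theorem finite_of_nd [FiniteDimensional ℝ E] [T2Space M] {G : M → M}
    (hG : ContMDiff 𝓘(ℝ, E) 𝓘(ℝ, E) 1 G) {K : Set M} (hK : IsCompact K)
    (h : ∀ x ∈ K, G x = x → ND (D G x : E →L[ℝ] E)) : {x ∈ K | G x = x}.Finite := by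
  have hK' : IsCompact {x ∈ K | G x = x} :=
    hK.inter_right (isClosed_eq hG.continuous continuous_id)
  refine hK'.finite (IsDiscrete.of_nhdsWithin fun x hx => ?_)
  have h1 := eventually_ne_of_nd hG.contMDiffAt hx.2 (h x hx.1 hx.2)
  intro t ht
  have hxt : x ∈ t := ht
  rw [mem_nhdsWithin_iff_eventually]
  filter_upwards [h1] with y hy hy'
  rw [hy hy'.2]
  exact hxt

/-- Nondegeneracy of fixed points is robust. -/
theorem Fam.eventually_nd [FiniteDimensional ℝ E] [T2Space M] (Ψ : Fam E M V) (g : Dyn E M r)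
    (hr : 1 ≤ r) (n : ℕ) {x : M} (hx : g^[n] x = x → ND (D g^[n] x : E →L[ℝ] E)) :
    ∀ᶠ p : V × M in 𝓝 (0, x), (pert g (Ψ.toFun p.1))^[n] p.2 = p.2 →
      ND (D (pert g (Ψ.toFun p.1))^[n] p.2 : E →L[ℝ] E) := by
  by_cases hgx : g^[n] x = x
  · set e := chartAt E x with he
    have hmax : e ∈ IsManifold.maximalAtlas 𝓘(ℝ, E) ∞ M := IsManifold.chart_mem_maximalAtlas x
    have hxe : x ∈ e.source := mem_chart_source E x
    have h0 := (Ψ.contMDiffAt_iterate g n).self_of_nhds x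
    have hφ : ContDiffAt ℝ 1
        (fun q : V × E => e ((pert g (Ψ.toFun q.1))^[n] (e.symm q.2))) (0, e x) := by
      refine contDiffAt_chart (G := fun p : V × M => (pert g (Ψ.toFun p.1))^[n] p.2)
        (n := 1) hmax hmax ?_ (e.map_source hxe) ?_
      · rw [e.left_inv hxe]
        exact h0.of_le (one_le_cast hr)
      · simp only [e.left_inv hxe, pert_zero, hgx]
        exact hxe
    have hcont := continuousAt_fderiv_partial hφ
    have hopen : ∀ᶠ q : V × E in 𝓝 (0, e x), ND (fderiv ℝ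
        (fun z => e ((pert g (Ψ.toFun q.1))^[n] (e.symm z))) q.2) := by
      have hdet : ContinuousAt (fun q : V × E => ((1 : E →L[ℝ] E) - fderiv ℝ
          (fun z => e ((pert g (Ψ.toFun q.1))^[n] (e.symm z))) q.2).det) (0, e x) :=
        (ContinuousLinearMap.continuous_det).continuousAt.comp (continuousAt_const.sub hcont)
      have hne : ((1 : E →L[ℝ] E) - fderiv ℝ
          (fun z => e ((pert g (Ψ.toFun (0 : V)))^[n] (e.symm z))) (e x)).det ≠ 0 := by
        refine ND.iff_det.1 ?_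
        rw [pert_zero]
        exact (nd_iff_chart hmax hxe (mdiff_iterate (Dyn.mdiff g hr) n x) hgx).2 (hx hgx)
      filter_upwards [hdet.eventually_ne hne] with q hq
      exact ND.iff_det.2 hq
    have c1 : ContinuousAt (fun p : V × M => (p.1, e p.2)) (0, x) :=
      continuousAt_fst.prodMk ((e.continuousAt hxe).comp continuousAt_snd)
    have h1 := c1.eventually hopen
    have h2 : ∀ᶠ p : V × M in 𝓝 (0, x), p.2 ∈ e.source :=
      continuous_snd.continuousAt.eventually (e.open_source.mem_nhds hxe)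
    filter_upwards [h1, h2] with p hp1 hp2 hp3
    exact (nd_iff_chart hmax hp2 (mdiff_iterate (Dyn.mdiff _ hr) n _) hp3).1 hp1
  · have h1 : ∀ᶠ p : V × M in 𝓝 (0, x), (pert g (Ψ.toFun p.1))^[n] p.2 ≠ p.2 := by
      have h2 := Ψ.continuousAt_iterate g n x
      have h3 : (pert g (Ψ.toFun (0, x).1))^[n] (0, x).2 ≠ ((0 : V), x).2 := by
        simp only [pert_zero]
        exact hgx
      exact (h2.prodMk continuousAt_snd).eventually
        ((isClosed_diagonal.isOpen_compl).mem_nhds h3)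
    filter_upwards [h1] with p hp hp'
    exact absurd hp' hp

end OmSt
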