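import Pool.Agent.OmSt.Defs

/-!
# Limits of cyclic pseudo-orbits
-/

open Set Filter Topology Metric

set_option linter.unusedSectionVars false

namespace OmSt

variable {X : Type*} [MetricSpace X] [CompactSpace X]

/-- A cyclic `ε`-pseudo-orbit of period `N`. -/
def IsCyc (f : X → X) (ε : ℝ) (c : ℕ → X) (N : ℕ) : Prop :=
  0 < N ∧ (∀ i, c (i + N) = c i) ∧ ∀ i, dist (f (c i)) (c (i + 1)) < ε

/-- `L` is a Hausdorff limit of cyclic pseudo-orbits. -/
def Trans (f : X → X) (L : Set X) : Prop :=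
  IsClosed L ∧ L.Nonempty ∧ ∀ ε > 0, ∃ c N, IsCyc f ε c N ∧
    (∀ i, ∃ y ∈ L, dist (c i) y < ε) ∧ ∀ y ∈ L, ∃ i, dist y (c i) < ε

theorem Trans.mapsTo (f : X ≃ₜ X) {L : Set X} (hL : Trans f L) : MapsTo f L L := by
  intro y hy
  rw [← hL.1.closure_eq, Metric.mem_closure_iff]
  intro ε hε
  have huc : UniformContinuous f := CompactSpace.uniformContinuous_of_continuous f.continuous
  obtain ⟨δ, hδ, h1⟩ := Metric.uniformContinuous_iff.1 huc (ε / 3) (by positivity)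
  obtain ⟨c, N, ⟨-, -, hc3⟩, h2, h3⟩ := hL.2.2 (min δ (ε / 3)) (by positivity)
  obtain ⟨i, hi⟩ := h3 y hy
  obtain ⟨b, hb, hb'⟩ := h2 (i + 1)
  refine ⟨b, hb, ?_⟩
  have e1 := h1 (hi.trans_le (min_le_left _ _))
  have e2 := (hc3 i).trans_le (min_le_right _ _)
  have e3 := hb'.trans_le (min_le_right _ _)
  calc dist (f y) b ≤ dist (f y) (f (c i)) + dist (f (c i)) (c (i + 1)) + dist (c (i + 1)) b :=
        dist_triangle4 _ _ _ _
    _ < ε / 3 + ε / 3 + ε / 3 := by linarith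
    _ = ε := by ring

theorem Trans.mapsTo_symm (f : X ≃ₜ X) {L : Set X} (hL : Trans f L) : MapsTo f.symm L L := by
  intro y hy
  rw [← hL.1.closure_eq, Metric.mem_closure_iff]
  intro ε hε
  have huc : UniformContinuous f.symm :=
    CompactSpace.uniformContinuous_of_continuous f.symm.continuous
  obtain ⟨δ, hδ, h1⟩ := Metric.uniformContinuous_iff.1 huc (ε / 2) (by positivity)
  obtain ⟨c, N, ⟨hN, hc2, hc3⟩, h2, h3⟩ := hL.2.2 (min (δ / 2) (ε / 2)) (by positivity)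
  obtain ⟨i, hi⟩ := h3 y hy
  obtain ⟨j, hj⟩ : ∃ j, i + N = j + 1 := ⟨i + N - 1, by omega⟩
  obtain ⟨b, hb, hb'⟩ := h2 j
  refine ⟨b, hb, ?_⟩
  have e1 := hc3 j
  rw [← hj, hc2] at e1
  have e2 : dist y (f (c j)) < δ := by
    have e3 := hi.trans_le (min_le_left _ _)
    have e4 := e1.trans_le (min_le_left _ _)
    calc dist y (f (c j)) ≤ dist y (c i) + dist (c i) (f (c j)) := dist_triangle _ _ _
      _ = dist y (c i) + dist (f (c j)) (c i) := by rw [dist_comm (c i)]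
      _ < δ / 2 + δ / 2 := by linarith
      _ = δ := by ring
  have e5 := h1 e2
  rw [f.symm_apply_apply] at e5
  have e6 := hb'.trans_le (min_le_right _ _)
  calc dist (f.symm y) b ≤ dist (f.symm y) (c j) + dist (c j) b := dist_triangle _ _ _
    _ < ε / 2 + ε / 2 := by linarith
    _ = ε := by ring

theorem Trans.iterate_mem (f : X ≃ₜ X) {L : Set X} (hL : Trans f L) {y : X} (hy : y ∈ L) (k : ℕ) :
    f^[k] y ∈ L := (hL.mapsTo f).iterate k hy

theorem Trans.iterate_symm_mem (f : X ≃ₜ X) {L : Set X} (hL : Trans f L) {y : X} (hy : y ∈ L)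
    (k : ℕ) : f.symm^[k] y ∈ L := (hL.mapsTo_symm f).iterate k hy

/-- The cyclic pseudo-orbit given by an almost closed orbit segment. -/
theorem isCyc_of_close {f : X → X} {x : X} {N : ℕ} (hN : 0 < N) {ε : ℝ}
    (h : dist (f^[N] x) x < ε) : IsCyc f ε (fun i => f^[i % N] x) N := by
  have hε : 0 < ε := dist_nonneg.trans_lt h
  refine ⟨hN, fun i => by simp, fun i => ?_⟩
  have hlt : i % N < N := Nat.mod_lt _ hN
  have e0 : f (f^[i % N] x) = f^[i % N + 1] x := by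
    rw [Function.iterate_succ_apply']
  change dist (f (f^[i % N] x)) (f^[(i + 1) % N] x) < ε
  rw [e0]
  by_cases hi : i % N + 1 < N
  · have : (i + 1) % N = i % N + 1 := by
      rw [Nat.add_mod, Nat.mod_eq_of_lt (a := i % N + 1 % N)]
      · rw [Nat.mod_eq_of_lt (a := 1) (by omega)]
      · rw [Nat.mod_eq_of_lt (a := 1) (by omega)]
        exact hi
    rw [this, dist_self]
    exact hε
  · have h1 : i % N + 1 = N := by omega
    have : (i + 1) % N = 0 := by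
      have h2 : i + 1 = N * (i / N + 1) := by
        have := Nat.div_add_mod i N
        rw [mul_add]
        omega
      rw [h2]
      simp
    rw [this, h1]
    simpa using h

/-- Compactness of the space of closed sets, in elementary terms. -/
theorem exists_limit (K : ℕ → Set X) (hne : ∀ n, (K n).Nonempty) :
    ∃ L : Set X, IsClosed L ∧ L.Nonempty ∧ ∀ ε > 0, ∀ᶠ n in (hyperfilter ℕ : Filter ℕ),
      (∀ x ∈ K n, ∃ y ∈ L, dist x y < ε) ∧ ∀ y ∈ L, ∃ x ∈ K n, dist y x < ε := by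
  classical
  set 𝒰 : Ultrafilter ℕ := hyperfilter ℕ with h𝒰
  set L : Set X := {y | ∀ ε > 0, ∀ᶠ n in (𝒰 : Filter ℕ), ∃ x ∈ K n, dist y x < ε} with hL
  have hlim : ∀ z : ℕ → X, ∃ a : X, Tendsto z 𝒰 (𝓝 a) := by
    intro z
    obtain ⟨a, -, ha⟩ := isCompact_univ.ultrafilter_le_nhds (𝒰.map z) (by simp)
    exact ⟨a, ha⟩
  have hmem : ∀ z : ℕ → X, (∀ᶠ n in (𝒰 : Filter ℕ), z n ∈ K n) → ∀ a, Tendsto z 𝒰 (𝓝 a) →
      a ∈ L := by
    intro z hz a ha ε hε
    have h1 : ∀ᶠ n in (𝒰 : Filter ℕ), dist (z n) a < ε := ha.eventually (ball_mem_nhds a hε)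
    filter_upwards [hz, h1] with n hn hn'
    exact ⟨z n, hn, by rwa [dist_comm]⟩
  refine ⟨L, ?_, ?_, ?_⟩
  · rw [← isOpen_compl_iff, Metric.isOpen_iff]
    intro y hy
    simp only [hL, mem_compl_iff, mem_ofPred_eq, not_forall] at hy
    obtain ⟨ε, hε, h1⟩ := hy
    refine ⟨ε / 2, by positivity, fun y' hy' => ?_⟩
    simp only [hL, mem_compl_iff, mem_ofPred_eq, not_forall]
    refine ⟨ε / 2, by positivity, fun h2 => h1 ?_⟩
    filter_upwards [h2] with n hn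
    obtain ⟨x, hx, hx'⟩ := hn
    refine ⟨x, hx, ?_⟩
    rw [mem_ball, dist_comm] at hy'
    calc dist y x ≤ dist y y' + dist y' x := dist_triangle _ _ _
      _ < ε / 2 + ε / 2 := by linarith
      _ = ε := by ring
  · choose z hz using hne
    obtain ⟨a, ha⟩ := hlim z
    exact ⟨a, hmem z (Eventually.of_forall hz) a ha⟩
  · intro ε hε
    have hA : ∀ᶠ n in (𝒰 : Filter ℕ), ∀ x ∈ K n, ∃ y ∈ L, dist x y < ε := by
      by_contra hcon
      rw [Ultrafilter.eventually_not.symm] at hcon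
      have h2 : ∀ n, ∃ x, (¬ ∀ x ∈ K n, ∃ y ∈ L, dist x y < ε) →
          x ∈ K n ∧ ∀ y ∈ L, ε ≤ dist x y := by
        intro n
        by_cases h : ∀ x ∈ K n, ∃ y ∈ L, dist x y < ε
        · obtain ⟨x, hx⟩ := hne n
          exact ⟨x, fun h' => absurd h h'⟩
        · push Not at h
          obtain ⟨x, hx, hx'⟩ := h
          exact ⟨x, fun _ => ⟨hx, hx'⟩⟩
      choose z hz using h2
      obtain ⟨a, ha⟩ := hlim z
      have haL : a ∈ L := hmem z (hcon.mono fun n hn => (hz n hn).1) a ha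
      have h3 : ∀ᶠ n in (𝒰 : Filter ℕ), dist (z n) a < ε := ha.eventually (ball_mem_nhds a hε)
      obtain ⟨n, hn1, hn2⟩ := (hcon.and h3).exists
      exact absurd hn2 (not_lt.2 ((hz n hn1).2 a haL))
    have hB : ∀ᶠ n in (𝒰 : Filter ℕ), ∀ y ∈ L, ∃ x ∈ K n, dist y x < ε := by
      have hLc : TotallyBounded L := isCompact_univ.totallyBounded.subset (subset_univ _)
      obtain ⟨t, htL, htf, ht⟩ := finite_approx_of_totallyBounded hLc (ε / 2) (by positivity)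
      have h4 : ∀ᶠ n in (𝒰 : Filter ℕ), ∀ y ∈ t, ∃ x ∈ K n, dist y x < ε / 2 :=
        (eventually_all_finite htf).2 fun y hy => htL hy _ (by positivity)
      filter_upwards [h4] with n hn y hy
      obtain ⟨y', hy', hyy'⟩ := mem_iUnion₂.1 (ht hy)
      obtain ⟨x, hx, hx'⟩ := hn y' hy'
      refine ⟨x, hx, ?_⟩
      calc dist y x ≤ dist y y' + dist y' x := dist_triangle _ _ _
        _ < ε / 2 + ε / 2 := add_lt_add hyy' hx'
        _ = ε := by ring
    exact hA.and hB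

/-- Hausdorff limits of cyclic pseudo-orbits are in the class `Trans`. -/
theorem trans_of_limit {f : X → X} {c : ℕ → ℕ → X} {N : ℕ → ℕ} {ε : ℕ → ℝ}
    (hc : ∀ n, IsCyc f (ε n) (c n) (N n)) (hε : Tendsto ε atTop (𝓝 0)) {L : Set X}
    (hL : IsClosed L) (hL0 : L.Nonempty)
    (h : ∀ δ > 0, ∀ᶠ n in (hyperfilter ℕ : Filter ℕ),
      (∀ x ∈ range (c n), ∃ y ∈ L, dist x y < δ) ∧ ∀ y ∈ L, ∃ x ∈ range (c n), dist y x < δ) :
    Trans f L := by
  refine ⟨hL, hL0, fun δ hδ => ?_⟩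
  have h1 : ∀ᶠ n in (hyperfilter ℕ : Filter ℕ), ε n < δ :=
    (Nat.hyperfilter_le_atTop (hε.eventually (Iio_mem_nhds hδ)))
  obtain ⟨n, hn1, hn2, hn3⟩ := (h1.and (h δ hδ)).exists
  obtain ⟨c1, c2, c3⟩ := hc n
  refine ⟨c n, N n, ⟨c1, c2, fun i => (c3 i).trans hn1⟩, fun i => hn2 _ ⟨i, rfl⟩, fun y hy => ?_⟩
  obtain ⟨_, ⟨i, rfl⟩, hi⟩ := hn3 y hy
  exact ⟨i, hi⟩

theorem exists_trans_of_cyc {f : X → X} {c : ℕ → ℕ → X} {N : ℕ → ℕ} {ε : ℕ → ℝ}
    (hc : ∀ n, IsCyc f (ε n) (c n) (N n)) (hε : Tendsto ε atTop (𝓝 0)) :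
    ∃ L, Trans f L ∧ ∀ δ > 0, ∀ᶠ n in (hyperfilter ℕ : Filter ℕ),
      (∀ i, ∃ y ∈ L, dist (c n i) y < δ) ∧ ∀ y ∈ L, ∃ i, dist y (c n i) < δ := by
  obtain ⟨L, hL, hL0, h⟩ := exists_limit (fun n => range (c n)) (fun n => ⟨_, 0, rfl⟩)
  refine ⟨L, trans_of_limit hc hε hL hL0 h, fun δ hδ => ?_⟩
  filter_upwards [h δ hδ] with n hn
  refine ⟨fun i => hn.1 _ ⟨i, rfl⟩, fun y hy => ?_⟩
  obtain ⟨_, ⟨i, rfl⟩, hi⟩ := hn.2 y hy
  exact ⟨i, hi⟩

/-- A nonwandering point lies in a set of the class `Trans`. -/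
theorem exists_trans_of_nonwandering {f : X → X} {x : X} (hx : x ∈ nonwandering f) :
    ∃ L, Trans f L ∧ x ∈ L := by
  have h1 : ∀ n : ℕ, ∃ z : X, ∃ k > 0, dist z x < 1 / ((n : ℝ) + 1) ∧
      dist (f^[k] z) x < 1 / ((n : ℝ) + 1) := by
    intro n
    obtain ⟨k, hk, w, ⟨z, hz, rfl⟩, hw⟩ := hx (ball x (1 / ((n : ℝ) + 1)))
      (ball_mem_nhds x (by positivity))
    exact ⟨z, k, hk, hz, hw⟩
  choose z k hk hz1 hz2 using h1
  have hε : Tendsto (fun n : ℕ => 2 * (1 / ((n : ℝ) + 1))) atTop (𝓝 0) := by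
    simpa using tendsto_one_div_add_atTop_nhds_zero_nat.const_mul (2 : ℝ)
  have hc : ∀ n : ℕ, IsCyc f (2 * (1 / ((n : ℝ) + 1))) (fun i => f^[i % k n] (z n)) (k n) := by
    intro n
    refine isCyc_of_close (hk n) ?_
    calc dist (f^[k n] (z n)) (z n) ≤ dist (f^[k n] (z n)) x + dist (z n) x :=
          dist_triangle_right _ _ _
      _ < 2 * (1 / ((n : ℝ) + 1)) := by linarith [hz1 n, hz2 n]
  obtain ⟨L, hL, h⟩ := exists_trans_of_cyc hc hε
  refine ⟨L, hL, ?_⟩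
  rw [← hL.1.closure_eq, Metric.mem_closure_iff]
  intro δ hδ
  have h2 : ∀ᶠ n : ℕ in (hyperfilter ℕ : Filter ℕ), 1 / ((n : ℝ) + 1) < δ / 2 :=
    Nat.hyperfilter_le_atTop
      (tendsto_one_div_add_atTop_nhds_zero_nat.eventually (Iio_mem_nhds (by positivity)))
  obtain ⟨n, hn1, hn2, -⟩ := (h2.and (h (δ / 2) (by positivity))).exists
  obtain ⟨y, hy, hy'⟩ := hn2 0
  refine ⟨y, hy, ?_⟩
  simp only [Nat.zero_mod, Function.iterate_zero, id_eq] at hy'
  calc dist x y ≤ dist (z n) x + dist (z n) y := by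
        rw [dist_comm (z n) x]; exact dist_triangle _ _ _
    _ < δ / 2 + δ / 2 := add_lt_add ((hz1 n).trans hn1) hy'
    _ = δ := by ring

/-- The `ω`-limit set. -/
def omegaL (f : X → X) (x : X) : Set X := {y | MapClusterPt y atTop (fun n => f^[n] x)}

theorem mem_omegaL_iff {f : X → X} {x y : X} :
    y ∈ omegaL f x ↔ ∀ ε > 0, ∀ N : ℕ, ∃ n ≥ N, dist (f^[n] x) y < ε := by
  change MapClusterPt y atTop (fun n => f^[n] x) ↔ _
  rw [(Metric.nhds_basis_ball).mapClusterPt_iff_frequently]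
  simp only [frequently_atTop, mem_ball]

theorem isClosed_omegaL (f : X → X) (x : X) : IsClosed (omegaL f x) :=
  isClosed_setOfPred_clusterPt

theorem omegaL_nonempty (f : X → X) (x : X) : (omegaL f x).Nonempty := by
  obtain ⟨y, -, hy⟩ := isCompact_univ.exists_mapClusterPt (f := atTop) (u := fun n => f^[n] x)
    (by simp)
  exact ⟨y, hy⟩

theorem eventually_near_omegaL (f : X → X) (x : X) {ε : ℝ} (hε : 0 < ε) :
    ∃ N : ℕ, ∀ n ≥ N, ∃ y ∈ omegaL f x, dist (f^[n] x) y < ε := by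
  by_contra hcon
  push Not at hcon
  set K : Set X := {z | ∀ y ∈ omegaL f x, ε ≤ dist z y} with hK
  have hKc : IsClosed K := by
    have : K = ⋂ y ∈ omegaL f x, {z | ε ≤ dist z y} := by
      ext z
      simp [hK]
    rw [this]
    exact isClosed_biInter fun y _ => isClosed_le continuous_const (continuous_id.dist continuous_const)
  have hfr : ∃ᶠ n in atTop, f^[n] x ∈ K := by
    rw [frequently_atTop]
    intro N
    obtain ⟨n, hn, hn'⟩ := hcon N
    exact ⟨n, hn, hn'⟩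
  obtain ⟨a, haK, ha⟩ := hKc.isCompact.exists_mapClusterPt_of_frequently hfr
  have := haK a ha
  rw [dist_self] at this
  linarith

theorem trans_omegaL (f : X → X) (x : X) : Trans f (omegaL f x) := by
  refine ⟨isClosed_omegaL f x, omegaL_nonempty f x, fun ε hε => ?_⟩
  obtain ⟨N₀, hN₀⟩ := eventually_near_omegaL f x hε
  have hLc : TotallyBounded (omegaL f x) := isCompact_univ.totallyBounded.subset (subset_univ _)
  obtain ⟨t, htL, htf, ht⟩ := finite_approx_of_totallyBounded hLc (ε / 2) (by positivity)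
  obtain ⟨y₀, hy₀⟩ := omegaL_nonempty f x
  obtain ⟨n₀, hn₀, hn₀'⟩ := mem_omegaL_iff.1 hy₀ (ε / 2) (by positivity) N₀
  have h1 : ∀ y : X, ∃ n ≥ n₀, y ∈ t → dist (f^[n] x) y < ε / 2 := by
    intro y
    by_cases hy : y ∈ t
    · obtain ⟨n, hn, hn'⟩ := mem_omegaL_iff.1 (htL hy) (ε / 2) (by positivity) n₀
      exact ⟨n, hn, fun _ => hn'⟩
    · exact ⟨n₀, le_rfl, fun h => absurd h hy⟩
  choose m hm hm' using h1
  obtain ⟨B, hB⟩ := (htf.image m).bddAbove
  obtain ⟨n₁, hn₁, hn₁'⟩ := mem_omegaL_iff.1 hy₀ (ε / 2) (by positivity) (max B n₀ + 1)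
  have hlt : n₀ < n₁ := by
    have := le_max_right B n₀
    omega
  obtain ⟨N, rfl⟩ : ∃ N, n₁ = n₀ + N := ⟨n₁ - n₀, by omega⟩
  have hN : 0 < N := by omega
  refine ⟨fun i => f^[i % N] (f^[n₀] x), N, isCyc_of_close hN ?_, fun i => ?_, fun y hy => ?_⟩
  · rw [← Function.iterate_add_apply, add_comm N n₀]
    calc dist (f^[n₀ + N] x) (f^[n₀] x) ≤ dist (f^[n₀ + N] x) y₀ + dist (f^[n₀] x) y₀ :=
          dist_triangle_right _ _ _
      _ < ε / 2 + ε / 2 := add_lt_add hn₁' hn₀'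
      _ = ε := by ring
  · obtain ⟨y, hy, hy'⟩ := hN₀ (i % N + n₀) (by omega)
    refine ⟨y, hy, ?_⟩
    change dist (f^[i % N] (f^[n₀] x)) y < ε
    rw [← Function.iterate_add_apply]
    exact hy'
  · obtain ⟨y', hy', hyy'⟩ := mem_iUnion₂.1 (ht hy)
    have h3 : m y' ≤ B := hB ⟨y', hy', rfl⟩
    have h4 := hm y'
    have h5 : m y' - n₀ < N := by
      have := le_max_left B n₀
      omega
    refine ⟨m y' - n₀, ?_⟩
    dsimp only
    rw [Nat.mod_eq_of_lt h5, ← Function.iterate_add_apply, Nat.sub_add_cancel h4]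
    calc dist y (f^[m y'] x) ≤ dist y y' + dist y' (f^[m y'] x) := dist_triangle _ _ _
      _ < ε / 2 + ε / 2 := add_lt_add hyy' (by rw [dist_comm]; exact hm' y' hy')
      _ = ε := by ring

end OmSt
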