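import Pool.Agent.OmSt.Chain

/-!
# Heteroclinic connections in minimal limits of pseudo-orbits
-/

open Set Filter Topology Metric

set_option linter.unusedSectionVars false

namespace OmSt

variable {X : Type*} [MetricSpace X] [CompactSpace X]

/-- The (forward) orbit. -/
def orb (f : X → X) (p : X) : Set X := {y | ∃ i : ℕ, f^[i] p = y}

theorem mem_orb_self (f : X → X) (p : X) : p ∈ orb f p := ⟨0, rfl⟩

/-- `U` isolates the orbit of `p`. -/
def Isolates (f : X ≃ₜ X) (p : X) (U : Set X) : Prop :=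
  IsClosed U ∧ orb f p ⊆ interior U ∧
    ∀ y, (∀ k : ℕ, f^[k] y ∈ U) → (∀ k : ℕ, f.symm^[k] y ∈ U) → y ∈ orb f p

theorem orb_finite {f : X → X} {p : X} (hp : p ∈ Function.periodicPts f) : (orb f p).Finite := by
  obtain ⟨n, hn, hn'⟩ := hp
  refine ((Set.finite_lt_nat n).image (fun i => f^[i] p)).subset ?_
  rintro _ ⟨i, rfl⟩
  refine ⟨i % n, Nat.mod_lt _ hn, ?_⟩
  exact hn'.iterate_mod_apply i

theorem orb_mapsTo (f : X → X) (p : X) : MapsTo f (orb f p) (orb f p) := by
  rintro _ ⟨i, rfl⟩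
  exact ⟨i + 1, Function.iterate_succ_apply' f i p⟩

theorem orb_iterate {f : X → X} {p y : X} (hy : y ∈ orb f p) (k : ℕ) : f^[k] y ∈ orb f p :=
  (orb_mapsTo f p).iterate k hy

theorem orb_symm {f : X → X} {p y : X} (hp : p ∈ Function.periodicPts f) (hy : y ∈ orb f p) :
    p ∈ orb f y := by
  obtain ⟨n, hn, hn'⟩ := hp
  obtain ⟨i, rfl⟩ := hy
  refine ⟨n * (i + 1) - i, ?_⟩
  rw [← Function.iterate_add_apply]
  have : n * (i + 1) - i + i = n * (i + 1) := by
    have : i ≤ n * (i + 1) := by nlinarith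
    omega
  rw [this, mul_comm]
  exact (hn'.const_mul (i + 1))

theorem orb_periodic {f : X → X} {p y : X} (hp : p ∈ Function.periodicPts f)
    (hy : y ∈ orb f p) : y ∈ Function.periodicPts f := by
  obtain ⟨n, hn, hn'⟩ := hp
  obtain ⟨i, rfl⟩ := hy
  exact ⟨n, hn, hn'.apply_iterate i⟩

theorem orb_symm_iterate (f : X ≃ₜ X) {p y : X} (hp : p ∈ Function.periodicPts f)
    (hy : y ∈ orb f p) (k : ℕ) : f.symm^[k] y ∈ orb f p := by
  have h1 : ∀ z ∈ orb f p, f.symm z ∈ orb f p := by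
    intro z hz
    obtain ⟨n, hn, hn'⟩ := orb_periodic hp hz
    have h2 : f.symm z = f^[n - 1] z := by
      rw [f.symm_apply_eq, ← Function.iterate_succ_apply' (⇑f) (n - 1) z,
        Nat.succ_eq_add_one, Nat.sub_add_cancel hn]
      exact hn'.symm
    rw [h2]
    exact orb_iterate hz _
  induction k with
  | zero => exact hy
  | succ k ih =>
    rw [Function.iterate_succ_apply']
    exact h1 _ ih

/-- A point of a compact invariant set all of whose iterates stay in an isolating set. -/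
theorem orb_subset_of_trans {f : X ≃ₜ X} {p : X} {U L : Set X} (hU : Isolates f p U)
    (hL : Trans f L) (hLU : L ⊆ U) : L ⊆ orb f p := fun y hy =>
  hU.2.2 y (fun k => hLU (hL.iterate_mem f hy k)) (fun k => hLU (hL.iterate_symm_mem f hy k))

/-- A nonempty invariant subset of a periodic orbit is the orbit. -/
theorem eq_orb_of_subset {f : X ≃ₜ X} {p : X} (hp : p ∈ Function.periodicPts f) {L : Set X}
    (hL : Trans f L) (hLp : L ⊆ orb f p) : L = orb f p := by
  refine subset_antisymm hLp ?_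
  obtain ⟨y, hy⟩ := hL.2.1
  have h1 : p ∈ orb f y := orb_symm hp (hLp hy)
  obtain ⟨i, hi⟩ := h1
  rintro _ ⟨j, rfl⟩
  rw [← hi, ← Function.iterate_add_apply]
  exact hL.iterate_mem f hy _

/-- The class of sets we minimise over. -/
def NTrans (f : X → X) (L : Set X) : Prop :=
  Trans f L ∧ ∀ p ∈ Function.periodicPts f, L ≠ orb f p

/-- The standing hypotheses. -/
structure Hyps (f : X ≃ₜ X) : Prop where
  hrec : ∀ x, Recurrent f x → x ∈ Function.periodicPts f
  hfin : ∀ n > 0, {x | f^[n] x = x}.Finite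
  hiso : ∀ p ∈ Function.periodicPts f, ∃ U, Isolates f p U

/-- Limits of a sequence of orbits of different periodic points are not periodic orbits. -/
theorem exists_ntrans_of_seq {f : X ≃ₜ X} (hf : Hyps f) {x : ℕ → X}
    (hx : ∀ n, x n ∈ Function.periodicPts f) (hinj : Function.Injective x) :
    ∃ L, NTrans f L ∧ ∀ δ > 0, ∀ᶠ n in (hyperfilter ℕ : Filter ℕ),
      (∀ i, ∃ y ∈ L, dist (f^[i] (x n)) y < δ) ∧ ∀ y ∈ L, ∃ i, dist y (f^[i] (x n)) < δ := by
  have h1 : ∀ n, ∃ k > 0, f^[k] (x n) = x n := hx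
  choose k hk hkx using h1
  have hε : Tendsto (fun n : ℕ => 1 / ((n : ℝ) + 1)) atTop (𝓝 0) :=
    tendsto_one_div_add_atTop_nhds_zero_nat
  have hc : ∀ n : ℕ, IsCyc f (1 / ((n : ℝ) + 1)) (fun i => f^[i % k n] (x n)) (k n) := fun n =>
    isCyc_of_close (hk n) (by rw [hkx, dist_self]; positivity)
  obtain ⟨L, hL, h⟩ := exists_trans_of_cyc hc hε
  have hmod : ∀ n i, f^[i % k n] (x n) = f^[i] (x n) := fun n i =>
    Function.IsPeriodicPt.iterate_mod_apply (hkx n) i
  simp only [hmod] at h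
  refine ⟨L, ⟨hL, fun p hp hLp => ?_⟩, h⟩
  obtain ⟨U, hU⟩ := hf.hiso p hp
  -- a neighbourhood of `L` in the interior of `U`
  have hLc : IsCompact L := hL.1.isCompact
  have hLU : L ⊆ interior U := hLp ▸ hU.2.1
  obtain ⟨δ, hδ, hδU⟩ := hLc.exists_thickening_subset_open isOpen_interior hLU
  have h2 : ∀ᶠ n in (hyperfilter ℕ : Filter ℕ), x n ∈ orb f p := by
    filter_upwards [h δ hδ] with n hn
    have hin : ∀ i, f^[i] (x n) ∈ U := by
      intro i
      obtain ⟨y, hy, hy'⟩ := hn.1 i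
      exact interior_subset (hδU (Metric.mem_thickening_iff.2 ⟨y, hy, hy'⟩))
    refine hU.2.2 _ hin (fun i => ?_)
    obtain ⟨j, hj⟩ : f.symm^[i] (x n) ∈ orb f (x n) :=
      orb_symm_iterate f (hx n) (mem_orb_self _ _) i
    rw [← hj]
    exact hin j
  have h3 : {n | x n ∈ orb f p}.Finite := (orb_finite hp).preimage hinj.injOn
  have h4 : ({n | x n ∈ orb f p}ᶜ : Set ℕ) ∈ (hyperfilter ℕ : Filter ℕ) :=
    h3.compl_mem_hyperfilter
  obtain ⟨n, hn1, hn2⟩ := (h2.and h4).exists
  exact hn2 hn1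

/-- Existence of a minimal element of the class `NTrans`. -/
theorem exists_minimal {f : X ≃ₜ X} (hf : Hyps f) {L₀ : Set X} (hL₀ : NTrans f L₀) :
    ∃ L, NTrans f L ∧ ∀ L', NTrans f L' → L' ⊆ L → L' = L := by
  have hz := zorn_superset_nonempty {L | NTrans f L} (fun 𝒞 h𝒞 hchain hne => ?_) L₀ hL₀
  · obtain ⟨L, -, hL⟩ := hz
    exact ⟨L, hL.prop, fun L' hL' hsub => hL.eq_of_le hL' hsub |>.symm ▸ rfl⟩
  · have hcl : ∀ L ∈ 𝒞, IsClosed L := fun L hL => (h𝒞 hL).1.1
    have hdir : DirectedOn (· ⊇ ·) 𝒞 := by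
      intro a ha b hb
      rcases eq_or_ne a b with rfl | hab
      · exact ⟨a, ha, subset_rfl, subset_rfl⟩
      · rcases hchain ha hb hab with h | h
        · exact ⟨a, ha, subset_rfl, h⟩
        · exact ⟨b, hb, h, subset_rfl⟩
    have hnem : (⋂₀ 𝒞).Nonempty := by
      have := hne.to_subtype
      exact IsCompact.nonempty_sInter_of_directed_nonempty_isCompact_isClosed hdir
        (fun L hL => (h𝒞 hL).1.2.1) (fun L hL => (hcl L hL).isCompact) hcl
    -- some member of the chain is in a given neighbourhood of the intersection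
    have hnhd : ∀ U : Set X, IsOpen U → ⋂₀ 𝒞 ⊆ U → ∃ L ∈ 𝒞, L ⊆ U := by
      intro U hU hsub
      have := hne.to_subtype
      obtain ⟨⟨L, hL⟩, hLU⟩ := exists_subset_nhds_of_isCompact' (V := fun L : 𝒞 => (L : Set X))
        (by
          intro a b
          obtain ⟨c, hc, h1, h2⟩ := hdir a a.2 b b.2
          exact ⟨⟨c, hc⟩, h1, h2⟩)
        (fun L => (hcl L L.2).isCompact) (fun L => hcl L L.2) (U := U) (fun x hx => by
          rw [← sInter_eq_iInter] at hx
          exact hU.mem_nhds (hsub hx))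
      exact ⟨L, hL, hLU⟩
    refine ⟨⋂₀ 𝒞, ⟨⟨isClosed_sInter hcl, hnem, fun ε hε => ?_⟩, fun p hp hLp => ?_⟩,
      fun L hL => sInter_subset_of_mem hL⟩
    · obtain ⟨L, hL, hLU⟩ := hnhd (thickening (ε / 2) (⋂₀ 𝒞)) isOpen_thickening
        (self_subset_thickening (by positivity) _)
      obtain ⟨c, N, hc, h1, h2⟩ := (h𝒞 hL).1.2.2 (ε / 2) (by positivity)
      refine ⟨c, N, ⟨hc.1, hc.2.1, fun i => (hc.2.2 i).trans (by linarith)⟩, fun i => ?_,
        fun y hy => ?_⟩
      · obtain ⟨y, hy, hy'⟩ := h1 i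
        obtain ⟨z, hz, hz'⟩ := Metric.mem_thickening_iff.1 (hLU hy)
        refine ⟨z, hz, ?_⟩
        calc dist (c i) z ≤ dist (c i) y + dist y z := dist_triangle _ _ _
          _ < ε / 2 + ε / 2 := add_lt_add hy' hz'
          _ = ε := by ring
      · obtain ⟨i, hi⟩ := h2 y (sInter_subset_of_mem hL hy)
        exact ⟨i, hi.trans (by linarith)⟩
    · obtain ⟨U, hU⟩ := hf.hiso p hp
      obtain ⟨L, hL, hLU⟩ := hnhd (interior U) isOpen_interior (hLp ▸ hU.2.1)
      have h1 : L ⊆ orb f p := orb_subset_of_trans hU (h𝒞 hL).1 (hLU.trans interior_subset)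
      exact (h𝒞 hL).2 p hp (eq_orb_of_subset hp (h𝒞 hL).1 h1)

/-- **Leaving a periodic orbit.** -/
theorem exists_outgoing {f : X ≃ₜ X} {p : X} (hp : p ∈ Function.periodicPts f) {U : Set X}
    (hU : Isolates f p U) {L : Set X} (hL : Trans f L) (hpL : p ∈ L) (hne : L ≠ orb f p) :
    ∃ y ∈ L, y ∉ interior U ∧ ∀ j : ℕ, f.symm^[j + 1] y ∈ U := by
  -- a point of `L` outside `U`
  have hnot : ¬ L ⊆ U := fun h => hne (eq_orb_of_subset hp hL (orb_subset_of_trans hU hL h))
  obtain ⟨l, hlL, hlU⟩ := not_subset.1 hnot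
  obtain ⟨r, hr, hrU⟩ := Metric.isOpen_iff.1 hU.1.isOpen_compl l hlU
  have h1 : ∀ n : ℕ, ∃ c N, IsCyc f (1 / ((n : ℝ) + 1)) c N ∧
      (∀ i, ∃ y ∈ L, dist (c i) y < 1 / ((n : ℝ) + 1)) ∧
      ∀ y ∈ L, ∃ i, dist y (c i) < 1 / ((n : ℝ) + 1) := fun n => hL.2.2 _ (by positivity)
  choose c N hc hcL hLc using h1
  have hlim0 : Tendsto (fun n : ℕ => 1 / ((n : ℝ) + 1)) atTop (𝓝 0) :=
    tendsto_one_div_add_atTop_nhds_zero_nat
  choose a ha using fun n => hLc n p hpL
  choose b hb using fun n => hLc n l hlL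
  -- exit times
  have hper : ∀ n i k, c n (i + k * N n) = c n i := by
    intro n i k
    induction k with
    | zero => simp
    | succ k ih =>
      have : i + (k + 1) * N n = (i + k * N n) + N n := by ring
      rw [this, (hc n).2.1, ih]
  have hexit : ∀ n : ℕ, ∃ t, 1 / ((n : ℝ) + 1) < r → c n (a n + t) ∉ U := by
    intro n
    refine ⟨b n + a n * N n - a n, fun hn => ?_⟩
    have hN := (hc n).1
    have e : a n + (b n + a n * N n - a n) = b n + a n * N n := by
      have : a n ≤ a n * N n := Nat.le_mul_of_pos_right _ hN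
      omega
    rw [e, hper]
    intro hcU
    have : c n (b n) ∈ ball l r := by
      rw [mem_ball, dist_comm]
      exact (hb n).trans hn
    exact hrU this hcU
  classical
  have hexit2 : ∀ n : ℕ, ∃ t, (1 / ((n : ℝ) + 1) < r → c n (a n + t) ∉ U) ∧
      ∀ j < t, c n (a n + j) ∈ U := by
    intro n
    by_cases hn : 1 / ((n : ℝ) + 1) < r
    · have hE : ∃ t, c n (a n + t) ∉ U := by
        obtain ⟨t, ht⟩ := hexit n
        exact ⟨t, ht hn⟩
      refine ⟨Nat.find hE, fun _ => Nat.find_spec hE, fun j hj => ?_⟩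
      have := Nat.find_min hE hj
      rwa [not_not] at this
    · exact ⟨0, fun h => absurd h hn, fun j hj => absurd hj (Nat.not_lt_zero _)⟩
  choose t ht1 ht2 using hexit2
  -- convergence along an ultrafilter
  set 𝒰 : Ultrafilter ℕ := hyperfilter ℕ with h𝒰
  have h𝒰le : (𝒰 : Filter ℕ) ≤ atTop := Nat.hyperfilter_le_atTop
  have hev : ∀ᶠ n : ℕ in (𝒰 : Filter ℕ), 1 / ((n : ℝ) + 1) < r :=
    h𝒰le (hlim0.eventually (Iio_mem_nhds hr))
  obtain ⟨y, -, hy⟩ := isCompact_univ.ultrafilter_le_nhds (𝒰.map (fun n => c n (a n + t n)))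
    (by simp)
  have hy : Tendsto (fun n => c n (a n + t n)) 𝒰 (𝓝 y) := hy
  have hstep : Tendsto (fun n : ℕ => 1 / ((n : ℝ) + 1)) 𝒰 (𝓝 0) := hlim0.mono_left h𝒰le
  -- forward convergence from `p`
  have hfw : ∀ j : ℕ, Tendsto (fun n => c n (a n + j)) 𝒰 (𝓝 (f^[j] p)) := by
    intro j
    induction j with
    | zero =>
      simp only [add_zero, Function.iterate_zero, id_eq]
      rw [tendsto_iff_dist_tendsto_zero]
      refine squeeze_zero (fun _ => dist_nonneg) (fun n => ?_) hstep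
      rw [dist_comm]
      exact (ha n).le
    | succ j ih =>
      have h2 : Tendsto (fun n => f (c n (a n + j))) 𝒰 (𝓝 (f^[j + 1] p)) := by
        rw [Function.iterate_succ_apply']
        exact (f.continuous.tendsto _).comp ih
      rw [tendsto_iff_dist_tendsto_zero] at h2 ⊢
      have hsum : Tendsto (fun n : ℕ => 1 / ((n : ℝ) + 1) + dist (f (c n (a n + j))) (f^[j + 1] p)) 𝒰
          (𝓝 0) := by simpa using hstep.add h2
      refine squeeze_zero (fun _ => dist_nonneg) (fun n => ?_) hsum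
      have h3 := (hc n).2.2 (a n + j)
      calc dist (c n (a n + (j + 1))) (f^[j + 1] p)
          ≤ dist (f (c n (a n + j))) (c n (a n + (j + 1))) +
            dist (f (c n (a n + j))) (f^[j + 1] p) := dist_triangle_left _ _ _
        _ ≤ 1 / ((n : ℝ) + 1) + dist (f (c n (a n + j))) (f^[j + 1] p) :=
            add_le_add h3.le le_rfl
  have htlarge : ∀ j : ℕ, ∀ᶠ n in (𝒰 : Filter ℕ), j < t n := by
    intro j
    have h4 : ∀ᶠ n in (𝒰 : Filter ℕ), ∀ i ∈ Set.Iic j, c n (a n + i) ∈ U := by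
      rw [eventually_all_finite (Set.finite_Iic j)]
      intro i _
      have h5 : f^[i] p ∈ interior U := hU.2.1 ⟨i, rfl⟩
      exact ((hfw i).eventually (isOpen_interior.mem_nhds h5)).mono fun n hn =>
        interior_subset hn
    filter_upwards [h4, hev] with n hn hn'
    by_contra hcon
    exact ht1 n hn' (hn (t n) (Set.mem_Iic.2 (not_lt.1 hcon)))
  -- backward convergence to the orbit of `y`
  have hbw : ∀ j : ℕ, Tendsto (fun n => c n (a n + t n - j)) 𝒰 (𝓝 (f.symm^[j] y)) := by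
    intro j
    induction j with
    | zero => simpa using hy
    | succ j ih =>
      have h6 : Tendsto (fun n => f (c n (a n + t n - (j + 1)))) 𝒰 (𝓝 (f.symm^[j] y)) := by
        rw [tendsto_iff_dist_tendsto_zero] at ih ⊢
        have hsum : Tendsto (fun n : ℕ => 1 / ((n : ℝ) + 1) +
            dist (c n (a n + t n - j)) (f.symm^[j] y)) 𝒰 (𝓝 0) := by simpa using hstep.add ih
        refine squeeze_zero' (Eventually.of_forall fun _ => dist_nonneg) ?_ hsum
        filter_upwards [htlarge j] with n hn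
        have h3 := (hc n).2.2 (a n + t n - (j + 1))
        have e : a n + t n - (j + 1) + 1 = a n + t n - j := by omega
        rw [e] at h3
        calc dist (f (c n (a n + t n - (j + 1)))) (f.symm^[j] y)
            ≤ dist (f (c n (a n + t n - (j + 1)))) (c n (a n + t n - j)) +
              dist (c n (a n + t n - j)) (f.symm^[j] y) := dist_triangle _ _ _
          _ ≤ 1 / ((n : ℝ) + 1) + dist (c n (a n + t n - j)) (f.symm^[j] y) :=
              add_le_add h3.le le_rfl
      have h7 := (f.symm.continuous.tendsto _).comp h6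
      rw [Function.iterate_succ_apply']
      refine h7.congr fun n => ?_
      simp
  refine ⟨y, ?_, ?_, fun j => ?_⟩
  · rw [← hL.1.closure_eq, Metric.mem_closure_iff]
    intro ε hε
    have h8 : ∀ᶠ n : ℕ in (𝒰 : Filter ℕ), 1 / ((n : ℝ) + 1) < ε / 2 :=
      hstep.eventually (Iio_mem_nhds (by positivity))
    have h9 : ∀ᶠ n in (𝒰 : Filter ℕ), dist (c n (a n + t n)) y < ε / 2 :=
      hy.eventually (ball_mem_nhds y (by positivity))
    obtain ⟨n, hn1, hn2⟩ := (h8.and h9).exists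
    obtain ⟨z, hz, hz'⟩ := hcL n (a n + t n)
    refine ⟨z, hz, ?_⟩
    calc dist y z ≤ dist (c n (a n + t n)) y + dist (c n (a n + t n)) z :=
          dist_triangle_left _ _ _
      _ < ε / 2 + ε / 2 := add_lt_add hn2 (hz'.trans hn1)
      _ = ε := by ring
  · intro hyU
    have h10 : ∀ᶠ n in (𝒰 : Filter ℕ), c n (a n + t n) ∈ interior U :=
      hy.eventually (isOpen_interior.mem_nhds hyU)
    obtain ⟨n, hn1, hn2⟩ := (h10.and hev).exists
    exact ht1 n hn2 (interior_subset hn1)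
  · refine hU.1.mem_of_tendsto (hbw (j + 1)) ?_
    filter_upwards [htlarge j] with n hn
    have e : a n + t n - (j + 1) = a n + (t n - (j + 1)) := by omega
    rw [e]
    exact ht2 n _ (by omega)

end OmSt
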