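import Pool.Agent.OmSt.Chain2

/-!
# Cycles of heteroclinic connections
-/

open Set Filter Topology Metric

set_option linter.unusedSectionVars false

namespace OmSt

variable {X : Type*} [MetricSpace X] [CompactSpace X]

/-- The limit set of a periodic point. -/
theorem omegaL_of_mem_periodicPts {f : X → X} {y : X} (hy : y ∈ Function.periodicPts f) :
    omegaL f y = orb f y := by
  ext z
  rw [mem_omegaL_iff]
  constructor
  · intro h
    rw [← (orb_finite hy).isClosed.closure_eq, Metric.mem_closure_iff]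
    intro ε hε
    obtain ⟨n, -, hn⟩ := h ε hε 0
    exact ⟨_, ⟨n, rfl⟩, by rwa [dist_comm]⟩
  · rintro ⟨i, rfl⟩ ε hε N
    obtain ⟨n, hn, hn'⟩ := hy
    refine ⟨N * n + i, by nlinarith, ?_⟩
    have h1 : f^[N * n + i] y = f^[i] y := by
      rw [add_comm, Function.iterate_add_apply]
      rw [hn'.const_mul N]
    rw [h1, dist_self]
    exact hε

/-- `ω`-limit sets inside a minimal set of the class `NTrans` are periodic orbits. -/
theorem omegaL_eq_orb {f : X ≃ₜ X} (hf : Hyps f) {L : Set X} (hL : NTrans f L)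
    (hmin : ∀ L', NTrans f L' → L' ⊆ L → L' = L) {y : X} (hy : y ∈ L) :
    ∃ p ∈ L, p ∈ Function.periodicPts f ∧ omegaL f y = orb f p := by
  have hsub : omegaL f y ⊆ L := by
    intro z hz
    rw [← hL.1.1.closure_eq, Metric.mem_closure_iff]
    intro ε hε
    obtain ⟨n, -, hn⟩ := mem_omegaL_iff.1 hz ε hε 0
    exact ⟨_, hL.1.iterate_mem f hy n, by rwa [dist_comm]⟩
  by_cases hNT : NTrans f (omegaL f y)
  · have h1 := hmin _ hNT hsub
    have h2 : Recurrent f y := by
      intro U hU N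
      obtain ⟨ε, hε, hεU⟩ := Metric.mem_nhds_iff.1 hU
      have h3 : y ∈ omegaL f y := h1 ▸ hy
      obtain ⟨n, hn, hn'⟩ := mem_omegaL_iff.1 h3 ε hε N
      exact ⟨n, hn, hεU hn'⟩
    have h4 := hf.hrec y h2
    exact absurd (omegaL_of_mem_periodicPts h4) (hNT.2 y h4)
  · have h1 : ∃ p ∈ Function.periodicPts f, omegaL f y = orb f p := by
      by_contra hcon
      push Not at hcon
      exact hNT ⟨trans_omegaL f y, hcon⟩
    obtain ⟨p, hp, hpy⟩ := h1
    exact ⟨p, hsub (hpy ▸ mem_orb_self f p), hp, hpy⟩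

/-- The Baire argument. -/
theorem exists_open_stable {f : X ≃ₜ X} (hf : Hyps f) {L : Set X} (hL : NTrans f L)
    (hmin : ∀ L', NTrans f L' → L' ⊆ L → L' = L) :
    ∃ p ∈ Function.periodicPts f, ∃ U, Isolates f p U ∧ ∃ n : ℕ, ∃ V : Set X, IsOpen V ∧
      (V ∩ L).Nonempty ∧ ∀ x ∈ V ∩ L, ∀ k ≥ n, f^[k] x ∈ U := by
  classical
  have hcount : (Function.periodicPts f).Countable := by
    have : Function.periodicPts f = ⋃ n : ℕ, {x | f^[n + 1] x = x} := by
      ext x
      simp only [mem_iUnion]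
      constructor
      · rintro ⟨n, hn, hn'⟩
        refine ⟨n - 1, ?_⟩
        change f^[n - 1 + 1] x = x
        rw [Nat.sub_add_cancel hn]
        exact hn'
      · rintro ⟨n, hn⟩
        exact ⟨n + 1, Nat.succ_pos n, hn⟩
    rw [this]
    exact countable_iUnion fun n => (hf.hfin (n + 1) (Nat.succ_pos n)).countable
  have hcount' := hcount.to_subtype
  choose U hU using fun p : Function.periodicPts f => hf.hiso p p.2
  have : CompactSpace L := isCompact_iff_compactSpace.1 hL.1.1.isCompact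
  have : Nonempty L := hL.1.2.1.to_subtype
  set F : (Function.periodicPts f × ℕ) → Set L :=
    fun a => {x | ∀ k ≥ a.2, f^[k] (x : X) ∈ U a.1} with hF
  have hFc : ∀ a, IsClosed (F a) := by
    intro a
    have : F a = ⋂ k ≥ a.2, {x : L | f^[k] (x : X) ∈ U a.1} := by
      ext x
      simp [hF]
    rw [this]
    refine isClosed_biInter fun k _ => (hU a.1).1.preimage ?_
    exact (f.continuous.iterate k).comp continuous_subtype_val
  have hFU : ⋃ a, F a = univ := by
    refine eq_univ_of_forall fun x => ?_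
    obtain ⟨p, -, hp, hpx⟩ := omegaL_eq_orb hf hL hmin x.2
    have hpU : orb f p ⊆ interior (U ⟨p, hp⟩) := (hU ⟨p, hp⟩).2.1
    obtain ⟨δ, hδ, hδU⟩ := (orb_finite hp).isCompact.exists_thickening_subset_open
      isOpen_interior hpU
    obtain ⟨N, hN⟩ := eventually_near_omegaL f (x : X) hδ
    refine mem_iUnion.2 ⟨(⟨p, hp⟩, N), fun k hk => ?_⟩
    obtain ⟨y, hy, hy'⟩ := hN k hk
    rw [hpx] at hy
    exact interior_subset (hδU (Metric.mem_thickening_iff.2 ⟨y, hy, hy'⟩))
  obtain ⟨a, ha⟩ := nonempty_interior_of_iUnion_of_closed hFc hFU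
  obtain ⟨V, hV, hVa⟩ := isOpen_induced_iff.1 (isOpen_interior (s := F a))
  refine ⟨a.1, a.1.2, U a.1, hU a.1, a.2, V, hV, ?_, fun x hx k hk => ?_⟩
  · obtain ⟨x, hx⟩ := ha
    rw [← hVa] at hx
    exact ⟨x, hx, x.2⟩
  · have h1 : (⟨x, hx.2⟩ : L) ∈ interior (F a) := by
      rw [← hVa]
      exact hx.1
    exact interior_subset h1 k hk

/-- A minimal set of the class `NTrans` contains only finitely many periodic points. -/
theorem finite_periodic {f : X ≃ₜ X} (hf : Hyps f) {L : Set X} (hL : NTrans f L)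
    (hmin : ∀ L', NTrans f L' → L' ⊆ L → L' = L) : (L ∩ Function.periodicPts f).Finite := by
  by_contra hinf
  have hinf : (L ∩ Function.periodicPts f).Infinite := hinf
  obtain ⟨p, hp, U, hU, n, V, hV, hVL, hVU⟩ := exists_open_stable hf hL hmin
  set x : ℕ → X := fun k => (hinf.natEmbedding _ k : X) with hx
  have hxL : ∀ k, x k ∈ L := fun k => (hinf.natEmbedding _ k).2.1
  have hxp : ∀ k, x k ∈ Function.periodicPts f := fun k => (hinf.natEmbedding _ k).2.2
  have hxi : Function.Injective x :=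
    Subtype.val_injective.comp (hinf.natEmbedding _).injective
  obtain ⟨L', hL', hlim⟩ := exists_ntrans_of_seq hf hxp hxi
  have hsub : L' ⊆ L := by
    intro z hz
    rw [← hL.1.1.closure_eq, Metric.mem_closure_iff]
    intro ε hε
    obtain ⟨k, hk⟩ := (hlim ε hε).exists
    obtain ⟨i, hi⟩ := hk.2 z hz
    exact ⟨_, hL.1.iterate_mem f (hxL k) i, hi⟩
  have hLL := hmin L' hL' hsub
  obtain ⟨v, hvV, hvL⟩ := hVL
  obtain ⟨δ, hδ, hδV⟩ := Metric.isOpen_iff.1 hV v hvV
  have h2 : ∀ᶠ k in (hyperfilter ℕ : Filter ℕ), x k ∈ orb f p := by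
    filter_upwards [hlim δ hδ] with k hk
    obtain ⟨i, hi⟩ := hk.2 v (hLL ▸ hvL)
    have hiV : f^[i] (x k) ∈ V ∩ L :=
      ⟨hδV (by rwa [mem_ball, dist_comm]), hL.1.iterate_mem f (hxL k) i⟩
    have h3 := hVU _ hiV
    -- all the points of the orbit of `x k` are in `U`
    have h4 : ∀ y ∈ orb f (x k), y ∈ U := by
      intro y hy
      have h5 : y ∈ orb f (f^[n + i] (x k)) := by
        have h6 : f^[n + i] (x k) ∈ orb f (x k) := ⟨_, rfl⟩
        obtain ⟨j, hj⟩ := orb_symm (hxp k) h6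
        obtain ⟨l, hl⟩ := hy
        refine ⟨l + j, ?_⟩
        rw [Function.iterate_add_apply, hj, hl]
      obtain ⟨j, rfl⟩ := h5
      rw [Function.iterate_add_apply, ← Function.iterate_add_apply f j n]
      exact h3 _ (by omega)
    exact hU.2.2 _ (fun j => h4 _ ⟨j, rfl⟩)
      (fun j => h4 _ (orb_symm_iterate f (hxp k) (mem_orb_self _ _) j))
  have h3 : {k | x k ∈ orb f p}.Finite := (orb_finite hp).preimage hxi.injOn
  have h4 : ({k | x k ∈ orb f p}ᶜ : Set ℕ) ∈ (hyperfilter ℕ : Filter ℕ) :=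
    h3.compl_mem_hyperfilter
  obtain ⟨k, hk1, hk2⟩ := (h2.and h4).exists
  exact hk2 hk1

/-- Convergence of a sequence with finite limit set consisting of fixed points. -/
theorem tendsto_of_finite {g : X → X} (hg : Continuous g) {z : ℕ → X}
    (hz : ∀ k, z (k + 1) = g (z k)) {P : Set X} (hP : P.Finite) (hPg : ∀ p ∈ P, g p = p)
    (hlim : ∀ ε > 0, ∃ N : ℕ, ∀ k ≥ N, ∃ p ∈ P, dist (z k) p < ε) :
    ∃ p ∈ P, Tendsto z atTop (𝓝 p) := by
  -- separation constant
  obtain ⟨δ, hδ, hsep⟩ : ∃ δ > 0, ∀ p ∈ P, ∀ q ∈ P, p ≠ q → δ ≤ dist p q := by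
    have hfin : (P ×ˢ P).Finite := hP.prod hP
    have h1 : ∀ᶠ δ : ℝ in 𝓝[>] 0, ∀ a ∈ P ×ˢ P, a.1 ≠ a.2 → δ ≤ dist a.1 a.2 := by
      rw [eventually_all_finite hfin]
      intro a _
      by_cases h : a.1 = a.2
      · exact Eventually.of_forall fun _ h' => absurd h h'
      · have : 0 < dist a.1 a.2 := dist_pos.2 h
        have h2 : ∀ᶠ δ : ℝ in 𝓝[>] 0, δ ∈ Iic (dist a.1 a.2) :=
          Filter.Eventually.filter_mono nhdsWithin_le_nhds (Iic_mem_nhds this)
        exact h2.mono fun δ hδ _ => hδ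
    obtain ⟨δ, h2, hδ⟩ := (h1.and self_mem_nhdsWithin).exists
    exact ⟨δ, hδ, fun p hp q hq hpq => h2 (p, q) ⟨hp, hq⟩ hpq⟩
  -- continuity of `g` at the points of `P`
  obtain ⟨η, hη, hcont⟩ : ∃ η > 0, ∀ p ∈ P, ∀ x, dist x p < η → dist (g x) p < δ / 2 := by
    have h1 : ∀ᶠ η : ℝ in 𝓝[>] 0, ∀ p ∈ P, ∀ x, dist x p < η → dist (g x) p < δ / 2 := by
      rw [eventually_all_finite hP]
      intro p hp
      obtain ⟨η, hη, h2⟩ := Metric.continuous_iff.1 hg p (δ / 2) (by positivity)
      have h3 : ∀ᶠ δ : ℝ in 𝓝[>] 0, δ ∈ Iio η :=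
        Filter.Eventually.filter_mono nhdsWithin_le_nhds (Iio_mem_nhds hη)
      refine h3.mono fun η' hη' x hx => ?_
      have := h2 x (hx.trans hη')
      rwa [hPg p hp] at this
    obtain ⟨η, h2, hη⟩ := (h1.and self_mem_nhdsWithin).exists
    exact ⟨η, hη, h2⟩
  obtain ⟨N, hN⟩ := hlim (min η (δ / 2)) (lt_min hη (by positivity))
  obtain ⟨p, hp, hpN⟩ := hN N le_rfl
  have hstay : ∀ k, dist (z (N + k)) p < min η (δ / 2) := by
    intro k
    induction k with
    | zero => exact hpN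
    | succ k ih =>
      obtain ⟨q, hq, hq'⟩ := hN (N + (k + 1)) (by omega)
      have h1 : dist (z (N + (k + 1))) p < δ / 2 := by
        rw [← add_assoc, hz]
        exact hcont p hp _ (ih.trans_le (min_le_left _ _))
      have h2 : p = q := by
        by_contra hne
        have h3 := hsep p hp q hq hne
        have h4 : dist p q < δ := by
          calc dist p q ≤ dist (z (N + (k + 1))) p + dist (z (N + (k + 1))) q :=
                dist_triangle_left _ _ _
            _ < δ / 2 + δ / 2 := add_lt_add h1 (hq'.trans_le (min_le_right _ _))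
            _ = δ := by ring
        linarith
      rw [h2]
      exact hq'
  refine ⟨p, hp, ?_⟩
  rw [Metric.tendsto_atTop]
  intro ε hε
  obtain ⟨N', hN'⟩ := hlim (min ε (δ / 2)) (lt_min hε (by positivity))
  refine ⟨max N N', fun k hk => ?_⟩
  obtain ⟨q, hq, hq'⟩ := hN' k ((le_max_right _ _).trans hk)
  obtain ⟨k', rfl⟩ := Nat.exists_eq_add_of_le ((le_max_left _ _).trans hk)
  have h1 := (hstay k').trans_le (min_le_right _ _)
  have h2 : p = q := by
    by_contra hne
    have h3 := hsep p hp q hq hne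
    have h4 : dist p q < δ := by
      calc dist p q ≤ dist (z (N + k')) p + dist (z (N + k')) q := dist_triangle_left _ _ _
        _ < δ / 2 + δ / 2 := add_lt_add h1 (hq'.trans_le (min_le_right _ _))
        _ = δ := by ring
    linarith
  rw [h2]
  exact hq'.trans_le (min_le_left _ _)

/-- There is a point, not periodic, whose orbit under `f ^ M` goes from `p` to `q`. -/
def Conn (f : X ≃ₜ X) (M : ℕ) (p q : X) : Prop :=
  ∃ x ∉ Function.periodicPts f, Tendsto (fun k => f^[M * k] x) atTop (𝓝 q) ∧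
    Tendsto (fun k => f.symm^[M * k] x) atTop (𝓝 p)

/-- A cycle of connections. -/
structure Cyc (f : X ≃ₜ X) (M n : ℕ) (p : ℕ → X) : Prop where
  hM : 0 < M
  hn : 0 < n
  per : ∀ i ≤ n, f^[M] (p i) = p i
  close : ∃ s : ℕ, p n = f^[s] (p 0)
  conn : ∀ i < n, Conn f M (p i) (p (i + 1))

theorem orb_eq_of_mem {f : X → X} {p q : X} (hp : p ∈ Function.periodicPts f)
    (hq : q ∈ orb f p) : orb f q = orb f p := by
  apply subset_antisymm
  · rintro _ ⟨i, rfl⟩
    exact orb_iterate hq i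
  · obtain ⟨j, hj⟩ := orb_symm hp hq
    rintro _ ⟨i, rfl⟩
    rw [← hj, ← Function.iterate_add_apply]
    exact ⟨_, rfl⟩

/-- From every periodic point of a minimal set there is a connection. -/
theorem exists_conn {f : X ≃ₜ X} (hf : Hyps f) {L : Set X} (hL : NTrans f L)
    (hmin : ∀ L', NTrans f L' → L' ⊆ L → L' = L) {M : ℕ} (hM : 0 < M)
    (hMp : ∀ p ∈ L ∩ Function.periodicPts f, f^[M] p = p) {p : X} (hpL : p ∈ L)
    (hp : p ∈ Function.periodicPts f) :
    ∃ q ∈ L, q ∈ Function.periodicPts f ∧ Conn f M p q := by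
  obtain ⟨U, hU⟩ := hf.hiso p hp
  obtain ⟨y, hyL, hyU, hyb⟩ := exists_outgoing hp hU hL.1 hpL (hL.2 p hp)
  have hiter : ∀ n k, f.symm^[n] (f.symm^[k] y) = f.symm^[n + k] y := fun n k =>
    (Function.iterate_add_apply _ _ _ _).symm
  -- `y` is not periodic
  have hyper : y ∉ Function.periodicPts f := by
    intro hy
    have h1 : ∀ z ∈ orb f y, z ∈ U := by
      obtain ⟨m, hm, hm'⟩ := hy
      have h2 : ∀ j : ℕ, f.symm^[j * m] y = y := by
        intro j
        have h3 : f^[j * m] y = y := hm'.const_mul j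
        have h4 : f.symm^[j * m] (f^[j * m] y) = y :=
          (Function.LeftInverse.iterate f.symm_apply_apply (j * m)) y
        rwa [h3] at h4
      rintro _ ⟨i, rfl⟩
      have h5 : f^[i] y = f.symm^[(i + 1) * m - i] y := by
        have h6 : f^[i] (f.symm^[i + ((i + 1) * m - i)] y) = f.symm^[(i + 1) * m - i] y := by
          rw [Function.iterate_add_apply]
          exact (Function.LeftInverse.iterate f.apply_symm_apply i) _
        have h7 : i + ((i + 1) * m - i) = (i + 1) * m := by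
          have : i ≤ (i + 1) * m := by nlinarith
          omega
        rwa [h7, h2] at h6
      have h8 : 0 < (i + 1) * m - i := by
        have : i < (i + 1) * m := by nlinarith
        omega
      obtain ⟨j, hj⟩ := Nat.exists_eq_succ_of_ne_zero h8.ne'
      rw [h5, hj]
      exact hyb j
    have h9 : y ∈ orb f p := hU.2.2 y (fun k => h1 _ ⟨k, rfl⟩)
      (fun k => h1 _ (orb_symm_iterate f hy (mem_orb_self _ _) k))
    exact hyU (hU.2.1 h9)
  -- forward phase
  obtain ⟨q, hqL, hq, hqy⟩ := omegaL_eq_orb hf hL hmin hyL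
  have horbL : ∀ {a : X}, a ∈ L → ∀ b ∈ orb f a, b ∈ L := by
    rintro a ha _ ⟨i, rfl⟩
    exact hL.1.iterate_mem f ha i
  obtain ⟨q', hq', hfw⟩ : ∃ q' ∈ orb f q, Tendsto (fun k => f^[M * k] y) atTop (𝓝 q') := by
    refine tendsto_of_finite (g := f^[M]) (f.continuous.iterate M) (fun k => ?_) (orb_finite hq)
      (fun b hb => hMp b ⟨horbL hqL b hb, orb_periodic hq hb⟩) (fun ε hε => ?_)
    · rw [mul_add, mul_one, add_comm, Function.iterate_add_apply]
    · obtain ⟨N, hN⟩ := eventually_near_omegaL f y hε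
      rw [hqy] at hN
      exact ⟨N, fun k hk => hN (M * k) (hk.trans (Nat.le_mul_of_pos_left k hM))⟩
  -- backward phase
  have hα : omegaL f.symm y ⊆ orb f p := by
    intro z hz
    have hzU : ∀ w ∈ omegaL f.symm y, w ∈ U := by
      intro w hw
      rw [← hU.1.closure_eq, Metric.mem_closure_iff]
      intro ε hε
      obtain ⟨n, hn, hn'⟩ := mem_omegaL_iff.1 hw ε hε 1
      obtain ⟨j, rfl⟩ := Nat.exists_eq_add_of_le' hn
      exact ⟨_, hyb j, by rwa [dist_comm]⟩
    have hT := trans_omegaL (f := f.symm) y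
    refine hU.2.2 z (fun k => ?_) (fun k => ?_)
    · exact hzU _ (hT.iterate_symm_mem f.symm hz k)
    · exact hzU _ (hT.iterate_mem f.symm hz k)
  obtain ⟨p', hp', hbw⟩ : ∃ p' ∈ orb f p, Tendsto (fun k => f.symm^[M * k] y) atTop (𝓝 p') := by
    refine tendsto_of_finite (g := f.symm^[M]) (f.symm.continuous.iterate M) (fun k => ?_)
      (orb_finite hp) (fun b hb => ?_) (fun ε hε => ?_)
    · rw [mul_add, mul_one, add_comm, Function.iterate_add_apply]
    · have h1 := hMp b ⟨horbL hpL b hb, orb_periodic hp hb⟩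
      have h2 : f.symm^[M] (f^[M] b) = b :=
        (Function.LeftInverse.iterate f.symm_apply_apply M) b
      rwa [h1] at h2
    · obtain ⟨N, hN⟩ := eventually_near_omegaL f.symm y hε
      refine ⟨N, fun k hk => ?_⟩
      obtain ⟨b, hb, hb'⟩ := hN (M * k) (hk.trans (Nat.le_mul_of_pos_left k hM))
      exact ⟨b, hα hb, hb'⟩
  -- shift of the phase
  obtain ⟨i, hi⟩ := orb_symm hp hp'
  refine ⟨f^[i] q', horbL hqL _ (orb_iterate hq' i), orb_periodic hq (orb_iterate hq' i),
    f^[i] y, fun h => ?_, ?_, ?_⟩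
  · obtain ⟨m, hm, hm'⟩ := h
    refine hyper ⟨m, hm, ?_⟩
    have h1 : f^[i] (f^[m] y) = f^[i] y := by
      rw [← Function.iterate_add_apply, add_comm, Function.iterate_add_apply]
      exact hm'
    exact (f.injective.iterate i) h1
  · have h1 := ((f.continuous.iterate i).tendsto q').comp hfw
    refine h1.congr fun k => ?_
    change f^[i] (f^[M * k] y) = f^[M * k] (f^[i] y)
    rw [← Function.iterate_add_apply, ← Function.iterate_add_apply, add_comm]
  · have h1 := ((f.continuous.iterate i).tendsto p').comp hbw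
    rw [hi] at h1
    refine h1.congr fun k => ?_
    change f^[i] (f.symm^[M * k] y) = f.symm^[M * k] (f^[i] y)
    have hcomm : Function.Commute f f.symm := fun x => by simp
    exact (hcomm.iterate_iterate i (M * k)) y

/-- **Existence of a cycle of connections.** -/
theorem exists_cycle {f : X ≃ₜ X} (hf : Hyps f)
    (h : ¬ ((nonwandering f).Finite ∧ nonwandering f ⊆ Function.periodicPts f)) :
    ∃ M n p, Cyc f M n p := by
  -- the class `NTrans` is not empty
  obtain ⟨L₀, hL₀⟩ : ∃ L, NTrans f L := by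
    by_cases hΩ : nonwandering f ⊆ Function.periodicPts f
    · have hinf : (nonwandering f).Infinite := fun h' => h ⟨h', hΩ⟩
      obtain ⟨L, hL, -⟩ := exists_ntrans_of_seq hf
        (x := fun k => (hinf.natEmbedding _ k : X))
        (fun k => hΩ (hinf.natEmbedding _ k).2)
        (Subtype.val_injective.comp (hinf.natEmbedding _).injective)
      exact ⟨L, hL⟩
    · obtain ⟨x, hx, hx'⟩ := not_subset.1 hΩ
      obtain ⟨L, hL, hxL⟩ := exists_trans_of_nonwandering hx
      refine ⟨L, hL, fun p hp hLp => hx' ?_⟩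
      exact orb_periodic hp (hLp ▸ hxL)
  obtain ⟨L, hL, hmin⟩ := exists_minimal hf hL₀
  have hfin := finite_periodic hf hL hmin
  obtain ⟨M, hM, hMp⟩ : ∃ M > 0, ∀ p ∈ L ∩ Function.periodicPts f, f^[M] p = p := by
    refine ⟨∏ p ∈ hfin.toFinset, Function.minimalPeriod f p, ?_, fun p hp => ?_⟩
    · refine Finset.prod_pos fun p hp => ?_
      exact Function.minimalPeriod_pos_of_mem_periodicPts (hfin.mem_toFinset.1 hp).2
    · have h1 : Function.minimalPeriod f p ∣ ∏ p ∈ hfin.toFinset, Function.minimalPeriod f p :=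
        Finset.dvd_prod_of_mem _ (hfin.mem_toFinset.2 hp)
      exact (Function.isPeriodicPt_iff_minimalPeriod_dvd.2 h1)
  set P : Set X := L ∩ Function.periodicPts f with hP
  have hstep : ∀ p : P, ∃ q : P, Conn f M p q := by
    intro p
    obtain ⟨q, h1, h2, h3⟩ := exists_conn hf hL hmin hM hMp p.2.1 p.2.2
    exact ⟨⟨q, h1, h2⟩, h3⟩
  choose φ hφ using hstep
  obtain ⟨y, hy⟩ := hL.1.2.1
  obtain ⟨p₀, hp₀L, hp₀, -⟩ := omegaL_eq_orb hf hL hmin hy
  have : Finite P := hfin
  -- a repetition in the orbit of `p₀`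
  obtain ⟨a, b, hab, hab'⟩ : ∃ a b : ℕ, a < b ∧ φ^[a] ⟨p₀, hp₀L, hp₀⟩ = φ^[b] ⟨p₀, hp₀L, hp₀⟩ := by
    obtain ⟨a, b, hne, heq⟩ := Finite.exists_ne_map_eq_of_infinite
      (fun k : ℕ => φ^[k] ⟨p₀, hp₀L, hp₀⟩)
    rcases lt_or_gt_of_ne hne with h1 | h1
    · exact ⟨a, b, h1, heq⟩
    · exact ⟨b, a, h1, heq.symm⟩
  refine ⟨M, b - a, fun i => (φ^[a + i] ⟨p₀, hp₀L, hp₀⟩ : P), hM, by omega,
    fun i _ => hMp _ (φ^[a + i] ⟨p₀, hp₀L, hp₀⟩).2, ⟨0, ?_⟩, fun i _ => ?_⟩
  · have : a + (b - a) = b := by omega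
    simp only [this, add_zero, Function.iterate_zero, id_eq]
    rw [hab']
  · have h1 := hφ (φ^[a + i] ⟨p₀, hp₀L, hp₀⟩)
    rw [← Function.iterate_succ_apply' φ (a + i)] at h1
    exact h1

end OmSt
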