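import Pool.Agent.OmSt.Defs

/-!
# Invariants of conjugacy on the nonwandering set
-/

open Set Filter Topology Metric

set_option linter.unusedSectionVars false

namespace OmSt

variable {X : Type*} [TopologicalSpace X]

theorem mem_nonwandering_of_periodic {f : X → X} {x : X} (hx : x ∈ Function.periodicPts f) :
    x ∈ nonwandering f := by
  obtain ⟨n, hn, hn'⟩ := hx
  intro U hU
  exact ⟨n, hn, x, ⟨x, mem_of_mem_nhds hU, hn'⟩, mem_of_mem_nhds hU⟩

theorem mem_nonwandering_of_recurrent {f : X → X} {x : X} (hx : Recurrent f x) :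
    x ∈ nonwandering f := by
  intro U hU
  obtain ⟨n, hn, hn'⟩ := hx U hU 1
  exact ⟨n, hn, f^[n] x, ⟨x, mem_of_mem_nhds hU, rfl⟩, hn'⟩

theorem nonwandering_apply {f : X → X} (hf : IsOpenMap f) (hc : Continuous f) {x : X}
    (hx : x ∈ nonwandering f) : f x ∈ nonwandering f := by
  intro U hU
  have h1 : f ⁻¹' U ∈ 𝓝 x := hc.continuousAt hU
  obtain ⟨n, hn, w, ⟨z, hz, rfl⟩, hw⟩ := hx _ h1
  refine ⟨n, hn, f (f^[n] z), ⟨f z, hz, ?_⟩, hw⟩
  rw [← Function.iterate_succ_apply, ← Function.iterate_succ_apply' f n z]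

theorem nonwandering_iterate {f : X → X} (hf : IsOpenMap f) (hc : Continuous f) {x : X}
    (hx : x ∈ nonwandering f) (n : ℕ) : f^[n] x ∈ nonwandering f := by
  induction n with
  | zero => exact hx
  | succ n ih =>
    rw [Function.iterate_succ_apply']
    exact nonwandering_apply hf hc ih

/-- A conjugacy commutes with the iterates. -/
theorem OmegaConj.iterate {f g : X → X} (hf : IsOpenMap f) (hfc : Continuous f)
    {h : nonwandering f ≃ₜ nonwandering g}
    (hh : ∀ x y : nonwandering f, (y : X) = f x → (h y : X) = g (h x)) (n : ℕ)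
    (x y : nonwandering f) (hxy : (y : X) = f^[n] x) : (h y : X) = g^[n] (h x) := by
  induction n generalizing y with
  | zero =>
    have : y = x := Subtype.ext hxy
    rw [this]
    rfl
  | succ n ih =>
    rw [Function.iterate_succ_apply'] at hxy ⊢
    rw [← ih ⟨f^[n] x, nonwandering_iterate hf hfc x.2 n⟩ rfl]
    exact hh _ _ hxy

/-- The inverse of a conjugacy. -/
theorem OmegaConj.symm {f g : X → X} (hf : IsOpenMap f) (hfc : Continuous f)
    (h : OmegaConj f g) : OmegaConj g f := by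
  obtain ⟨h, hh⟩ := h
  refine ⟨h.symm, fun x y hxy => ?_⟩
  have h1 := hh (h.symm x) ⟨f (h.symm x), nonwandering_apply hf hfc (h.symm x).2⟩ rfl
  rw [h.apply_symm_apply] at h1
  have h2 : h ⟨f (h.symm x), nonwandering_apply hf hfc (h.symm x).2⟩ = y :=
    Subtype.ext (h1.trans hxy.symm)
  rw [← h2, h.symm_apply_apply]

theorem OmegaConj.trans {f g k : X → X} (hg : IsOpenMap g) (hgc : Continuous g)
    (h₁ : OmegaConj f g) (h₂ : OmegaConj g k) : OmegaConj f k := by
  obtain ⟨h₁, hh₁⟩ := h₁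
  obtain ⟨h₂, hh₂⟩ := h₂
  refine ⟨h₁.trans h₂, fun x y hxy => ?_⟩
  simp only [Homeomorph.trans_apply]
  exact hh₂ _ _ (hh₁ _ _ hxy)

/-- The bijection between the sets of periodic points. -/
theorem OmegaConj.exists_equiv {f g : X → X} (hf : IsOpenMap f) (hfc : Continuous f)
    (hg : IsOpenMap g) (hgc : Continuous g) (h : OmegaConj f g) :
    ∃ φ : Function.periodicPts f ≃ Function.periodicPts g,
      ∀ (x : Function.periodicPts f) (n : ℕ), f^[n] (x : X) = x ↔ g^[n] (φ x : X) = φ x := by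
  obtain ⟨h, hh⟩ := h
  have key : ∀ (x : nonwandering f) (n : ℕ), f^[n] (x : X) = x ↔ g^[n] (h x : X) = h x := by
    intro x n
    have h1 := OmegaConj.iterate hf hfc hh n x ⟨f^[n] x, nonwandering_iterate hf hfc x.2 n⟩ rfl
    rw [← h1]
    constructor
    · intro h2
      have : (⟨f^[n] x, nonwandering_iterate hf hfc x.2 n⟩ : nonwandering f) = x :=
        Subtype.ext h2
      rw [this]
    · intro h2
      have := h.injective (Subtype.ext h2)
      exact congrArg Subtype.val this
  refine ⟨⟨fun x => ⟨h ⟨x, mem_nonwandering_of_periodic x.2⟩, ?_⟩,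
    fun y => ⟨h.symm ⟨y, mem_nonwandering_of_periodic y.2⟩, ?_⟩, fun x => ?_, fun y => ?_⟩,
    fun x n => ?_⟩
  · obtain ⟨n, hn, hn'⟩ := x.2
    exact ⟨n, hn, (key _ n).1 hn'⟩
  · obtain ⟨n, hn, hn'⟩ := y.2
    refine ⟨n, hn, (key _ n).2 ?_⟩
    rw [h.apply_symm_apply]
    exact hn'
  · exact Subtype.ext (by simp)
  · exact Subtype.ext (by simp)
  · exact key ⟨x, mem_nonwandering_of_periodic x.2⟩ n

/-- Sets of periodic points defined by conditions on the periods have the same number of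
elements. -/
theorem OmegaConj.encard_eq {f g : X → X} (hf : IsOpenMap f) (hfc : Continuous f)
    (hg : IsOpenMap g) (hgc : Continuous g) (h : OmegaConj f g) (Q : Set ℕ → Prop)
    (hQ : ∀ S, Q S → ∃ n > 0, n ∈ S) :
    {x | Q {n | f^[n] x = x}}.encard = {x | Q {n | g^[n] x = x}}.encard := by
  obtain ⟨φ, hφ⟩ := h.exists_equiv hf hfc hg hgc
  have hper : ∀ {k : X → X} {x : X}, Q {n | k^[n] x = x} → x ∈ Function.periodicPts k := by
    intro k x hx
    obtain ⟨n, hn, hn'⟩ := hQ _ hx
    exact ⟨n, hn, hn'⟩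
  have hS : ∀ x : Function.periodicPts f, {n | f^[n] (x : X) = x} = {n | g^[n] (φ x : X) = φ x} :=
    fun x => Set.ext fun n => hφ x n
  refine Set.encard_congr ⟨fun x => ⟨φ ⟨x, hper x.2⟩, ?_⟩, fun y => ⟨φ.symm ⟨y, hper y.2⟩, ?_⟩,
    fun x => ?_, fun y => ?_⟩
  · have h1 := x.2
    change Q {n | f^[n] (x : X) = x} at h1
    rw [hS ⟨x, hper x.2⟩] at h1
    exact h1
  · have h1 := y.2
    change Q {n | g^[n] (y : X) = y} at h1
    have h2 := hS (φ.symm ⟨y, hper y.2⟩)
    rw [φ.apply_symm_apply] at h2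
    change Q {n | f^[n] ((φ.symm ⟨y, hper y.2⟩ : Function.periodicPts f) : X) =
      (φ.symm ⟨y, hper y.2⟩ : Function.periodicPts f)}
    rw [h2]
    exact h1
  · exact Subtype.ext (by simp)
  · exact Subtype.ext (by simp)

/-- Trivial recurrence is an invariant of conjugacy on the nonwandering set. -/
theorem OmegaConj.recurrent {f g : X → X} (hf : IsOpenMap f) (hfc : Continuous f)
    (hg : IsOpenMap g) (hgc : Continuous g) (h : OmegaConj f g)
    (hrec : ∀ x, Recurrent f x → x ∈ Function.periodicPts f) :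
    ∀ x, Recurrent g x → x ∈ Function.periodicPts g := by
  obtain ⟨h, hh⟩ := h
  intro y hy
  have hyΩ := mem_nonwandering_of_recurrent hy
  set x : nonwandering f := h.symm ⟨y, hyΩ⟩ with hx
  have hxy : (h x : X) = y := by rw [hx, h.apply_symm_apply]
  have hit : ∀ n, (h ⟨f^[n] x, nonwandering_iterate hf hfc x.2 n⟩ : X) = g^[n] y := by
    intro n
    rw [OmegaConj.iterate hf hfc hh n x ⟨f^[n] x, nonwandering_iterate hf hfc x.2 n⟩ rfl, hxy]
  have hxrec : Recurrent f (x : X) := by
    intro U hU N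
    -- pull back by the inverse homeomorphism
    have h1 : Continuous fun z : nonwandering g => ((h.symm z : nonwandering f) : X) :=
      continuous_subtype_val.comp h.symm.continuous
    have h2 : (fun z : nonwandering g => ((h.symm z : nonwandering f) : X)) ⁻¹' U ∈
        𝓝 (⟨y, hyΩ⟩ : nonwandering g) := h1.continuousAt hU
    obtain ⟨V, hV, hVU⟩ := mem_nhds_subtype _ _ _ |>.1 h2
    obtain ⟨n, hn, hn'⟩ := hy V hV N
    refine ⟨n, hn, ?_⟩
    have h3 : (⟨g^[n] y, nonwandering_iterate hg hgc hyΩ n⟩ : nonwandering g) ∈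
        (fun z : nonwandering g => ((h.symm z : nonwandering f) : X)) ⁻¹' U := hVU hn'
    have h4 : (⟨g^[n] y, nonwandering_iterate hg hgc hyΩ n⟩ : nonwandering g) =
        h ⟨f^[n] x, nonwandering_iterate hf hfc x.2 n⟩ := Subtype.ext (hit n).symm
    rw [h4] at h3
    simpa using h3
  obtain ⟨n, hn, hn'⟩ := hrec _ hxrec
  refine ⟨n, hn, ?_⟩
  have h5 : (⟨f^[n] x, nonwandering_iterate hf hfc x.2 n⟩ : nonwandering f) = x :=
    Subtype.ext hn'
  have h6 := hit n
  rw [h5, hxy] at h6
  exact h6.symm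

end OmSt
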