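import Pool.Agent.OmSt.Dich

/-!
# Changing one coefficient, and gluing of recursions
-/

open Set Filter Topology Metric
open scoped NNReal BoundedContinuousFunction

set_option linter.unusedSectionVars false

namespace OmSt

variable {E : Type*} [NormedAddCommGroup E] [NormedSpace ℝ E]
  {A B : ℤ → E →L[ℝ] E} {K : ℝ}

/-- The sequence with the value `ξ` at `0` and the value `0` elsewhere. -/
noncomputable def dseq (ξ : E) : ℤ →ᵇ E :=
  bmk (fun n => if n = 0 then ξ else 0) ‖ξ‖ (fun n => by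
    split_ifs
    · exact le_rfl
    · simp)

theorem dseq_apply (ξ : E) (n : ℤ) : dseq ξ n = if n = 0 then ξ else 0 := rfl

theorem norm_dseq_le (ξ : E) : ‖dseq ξ‖ ≤ ‖ξ‖ := by
  rw [norm_le_iff']
  intro n
  rw [dseq_apply]
  split_ifs
  · exact le_rfl
  · simp

/-- If the coefficient at `0` is moved along a line, then only finitely many values of the
parameter are exceptional. -/
theorem Dich.generic [FiniteDimensional ℝ E] (h : Dich A K) (hK : 0 ≤ K) (D : E →L[ℝ] E) :
    {s : ℝ | ¬ ∃ K', 0 ≤ K' ∧ Dich (Function.update A 0 (A 0 + s • D)) K'}.Finite := by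
  obtain ⟨S, hS1, hS2, hS3⟩ := h.exists_op
  have hS0 : S 0 = 0 := (hS3 0 0 (fun n => by simp)).symm
  have hSadd : ∀ w w', S (w + w') = S w + S w' := by
    intro w w'
    refine (hS3 _ _ (fun n => ?_)).symm
    simp only [BoundedContinuousFunction.coe_add, Pi.add_apply, hS1 w n, hS1 w' n, map_add]
    abel
  have hSsmul : ∀ (c : ℝ) w, S (c • w) = c • S w := by
    intro c w
    refine (hS3 _ _ (fun n => ?_)).symm
    simp only [BoundedContinuousFunction.coe_smul, hS1 w n, map_smul, smul_add]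
  have hSn : ∀ w, ‖S w‖ ≤ K * ‖w‖ := by
    intro w
    have := hS2 w 0
    rwa [hS0, sub_zero, sub_zero] at this
  have hdadd : ∀ ξ ξ' : E, dseq (ξ + ξ') = dseq ξ + dseq ξ' := by
    intro ξ ξ'
    ext n
    simp only [dseq_apply, BoundedContinuousFunction.coe_add, Pi.add_apply]
    split_ifs <;> simp
  have hdsmul : ∀ (c : ℝ) (ξ : E), dseq (c • ξ) = c • dseq ξ := by
    intro c ξ
    ext n
    simp only [dseq_apply, BoundedContinuousFunction.coe_smul]
    split_ifs <;> simp
  let Γ : E →ₗ[ℝ] E :=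
    { toFun := fun ξ => S (dseq (D ξ)) 0
      map_add' := fun ξ ξ' => by
        rw [map_add, hdadd, hSadd]
        rfl
      map_smul' := fun c ξ => by
        rw [map_smul, hdsmul, hSsmul]
        rfl }
  have hfin : {μ : ℝ | Module.End.HasEigenvalue Γ μ}.Finite :=
    Module.End.finite_hasEigenvalue Γ
  refine (hfin.image (fun μ => μ⁻¹)).subset ?_
  intro s hs
  by_contra hcon
  apply hs
  -- `1 - s Γ` is injective
  have hinj : Function.Injective ((1 : E →ₗ[ℝ] E) - s • Γ) := by
    rw [← LinearMap.ker_eq_bot, LinearMap.ker_eq_bot']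
    intro x hx
    by_contra hx0
    apply hcon
    have hx' : x = s • Γ x := by
      have : x - s • Γ x = 0 := hx
      exact sub_eq_zero.1 this
    have hs0 : s ≠ 0 := by
      rintro rfl
      apply hx0
      rw [hx']
      simp
    refine ⟨s⁻¹, ?_, inv_inv s⟩
    refine Module.End.hasEigenvalue_of_hasEigenvector (x := x) ⟨?_, hx0⟩
    rw [Module.End.mem_eigenspace_iff]
    nth_rewrite 2 [hx']
    rw [smul_smul, inv_mul_cancel₀ hs0, one_smul]
  let R : E ≃ₗ[ℝ] E := LinearEquiv.ofInjectiveEndo _ hinj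
  have hR : ∀ x, R x = x - s • Γ x := fun x => rfl
  let Rs : E →L[ℝ] E := LinearMap.toContinuousLinearMap (R.symm : E →ₗ[ℝ] E)
  have hRs : ∀ x, Rs x - s • Γ (Rs x) = x := by
    intro x
    rw [← hR]
    exact R.apply_symm_apply x
  have hupd : ∀ (v : ℤ → E) n, Function.update A 0 (A 0 + s • D) n (v n) =
      A n (v n) + dseq (s • D (v 0)) n := by
    intro v n
    rw [dseq_apply]
    by_cases hn : n = 0
    · subst hn
      simp
    · simp [hn]
  refine ⟨K + K * (|s| * ‖D‖ * (‖Rs‖ * K)), by positivity, ?_, ?_⟩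
  · intro w C hw
    have hC : 0 ≤ C := (norm_nonneg _).trans (hw 0)
    set wb := bmk w C hw with hwb
    have hwbn : ‖wb‖ ≤ C := norm_le_iff'.2 hw
    set x := Rs (S wb 0) with hx
    have hxn : ‖x‖ ≤ ‖Rs‖ * (K * C) := by
      refine (Rs.le_opNorm _).trans ?_
      gcongr
      exact ((S wb).norm_coe_le_norm 0).trans ((hSn wb).trans (by gcongr))
    set v := S wb + S (dseq (s • D x)) with hv
    have hv0 : v 0 = x := by
      have h1 := hRs (S wb 0)
      rw [← hx] at h1
      have h2 : S (dseq (s • D x)) 0 = s • Γ x := by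
        rw [hdsmul, hSsmul]
        rfl
      simp only [hv, BoundedContinuousFunction.coe_add, Pi.add_apply, h2]
      rw [← h1]
      abel
    refine ⟨v, fun n => ?_, fun n => ?_⟩
    · refine (v.norm_coe_le_norm n).trans ?_
      rw [hv]
      have h3 : ‖S (dseq (s • D x))‖ ≤ K * (|s| * (‖D‖ * (‖Rs‖ * (K * C)))) := by
        refine (hSn _).trans ?_
        gcongr
        refine (norm_dseq_le _).trans ?_
        rw [norm_smul, Real.norm_eq_abs]
        gcongr
        refine (D.le_opNorm _).trans ?_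
        gcongr
      calc ‖S wb + S (dseq (s • D x))‖ ≤ K * C + K * (|s| * (‖D‖ * (‖Rs‖ * (K * C)))) :=
            (norm_add_le _ _).trans (add_le_add ((hSn wb).trans (by gcongr)) h3)
        _ = (K + K * (|s| * ‖D‖ * (‖Rs‖ * K))) * C := by ring
    · rw [hupd v n, hv0]
      simp only [hv, BoundedContinuousFunction.coe_add, Pi.add_apply, hS1 wb n,
        hS1 (dseq (s • D x)) n, map_add]
      rw [hwb, bmk_apply]
      abel
  · intro v C hv hv' n
    set vb := bmk v C hv with hvb
    have h1 : vb = S (dseq (s • D (v 0))) := by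
      apply hS3
      intro n
      change v (n + 1) = A n (v n) + _
      rw [hv', hupd]
    have h2 : v 0 = s • Γ (v 0) := by
      have h3 : vb 0 = S (dseq (s • D (v 0))) 0 := by rw [← h1]
      rw [hdsmul, hSsmul] at h3
      exact h3
    have h4 : v 0 = 0 := by
      apply hinj
      rw [map_zero]
      change v 0 - s • Γ (v 0) = 0
      exact sub_eq_zero.2 h2
    have h5 : dseq (s • D (v 0)) = 0 := by
      ext m
      rw [h4, map_zero, smul_zero, dseq_apply]
      simp
    have h6 : vb = 0 := by rw [h1, h5, hS0]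
    have h7 : vb n = 0 := by rw [h6]; rfl
    exact h7

/-- The tent function of width `G`. -/
noncomputable def tent (G : ℕ) (x : ℤ) : ℝ := max 0 (1 - |(x : ℝ)| / G)

theorem tent_nonneg (G : ℕ) (x : ℤ) : 0 ≤ tent G x := le_max_left _ _

theorem tent_le_one (G : ℕ) (x : ℤ) : tent G x ≤ 1 := by
  refine max_le zero_le_one ?_
  have : 0 ≤ |(x : ℝ)| / G := by positivity
  linarith

theorem tent_lip (G : ℕ) (x : ℤ) : |tent G (x + 1) - tent G x| ≤ 1 / G := by
  unfold tent
  refine (abs_max_sub_max_le_max _ _ _ _).trans ?_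
  rw [sub_self, abs_zero]
  refine max_le (by positivity) ?_
  have : (1 - |((x + 1 : ℤ) : ℝ)| / G) - (1 - |(x : ℝ)| / G) =
      (|(x : ℝ)| - |((x + 1 : ℤ) : ℝ)|) / G := by ring
  rw [this, abs_div, Nat.abs_cast]
  gcongr
  refine (abs_abs_sub_abs_le_abs_sub _ _).trans ?_
  push_cast
  simp

theorem tent_left {G : ℕ} {r : ℤ} (hG : 0 < G) (h0 : 0 ≤ r) (h1 : r ≤ G) :
    tent G r = 1 - r / G := by
  have h0' : (0 : ℝ) ≤ r := by exact_mod_cast h0
  have h1' : (r : ℝ) ≤ G := by exact_mod_cast h1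
  have hG' : (0 : ℝ) < G := by exact_mod_cast hG
  unfold tent
  rw [abs_of_nonneg h0', max_eq_right]
  have : (r : ℝ) / G ≤ 1 := (div_le_one hG').2 h1'
  linarith

theorem tent_right {G : ℕ} {r : ℤ} (hG : 0 < G) (h0 : 0 ≤ r) (h1 : r ≤ G) :
    tent G (r - G) = r / G := by
  have h0' : (0 : ℝ) ≤ r := by exact_mod_cast h0
  have h1' : (r : ℝ) ≤ G := by exact_mod_cast h1
  have hG' : (0 : ℝ) < G := by exact_mod_cast hG
  unfold tent
  have : |((r - G : ℤ) : ℝ)| = G - r := by
    push_cast
    rw [abs_of_nonpos (by linarith)]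
    ring
  rw [this, max_eq_right]
  · field_simp
    ring
  · have : ((G : ℝ) - r) / G ≤ 1 := (div_le_one hG').2 (by linarith)
    linarith

/-- **Gluing.** Suppose that the recursions with coefficients `𝒜 i` have bounded inverses, and
that `B` is close to `𝒜 i` in the middle of the `i`-th block of length `G`. -/
theorem Dich.glue [CompleteSpace E] {G : ℕ} (hG : 0 < G) {𝒜 : ℤ → ℤ → E →L[ℝ] E}
    (h : ∀ i, Dich (𝒜 i) K) (hK : 0 ≤ K) {ε : ℝ} (hε : 4 * K * (1 / G + ε) ≤ 1)
    (hclose : ∀ i n : ℤ, tent G (n - i * G) * ‖B n - 𝒜 i n‖ ≤ ε) : Dich B (2 * K) := by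
  have hG' : (0 : ℝ) < G := by exact_mod_cast hG
  have hGz : (0 : ℤ) < G := by exact_mod_cast hG
  have hε0 : 0 ≤ ε := le_trans (mul_nonneg (tent_nonneg _ _) (norm_nonneg _)) (hclose 0 0)
  have hop := fun i => (h i).exists_op
  choose S hS1 hS2 hS3 using hop
  -- the block of an index
  have hdiv : ∀ n : ℤ, n = (n / G) * G + n % G := fun n => by
    rw [mul_comm]; exact (Int.mul_ediv_add_emod n G).symm
  have hmod0 : ∀ n : ℤ, 0 ≤ n % (G : ℤ) := fun n => Int.emod_nonneg _ hGz.ne'
  have hmod1 : ∀ n : ℤ, n % (G : ℤ) < G := fun n => Int.emod_lt_of_pos _ hGz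
  have ht1 : ∀ n : ℤ, tent G (n - (n / G) * G) = 1 - ((n % (G : ℤ) : ℤ) : ℝ) / G := by
    intro n
    have : n - (n / G) * G = n % (G : ℤ) := by have := hdiv n; linarith
    rw [this]
    exact tent_left hG (hmod0 n) (hmod1 n).le
  have ht2 : ∀ n : ℤ, tent G (n - (n / G + 1) * G) = ((n % (G : ℤ) : ℤ) : ℝ) / G := by
    intro n
    have : n - (n / G + 1) * G = n % (G : ℤ) - G := by have := hdiv n; linarith
    rw [this]
    exact tent_right hG (hmod0 n) (hmod1 n).le
  have ht12 : ∀ n : ℤ, tent G (n - (n / G) * G) + tent G (n - (n / G + 1) * G) = 1 := by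
    intro n
    rw [ht1, ht2]
    ring
  have ht1' : ∀ n : ℤ, tent G (n + 1 - (n / G) * G) =
      tent G (n - (n / G) * G) - 1 / G := by
    intro n
    have : n + 1 - (n / G) * G = n % (G : ℤ) + 1 := by have := hdiv n; linarith
    rw [ht1, this, tent_left hG (by linarith [hmod0 n]) (by linarith [hmod1 n])]
    push_cast
    ring
  have ht2' : ∀ n : ℤ, tent G (n + 1 - (n / G + 1) * G) =
      tent G (n - (n / G + 1) * G) + 1 / G := by
    intro n
    have : n + 1 - (n / G + 1) * G = (n % (G : ℤ) + 1) - G := by have := hdiv n; linarith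
    rw [ht2, this, tent_right hG (by linarith [hmod0 n]) (by linarith [hmod1 n])]
    push_cast
    ring
  -- the approximate inverse
  set a : ℤ → ℝ := fun n => tent G (n - (n / G) * G) with ha
  set b : ℤ → ℝ := fun n => tent G (n - (n / G + 1) * G) with hb
  have hab : ∀ n, a n + b n = 1 := ht12
  have ha0 : ∀ n, 0 ≤ a n := fun n => tent_nonneg _ _
  have hb0 : ∀ n, 0 ≤ b n := fun n => tent_nonneg _ _
  have hcomb : ∀ (n : ℤ) (x y : E) (C : ℝ), ‖x‖ ≤ C → ‖y‖ ≤ C → ‖a n • x + b n • y‖ ≤ C := by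
    intro n x y C hx hy
    calc ‖a n • x + b n • y‖ ≤ a n * C + b n * C := by
          refine (norm_add_le _ _).trans (add_le_add ?_ ?_)
          · rw [norm_smul, Real.norm_of_nonneg (ha0 n)]
            exact mul_le_mul_of_nonneg_left hx (ha0 n)
          · rw [norm_smul, Real.norm_of_nonneg (hb0 n)]
            exact mul_le_mul_of_nonneg_left hy (hb0 n)
      _ = C := by rw [← add_mul, hab, one_mul]
  have hSn : ∀ i w, ‖S i w‖ ≤ K * ‖w‖ := by
    intro i w
    have h0 : (0 : ℤ →ᵇ E) = S i 0 := hS3 i 0 0 (fun n => by simp)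
    have := hS2 i w 0
    rwa [← h0, sub_zero, sub_zero] at this
  -- continuity across the end of a block
  have hnext : ∀ (w : ℤ →ᵇ E) (n : ℤ),
      a (n + 1) • S ((n + 1) / G) w (n + 1) + b (n + 1) • S ((n + 1) / G + 1) w (n + 1) =
      (a n - 1 / G) • S (n / G) w (n + 1) + (b n + 1 / G) • S (n / G + 1) w (n + 1) := by
    intro w n
    have e1 : a n = 1 - ((n % (G : ℤ) : ℤ) : ℝ) / G := ht1 n
    have e2 : b n = ((n % (G : ℤ) : ℤ) : ℝ) / G := ht2 n
    by_cases hn : n % (G : ℤ) + 1 < G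
    · have h1 : (n + 1) / (G : ℤ) = n / G := by
        have h2 : n + 1 = (n % (G : ℤ) + 1) + (n / G) * G := by have := hdiv n; linarith
        rw [h2, Int.add_mul_ediv_right _ _ hGz.ne',
          Int.ediv_eq_zero_of_lt (by linarith [hmod0 n]) hn, zero_add]
      have h3 : a (n + 1) = a n - 1 / G := by
        simp only [ha, h1]
        exact ht1' n
      have h4 : b (n + 1) = b n + 1 / G := by
        simp only [hb, h1]
        exact ht2' n
      rw [h1, h3, h4]
    · have hr : n % (G : ℤ) + 1 = G := by have := hmod1 n; omega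
      have h1 : (n + 1) / (G : ℤ) = n / G + 1 := by
        have h2 : n + 1 = 0 + (n / G + 1) * G := by have := hdiv n; linarith
        rw [h2, Int.add_mul_ediv_right _ _ hGz.ne']
        simp
      have hr' : ((n % (G : ℤ) : ℤ) : ℝ) = G - 1 := by
        have : (((n % (G : ℤ) + 1 : ℤ)) : ℝ) = (G : ℤ) := by rw [hr]
        push_cast at this
        linarith
      have h2 : (n + 1) % (G : ℤ) = 0 := by
        have h3 := hdiv (n + 1)
        have h4 := hdiv n
        rw [h1] at h3
        linarith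
      have h3 : a (n + 1) = 1 := by
        have := ht1 (n + 1)
        rw [h2] at this
        simpa using this
      have h4 : b (n + 1) = 0 := by
        have := ht2 (n + 1)
        rw [h2] at this
        simpa using this
      have h5 : a n - 1 / G = 0 := by
        rw [e1, hr']
        field_simp
        ring
      have h6 : b n + 1 / G = 1 := by
        rw [e2, hr']
        field_simp
        ring
      rw [h3, h4, h5, h6, h1]
      simp
  set Rf : (ℤ →ᵇ E) → ℤ → E := fun w n => a n • S (n / G) w n + b n • S (n / G + 1) w n with hRf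
  have hRn : ∀ w n, ‖Rf w n‖ ≤ K * ‖w‖ := fun w n =>
    hcomb n _ _ _ (((S _ w).norm_coe_le_norm n).trans (hSn _ _))
      (((S _ w).norm_coe_le_norm n).trans (hSn _ _))
  set ef : (ℤ →ᵇ E) → ℤ → E := fun w n => a n • (𝒜 (n / G) n - B n) (S (n / G) w n) +
    b n • (𝒜 (n / G + 1) n - B n) (S (n / G + 1) w n) +
    (1 / (G : ℝ)) • (S (n / G + 1) w (n + 1) - S (n / G) w (n + 1)) with hef
  have hRe : ∀ w n, Rf w (n + 1) = B n (Rf w n) + w n + ef w n := by
    intro w n
    have h1 : Rf w (n + 1) = (a n - 1 / G) • S (n / G) w (n + 1) +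
        (b n + 1 / G) • S (n / G + 1) w (n + 1) := hnext w n
    rw [h1]
    have h2 : (a n - 1 / G) • S (n / G) w (n + 1) + (b n + 1 / G) • S (n / G + 1) w (n + 1) =
        a n • S (n / G) w (n + 1) + b n • S (n / G + 1) w (n + 1) +
        (1 / (G : ℝ)) • (S (n / G + 1) w (n + 1) - S (n / G) w (n + 1)) := by
      rw [sub_smul, add_smul, smul_sub]
      abel
    rw [h2]
    nth_rewrite 1 [hS1 (n / G) w n]
    nth_rewrite 1 [hS1 (n / G + 1) w n]
    simp only [hRf, hef, map_add, map_smul, sub_apply, smul_add, smul_sub]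
    have h3 : w n = a n • w n + b n • w n := by rw [← add_smul, hab, one_smul]
    nth_rewrite 3 [h3]
    abel
  have hefl : ∀ w w' n, ‖ef w n - ef w' n‖ ≤ (1 / 2) * ‖w - w'‖ := by
    intro w w' n
    have hd : ∀ i m, ‖S i w m - S i w' m‖ ≤ K * ‖w - w'‖ := fun i m =>
      ((S i w - S i w').norm_coe_le_norm m).trans (hS2 i w w')
    have e1 : ef w n - ef w' n =
        a n • (𝒜 (n / G) n - B n) (S (n / G) w n - S (n / G) w' n) +
        b n • (𝒜 (n / G + 1) n - B n) (S (n / G + 1) w n - S (n / G + 1) w' n) +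
        (1 / (G : ℝ)) • ((S (n / G + 1) w (n + 1) - S (n / G + 1) w' (n + 1)) -
          (S (n / G) w (n + 1) - S (n / G) w' (n + 1))) := by
      simp only [hef, map_sub, smul_sub]
      abel
    rw [e1]
    have hA1 : ‖a n • (𝒜 (n / G) n - B n) (S (n / G) w n - S (n / G) w' n)‖ ≤
        ε * (K * ‖w - w'‖) := by
      rw [norm_smul, Real.norm_of_nonneg (ha0 n)]
      calc a n * ‖(𝒜 (n / G) n - B n) (S (n / G) w n - S (n / G) w' n)‖
          ≤ a n * (‖𝒜 (n / G) n - B n‖ * (K * ‖w - w'‖)) := by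
            refine mul_le_mul_of_nonneg_left ?_ (ha0 n)
            exact (ContinuousLinearMap.le_opNorm _ _).trans
              (mul_le_mul_of_nonneg_left (hd _ _) (norm_nonneg _))
        _ = (a n * ‖B n - 𝒜 (n / G) n‖) * (K * ‖w - w'‖) := by
            rw [norm_sub_rev]; ring
        _ ≤ ε * (K * ‖w - w'‖) :=
            mul_le_mul_of_nonneg_right (hclose (n / G) n) (by positivity)
    have hA2 : ‖b n • (𝒜 (n / G + 1) n - B n) (S (n / G + 1) w n - S (n / G + 1) w' n)‖ ≤
        ε * (K * ‖w - w'‖) := by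
      rw [norm_smul, Real.norm_of_nonneg (hb0 n)]
      calc b n * ‖(𝒜 (n / G + 1) n - B n) (S (n / G + 1) w n - S (n / G + 1) w' n)‖
          ≤ b n * (‖𝒜 (n / G + 1) n - B n‖ * (K * ‖w - w'‖)) := by
            refine mul_le_mul_of_nonneg_left ?_ (hb0 n)
            exact (ContinuousLinearMap.le_opNorm _ _).trans
              (mul_le_mul_of_nonneg_left (hd _ _) (norm_nonneg _))
        _ = (b n * ‖B n - 𝒜 (n / G + 1) n‖) * (K * ‖w - w'‖) := by
            rw [norm_sub_rev]; ring
        _ ≤ ε * (K * ‖w - w'‖) :=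
            mul_le_mul_of_nonneg_right (hclose (n / G + 1) n) (by positivity)
    have hA3 : ‖(1 / (G : ℝ)) • ((S (n / G + 1) w (n + 1) - S (n / G + 1) w' (n + 1)) -
          (S (n / G) w (n + 1) - S (n / G) w' (n + 1)))‖ ≤
        (1 / (G : ℝ)) * (2 * (K * ‖w - w'‖)) := by
      rw [norm_smul, Real.norm_of_nonneg (by positivity)]
      refine mul_le_mul_of_nonneg_left ?_ (by positivity)
      calc _ ≤ K * ‖w - w'‖ + K * ‖w - w'‖ :=
            (norm_sub_le _ _).trans (add_le_add (hd _ _) (hd _ _))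
        _ = 2 * (K * ‖w - w'‖) := by ring
    calc _ ≤ ε * (K * ‖w - w'‖) + ε * (K * ‖w - w'‖) + (1 / (G : ℝ)) * (2 * (K * ‖w - w'‖)) :=
          (norm_add_le _ _).trans (add_le_add ((norm_add_le _ _).trans (add_le_add hA1 hA2)) hA3)
      _ = (1 / 2) * (4 * K * (1 / G + ε)) * ‖w - w'‖ := by ring
      _ ≤ (1 / 2) * 1 * ‖w - w'‖ := by gcongr
      _ = (1 / 2) * ‖w - w'‖ := by ring
  have hS0 : ∀ i, S i 0 = 0 := fun i => (hS3 i 0 0 (fun n => by simp)).symm
  have hef0 : ∀ n, ef 0 n = 0 := by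
    intro n
    simp [hef, hS0]
  have hefn : ∀ w n, ‖ef w n‖ ≤ (1 / 2) * ‖w‖ := by
    intro w n
    have := hefl w 0 n
    rwa [hef0, sub_zero, sub_zero] at this
  constructor
  · intro w C hw
    have hC : 0 ≤ C := (norm_nonneg _).trans (hw 0)
    set wb := bmk w C hw with hwb
    have hwbn : ‖wb‖ ≤ C := norm_le_iff'.2 hw
    let Φ : (ℤ →ᵇ E) → (ℤ →ᵇ E) := fun u => wb - bmk (ef u) _ (hefn u)
    have hΦ : ContractingWith (1 / 2 : ℝ≥0) Φ := by
      refine ⟨by rw [← NNReal.coe_lt_coe]; norm_num, LipschitzWith.of_dist_le_mul fun u u' => ?_⟩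
      rw [dist_eq_norm, dist_eq_norm, norm_le_iff']
      intro n
      have : (Φ u - Φ u') n = ef u' n - ef u n := by
        simp only [Φ, BoundedContinuousFunction.coe_sub, Pi.sub_apply, bmk_apply]
        abel
      rw [this, norm_sub_rev]
      simpa using hefl u u' n
    set u := hΦ.fixedPoint Φ with hu
    have hfix : Φ u = u := hΦ.fixedPoint_isFixedPt
    have hun : ∀ n, u n = w n - ef u n := by
      intro n
      have : (Φ u) n = u n := by rw [hfix]
      rw [← this]
      rfl
    have hunorm : ‖u‖ ≤ 2 * C := by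
      have h1 : ‖u‖ ≤ C + (1 / 2) * ‖u‖ := by
        rw [norm_le_iff']
        intro n
        rw [hun n]
        exact (norm_sub_le _ _).trans (add_le_add (hw n) (hefn u n))
      linarith
    refine ⟨Rf u, fun n => ?_, fun n => ?_⟩
    · calc ‖Rf u n‖ ≤ K * ‖u‖ := hRn u n
        _ ≤ K * (2 * C) := by gcongr
        _ = 2 * K * C := by ring
    · rw [hRe u n, hun n]
      abel
  · intro v C hv hv' n
    set vb := bmk v C hv with hvb
    have hvn : ∀ m, ‖v m‖ ≤ ‖vb‖ := fun m => vb.norm_coe_le_norm m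
    have key : ∀ i m, ‖tent G (m - i * G) • v m‖ ≤ K * ((1 / G + ε) * ‖vb‖) := by
      intro i
      have hub : ∀ m, ‖tent G (m - i * G) • v m‖ ≤ ‖vb‖ := by
        intro m
        rw [norm_smul, Real.norm_of_nonneg (tent_nonneg _ _)]
        calc tent G (m - i * G) * ‖v m‖ ≤ 1 * ‖vb‖ :=
              mul_le_mul (tent_le_one _ _) (hvn m) (norm_nonneg _) zero_le_one
          _ = ‖vb‖ := one_mul _
      have hrb : ∀ m, ‖tent G (m - i * G) • (B m - 𝒜 i m) (v m) +
          (tent G (m - i * G + 1) - tent G (m - i * G)) • v (m + 1)‖ ≤ (1 / G + ε) * ‖vb‖ := by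
        intro m
        have h1 : ‖tent G (m - i * G) • (B m - 𝒜 i m) (v m)‖ ≤ ε * ‖vb‖ := by
          rw [norm_smul, Real.norm_of_nonneg (tent_nonneg _ _)]
          calc tent G (m - i * G) * ‖(B m - 𝒜 i m) (v m)‖
              ≤ tent G (m - i * G) * (‖B m - 𝒜 i m‖ * ‖vb‖) := by
                refine mul_le_mul_of_nonneg_left ?_ (tent_nonneg _ _)
                exact (ContinuousLinearMap.le_opNorm _ _).trans
                  (mul_le_mul_of_nonneg_left (hvn _) (norm_nonneg _))
            _ = (tent G (m - i * G) * ‖B m - 𝒜 i m‖) * ‖vb‖ := by ring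
            _ ≤ ε * ‖vb‖ := mul_le_mul_of_nonneg_right (hclose i m) (norm_nonneg _)
        have h2 : ‖(tent G (m - i * G + 1) - tent G (m - i * G)) • v (m + 1)‖ ≤
            (1 / G) * ‖vb‖ := by
          rw [norm_smul, Real.norm_eq_abs]
          exact mul_le_mul (tent_lip G _) (hvn _) (norm_nonneg _) (by positivity)
        calc _ ≤ ε * ‖vb‖ + (1 / G) * ‖vb‖ := (norm_add_le _ _).trans (add_le_add h1 h2)
          _ = (1 / G + ε) * ‖vb‖ := by ring
      have h3 : bmk _ _ hub = S i (bmk _ _ hrb) := by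
        apply hS3
        intro m
        simp only [bmk_apply, map_smul, sub_apply, smul_sub, sub_smul]
        have e1 : m + 1 - i * (G : ℤ) = m - i * G + 1 := by ring
        rw [e1, hv' m]
        abel
      intro m
      have h4 : ‖(bmk _ _ hub : ℤ →ᵇ E) m‖ ≤ K * ((1 / G + ε) * ‖vb‖) := by
        refine ((bmk _ _ hub : ℤ →ᵇ E).norm_coe_le_norm m).trans ?_
        rw [h3]
        refine (hSn i _).trans ?_
        gcongr
        exact norm_le_iff'.2 hrb
      exact h4
    have hvb2 : ‖vb‖ ≤ (1 / 2) * ‖vb‖ := by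
      rw [norm_le_iff']
      intro m
      have e : v m = tent G (m - (m / G) * G) • v m + tent G (m - (m / G + 1) * G) • v m := by
        rw [← add_smul, ht12, one_smul]
      change ‖v m‖ ≤ _
      rw [e]
      calc _ ≤ K * ((1 / G + ε) * ‖vb‖) + K * ((1 / G + ε) * ‖vb‖) :=
            (norm_add_le _ _).trans (add_le_add (key _ _) (key _ _))
        _ = (1 / 2) * (4 * K * (1 / G + ε)) * ‖vb‖ := by ring
        _ ≤ (1 / 2) * 1 * ‖vb‖ := by gcongr
        _ = (1 / 2) * ‖vb‖ := by ring
    have h5 : ‖vb‖ = 0 := by linarith [norm_nonneg vb]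
    have h6 : ‖v n‖ ≤ 0 := by rw [← h5]; exact hvn n
    exact norm_le_zero_iff.1 h6

end OmSt
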