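import Pool.Agent.OmSt.AxB

/-!
# `Ω`-stable diffeomorphisms with trivial recurrence satisfy Axiom A
-/

open Set Filter Topology Manifold ContDiff Metric

set_option linter.unusedSectionVars false

namespace OmSt

variable {E : Type*} [NormedAddCommGroup E] [NormedSpace ℝ E]

/-- The metric version of the main theorem. -/
theorem main_metric {M : Type*} [FiniteDimensional ℝ E] [MetricSpace M]
    [CompactSpace M] [ChartedSpace E M] [IsManifold 𝓘(ℝ, E) ∞ M] (r : ℕ∞) (hr : 1 ≤ r)
    (f : Dyn E M r) (hf : OmegaStable f)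
    (h : (∀ x, Recurrent f x → x ∈ Function.periodicPts f) ∨ (nonwandering f).Countable) :
    (nonwandering f).Finite ∧ AxiomA f := by
  obtain ⟨N, hN, hfN, hconj⟩ := hf
  have hS : Stab N := ⟨hN, fun g hg g' hg' =>
    ((hconj g hg).symm (Dyn.isOpenMap f) f.continuous).trans (Dyn.isOpenMap f) f.continuous
      (hconj g' hg')⟩
  have hrecf : ∀ x, Recurrent f x → x ∈ Function.periodicPts f := by
    rcases h with h | h
    · exact h
    · exact fun x hx => recurrent_periodic_of_countable f.toHomeomorph h hx
  have hrec : ∀ g ∈ N, ∀ x, Recurrent g x → x ∈ Function.periodicPts g := fun g hg =>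
    (hconj g hg).recurrent (Dyn.isOpenMap f) f.continuous (Dyn.isOpenMap g) g.continuous hrecf
  obtain ⟨h1, h2⟩ := hS.finite_nonwandering hr hrec hfN
  exact ⟨h1, axiomA_of_finite hr f h1 h2 fun x _ m hm hx => hS.isHyp hr hfN hm hx⟩

end OmSt
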