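import Pool.Agent.OmSt.Scale
import Pool.Agent.OmSt.Conj

/-!
# Finiteness of the sets of points of given period
-/

open Set Filter Topology Manifold ContDiff Metric MeasureTheory

set_option linter.unusedSectionVars false

namespace OmSt

variable {E : Type*} [NormedAddCommGroup E] [NormedSpace ℝ E]
  {M : Type*} [TopologicalSpace M] [ChartedSpace E M]
  {V : Type*} [NormedAddCommGroup V] [NormedSpace ℝ V] {r : ℕ∞}

/-- Sard's theorem for maps between spaces of the same dimension. -/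
theorem frequently_regular [FiniteDimensional ℝ E] {s : Set E} {φ : E → E}
    (hφ : ∀ z ∈ s, DifferentiableAt ℝ φ z) :
    ∃ᶠ v in 𝓝 (0 : E), ∀ z ∈ s, z - φ z = v → ND (fderiv ℝ φ z) := by
  let _ : MeasurableSpace E := borel E
  have : BorelSpace E := ⟨rfl⟩
  let μ : Measure E := Measure.addHaar
  by_contra hcon
  rw [not_frequently] at hcon
  set t : Set E := {z ∈ s | ¬ ND (fderiv ℝ φ z)} with ht
  have h1 : μ ((fun z => z - φ z) '' t) = 0 := by
    refine addHaar_image_eq_zero_of_det_fderivWithin_eq_zero μ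
      (f' := fun z => (1 : E →L[ℝ] E) - fderiv ℝ φ z) (fun z hz => ?_) (fun z hz => ?_)
    · exact ((hasFDerivAt_id z).sub (hφ z hz.1).hasFDerivAt).hasFDerivWithinAt
    · by_contra h
      exact hz.2 (ND.iff_det.2 h)
  have h2 : ((fun z => z - φ z) '' t) ∈ 𝓝 (0 : E) := by
    filter_upwards [hcon] with v hv
    push Not at hv
    obtain ⟨z, hz, hzv, hnd⟩ := hv
    exact ⟨z, ⟨hz, hnd⟩, hzv⟩
  have h3 : 0 < μ ((fun z => z - φ z) '' t) := Measure.measure_pos_of_mem_nhds μ h2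
  exact h3.ne' h1

/-- Iterates of a perturbation supported in a set which does not return. -/
theorem iterate_pert {g : Dyn E M r} {ψ : Diffeomorph 𝓘(ℝ, E) 𝓘(ℝ, E) M M ∞} {W : Set M} {m : ℕ}
    (hψ : ∀ x ∉ W, ψ x = x) (hW : ∀ k, 0 < k → k < m → ∀ y ∈ W, g^[k] y ∉ W) {y : M}
    (hy : y ∈ W) {k : ℕ} (hk : 0 < k) (hkm : k ≤ m) : (pert g ψ)^[k] y = g^[k] (ψ y) := by
  have hψy : ψ y ∈ W := mapsTo_of_eq_self ψ.injective hψ hy
  induction k with
  | zero => exact absurd hk (lt_irrefl 0)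
  | succ k ih =>
    rcases Nat.eq_zero_or_pos k with rfl | hk0
    · simp [pert_apply]
    · rw [Function.iterate_succ_apply', ih hk0 (by omega), pert_apply,
        hψ _ (hW k hk0 (by omega) _ hψy), Function.iterate_succ_apply']

theorem exists_nhds_noreturn [T2Space M] [CompactSpace M] {G : M → M} (hG : Continuous G) {m : ℕ}
    {x : M} (h : ∀ k, 0 < k → k < m → G^[k] x ≠ x) {U : Set M} (hU : U ∈ 𝓝 x) :
    ∃ W ∈ 𝓝 x, IsClosed W ∧ W ⊆ U ∧ ∀ k, 0 < k → k < m → ∀ y ∈ W, G^[k] y ∉ W := by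
  have h1 : ∀ k, ∃ A ∈ 𝓝 x, (0 < k → k < m → ∀ y ∈ A, G^[k] y ∉ A) := by
    intro k
    by_cases hk : 0 < k ∧ k < m
    · obtain ⟨a, b, ha, hb, hab⟩ := t2_separation_nhds (h k hk.1 hk.2)
      refine ⟨b ∩ G^[k] ⁻¹' a, inter_mem hb ((hG.iterate k).continuousAt ha),
        fun _ _ y hy hy' => ?_⟩
      exact hab.le_bot ⟨hy.2, hy'.1⟩
    · exact ⟨univ, univ_mem, fun h1 h2 => absurd ⟨h1, h2⟩ hk⟩
  choose A hA hA2 using h1
  have h2 : (⋂ k ∈ Finset.range m, A k) ∩ U ∈ 𝓝 x :=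
    inter_mem ((Filter.biInter_finset_mem _).2 fun k _ => hA k) hU
  obtain ⟨W, hW, hWc, hWs⟩ := exists_mem_nhds_isClosed_subset h2
  refine ⟨W, hW, hWc, fun y hy => (hWs hy).2, fun k hk hkm y hy hy' => ?_⟩
  have h3 : ∀ z ∈ W, z ∈ A k := fun z hz =>
    mem_iInter₂.1 (hWs hz).1 k (Finset.mem_range.2 hkm)
  exact hA2 k hk hkm y (h3 y hy) (h3 _ hy')

variable [IsManifold 𝓘(ℝ, E) ∞ M]

/-- A generic translation in a chart makes the fixed points in a ball nondegenerate. -/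
theorem frequently_nd [FiniteDimensional ℝ E] {g : Dyn E M r} (hr : 1 ≤ r)
    {e : OpenPartialHomeomorph M E}
    (he : e ∈ IsManifold.maximalAtlas 𝓘(ℝ, E) ∞ M) {c : E} {ρ : ℝ} (hρ : 0 < ρ)
    (hρt : closedBall c ρ ⊆ e.target) {W : Set M} (hρW : e.symm '' closedBall c ρ ⊆ W)
    {Ψ : Fam E M (E × (E →L[ℝ] E))} (hΨW : ∀ v, ∀ x ∉ W, Ψ.toFun v x = x)
    (hΨ : ∀ᶠ v in 𝓝 (0 : E × (E →L[ℝ] E)), ∀ y ∈ closedBall c ρ,
        Ψ.toFun v (e.symm y) = e.symm (y + (v.1 + v.2 (y - c))) ∧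
        y + (v.1 + v.2 (y - c)) ∈ e.target) {m : ℕ} (hm : 0 < m)
    (hW : ∀ k, 0 < k → k < m → ∀ y ∈ W, g^[k] y ∉ W) :
    ∃ᶠ v in 𝓝 (0 : E), ∀ x ∈ e.symm '' closedBall c (ρ / 2),
      (pert g (Ψ.toFun (v, 0)))^[m] x = x →
        ND (D (pert g (Ψ.toFun (v, 0)))^[m] x : E →L[ℝ] E) := by
  set φ : E → E := fun z => e (g^[m] (e.symm z)) with hφdef
  set s : Set E := {z ∈ closedBall c ρ | g^[m] (e.symm z) ∈ e.source} with hs
  have hφ : ∀ z ∈ s, DifferentiableAt ℝ φ z := by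
    intro z hz
    have h1 := contDiffAt_chart (V := ℝ) (v := 0) (G := fun p : ℝ × M => g^[m] p.2) (z := z)
      (n := 1) he he (contMDiffAt_comp_snd
        ((contMDiff_iterate (Dyn.contMDiff_one g hr) m).contMDiffAt) 0) (hρt hz.1) hz.2
    exact (h1.comp z (contDiffAt_const.prodMk contDiffAt_id)).differentiableAt (by simp)
  have hfr := frequently_regular hφ
  have hL : Tendsto (fun v : E => ((v, 0) : E × (E →L[ℝ] E))) (𝓝 0) (𝓝 0) := by
    have : Continuous (fun v : E => ((v, 0) : E × (E →L[ℝ] E))) := by fun_prop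
    exact this.tendsto' _ _ rfl
  have hsmall : ∀ᶠ v : E in 𝓝 0, ‖v‖ < ρ / 2 := by
    filter_upwards [ball_mem_nhds (0 : E) (half_pos hρ)] with v hv
    simpa using hv
  refine (hfr.and_eventually ((hL.eventually hΨ).and hsmall)).mono ?_
  rintro v ⟨hv1, hv2, hv3⟩ x ⟨z, hz, rfl⟩ hfix
  have hzρ : z ∈ closedBall c ρ := closedBall_subset_closedBall (by linarith) hz
  have hnear : ∀ᶠ ζ in 𝓝 z, ζ ∈ closedBall c ρ := by
    have : ball c ρ ∈ 𝓝 z := isOpen_ball.mem_nhds (by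
      rw [mem_closedBall] at hz
      rw [mem_ball]
      linarith)
    filter_upwards [this] with ζ hζ
    exact ball_subset_closedBall hζ
  have hform : ∀ ζ ∈ closedBall c ρ,
      (pert g (Ψ.toFun (v, 0)))^[m] (e.symm ζ) = g^[m] (e.symm (ζ + v)) := by
    intro ζ hζ
    rw [iterate_pert (hΨW (v, 0)) hW (hρW ⟨ζ, hζ, rfl⟩) hm le_rfl, (hv2 ζ hζ).1]
    simp
  have hzv : z + v ∈ closedBall c ρ := by
    rw [mem_closedBall, dist_eq_norm] at hz ⊢
    calc ‖z + v - c‖ = ‖(z - c) + v‖ := by congr 1; abel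
      _ ≤ ρ / 2 + ρ / 2 := (norm_add_le _ _).trans (add_le_add hz hv3.le)
      _ = ρ := by ring
  have hsrc : e.symm z ∈ e.source := e.map_target (hρt hzρ)
  have hfix' : g^[m] (e.symm (z + v)) = e.symm z := by rw [← hform z hzρ, hfix]
  have hzs : z + v ∈ s := ⟨hzv, by rw [hfix']; exact hsrc⟩
  have hnd := hv1 (z + v) hzs (by
    simp only [hφdef, hfix', e.right_inv (hρt hzρ)]
    abel)
  have hez : e (e.symm z) = z := e.right_inv (hρt hzρ)
  rw [← nd_iff_chart he hsrc (mdiff_iterate (Dyn.mdiff _ hr) m _) hfix, hez]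
  have hev : (fun ζ => e ((pert g (Ψ.toFun (v, 0)))^[m] (e.symm ζ))) =ᶠ[𝓝 z]
      fun ζ => φ (ζ + v) := by
    filter_upwards [hnear] with ζ hζ
    rw [hform ζ hζ]
  rw [hev.fderiv_eq, fderiv_comp_add_right]
  exact hnd

/-- A stable set of diffeomorphisms. -/
structure Stab (N : Set (Dyn E M r)) : Prop where
  isOpen : IsOpen[crTopology E M r] N
  conj : ∀ g ∈ N, ∀ g' ∈ N, OmegaConj g g'

theorem Dyn.isOpenMap (g : Dyn E M r) : IsOpenMap g := g.toHomeomorph.isOpenMap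

theorem Stab.encard_eq {N : Set (Dyn E M r)} (hN : Stab N) {g g' : Dyn E M r} (hg : g ∈ N)
    (hg' : g' ∈ N) (Q : Set ℕ → Prop) (hQ : ∀ S, Q S → ∃ n > 0, n ∈ S) :
    {x | Q {n | g^[n] x = x}}.encard = {x | Q {n | g'^[n] x = x}}.encard :=
  (hN.conj g hg g' hg').encard_eq (Dyn.isOpenMap g) g.continuous (Dyn.isOpenMap g') g'.continuous Q hQ

theorem Stab.finite_of_finite {N : Set (Dyn E M r)} (hN : Stab N) {g g' : Dyn E M r} (hg : g ∈ N)
    (hg' : g' ∈ N) {m : ℕ} (hm : 0 < m) (h : {x | g^[m] x = x}.Finite) :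
    {x | g'^[m] x = x}.Finite := by
  have h1 := hN.encard_eq hg hg' (fun S => m ∈ S) (fun S hS => ⟨m, hm, hS⟩)
  simp only [mem_ofPred_eq] at h1
  rw [← encard_lt_top_iff, ← h1, encard_lt_top_iff]
  exact h

theorem Fam.eventually_not_mem [T2Space M] (Ψ : Fam E M V) (g : Dyn E M r) (k : ℕ) {K C : Set M}
    (hK : IsCompact K) (hC : IsClosed C) (h : ∀ y ∈ K, g^[k] y ∉ C) :
    ∀ᶠ v in 𝓝 (0 : V), ∀ y ∈ K, (pert g (Ψ.toFun v))^[k] y ∉ C := by
  refine hK.eventually_forall_of_forall_eventually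
    (P := fun v y => (pert g (Ψ.toFun v))^[k] y ∉ C) fun y hy => ?_
  have h1 := Ψ.continuousAt_iterate g k y
  refine h1.eventually (hC.isOpen_compl.mem_nhds ?_)
  simp only [pert_zero, mem_compl_iff]
  exact h y hy

theorem Fam.eventually_ne [T2Space M] (Ψ : Fam E M V) (g : Dyn E M r) (k : ℕ) {K : Set M}
    (hK : IsCompact K) (h : ∀ y ∈ K, g^[k] y ≠ y) :
    ∀ᶠ v in 𝓝 (0 : V), ∀ y ∈ K, (pert g (Ψ.toFun v))^[k] y ≠ y := by
  refine hK.eventually_forall_of_forall_eventually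
    (P := fun v y => (pert g (Ψ.toFun v))^[k] y ≠ y) fun y hy => ?_
  have h1 := Ψ.continuousAt_iterate g k y
  have h3 : (pert g (Ψ.toFun (0, y).1))^[k] (0, y).2 ≠ ((0 : V), y).2 := by
    simp only [pert_zero]
    exact h y hy
  exact (h1.prodMk continuousAt_snd).eventually ((isClosed_diagonal.isOpen_compl).mem_nhds h3)

/-- **Finiteness of the sets of periodic points.** -/
theorem Stab.fix_finite [FiniteDimensional ℝ E] [CompactSpace M] [T2Space M]
    {N : Set (Dyn E M r)} (hN : Stab N) (hr : 1 ≤ r) (m : ℕ) (hm : 0 < m) :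
    ∀ g ∈ N, {x | g^[m] x = x}.Finite := by
  induction m using Nat.strong_induction_on with
  | _ m IH =>
  intro g hg
  suffices h : ∃ g' ∈ N, {x | g'^[m] x = x}.Finite by
    obtain ⟨g', hg', h⟩ := h
    exact hN.finite_of_finite hg' hg hm h
  -- the points of lower period
  set P : Set M := {x | g^[m] x = x ∧ ∃ d, 0 < d ∧ d < m ∧ g^[d] x = x} with hP
  have hPfin : P.Finite := by
    refine Set.Finite.subset (Set.Finite.biUnion (Set.finite_lt_nat m)
      (t := fun d => {x | 0 < d ∧ g^[d] x = x}) (fun d hd => ?_)) ?_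
    · rcases Nat.eq_zero_or_pos d with rfl | hd0
      · simp
      · exact (IH d hd hd0 g hg).subset fun x hx => hx.2
    · rintro x ⟨-, d, hd, hdm, hx⟩
      exact mem_biUnion hdm ⟨hd, hx⟩
  have hPg : ∀ p ∈ P, g p ∈ P := by
    rintro p ⟨h1, d, hd, hdm, h2⟩
    refine ⟨?_, d, hd, hdm, ?_⟩
    · rw [← Function.iterate_succ_apply, Function.iterate_succ_apply', h1]
    · rw [← Function.iterate_succ_apply, Function.iterate_succ_apply', h2]
  -- make them nondegenerate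
  obtain ⟨g₁, hg₁, hsub, hP1⟩ : ∃ g₁ ∈ N, (∀ x, g₁^[m] x = x →
      (∃ d, 0 < d ∧ d < m ∧ g₁^[d] x = x) → x ∈ P) ∧
      ∀ p ∈ P, g₁^[m] p = p ∧ g₁ p ∈ P ∧ ND (D g₁^[m] p : E →L[ℝ] E) := by
    obtain ⟨Ψ, -, hΨ⟩ := exists_scaling (E := E) hPfin ∅ isClosed_empty (disjoint_empty _)
    have h1 := Filter.Eventually.filter_mono (nhdsWithin_le_nhds (s := {0}ᶜ))
      ((Ψ.eventually_mem g hN.isOpen hg).and hΨ)
    have h2 : ∀ᶠ s : ℝ in 𝓝[≠] 0, ∀ p ∈ P, ND ((1 + s) ^ m • (D g^[m] p : E →L[ℝ] E)) :=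
      (eventually_all_finite hPfin).2 fun p _ => nd_scale _ hm
    obtain ⟨s, ⟨hs1, hs2⟩, hs3⟩ := (h1.and h2).exists
    have h3 := D_iterate_scale g hr hPg hs2
    set g₁ := pert g (Ψ.toFun s) with hg₁
    have hPP : P = {x | g₁^[m] x = x ∧ ∃ d, 0 < d ∧ d < m ∧ g₁^[d] x = x} := by
      refine hPfin.eq_of_subset_of_encard_le ?_ ?_
      · rintro p hp
        obtain ⟨h4, d, hd, hdm, h5⟩ := hp
        exact ⟨(h3 m p ⟨h4, d, hd, hdm, h5⟩).1.trans h4, d, hd, hdm,
          (h3 d p ⟨h4, d, hd, hdm, h5⟩).1.trans h5⟩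
      · have := hN.encard_eq hs1 hg (fun S => m ∈ S ∧ ∃ d, 0 < d ∧ d < m ∧ d ∈ S)
          (fun S hS => ⟨m, hm, hS.1⟩)
        exact this.le
    refine ⟨g₁, hs1, fun x hx hx' => ?_, fun p hp => ⟨?_, ?_, ?_⟩⟩
    · rw [hPP]
      exact ⟨hx, hx'⟩
    · exact (h3 m p hp).1.trans hp.1
    · have := (h3 1 p hp).1
      simp only [Function.iterate_one] at this
      rw [this]
      exact hPg p hp
    · rw [(h3 m p hp).2]
      exact hs3 p hp
  have hPit : ∀ p ∈ P, ∀ k, g₁^[k] p ∈ P := by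
    intro p hp k
    induction k with
    | zero => exact hp
    | succ k ih =>
      rw [Function.iterate_succ_apply']
      exact (hP1 _ ih).2.1
  have hC1 : ContMDiff 𝓘(ℝ, E) 𝓘(ℝ, E) 1 g₁^[m] :=
    contMDiff_iterate (Dyn.contMDiff_one g₁ hr) m
  -- the points of period exactly `m`
  set K : Set M := {x | g₁^[m] x = x} \ P with hK
  have hKc : IsClosed K := by
    rw [← isOpen_compl_iff, isOpen_iff_mem_nhds]
    intro y hy
    by_cases hyf : g₁^[m] y = y
    · have hyP : y ∈ P := by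
        by_contra h
        exact hy ⟨hyf, h⟩
      filter_upwards [eventually_ne_of_nd hC1.contMDiffAt hyf (hP1 y hyP).2.2] with z hz hzK
      exact hzK.2 (hz hzK.1 ▸ hyP)
    · have : {x | g₁^[m] x = x}ᶜ ∈ 𝓝 y :=
        (isClosed_eq hC1.continuous continuous_id).isOpen_compl.mem_nhds hyf
      filter_upwards [this] with z hz hzK
      exact hz hzK.1
  -- the local data
  have hdata : ∀ x : M, ∃ (W : Set M) (Ψ : Fam E M (E × (E →L[ℝ] E))) (ρ : ℝ), x ∈ K →
      (IsClosed W ∧ Disjoint W P ∧ (∀ k, 0 < k → k < m → ∀ y ∈ W, g₁^[k] y ∉ W) ∧ 0 < ρ ∧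
      closedBall (chartAt E x x) ρ ⊆ (chartAt E x).target ∧
      (chartAt E x).symm '' closedBall (chartAt E x x) ρ ⊆ W ∧
      (∀ v, ∀ x ∉ W, Ψ.toFun v x = x) ∧
      ∀ᶠ v in 𝓝 (0 : E × (E →L[ℝ] E)), ∀ y ∈ closedBall (chartAt E x x) ρ,
        Ψ.toFun v ((chartAt E x).symm y) = (chartAt E x).symm (y + (v.1 + v.2 (y - chartAt E x x))) ∧
        y + (v.1 + v.2 (y - chartAt E x x)) ∈ (chartAt E x).target) := by
    intro x
    by_cases hx : x ∈ K
    · have h1 : ∀ k, 0 < k → k < m → g₁^[k] x ≠ x := fun k hk hkm h =>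
        hx.2 (hsub x hx.1 ⟨k, hk, hkm, h⟩)
      obtain ⟨W, hW, hWc, hWP, hWk⟩ := exists_nhds_noreturn g₁.continuous h1
        (hPfin.isClosed.isOpen_compl.mem_nhds hx.2)
      obtain ⟨Ψ, ρ, hρ, h2, h3, h4, h5⟩ := exists_localFam
        (IsManifold.chart_mem_maximalAtlas (n := ∞) (I := 𝓘(ℝ, E)) x)
        ((chartAt E x).map_source (mem_chart_source E x)) (W := W)
        (by rwa [(chartAt E x).left_inv (mem_chart_source E x)])
      exact ⟨W, Ψ, ρ, fun _ => ⟨hWc, disjoint_left.2 fun y hy hy' => hWP hy hy', hWk, hρ, h2, h3,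
        h4, h5⟩⟩
    · exact ⟨∅, ⟨fun _ => Diffeomorph.refl _ _ _, fun _ => rfl,
        Eventually.of_forall fun v x => contMDiffAt_snd⟩, 0, fun h => absurd h hx⟩
  choose W Ψ ρ hdata using hdata
  set B : M → Set M := fun x => (chartAt E x).symm '' closedBall (chartAt E x x) (ρ x / 2) with hB
  have hBn : ∀ x ∈ K, interior (B x) ∈ 𝓝 x := by
    intro x hx
    obtain ⟨-, -, -, hρ, hρt, -⟩ := hdata x hx
    rw [interior_mem_nhds]
    have h1 := (chartAt E x).symm.image_mem_nhds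
      ((chartAt E x).map_source (mem_chart_source E x)) (closedBall_mem_nhds (chartAt E x x)
        (half_pos hρ))
    rwa [(chartAt E x).left_inv (mem_chart_source E x)] at h1
  have hBc : ∀ x ∈ K, IsCompact (B x) := by
    intro x hx
    obtain ⟨-, -, -, hρ, hρt, -⟩ := hdata x hx
    exact (isCompact_closedBall _ _).image_of_continuousOn ((chartAt E x).continuousOn_symm.mono
      ((closedBall_subset_closedBall (by linarith)).trans hρt))
  have hBW : ∀ x ∈ K, B x ⊆ W x := by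
    intro x hx
    obtain ⟨-, -, -, hρ, -, hρW, -⟩ := hdata x hx
    exact (image_mono (closedBall_subset_closedBall (by linarith))).trans hρW
  obtain ⟨t, htK, ht⟩ := hKc.isCompact.elim_nhds_subcover (fun x => interior (B x)) hBn
  -- the open set near the points of lower period
  set O : Set M := {y | ∀ k < m, ∀ x ∈ t, g₁^[k] y ∉ W x} with hO
  have hOo : IsOpen O := by
    have : O = ⋂ k ∈ Finset.range m, ⋂ x ∈ t, g₁^[k] ⁻¹' (W x)ᶜ := by
      ext y
      simp [hO]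
    rw [this]
    refine isOpen_biInter_finset fun k _ => isOpen_biInter_finset fun x hx => ?_
    exact (hdata x (htK x hx)).1.isOpen_compl.preimage (g₁.continuous.iterate k)
  have hPO : P ⊆ O := by
    intro p hp k _ x hx hpW
    exact (hdata x (htK x hx)).2.1.le_bot ⟨hpW, hPit p hp k⟩
  set K₀ : Set M := (O ∪ ⋃ x ∈ t, interior (B x))ᶜ with hK₀
  have hK₀c : IsCompact K₀ :=
    (hOo.union (isOpen_biUnion fun _ _ => isOpen_interior)).isClosed_compl.isCompact
  have hK₀f : ∀ y ∈ K₀, g₁^[m] y ≠ y := by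
    intro y hy hfix
    by_cases hyP : y ∈ P
    · exact hy (Or.inl (hPO hyP))
    · exact hy (Or.inr (ht ⟨hfix, hyP⟩))
  -- the induction
  have key : ∀ s : Finset M, s ⊆ t → ∃ g' ∈ N, (∀ y, (∀ x ∈ t, y ∉ W x) → g' y = g₁ y) ∧
      (∀ x ∈ t, ∀ k, 0 < k → k < m → ∀ y ∈ W x, g'^[k] y ∉ W x) ∧
      (∀ y ∈ K₀, g'^[m] y ≠ y) ∧
      ∀ x ∈ s, ∀ y ∈ B x, g'^[m] y = y → ND (D g'^[m] y : E →L[ℝ] E) := by
    classical
    intro s
    induction s using Finset.induction_on with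
    | empty =>
      intro _
      exact ⟨g₁, hg₁, fun _ _ => rfl, fun x hx => (hdata x (htK x hx)).2.2.1, hK₀f, by simp⟩
    | insert x₀ s hx₀ ih =>
      intro hst
      obtain ⟨g', hg', h1, h2, h3, h4⟩ := ih ((Finset.subset_insert _ _).trans hst)
      have hx₀t : x₀ ∈ t := hst (Finset.mem_insert_self _ _)
      have hst' : s ⊆ t := (Finset.subset_insert _ _).trans hst
      obtain ⟨hWc, hWP, -, hρ, hρt, hρW, hΨW, hΨ⟩ := hdata x₀ (htK x₀ hx₀t)
      have hsard := frequently_nd (g := g') hr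
        (IsManifold.chart_mem_maximalAtlas (n := ∞) (I := 𝓘(ℝ, E)) x₀) hρ hρt hρW hΨW hΨ hm
        (h2 x₀ hx₀t)
      set Φ : Fam E M E := (Ψ x₀).reparam (ContinuousLinearMap.inl ℝ E (E →L[ℝ] E)) with hΦ
      have hΦa : ∀ v, Φ.toFun v = (Ψ x₀).toFun (v, 0) := fun v => rfl
      have e1 := Φ.eventually_mem g' hN.isOpen hg'
      have e2 : ∀ᶠ v in 𝓝 (0 : E), ∀ x ∈ t, ∀ k ∈ Finset.range m, 0 < k →
          ∀ y ∈ W x, (pert g' (Φ.toFun v))^[k] y ∉ W x := by
        rw [Filter.eventually_all_finset]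
        intro x hx
        rw [Filter.eventually_all_finset]
        intro k hk
        rcases Nat.eq_zero_or_pos k with rfl | hk0
        · exact Eventually.of_forall fun _ h => absurd h (lt_irrefl 0)
        · have := Φ.eventually_not_mem g' k ((hdata x (htK x hx)).1.isCompact)
            (hdata x (htK x hx)).1 (h2 x hx k hk0 (Finset.mem_range.1 hk))
          exact this.mono fun v hv _ => hv
      have e3 := Φ.eventually_ne g' m hK₀c h3
      have e4 : ∀ᶠ v in 𝓝 (0 : E), ∀ x ∈ s, ∀ y ∈ B x, (pert g' (Φ.toFun v))^[m] y = y →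
          ND (D (pert g' (Φ.toFun v))^[m] y : E →L[ℝ] E) := by
        rw [Filter.eventually_all_finset]
        intro x hx
        refine (hBc x (htK x (hst' hx))).eventually_forall_of_forall_eventually
          (P := fun v y => (pert g' (Φ.toFun v))^[m] y = y →
            ND (D (pert g' (Φ.toFun v))^[m] y : E →L[ℝ] E)) fun y hy => ?_
        exact Φ.eventually_nd g' hr m (h4 x hx y hy)
      obtain ⟨v, hv1, hv2, hv3, hv4, hv5⟩ :=
        (hsard.and_eventually (e1.and (e2.and (e3.and e4)))).exists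
      refine ⟨pert g' (Φ.toFun v), hv2, fun y hy => ?_, fun x hx k hk hkm y hy => ?_, hv4,
        fun x hx y hy hfix => ?_⟩
      · rw [pert_apply, hΦa, hΨW _ y (hy x₀ hx₀t)]
        exact h1 y hy
      · exact hv3 x hx k (Finset.mem_range.2 hkm) hk y hy
      · rcases Finset.mem_insert.1 hx with rfl | hx
        · exact hv1 y hy hfix
        · exact hv5 x hx y hy hfix
  obtain ⟨g', hg', h1, -, h3, h4⟩ := key t subset_rfl
  refine ⟨g', hg', ?_⟩
  have hC1' : ContMDiff 𝓘(ℝ, E) 𝓘(ℝ, E) 1 g'^[m] :=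
    contMDiff_iterate (Dyn.contMDiff_one g' hr) m
  have hfinB : (⋃ x ∈ t, {y ∈ B x | g'^[m] y = y}).Finite := by
    refine Set.Finite.biUnion t.finite_toSet fun x hx => ?_
    exact finite_of_nd hC1' (hBc x (htK x hx)) (h4 x hx)
  refine (hPfin.union hfinB).subset fun y hy => ?_
  have hy : g'^[m] y = y := hy
  by_cases hyO : y ∈ O
  · left
    have h5 : ∀ k ≤ m, g'^[k] y = g₁^[k] y := by
      intro k
      induction k with
      | zero => intro _; rfl
      | succ k ih =>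
        intro hk
        rw [Function.iterate_succ_apply', Function.iterate_succ_apply', ih (by omega)]
        exact h1 _ fun x hx => hyO k (by omega) x hx
    have h6 : g₁^[m] y = y := (h5 m le_rfl).symm.trans hy
    by_contra hyP
    obtain ⟨x, hx, hyx⟩ := mem_iUnion₂.1 (ht ⟨h6, hyP⟩)
    exact hyO 0 hm x hx (hBW x (htK x hx) (interior_subset hyx))
  · right
    have h5 : y ∉ K₀ := fun h => h3 y h hy
    rw [hK₀, mem_compl_iff, not_not] at h5
    rcases h5 with h5 | h5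
    · exact absurd h5 hyO
    · obtain ⟨x, hx, hyx⟩ := mem_iUnion₂.1 h5
      exact mem_biUnion hx ⟨interior_subset hyx, hy⟩

end OmSt
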