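import Pool.Agent.OmSt.LocDiffeo

/-!
# Gluing a compactly supported map of a chart domain into a manifold
-/

open Set Filter Topology Manifold ContDiff Metric
open scoped NNReal

set_option linter.unusedSectionVars false

namespace OmSt

variable {E : Type*} [NormedAddCommGroup E] [NormedSpace ℝ E]
  {M : Type*} [TopologicalSpace M] [ChartedSpace E M]
  {V : Type*} [NormedAddCommGroup V] [NormedSpace ℝ V]

/-- The map which is `T` in the chart `e` and the identity off the domain of the chart. -/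
noncomputable def glue (e : OpenPartialHomeomorph M E) (T : E → E) (x : M) : M :=
  haveI := Classical.dec (x ∈ e.source)
  if x ∈ e.source then e.symm (T (e x)) else x

theorem glue_of_mem (e : OpenPartialHomeomorph M E) (T : E → E) {x : M} (hx : x ∈ e.source) :
    glue e T x = e.symm (T (e x)) := by
  simp [glue, hx]

theorem glue_of_not_mem (e : OpenPartialHomeomorph M E) (T : E → E) {x : M}
    (hx : x ∉ e.source) : glue e T x = x := by
  simp [glue, hx]

theorem glue_eq_self (e : OpenPartialHomeomorph M E) {T : E → E} {K : Set E}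
    (hT : ∀ y ∉ K, T y = y) {x : M} (hx : x ∉ e.symm '' K) : glue e T x = x := by
  by_cases h : x ∈ e.source
  · rw [glue_of_mem e T h, hT, e.left_inv h]
    intro hk
    exact hx ⟨e x, hk, e.left_inv h⟩
  · exact glue_of_not_mem e T h

theorem glue_glue (e : OpenPartialHomeomorph M E) {T T' : E → E}
    (hT : ∀ y ∈ e.target, T y ∈ e.target) (h : ∀ y, T' (T y) = y) (x : M) :
    glue e T' (glue e T x) = x := by
  by_cases hx : x ∈ e.source
  · have h1 : T (e x) ∈ e.target := hT _ (e.map_source hx)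
    rw [glue_of_mem e T hx, glue_of_mem e T' (e.map_target h1), e.right_inv h1, h, e.left_inv hx]
  · rw [glue_of_not_mem e T hx, glue_of_not_mem e T' hx]

theorem isClosed_image_symm [T2Space M] (e : OpenPartialHomeomorph M E) {K : Set E}
    (hK : IsCompact K) (hKt : K ⊆ e.target) : IsClosed (e.symm '' K) :=
  (hK.image_of_continuousOn (e.continuousOn_symm.mono hKt)).isClosed

theorem glue_contMDiffAt [T2Space M] [IsManifold 𝓘(ℝ, E) ∞ M] {e : OpenPartialHomeomorph M E}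
    (he : e ∈ IsManifold.maximalAtlas 𝓘(ℝ, E) ∞ M) {K : Set E} (hK : IsCompact K)
    (hKt : K ⊆ e.target) {T : V → E → E} {v₀ : V}
    (hTid : ∀ᶠ v in 𝓝 v₀, ∀ y ∉ K, T v y = y) (hTt : ∀ y ∈ e.target, T v₀ y ∈ e.target)
    (hT : ∀ y, ContDiffAt ℝ ∞ (fun p : V × E => T p.1 p.2) (v₀, y)) (x₀ : M) :
    ContMDiffAt (𝓘(ℝ, V).prod 𝓘(ℝ, E)) 𝓘(ℝ, E) ∞
      (fun p : V × M => glue e (T p.1) p.2) (v₀, x₀) := by
  by_cases hx : x₀ ∈ e.source
  · have h1 : ContMDiffAt (𝓘(ℝ, V).prod 𝓘(ℝ, E)) (𝓘(ℝ, V).prod 𝓘(ℝ, E)) ∞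
        (fun p : V × M => (p.1, e p.2)) (v₀, x₀) :=
      contMDiffAt_fst.prodMk ((contMDiffAt_of_mem_maximalAtlas he hx).comp (v₀, x₀)
        contMDiffAt_snd)
    have h2 : ContMDiffAt (𝓘(ℝ, V).prod 𝓘(ℝ, E)) 𝓘(ℝ, E) ∞
        (fun p : V × E => T p.1 p.2) (v₀, e x₀) := by
      rw [← modelWithCornersSelf_prod, chartedSpaceSelf_prod]
      exact (hT (e x₀)).contMDiffAt
    have h3 : ContMDiffAt 𝓘(ℝ, E) 𝓘(ℝ, E) ∞ e.symm (T v₀ (e x₀)) :=
      contMDiffAt_symm_of_mem_maximalAtlas he (hTt _ (e.map_source hx))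
    have h4 : ContMDiffAt (𝓘(ℝ, V).prod 𝓘(ℝ, E)) 𝓘(ℝ, E) ∞
        (fun p : V × M => e.symm (T p.1 (e p.2))) (v₀, x₀) :=
      ContMDiffAt.comp (v₀, x₀) (g := e.symm) h3
        (ContMDiffAt.comp (v₀, x₀) (g := fun p : V × E => T p.1 p.2) h2 h1)
    refine h4.congr_of_eventuallyEq ?_
    have h5 : ∀ᶠ p : V × M in 𝓝 (v₀, x₀), p.2 ∈ e.source :=
      continuous_snd.continuousAt.eventually (e.open_source.mem_nhds hx)
    filter_upwards [h5] with p hp
    exact glue_of_mem e _ hp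
  · have h0 : x₀ ∉ e.symm '' K := by
      rintro ⟨y, hy, rfl⟩
      exact hx (e.map_target (hKt hy))
    have h6 : ∀ᶠ p : V × M in 𝓝 (v₀, x₀), p.2 ∉ e.symm '' K :=
      (continuous_snd.continuousAt (x := (v₀, x₀))).eventually
        ((isClosed_image_symm e hK hKt).isOpen_compl.mem_nhds h0)
    have h7 : ∀ᶠ p : V × M in 𝓝 (v₀, x₀), ∀ y ∉ K, T p.1 y = y :=
      (continuous_fst.continuousAt (x := (v₀, x₀))).eventually hTid
    refine (contMDiffAt_snd (I := 𝓘(ℝ, V)) (J := 𝓘(ℝ, E))).congr_of_eventuallyEq ?_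
    filter_upwards [h6, h7] with p hp hp'
    exact glue_eq_self e hp' hp

end OmSt
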