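import Pool.Agent.OmSt.Horse

/-!
# A transverse homoclinic orbit gives a recurrent point which is not periodic, II
-/

open Set Filter Topology Manifold ContDiff Metric

set_option linter.unusedSectionVars false

namespace OmSt

variable {E : Type*} [NormedAddCommGroup E] [NormedSpace ℝ E]
  {M : Type*} [TopologicalSpace M]
  {g : M → M} {e : OpenPartialHomeomorph M E} {m J : ℕ} {c : E} {ρ : ℝ} {ξ : ℤ → E} {K : ℝ}

/-- Sequences of zeros and ones. -/
abbrev Sym : Type := {ν : ℤ → ℤ // ∀ i, ν i = 0 ∨ ν i = 1}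

theorem exists_radius {F : Type*} [PseudoMetricSpace F] {u : ℤ → F} {a : F}
    (h1 : Tendsto u atTop (𝓝 a)) (h2 : Tendsto u atBot (𝓝 a)) {ε : ℝ} (hε : 0 < ε) :
    ∃ R : ℕ, ∀ k : ℤ, (R : ℤ) ≤ |k| → dist (u k) a < ε := by
  obtain ⟨x, hx⟩ := eventually_atTop.1 (h1.eventually (ball_mem_nhds a hε))
  obtain ⟨y, hy⟩ := eventually_atBot.1 (h2.eventually (ball_mem_nhds a hε))
  refine ⟨x.natAbs + y.natAbs, fun k hk => ?_⟩
  push_cast at hk
  rcases le_total 0 k with h | h
  · rw [abs_of_nonneg h] at hk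
    exact hx k (by linarith [le_abs_self x, abs_nonneg y])
  · rw [abs_of_nonpos h] at hk
    exact hy k (by linarith [neg_abs_le y, abs_nonneg x])

/-- The coefficients converge along the homoclinic orbit. -/
theorem HomData.coef (h : HomData g e m J c ρ ξ K) :
    ∃ (A₀ : E →L[ℝ] E) (C : ℝ), 0 ≤ C ∧ (∀ k, ‖fderiv ℝ (chm g e m J k) (ξ k) - A₀‖ ≤ C) ∧
      ∀ ε > 0, ∃ R : ℕ, ∀ k : ℤ, (R : ℤ) ≤ |k| →
        ‖fderiv ℝ (chm g e m J k) (ξ k) - A₀‖ ≤ ε := by
  set φ : E → E := fun z => e (g^[m] (e.symm z)) with hφ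
  have hcc : ContinuousAt (fderiv ℝ φ) c :=
    (h.smooth c (mem_closedBall_self h.hρ.le)).continuousAt_fderiv (by simp)
  have hconv : ∀ ε > 0, ∃ R : ℕ, ∀ k : ℤ, (R : ℤ) ≤ |k| →
        ‖fderiv ℝ (chm g e m J k) (ξ k) - fderiv ℝ φ c‖ ≤ ε := by
    intro ε hε
    obtain ⟨R, hR⟩ := exists_radius (u := fun k => fderiv ℝ φ (ξ k)) (hcc.tendsto.comp h.top)
      (hcc.tendsto.comp h.bot) hε
    refine ⟨R + 1, fun k hk => ?_⟩
    push_cast at hk
    have hk0 : k ≠ 0 := by
      rintro rfl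
      simp at hk
      omega
    rw [chm_of_ne hk0]
    have := hR k (by linarith)
    rw [dist_eq_norm] at this
    exact this.le
  obtain ⟨R, hR⟩ := hconv 1 one_pos
  have hfin : {k : ℤ | |k| < R}.Finite := by
    refine (Set.finite_Icc (-(R : ℤ)) R).subset fun k hk => ?_
    have hk : |k| < R := hk
    have := abs_lt.1 hk
    exact ⟨this.1.le, this.2.le⟩
  obtain ⟨C, hC⟩ := (hfin.image (fun k => ‖fderiv ℝ (chm g e m J k) (ξ k) - fderiv ℝ φ c‖)).bddAbove
  refine ⟨fderiv ℝ φ c, max C 1, le_max_of_le_right zero_le_one, fun k => ?_, hconv⟩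
  by_cases hk : |k| < R
  · exact (hC ⟨k, hk, rfl⟩).trans (le_max_left _ _)
  · exact (hR k (not_lt.1 hk)).trans (le_max_right _ _)

theorem tent_eq_zero {G : ℕ} {x : ℤ} (hG : 0 < G) (hx : (G : ℤ) ≤ |x|) : tent G x = 0 := by
  unfold tent
  rw [max_eq_left]
  have hG' : (0 : ℝ) < G := by exact_mod_cast hG
  have hx' : (G : ℝ) ≤ |(x : ℝ)| := by
    have : ((G : ℤ) : ℝ) ≤ ((|x| : ℤ) : ℝ) := by exact_mod_cast hx
    simpa using this
  have : 1 ≤ |(x : ℝ)| / G := (one_le_div hG').2 hx'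
  linarith

theorem tent_of_abs_le {G : ℕ} {x : ℤ} (hG : 0 < G) (hx : |x| ≤ G) :
    tent G x = (((G : ℤ) - |x| : ℤ) : ℝ) / G := by
  unfold tent
  have hG' : (0 : ℝ) < G := by exact_mod_cast hG
  have hx' : |(x : ℝ)| ≤ G := by
    have : ((|x| : ℤ) : ℝ) ≤ ((G : ℤ) : ℝ) := by exact_mod_cast hx
    simpa using this
  have h1 : |(x : ℝ)| / G ≤ 1 := (div_le_one hG').2 hx'
  rw [max_eq_right (by linarith)]
  push_cast
  field_simp

/-- The weighted closeness needed for the gluing. -/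
theorem HomData.close (h : HomData g e m J c ρ ξ K) {ε : ℝ} (hε : 0 < ε) :
    ∃ H : ℕ, ∀ h' : ℕ, H ≤ h' → 0 < h' → ∀ ν : ℤ → ℤ, (∀ i, ν i = 0 ∨ ν i = 1) → ∀ i n : ℤ,
      tent (2 * h') (n - i * ((2 * h' : ℕ) : ℤ)) *
        ‖fderiv ℝ (chm g e m J (kp h' ν n)) (ξ (kp h' ν n)) -
          fderiv ℝ (chm g e m J (n - (i * (2 * h') + ν i))) (ξ (n - (i * (2 * h') + ν i)))‖ ≤ ε := by
  obtain ⟨A₀, C, hC0, hC, hlim⟩ := h.coef
  set A : ℤ → E →L[ℝ] E := fun k => fderiv ℝ (chm g e m J k) (ξ k) with hA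
  obtain ⟨R, hR⟩ := hlim (ε / 2) (by positivity)
  obtain ⟨H₁, hH₁⟩ := exists_nat_gt (C * (R + 1) / ε)
  refine ⟨max H₁ (R + 1), fun h' hh' hpos ν hν i n => ?_⟩
  have hh1 : H₁ ≤ h' := (le_max_left _ _).trans hh'
  have hh2 : R + 1 ≤ h' := (le_max_right _ _).trans hh'
  change tent (2 * h') (n - i * ((2 * h' : ℕ) : ℤ)) *
    ‖A (kp h' ν n) - A (n - (i * (2 * h') + ν i))‖ ≤ ε
  have hcast : ((2 * h' : ℕ) : ℤ) = 2 * (h' : ℤ) := by push_cast; ring
  rw [hcast]
  have hG : 0 < 2 * h' := by omega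
  have hν' : ∀ i, 0 ≤ ν i ∧ ν i ≤ 1 := fun i => by rcases hν i with h | h <;> rw [h] <;> norm_num
  set d : ℤ := n - i * (2 * h') with hd
  have hbb := bi_bp (h := (h' : ℤ)) n
  have hbm := bp_mem (h := (h' : ℤ)) (by exact_mod_cast hpos) n
  have hpos' : (0 : ℤ) < h' := by exact_mod_cast hpos
  -- the generic estimate
  have key : ∀ k₁ k₂ : ℤ, |d| < 2 * h' → 2 * (h' : ℤ) - |d| - 1 ≤ |k₁| → (h' : ℤ) - 1 ≤ |k₂| →
      tent (2 * h') d * ‖A k₁ - A k₂‖ ≤ ε := by
    intro k₁ k₂ h1 h2 h3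
    have ht0 := tent_nonneg (2 * h') d
    have ht1 := tent_le_one (2 * h') d
    have h4 : ‖A k₁ - A k₂‖ ≤ ‖A k₁ - A₀‖ + ‖A k₂ - A₀‖ := by
      have : A k₁ - A k₂ = (A k₁ - A₀) - (A k₂ - A₀) := by abel
      rw [this]
      exact norm_sub_le _ _
    have h5 : ‖A k₂ - A₀‖ ≤ ε / 2 := hR k₂ (by push_cast at hh2 ⊢; omega)
    have h6 : tent (2 * h') d * ‖A k₁ - A₀‖ ≤ ε / 2 := by
      by_cases h7 : (R : ℤ) ≤ |k₁|
      · calc tent (2 * h') d * ‖A k₁ - A₀‖ ≤ 1 * (ε / 2) := by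
              gcongr
              exact hR k₁ h7
          _ = ε / 2 := one_mul _
      · have h8 : 2 * (h' : ℤ) - |d| ≤ R + 1 := by omega
        have h9 : tent (2 * h') d ≤ (R + 1) / (2 * h') := by
          rw [tent_of_abs_le hG (by push_cast; exact h1.le)]
          have : (((2 * h' : ℕ) : ℤ) - |d| : ℤ) ≤ R + 1 := by push_cast; exact h8
          have h10 : ((((2 * h' : ℕ) : ℤ) - |d| : ℤ) : ℝ) ≤ R + 1 := by exact_mod_cast this
          have h11 : ((2 * h' : ℕ) : ℝ) = 2 * h' := by push_cast; ring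
          rw [h11]
          gcongr
        have hhr : (0 : ℝ) < h' := by exact_mod_cast hpos
        have h12 : C * (R + 1) / ε < h' := hH₁.trans_le (by exact_mod_cast hh1)
        calc tent (2 * h') d * ‖A k₁ - A₀‖ ≤ (R + 1) / (2 * h') * C := by
              gcongr
              exact hC k₁
          _ ≤ ε / 2 := by
              rw [div_lt_iff₀ hε] at h12
              rw [div_mul_eq_mul_div, div_le_div_iff₀ (by positivity) (by norm_num)]
              nlinarith
    calc tent (2 * h') d * ‖A k₁ - A k₂‖ ≤ tent (2 * h') d * (‖A k₁ - A₀‖ + ‖A k₂ - A₀‖) := by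
          gcongr
      _ = tent (2 * h') d * ‖A k₁ - A₀‖ + tent (2 * h') d * ‖A k₂ - A₀‖ := by ring
      _ ≤ ε / 2 + 1 * (ε / 2) := by gcongr
      _ = ε := by ring
  have hk2 : n - (i * (2 * h') + ν i) = d - ν i := by rw [hd]; ring
  rw [hk2]
  by_cases hbig : 2 * (h' : ℤ) ≤ |d|
  · rw [tent_eq_zero hG (by push_cast; exact hbig), zero_mul]
    exact hε.le
  · rw [not_le] at hbig
    have hb' := abs_lt.1 hbig
    by_cases hc1 : -(h' : ℤ) ≤ d ∧ d < h'
    · obtain ⟨a, b⟩ := bi_bp_unique hpos' (n := n) (i := i) (r := d) hc1 (by rw [hd]; ring)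
      have : kp h' ν n = d - ν i := by unfold kp; rw [a, b]
      rw [this, sub_self, norm_zero, mul_zero]
      exact hε.le
    · rcases le_or_gt (h' : ℤ) d with hc2 | hc2
      · obtain ⟨a, b⟩ := bi_bp_unique hpos' (n := n) (i := i + 1) (r := d - 2 * h')
          ⟨by linarith, by linarith [hb'.2]⟩ (by rw [hd]; ring)
        have hk : kp h' ν n = d - 2 * h' - ν (i + 1) := by unfold kp; rw [a, b]
        refine key _ _ hbig ?_ ?_
        · rw [hk, abs_of_nonneg (by linarith : (0 : ℤ) ≤ d)]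
          have := hν' (i + 1)
          rw [abs_of_nonpos (by linarith [hb'.2])]
          linarith
        · have := hν' i
          rw [abs_of_nonneg (by linarith)]
          linarith
      · have hc3 : d < -(h' : ℤ) := by
          by_contra hcon
          exact hc1 ⟨not_lt.1 hcon, hc2⟩
        obtain ⟨a, b⟩ := bi_bp_unique hpos' (n := n) (i := i - 1) (r := d + 2 * h')
          ⟨by linarith [hb'.1], by linarith⟩ (by rw [hd]; ring)
        have hk : kp h' ν n = d + 2 * h' - ν (i - 1) := by unfold kp; rw [a, b]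
        refine key _ _ hbig ?_ ?_
        · rw [hk, abs_of_nonpos (by linarith : d ≤ 0)]
          have := hν' (i - 1)
          rw [abs_of_nonneg (by linarith [hb'.1])]
          linarith
        · have := hν' i
          rw [abs_of_nonpos (by linarith)]
          linarith

theorem sum_tm {h' : ℕ} (hh : 2 ≤ h') {v : ℤ} (hv : v = 0 ∨ v = 1) :
    ∑ l ∈ Finset.range (2 * h'), tm m J (-(h' : ℤ) + l - v) = J + (2 * h' - 1) * m := by
  obtain ⟨a, ha, ha'⟩ : ∃ a : ℕ, a < 2 * h' ∧ (a : ℤ) = h' + v := by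
    rcases hv with rfl | rfl
    · exact ⟨h', by omega, by simp⟩
    · exact ⟨h' + 1, by omega, by push_cast; ring⟩
  have hmem : a ∈ Finset.range (2 * h') := Finset.mem_range.2 ha
  rw [← Finset.sum_erase_add _ _ hmem]
  have h1 : ∑ l ∈ (Finset.range (2 * h')).erase a, tm m J (-(h' : ℤ) + l - v) =
      ∑ l ∈ (Finset.range (2 * h')).erase a, m := by
    refine Finset.sum_congr rfl fun l hl => ?_
    rw [Finset.mem_erase] at hl
    have : -(h' : ℤ) + l - v ≠ 0 := by
      intro h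
      apply hl.1
      have : (l : ℤ) = a := by rw [ha']; linarith
      exact_mod_cast this
    simp [tm, this]
  have h2 : tm m J (-(h' : ℤ) + a - v) = J := by
    have : -(h' : ℤ) + a - v = 0 := by rw [ha']; ring
    simp [tm, this]
  rw [h1, h2, Finset.sum_const, Finset.card_erase_of_mem hmem,
    Finset.card_range, smul_eq_mul, add_comm]

/-- **The horseshoe.** -/
theorem HomData.exists_recurrent [FiniteDimensional ℝ E] (h : HomData g e m J c ρ ξ K)
    (hg : Continuous g) : ∃ x, Recurrent g x ∧ x ∉ Function.periodicPts g := by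
  have hK := h.hK
  have hρ := h.hρ
  set A : ℤ → E →L[ℝ] E := fun k => fderiv ℝ (chm g e m J k) (ξ k) with hA
  -- constants
  set η : ℝ := 1 / (4 * (K + 1)) with hη
  have hηpos : 0 < η := by positivity
  have hKη : 2 * K * η ≤ 1 / 2 := by
    rw [hη, mul_one_div, div_le_div_iff₀ (by positivity) (by norm_num)]
    nlinarith
  obtain ⟨δ, hδ, hδρ, happ⟩ := h.approx hg hηpos
  have hsep : 0 < ‖ξ 0 - ξ (-1)‖ := norm_pos_iff.2 (sub_ne_zero.2 h.ne)
  set e₁ : ℝ := min δ (‖ξ 0 - ξ (-1)‖ / 4) with he₁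
  have he₁pos : 0 < e₁ := by positivity
  set e₀ : ℝ := e₁ / (4 * (K + 1)) with he₀
  have he₀pos : 0 < e₀ := by positivity
  have he₀e₁ : 2 * (2 * K) * e₀ ≤ e₁ := by
    rw [he₀, mul_div_assoc', div_le_iff₀ (by positivity)]
    nlinarith
  obtain ⟨H₁, hH₁⟩ := h.close (ε := 1 / (8 * (K + 1))) (by positivity)
  obtain ⟨R, hR⟩ := exists_radius h.top h.bot (half_pos he₀pos)
  obtain ⟨H₂, hH₂⟩ := exists_nat_gt (8 * (K + 1))
  set h' : ℕ := max (max H₁ H₂) (R + 2) with hh'
  have hh1 : H₁ ≤ h' := (le_max_left _ _).trans (le_max_left _ _)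
  have hh2 : H₂ ≤ h' := (le_max_right _ _).trans (le_max_left _ _)
  have hh3 : R + 2 ≤ h' := le_max_right _ _
  have hpos : 0 < h' := by omega
  have hposz : (0 : ℤ) < h' := by exact_mod_cast hpos
  have hG : 0 < 2 * h' := by omega
  -- the dichotomy for all sequences
  have hdich : ∀ ν : ℤ → ℤ, (∀ i, ν i = 0 ∨ ν i = 1) → Dich (fun n => A (kp h' ν n)) (2 * K) := by
    intro ν hν
    refine Dich.glue hG (𝒜 := fun i n => A (n - (i * (2 * h') + ν i)))
      (fun i => h.dich.shift _) hK (ε := 1 / (8 * (K + 1))) ?_ (hH₁ h' hh1 hpos ν hν)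
    have h1 : (1 : ℝ) / ((2 * h' : ℕ) : ℝ) ≤ 1 / (8 * (K + 1)) := by
      have h2 : 8 * (K + 1) ≤ ((2 * h' : ℕ) : ℝ) := by
        have : (H₂ : ℝ) ≤ ((2 * h' : ℕ) : ℝ) := by exact_mod_cast (by omega : H₂ ≤ 2 * h')
        linarith
      exact one_div_le_one_div_of_le (by positivity) h2
    calc 4 * K * (1 / ((2 * h' : ℕ) : ℝ) + 1 / (8 * (K + 1)))
        ≤ 4 * K * (1 / (8 * (K + 1)) + 1 / (8 * (K + 1))) := by gcongr
      _ = K / (K + 1) := by field_simp; ring
      _ ≤ 1 := (div_le_one (by positivity)).2 (by linarith)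
  -- errors
  have herr : ∀ ν : ℤ → ℤ, (∀ i, ν i = 0 ∨ ν i = 1) → ∀ n,
      ‖chm g e m J (kp h' ν n) (ξ (kp h' ν n)) - ξ (kp h' ν (n + 1))‖ ≤ e₀ := by
    intro ν hν n
    rw [h.step]
    have hν' : ∀ i, 0 ≤ ν i ∧ ν i ≤ 1 := fun i => by
      rcases hν i with h | h <;> rw [h] <;> norm_num
    rcases kp_succ hposz ν n with h1 | ⟨h1, h2⟩
    · rw [h1, sub_self, norm_zero]
      exact he₀pos.le
    · rw [h1, h2, ← dist_eq_norm]
      have a1 := hν' (bi h' n)
      have a2 := hν' (bi h' n + 1)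
      have b1 := hR (h' - ν (bi h' n)) (by
        rw [abs_of_nonneg (by linarith)]
        push_cast at hh3
        omega)
      have b2 := hR (-h' - ν (bi h' n + 1)) (by
        rw [abs_of_nonpos (by linarith)]
        push_cast at hh3
        omega)
      calc dist (ξ (h' - ν (bi h' n))) (ξ (-h' - ν (bi h' n + 1)))
          ≤ dist (ξ (h' - ν (bi h' n))) c + dist (ξ (-h' - ν (bi h' n + 1))) c :=
            dist_triangle_right _ _ _
        _ ≤ e₀ / 2 + e₀ / 2 := add_le_add b1.le b2.le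
        _ = e₀ := by ring
  -- the orbits
  have hz : ∀ ν : Sym, ∃ z : ℤ → E,
      (∀ n, ‖z n - ξ (kp h' ν n)‖ ≤ e₁) ∧ ∀ n, z (n + 1) = chm g e m J (kp h' ν n) (z n) := by
    rintro ⟨ν, hν⟩
    obtain ⟨z, hz1, hz2⟩ := (hdich ν hν).newton (by positivity)
      (F := fun n => chm g e m J (kp h' ν n)) (y := fun n => ξ (kp h' ν n)) (ρ := δ) (η := η)
      (e := e₀) hηpos.le hKη (fun n u hu u' hu' => (happ _ u hu).2.2.2 u' hu') (herr ν hν)
      (he₀e₁.trans (min_le_left _ _))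
    exact ⟨z, fun n => (hz1 n).trans he₀e₁, hz2⟩
  choose z hz1 hz2 using hz
  have huniq : ∀ (ν : Sym) (w : ℤ → E),
      (∀ n, ‖w n - ξ (kp h' ν n)‖ ≤ e₁) → (∀ n, w (n + 1) = chm g e m J (kp h' ν n) (w n)) →
      w = z ν := by
    intro ν w hw1 hw2
    exact (hdich ν ν.2).newton_unique (by positivity)
      (F := fun n => chm g e m J (kp h' ν n)) (y := fun n => ξ (kp h' ν n)) (ρ := δ) (η := η)
      hηpos.le hKη (fun n u hu u' hu' => (happ _ u hu).2.2.2 u' hu')
      (fun n => (hw1 n).trans (min_le_left _ _)) (fun n => (hz1 ν n).trans (min_le_left _ _))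
      hw2 (hz2 ν)
  have hzball : ∀ (ν : Sym) n, z ν n ∈ closedBall (ξ (kp h' ν n)) δ := by
    intro ν n
    rw [mem_closedBall, dist_eq_norm]
    exact (hz1 ν n).trans (min_le_left _ _)
  -- the points of the manifold
  set Y : Sym → M := fun ν => e.symm (z ν (-h')) with hY
  set S : ℕ → Sym → Sym :=
    fun k ν => ⟨fun i => ν.1 (i + k), fun i => ν.2 _⟩ with hS
  have horb : ∀ (ν : Sym) n, g^[tm m J (kp h' ν n)] (e.symm (z ν n)) = e.symm (z ν (n + 1)) := by
    intro ν n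
    rw [hz2 ν n]
    change _ = e.symm (e (g^[tm m J (kp h' ν n)] (e.symm (z ν n))))
    rw [e.left_inv (happ _ _ (hzball ν n)).2.1]
  set τ : ℕ := J + (2 * h' - 1) * m with hτ
  have hτpos : 0 < τ := by
    have : 0 < (2 * h' - 1) * m := Nat.mul_pos (by omega) h.hm
    omega
  have hzshift : ∀ ν n, z (S 1 ν) n = z ν (n + 2 * h') := by
    intro ν n
    have h1 := huniq (S 1 ν) (fun n => z ν (n + 2 * h')) (fun n => ?_) (fun n => ?_)
    · exact (congrFun h1 n).symm
    · have h2 : kp h' (S 1 ν) n = kp h' ν (n + 2 * h') := kp_shift hposz ν.1 n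
      rw [h2]
      exact hz1 ν _
    · have h2 : kp h' (S 1 ν) n = kp h' ν (n + 2 * h') := kp_shift hposz ν.1 n
      rw [h2, ← hz2]
      congr 1
      ring
  have hstep1 : ∀ ν, g^[τ] (Y ν) = Y (S 1 ν) := by
    intro ν
    have h1 : ∀ j ≤ 2 * h', g^[∑ l ∈ Finset.range j, tm m J (-(h' : ℤ) + l - ν.1 0)] (Y ν) =
        e.symm (z ν (-h' + j)) := by
      intro j
      induction j with
      | zero => intro _; simp [hY]
      | succ j ih =>
        intro hj
        rw [Finset.sum_range_succ, add_comm, Function.iterate_add_apply, ih (by omega)]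
        have h2 : kp h' ν (-h' + j) = -(h' : ℤ) + j - ν.1 0 := by
          obtain ⟨a, b⟩ := bi_bp_unique hposz (n := -h' + j) (i := 0) (r := -h' + j)
            ⟨by linarith, by omega⟩ (by ring)
          unfold kp
          rw [a, b]
        rw [← h2, horb ν]
        congr 2
        push_cast
        ring
    have h2 := h1 (2 * h') le_rfl
    rw [sum_tm (by omega) (ν.2 0)] at h2
    rw [h2]
    change _ = e.symm (z (S 1 ν) (-h'))
    rw [hzshift]
    congr 2
  have hSS : ∀ k ν, S 1 (S k ν) = S (k + 1) ν := by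
    intro k ν
    apply Subtype.ext
    funext i
    change ν.1 (i + ((1 : ℕ) : ℤ) + k) = ν.1 (i + ((k + 1 : ℕ) : ℤ))
    have e1 : i + ((1 : ℕ) : ℤ) + k = i + ((k + 1 : ℕ) : ℤ) := by push_cast; ring
    rw [e1]
  have hS0 : ∀ ν, S 0 ν = ν := by
    intro ν
    apply Subtype.ext
    funext i
    change ν.1 (i + ((0 : ℕ) : ℤ)) = ν.1 i
    simp
  have hstepk : ∀ (k : ℕ) ν, g^[τ * k] (Y ν) = Y (S k ν) := by
    intro k ν
    induction k with
    | zero => rw [mul_zero, hS0]; rfl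
    | succ k ih =>
      rw [mul_add, mul_one, add_comm, Function.iterate_add_apply, ih, hstep1, hSS]
  -- the symbol is determined
  have hdet : ∀ ν ν', Y ν = Y ν' → ν.1 0 = ν'.1 0 := by
    intro ν ν' hYY
    have h1 : z ν (-h') = z ν' (-h') :=
      e.symm.injOn (happ _ _ (hzball ν (-h'))).1 (happ _ _ (hzball ν' (-h'))).1 hYY
    have h2 : ∀ j : ℕ, j ≤ h' → z ν (-h' + j) = z ν' (-h' + j) := by
      intro j
      induction j with
      | zero => intro _; simpa using h1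
      | succ j ih =>
        intro hj
        have h3 := ih (by omega)
        have h4 : ∀ ν : Sym, kp h' ν (-h' + j) ≠ 0 := by
          intro ν
          obtain ⟨a, b⟩ := bi_bp_unique hposz (n := -h' + j) (i := 0) (r := -h' + j)
            ⟨by linarith, by omega⟩ (by ring)
          unfold kp
          rw [a, b]
          rcases ν.2 0 with h | h <;> rw [h] <;> omega
        have e1 : -(h' : ℤ) + ((j + 1 : ℕ) : ℤ) = (-h' + j) + 1 := by push_cast; ring
        rw [e1, hz2, hz2, chm_of_ne (h4 ν), chm_of_ne (h4 ν'), h3]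
    have h3 := h2 h' le_rfl
    rw [neg_add_cancel] at h3
    have h4 : ∀ ν : Sym, kp h' ν 0 = -ν.1 0 := by
      intro ν
      obtain ⟨a, b⟩ := bi_bp_unique hposz (n := 0) (i := 0) (r := 0)
        ⟨by linarith, hposz⟩ (by ring)
      unfold kp
      rw [a, b, zero_sub]
    have h5 := hz1 ν 0
    have h6 := hz1 ν' 0
    rw [h4] at h5 h6
    rw [← h3] at h6
    by_contra hne
    have h7 : ‖ξ 0 - ξ (-1)‖ ≤ e₁ + e₁ := by
      have h8 : ‖ξ (-ν.1 0) - ξ (-ν'.1 0)‖ ≤ e₁ + e₁ := by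
        calc ‖ξ (-ν.1 0) - ξ (-ν'.1 0)‖ = ‖(z ν 0 - ξ (-ν'.1 0)) - (z ν 0 - ξ (-ν.1 0))‖ := by
              congr 1; abel
          _ ≤ e₁ + e₁ := (norm_sub_le _ _).trans (add_le_add h6 h5)
      rcases ν.2 0 with a | a <;> rcases ν'.2 0 with b | b
      · exact absurd (a.trans b.symm) hne
      · rw [a, b, neg_zero] at h8
        exact h8
      · rw [a, b, neg_zero, norm_sub_rev] at h8
        exact h8
      · exact absurd (a.trans b.symm) hne
    have h9 : e₁ ≤ ‖ξ 0 - ξ (-1)‖ / 4 := min_le_right _ _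
    linarith
  -- continuity
  have hcont : ∀ (ν : Sym)
      (νs : ℕ → Sym),
      (∀ i, ∀ᶠ k in atTop, (νs k).1 i = ν.1 i) → ∀ n,
      Tendsto (fun k => z (νs k) n) atTop (𝓝 (z ν n)) := by
    intro ν νs hνs n
    rw [tendsto_iff_ultrafilter]
    intro 𝒰 h𝒰
    have hkp : ∀ n, ∀ᶠ k in (𝒰 : Filter ℕ), kp h' (νs k) n = kp h' ν n := by
      intro n
      filter_upwards [h𝒰 (hνs (bi h' n))] with k hk
      unfold kp
      rw [hk]
    have hlim : ∀ n, ∃ a, Tendsto (fun k => z (νs k) n) 𝒰 (𝓝 a) := by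
      intro n
      obtain ⟨a, -, ha⟩ := (isCompact_closedBall c ρ).ultrafilter_le_nhds
        (𝒰.map (fun k => z (νs k) n)) (by
          rw [le_principal_iff]
          refine Filter.mem_map.2 (Filter.univ_mem' fun k => ?_)
          have h1 := hzball (νs k) n
          have h2 := h.mem (kp h' (νs k) n)
          rw [mem_closedBall] at h1 h2
          rw [mem_preimage, mem_closedBall]
          linarith [dist_triangle (z (νs k) n) (ξ (kp h' (νs k) n)) c])
      exact ⟨a, ha⟩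
    choose a ha using hlim
    have h1 : ∀ n, ‖a n - ξ (kp h' ν n)‖ ≤ e₁ := by
      intro n
      have h2 : Tendsto (fun k => ‖z (νs k) n - ξ (kp h' ν n)‖) 𝒰 (𝓝 ‖a n - ξ (kp h' ν n)‖) :=
        ((ha n).sub_const _).norm
      refine le_of_tendsto h2 ?_
      filter_upwards [hkp n] with k hk
      rw [← hk]
      exact hz1 (νs k) n
    have h2 : ∀ n, a (n + 1) = chm g e m J (kp h' ν n) (a n) := by
      intro n
      have h3 : ContinuousAt (chm g e m J (kp h' ν n)) (a n) := (happ _ (a n) (by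
        rw [mem_closedBall, dist_eq_norm]
        exact (h1 n).trans (min_le_left _ _))).2.2.1
      have h4 := h3.tendsto.comp (ha n)
      refine tendsto_nhds_unique (ha (n + 1)) (h4.congr' ?_)
      filter_upwards [hkp n] with k hk
      simp only [Function.comp]
      rw [hz2 (νs k) n, hk]
    have h3 := huniq ν a h1 h2
    rw [← h3]
    exact ha n
  -- the recurrent sequence
  set ν₀ : Sym := ⟨tz, tz_zero_or_one⟩ with hν₀
  have hconv : Tendsto (fun k : ℕ => Y (S (4 ^ k) ν₀)) atTop (𝓝 (Y ν₀)) := by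
    have h1 := hcont ν₀ (fun k => S (4 ^ k) ν₀) (fun i => ?_) (-h')
    · exact ((e.continuousAt_symm (happ _ _ (hzball ν₀ (-h'))).1).tendsto).comp h1
    · have h2 : ∀ᶠ k : ℕ in atTop, |i| < 4 ^ k := by
        filter_upwards [eventually_ge_atTop i.natAbs] with k hk
        have h3 : k < 4 ^ k := Nat.lt_pow_self (by norm_num)
        have h4 : i.natAbs < 4 ^ k := by omega
        rw [Int.abs_eq_natAbs]
        exact_mod_cast h4
      filter_upwards [h2] with k hk
      change tz (i + ((4 ^ k : ℕ) : ℤ)) = tz i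
      push_cast
      exact tz_add hk
  refine ⟨Y ν₀, fun U hU N => ?_, ?_⟩
  · have h1 := hconv.eventually hU
    obtain ⟨k, hk1, hk2⟩ := (h1.and (eventually_ge_atTop N)).exists
    refine ⟨τ * 4 ^ k, ?_, ?_⟩
    · have h3 : k < 4 ^ k := Nat.lt_pow_self (by norm_num)
      have : 4 ^ k ≤ τ * 4 ^ k := Nat.le_mul_of_pos_left _ hτpos
      omega
    · rw [hstepk]
      exact hk1
  · rintro ⟨P, hP, hP'⟩
    obtain ⟨i, hi, hne⟩ := exists_tz_ne (P := (P : ℤ)) (by exact_mod_cast hP)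
    obtain ⟨i, rfl⟩ := Int.eq_ofNat_of_zero_le hi
    apply hne
    have h1 : g^[τ * P] (Y ν₀) = Y ν₀ := by
      have := hP'.const_mul τ
      exact this
    have h2 : Y (S i (S P ν₀)) = Y (S i ν₀) := by
      rw [← hstepk i, ← hstepk i, ← hstepk P, h1]
    have h3 := hdet _ _ h2
    have h4 : (S i (S P ν₀)).1 0 = tz (0 + i + P) := rfl
    have h5 : (S i ν₀).1 0 = tz (0 + i) := rfl
    rw [h4, h5, zero_add] at h3
    exact h3

end OmSt
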