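import Pool.Agent.OmSt.Merge2
import Pool.Agent.OmSt.Horse2

/-!
# There is no homoclinic orbit
-/

open Set Filter Topology Manifold ContDiff Metric

set_option linter.unusedSectionVars false

namespace OmSt

variable {E : Type*} [NormedAddCommGroup E] [NormedSpace ℝ E]

section Top

variable {M : Type*} [TopologicalSpace M] [ChartedSpace E M] {r : ℕ∞}

theorem iterate_pert_of {g : Dyn E M r} {ψ : Diffeomorph 𝓘(ℝ, E) 𝓘(ℝ, E) M M ∞} {y : M} {k : ℕ}
    (hk : 0 < k) (h : ∀ t, 0 < t → t < k → ψ (g^[t] (ψ y)) = g^[t] (ψ y)) :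
    (pert g ψ)^[k] y = g^[k] (ψ y) := by
  induction k with
  | zero => exact absurd hk (lt_irrefl 0)
  | succ k ih =>
    rcases Nat.eq_zero_or_pos k with rfl | hk0
    · simp [pert_apply]
    · rw [Function.iterate_succ_apply', ih hk0 (fun t ht htk => h t ht (by omega)), pert_apply,
        h k hk0 (by omega), Function.iterate_succ_apply']

theorem eventually_iterate_eq {g : Dyn E M r} {ψ : Diffeomorph 𝓘(ℝ, E) 𝓘(ℝ, E) M M ∞} {W : Set M}
    (hW : IsClosed W) (hψ : ∀ z ∉ W, ψ z = z) {y : M} {m : ℕ} (hy : ∀ s < m, g^[s] y ∉ W) :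
    ∀ᶠ z in 𝓝 y, (pert g ψ)^[m] z = g^[m] z := by
  have h1 : ∀ᶠ z in 𝓝 y, ∀ s ∈ Finset.range m, g^[s] z ∉ W := by
    rw [Filter.eventually_all_finset]
    intro s hs
    exact (g.continuous.iterate s).continuousAt (hW.isOpen_compl.mem_nhds
      (hy s (Finset.mem_range.1 hs)))
  filter_upwards [h1] with z hz
  exact iterate_pert_eq fun s hs => hψ _ (hz s (Finset.mem_range.2 hs))

theorem eventually_iterate_eq' {g : Dyn E M r} {ψ : Diffeomorph 𝓘(ℝ, E) 𝓘(ℝ, E) M M ∞}
    {W : Set M} (hW : IsClosed W) (hψ : ∀ z ∉ W, ψ z = z) {y : M} {m : ℕ} (hm : 0 < m)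
    (hy : ∀ s, 0 < s → s < m → g^[s] (ψ y) ∉ W) :
    ∀ᶠ z in 𝓝 y, (pert g ψ)^[m] z = g^[m] (ψ z) := by
  have h1 : ∀ᶠ z in 𝓝 y, ∀ s ∈ Finset.Ioo 0 m, g^[s] (ψ z) ∉ W := by
    rw [Filter.eventually_all_finset]
    intro s hs
    rw [Finset.mem_Ioo] at hs
    exact ((g.continuous.iterate s).comp ψ.continuous).continuousAt (hW.isOpen_compl.mem_nhds
      (hy s hs.1 hs.2))
  filter_upwards [h1] with z hz
  exact iterate_pert_of hm fun s hs hsm => hψ _ (hz s (Finset.mem_Ioo.2 ⟨hs, hsm⟩))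

variable [IsManifold 𝓘(ℝ, E) ∞ M]

theorem exists_right_inv {g : Dyn E M r} (hr : 1 ≤ r) {e : OpenPartialHomeomorph M E}
    (he : e ∈ IsManifold.maximalAtlas 𝓘(ℝ, E) ∞ M) {J : ℕ} {a : M} (ha : a ∈ e.source)
    (hb : g^[J] a ∈ e.source) :
    ∃ A' : E →L[ℝ] E, fderiv ℝ (fun z => e (g^[J] (e.symm z))) (e a) * A' = 1 := by
  set b := g^[J] a with hbdef
  have hsa : g.symm^[J] b = a := (Function.LeftInverse.iterate g.symm_apply_apply J) a
  have hT : ContDiffAt ℝ 1 (fun z => e (g^[J] (e.symm z))) (e a) :=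
    contDiffAt_chart_iterate hr he he J (e.map_source ha) (by rw [e.left_inv ha]; exact hb)
  have hS : ContDiffAt ℝ 1 (fun z => e (g.symm^[J] (e.symm z))) (e b) :=
    contDiffAt_chart_iterate (g := g.symm) hr he he J (e.map_source hb)
      (by rw [e.left_inv hb, hsa]; exact ha)
  refine ⟨fderiv ℝ (fun z => e (g.symm^[J] (e.symm z))) (e b), ?_⟩
  have hT' : HasFDerivAt (fun z => e (g^[J] (e.symm z)))
      (fderiv ℝ (fun z => e (g^[J] (e.symm z))) (e a))
      ((fun z => e (g.symm^[J] (e.symm z))) (e b)) := by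
    have e1 : (fun z => e (g.symm^[J] (e.symm z))) (e b) = e a := by
      simp only [e.left_inv hb, hsa]
    rw [e1]
    exact (hT.differentiableAt (by simp)).hasFDerivAt
  have hS' := (hS.differentiableAt (by simp)).hasFDerivAt
  have h1 := HasFDerivAt.comp (e b) hT' hS'
  have h2 : (fun z => e (g^[J] (e.symm z))) ∘ (fun z => e (g.symm^[J] (e.symm z))) =ᶠ[𝓝 (e b)]
      id := by
    have hc : ContinuousAt (fun z => g.symm^[J] (e.symm z)) (e b) :=
      ((g.symm.continuous.iterate J).continuousAt).comp (e.continuousAt_symm (e.map_source hb))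
    have h3 : ∀ᶠ z in 𝓝 (e b), g.symm^[J] (e.symm z) ∈ e.source := by
      refine hc (e.open_source.mem_nhds ?_)
      change g.symm^[J] (e.symm (e b)) ∈ e.source
      rw [e.left_inv hb, hsa]
      exact ha
    filter_upwards [h3, e.open_target.mem_nhds (e.map_source hb)] with z hz hzt
    have h4 : g^[J] (g.symm^[J] (e.symm z)) = e.symm z :=
      (Function.LeftInverse.iterate g.apply_symm_apply J) _
    simp only [Function.comp, e.left_inv hz, h4, id, e.right_inv hzt]
  have h5 : HasFDerivAt (id : E → E) (ContinuousLinearMap.id ℝ E) (e b) := hasFDerivAt_id _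
  exact h1.unique (h5.congr_of_eventuallyEq h2)

end Top

theorem Stab.no_homoclinic {M : Type*} [FiniteDimensional ℝ E] [MetricSpace M] [CompactSpace M]
    [ChartedSpace E M] [IsManifold 𝓘(ℝ, E) ∞ M] {r : ℕ∞} {N : Set (Dyn E M r)} (hN : Stab N)
    (hr : 1 ≤ r) (hrec : ∀ g ∈ N, ∀ x, Recurrent g x → x ∈ Function.periodicPts g)
    {g : Dyn E M r} (hg : g ∈ N) {m : ℕ} {p x : ℕ → M} (h : ZCyc g.toEquiv m 1 p x) : False := by
  classical
  have hm := h.hm
  have hmz : (0 : ℤ) < m := by exact_mod_cast hm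
  have hqm : g^[m] (p 0) = p 0 := by
    have h1 := h.per 0 (by omega)
    rw [zi_nat] at h1
    exact h1
  obtain ⟨s₀, hs₀⟩ := h.close
  obtain ⟨K, hK, hdich⟩ := (isHyp_linAt hr hqm (hN.isHyp hr hg hm hqm)).dich
  have hη : 0 < 1 / (2 * (K + 1)) := by positivity
  have hKη : K * (1 / (2 * (K + 1))) ≤ 1 / 2 := by
    rw [mul_one_div, div_le_div_iff₀ (by positivity) (by norm_num)]
    nlinarith
  obtain ⟨ρ, hρ, hρt, -, hloc1, hloc2⟩ := exists_local hr hqm univ_mem hη
  set e := chartAt E (p 0) with he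
  have hmax : e ∈ IsManifold.maximalAtlas 𝓘(ℝ, E) ∞ M := IsManifold.chart_mem_maximalAtlas (p 0)
  have hqe : p 0 ∈ e.source := mem_chart_source E (p 0)
  set c := e (p 0) with hc
  set φ : E → E := fun z => e (g^[m] (e.symm z)) with hφ
  have hreg : e.source ∩ e ⁻¹' closedBall c (ρ / 2) ∈ 𝓝 (p 0) :=
    inter_mem (e.open_source.mem_nhds hqe)
      ((e.continuousAt hqe) (closedBall_mem_nhds _ (half_pos hρ)))
  -- the point `a`
  obtain ⟨k₀, hk₀⟩ := eventually_atBot.1 ((h.conn 0 (by omega)).bwd.eventually hreg)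
  set a := zi g.toEquiv (m * k₀) (x 0) with ha0
  have hconn : IsConn g.toEquiv m (p 0) (p 1) a := (h.conn 0 (by omega)).shift k₀
  have ha : ∀ k : ℤ, k ≤ 0 → zi g.toEquiv (m * k) a ∈ e.source ∩ e ⁻¹' closedBall c (ρ / 2) := by
    intro k hk
    have h1 := hk₀ (k + k₀) (by linarith)
    rw [mul_add, zi_add] at h1
    exact h1
  clear_value a
  -- the point `b`
  have hasy' := hconn.toAsy.translate g.toHomeomorph (-s₀)
  have hq1 : zi g.toEquiv (-s₀) (p 1) = p 0 := by
    rw [hs₀, ← zi_add, neg_add_cancel, zi_zero]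
  have hfw : Tendsto (fun k : ℤ => zi g.toEquiv (m * k) (zi g.toEquiv (-s₀) a)) atTop
      (𝓝 (p 0)) := by
    have := hasy'.fwd
    change Tendsto _ _ (𝓝 (zi g.toEquiv (-s₀) (p 1))) at this
    rw [hq1] at this
    exact this
  obtain ⟨k₂, hk₂⟩ := eventually_atTop.1 (hfw.eventually hreg)
  set k₁ : ℤ := max k₂ (|s₀| + 1) with hk₁
  have hJpos : 0 < m * k₁ - s₀ := by
    have h1 : |s₀| + 1 ≤ k₁ := le_max_right _ _
    have h2 : s₀ ≤ |s₀| := le_abs_self _
    have h3 : 0 ≤ |s₀| := abs_nonneg _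
    nlinarith
  obtain ⟨J, hJ⟩ := Int.eq_ofNat_of_zero_le hJpos.le
  have hJ0 : 0 < J := by omega
  set b := g^[J] a with hb0
  have hbz : b = zi g.toEquiv J a := (zi_nat g.toEquiv J a).symm
  clear_value b
  have hbk : ∀ k : ℤ, zi g.toEquiv (m * k) b =
      zi g.toEquiv (m * (k + k₁)) (zi g.toEquiv (-s₀) a) := by
    intro k
    have e1 : (m : ℤ) * k + J = m * (k + k₁) + -s₀ := by
      have hJ' : (J : ℤ) = m * k₁ - s₀ := hJ.symm
      rw [hJ']
      ring
    rw [hbz, ← zi_add, ← zi_add, e1]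
  have hb : ∀ k : ℤ, 0 ≤ k → zi g.toEquiv (m * k) b ∈ e.source ∩ e ⁻¹' closedBall c (ρ / 2) := by
    intro k hk
    rw [hbk]
    exact hk₂ (k + k₁) (by have := le_max_left k₂ (|s₀| + 1); linarith)
  have hbfw : Tendsto (fun k : ℤ => zi g.toEquiv (m * k) b) atTop (𝓝 (p 0)) := by
    simp only [hbk]
    exact hfw.comp (tendsto_atTop_add_const_right _ k₁ tendsto_id)
  have hae : a ∈ e.source := by
    have := (ha 0 le_rfl).1
    rwa [mul_zero, zi_zero] at this
  have hbe : b ∈ e.source := by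
    have := (hb 0 le_rfl).1
    rwa [mul_zero, zi_zero] at this
  -- the neighbourhood of `a`
  have hcyc : ZCyc g.toEquiv m 1 p (fun _ => a) := by
    refine ⟨h.hm, h.hn, h.per, h.close, fun i hi => ?_⟩
    have : i = 0 := by omega
    subst this
    exact hconn
  obtain ⟨U, hU, haU, -, hUy, hUp⟩ := hcyc.exists_open (f := g.toHomeomorph)
    (fun i j hij hj => by omega) (l := 0) (by omega) (O := univ) univ_mem
  obtain ⟨W, hW, hWc, hWU, -⟩ := exists_gap hU haU
  have hWa : ∀ k : ℤ, k ≠ 0 → zi g.toEquiv k a ∉ W := fun k hk h1 =>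
    hk (hUy 0 (by omega) k (hWU h1)).2
  obtain ⟨Ψ, ρ₀, hρ₀, hρ₀t, hρ₀W, hΨW, hΨ⟩ := exists_localFam hmax (e.map_source hae) (W := W)
    (by rwa [e.left_inv hae])
  -- the sequence in the chart
  set ξ : ℤ → E := fun k => if k ≤ 0 then e (zi g.toEquiv (m * k) a) else
    e (zi g.toEquiv (m * (k - 1)) b) with hξ
  have hξn : ∀ k, k ≤ 0 → ξ k = e (zi g.toEquiv (m * k) a) := fun k hk => by simp [hξ, hk]
  have hξp : ∀ k, 0 < k → ξ k = e (zi g.toEquiv (m * (k - 1)) b) := fun k hk => by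
    simp [hξ, not_le.2 hk]
  have hξ0 : ξ 0 = e a := by rw [hξn 0 le_rfl, mul_zero, zi_zero]
  have hξsn : ∀ k, k ≤ 0 → e.symm (ξ k) = zi g.toEquiv (m * k) a := fun k hk => by
    rw [hξn k hk, e.left_inv (ha k hk).1]
  have hξsp : ∀ k, 0 < k → e.symm (ξ k) = zi g.toEquiv (J + m * (k - 1)) a := fun k hk => by
    rw [hξp k hk, e.left_inv (hb (k - 1) (by omega)).1, hbz, ← zi_add]
    congr 1
    ring
  have hξmem : ∀ k, ξ k ∈ closedBall c (ρ / 2) := by
    intro k
    rcases le_or_gt k 0 with hk | hk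
    · rw [hξn k hk]
      exact (ha k hk).2
    · rw [hξp k hk]
      exact (hb (k - 1) (by omega)).2
  have hξmem' : ∀ k, ξ k ∈ closedBall c ρ := fun k =>
    closedBall_subset_closedBall (by linarith) (hξmem k)
  have hξtop : Tendsto ξ atTop (𝓝 c) := by
    have h1 : Tendsto (fun k : ℤ => e (zi g.toEquiv (m * (k + -1)) b)) atTop (𝓝 c) :=
      (e.continuousAt hqe).tendsto.comp (hbfw.comp (tendsto_atTop_add_const_right _ (-1) tendsto_id))
    refine h1.congr' ?_
    filter_upwards [eventually_gt_atTop (0 : ℤ)] with k hk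
    rw [hξp k hk]
    rfl
  have hξbot : Tendsto ξ atBot (𝓝 c) := by
    have h1 : Tendsto (fun k : ℤ => e (zi g.toEquiv (m * k) a)) atBot (𝓝 c) :=
      (e.continuousAt hqe).tendsto.comp hconn.bwd
    refine h1.congr' ?_
    filter_upwards [eventually_le_atBot (0 : ℤ)] with k hk
    rw [hξn k hk]
  -- the linear maps
  set A : E →L[ℝ] E := linAt g m (p 0) with hA
  set A₀ : E →L[ℝ] E := fderiv ℝ (fun z => e (g^[J] (e.symm z))) (e a) with hA₀
  have hbe' : g^[J] a ∈ e.source := hb0 ▸ hbe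
  obtain ⟨A₀', hA₀'⟩ := exists_right_inv hr hmax hae hbe'
  set D₀ : E →L[ℝ] E := A₀ - A with hD₀
  set Ak : ℤ → E →L[ℝ] E := fun k => if k = 0 then A else fderiv ℝ φ (ξ k) with hAk
  have hdich2 : Dich Ak (2 * K) := by
    refine hdich.perturb hK hη.le hKη fun k => ?_
    simp only [hAk]
    split_ifs
    · rw [sub_self, norm_zero]
      exact hη.le
    · exact (hloc1 _ (hξmem' k)).2.2
  have hfin := hdich2.generic (by positivity) D₀
  have hAk0 : Ak 0 = A := by simp [hAk]
  rw [hAk0] at hfin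
  -- the choice of the parameter
  have hgood : ∀ᶠ t : ℝ in 𝓝[≠] 0, ∃ K', 0 ≤ K' ∧
      Dich (Function.update Ak 0 (A + (1 + t) • D₀)) K' := by
    have h1 : ({t : ℝ | ¬ ∃ K', 0 ≤ K' ∧
        Dich (Function.update Ak 0 (A + (1 + t) • D₀)) K'} \ {0}).Finite := by
      refine Set.Finite.subset (hfin.preimage (f := fun t : ℝ => 1 + t)
        (fun s _ t _ hst => by simpa using hst)) ?_
      rintro t ⟨ht, -⟩
      exact ht
    have h2 : ({t : ℝ | ¬ ∃ K', 0 ≤ K' ∧
        Dich (Function.update Ak 0 (A + (1 + t) • D₀)) K'} \ {0})ᶜ ∈ 𝓝 (0 : ℝ) :=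
      h1.isClosed.isOpen_compl.mem_nhds (fun h => h.2 rfl)
    filter_upwards [Filter.Eventually.filter_mono nhdsWithin_le_nhds h2, self_mem_nhdsWithin]
      with t ht ht0
    by_contra hcon
    exact ht ⟨hcon, ht0⟩
  have hB : Tendsto (fun t : ℝ => ((0, t • (A₀' * D₀)) : E × (E →L[ℝ] E))) (𝓝 0) (𝓝 0) := by
    have : Continuous (fun t : ℝ => ((0, t • (A₀' * D₀)) : E × (E →L[ℝ] E))) := by fun_prop
    exact this.tendsto' _ _ (by simp)
  have hsrcev := Ψ.eventually_not_mem g m (K := e.symm '' closedBall c ρ) (C := e.sourceᶜ)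
    ((isCompact_closedBall c ρ).image_of_continuousOn (e.continuousOn_symm.mono hρt))
    e.open_source.isClosed_compl (by
      rintro _ ⟨z, hz, rfl⟩ h1
      exact h1 (hloc1 z hz).1)
  have hev := hB.eventually ((Ψ.eventually_mem g hN.isOpen hg).and (hΨ.and hsrcev))
  obtain ⟨t, ⟨K', hK', hdich3⟩, hgN, hform, hsrc⟩ :=
    (hgood.and (Filter.Eventually.filter_mono nhdsWithin_le_nhds hev)).exists
  set B : E →L[ℝ] E := t • (A₀' * D₀) with hBdef
  set ψ := Ψ.toFun (0, B) with hψ
  have hψW : ∀ z ∉ W, ψ z = z := fun z hz => hΨW _ z hz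
  have hψa : ψ a = a := by
    have h1 := (hform (e a) (mem_closedBall_self hρ₀.le)).1
    simp only [sub_self, map_zero, add_zero, e.left_inv hae] at h1
    exact h1
  have hzia : ∀ k : ℤ, zi (pert g ψ).toEquiv k a = zi g.toEquiv k a := by
    refine fun k => zi_pert (fun l => ?_) k
    by_cases hl : l = 0
    · rw [hl, zi_zero]
      exact hψa
    · exact hψW _ (hWa l hl)
  have hiter : ∀ (n : ℕ) (l : ℤ), (pert g ψ)^[n] (zi g.toEquiv l a) = zi g.toEquiv (n + l) a := by
    intro n l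
    have h1 : zi (pert g ψ).toEquiv n (zi g.toEquiv l a) = (pert g ψ)^[n] (zi g.toEquiv l a) :=
      zi_nat (pert g ψ).toEquiv n _
    rw [← h1, ← hzia l, ← zi_add, hzia]
  have hJa : (pert g ψ)^[J] a = b := by
    have h1 := hiter J 0
    rw [zi_zero, add_zero, zi_nat] at h1
    exact h1.trans hb0.symm
  -- the derivatives
  have hderiv : (fun k => fderiv ℝ (chm (pert g ψ) e m J k) (ξ k)) =
      Function.update Ak 0 (A + (1 + t) • D₀) := by
    funext k
    by_cases hk : k = 0
    · subst hk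
      rw [Function.update_self, chm_zero, hξ0]
      have hT : HasFDerivAt (fun z => e (g^[J] (e.symm z))) A₀ (e a + B (e a - e a)) := by
        rw [sub_self, map_zero, add_zero]
        exact ((contDiffAt_chart_iterate hr hmax hmax J (e.map_source hae)
          (by rw [e.left_inv hae]; exact hbe')).differentiableAt (by simp)).hasFDerivAt
      have hlin : HasFDerivAt (fun z => z + B (z - e a)) (1 + B) (e a) :=
        (hasFDerivAt_id (𝕜 := ℝ) (e a)).add
          (B.hasFDerivAt.comp (e a) ((hasFDerivAt_id (𝕜 := ℝ) (e a)).sub_const (e a)))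
      have h3 := HasFDerivAt.comp (g := fun z => e (g^[J] (e.symm z)))
        (f := fun z => z + B (z - e a)) (e a) hT hlin
      have h4 : (fun z => e ((pert g ψ)^[J] (e.symm z))) =ᶠ[𝓝 (e a)]
          (fun z => e (g^[J] (e.symm z))) ∘ (fun z => z + B (z - e a)) := by
        have h5 : ∀ᶠ y in 𝓝 a, (pert g ψ)^[J] y = g^[J] (ψ y) := by
          refine eventually_iterate_eq' hWc hψW hJ0 fun s hs hsJ => ?_
          rw [hψa]
          have h6 := hWa s (by exact_mod_cast hs.ne')
          rw [zi_nat] at h6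
          exact h6
        have h7 : Tendsto e.symm (𝓝 (e a)) (𝓝 a) := by
          have := e.continuousAt_symm (e.map_source hae)
          rwa [ContinuousAt, e.left_inv hae] at this
        filter_upwards [h7.eventually h5, closedBall_mem_nhds (e a) hρ₀] with z hz hzb
        rw [hz, (hform z hzb).1]
        simp
      rw [(h3.congr_of_eventuallyEq h4).fderiv]
      have e1 : A₀ * (1 + B) = A + (1 + t) • D₀ := by
        rw [mul_add, mul_one, hBdef, mul_smul_comm, ← mul_assoc, hA₀', one_mul, add_smul, one_smul,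
          hD₀]
        abel
      exact e1
    · rw [Function.update_of_ne hk, chm_of_ne hk]
      have hAkk : Ak k = fderiv ℝ φ (ξ k) := by simp [hAk, hk]
      rw [hAkk]
      refine Filter.EventuallyEq.fderiv_eq ?_
      have h5 : ∀ᶠ y in 𝓝 (e.symm (ξ k)), (pert g ψ)^[m] y = g^[m] y := by
        refine eventually_iterate_eq hWc hψW fun s hs => ?_
        have hsz : (s : ℤ) < m := by exact_mod_cast hs
        have hs0 : (0 : ℤ) ≤ s := by positivity
        rcases lt_or_gt_of_ne hk with hk' | hk'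
        · rw [hξsn k hk'.le]
          have h6 : zi g.toEquiv s (zi g.toEquiv (m * k) a) = g^[s] (zi g.toEquiv (m * k) a) :=
            zi_nat g.toEquiv s _
          rw [← h6, ← zi_add]
          refine hWa _ ?_
          have : (m : ℤ) * k ≤ m * (-1) := by
            have : k ≤ -1 := by omega
            nlinarith
          omega
        · rw [hξsp k hk']
          have h6 : zi g.toEquiv s (zi g.toEquiv (J + m * (k - 1)) a) =
              g^[s] (zi g.toEquiv (J + m * (k - 1)) a) := zi_nat g.toEquiv s _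
          rw [← h6, ← zi_add]
          refine hWa _ ?_
          have h8 : 0 ≤ (m : ℤ) * (k - 1) := mul_nonneg hmz.le (by omega)
          have h9 : (0 : ℤ) < J := by exact_mod_cast hJ0
          omega
      have h7 : ContinuousAt e.symm (ξ k) := e.continuousAt_symm (hρt (hξmem' k))
      filter_upwards [h7.eventually h5] with z hz
      rw [hz]
  -- the homoclinic data
  have hdata : HomData (pert g ψ) e m J c ρ ξ K' := by
    refine ⟨hm, hρ, hρt, fun z hz => ?_, fun z hz => ?_, hξmem, hξtop, hξbot, ?_, ?_, fun k => ?_,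
      hK', ?_, ?_⟩
    · have := hsrc _ ⟨z, hz, rfl⟩
      rwa [mem_compl_iff, not_not] at this
    · refine contDiffAt_chart_iterate hr hmax hmax m (hρt hz) ?_
      have := hsrc _ ⟨z, hz, rfl⟩
      rwa [mem_compl_iff, not_not] at this
    · rw [hξ0, e.left_inv hae, hJa]
      exact hbe
    · rw [hξ0]
      refine contDiffAt_chart_iterate hr hmax hmax J (e.map_source hae) ?_
      rw [e.left_inv hae, hJa]
      exact hbe
    · unfold chm
      rcases lt_trichotomy k 0 with hk | hk | hk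
      · have e1 : tm m J k = m := by simp [tm, hk.ne]
        rw [e1, hξsn k hk.le, hiter, hξn (k + 1) (by omega)]
        congr 2
        ring
      · subst hk
        have e1 : tm m J 0 = J := by simp [tm]
        rw [e1, hξ0, e.left_inv hae, hJa, zero_add, hξp 1 one_pos]
        simp [zi_zero]
      · have e1 : tm m J k = m := by simp [tm, hk.ne']
        have e2 : (m : ℤ) * (k + 1 - 1) + J = m + (J + m * (k - 1)) := by ring
        rw [e1, hξsp k hk, hiter, hξp (k + 1) (by omega), hbz, ← zi_add, e2]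
    · rw [hderiv]
      exact hdich3
    · rw [hξ0, hξn (-1) (by norm_num)]
      intro heq
      have h1 := e.injOn hae (ha (-1) (by norm_num)).1 heq
      exact hconn.np (m * -1) (by nlinarith) h1.symm
  obtain ⟨z, hz1, hz2⟩ := hdata.exists_recurrent (pert g ψ).continuous
  exact hz2 (hrec _ hgN z hz1)

end OmSt
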