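import Mathlib

/-!
# A recurrent, non periodic sequence
-/

namespace OmSt

/-- The exact power of two dividing `i` has an odd exponent. -/
def OddVal (i : ℤ) : Prop := ∃ k : ℕ, Odd k ∧ (2 : ℤ) ^ k ∣ i ∧ ¬ (2 : ℤ) ^ (k + 1) ∣ i

theorem oddVal_iff {i : ℤ} {a : ℕ} (h1 : (2 : ℤ) ^ a ∣ i) (h2 : ¬ (2 : ℤ) ^ (a + 1) ∣ i) :
    OddVal i ↔ Odd a := by
  constructor
  · rintro ⟨k, hk, h3, h4⟩
    rcases lt_trichotomy k a with h | h | h
    · exact absurd ((pow_dvd_pow (2 : ℤ) (by omega)).trans h1) h4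
    · rwa [← h]
    · exact absurd ((pow_dvd_pow (2 : ℤ) (by omega)).trans h3) h2
  · intro h
    exact ⟨a, h, h1, h2⟩

theorem oddVal_add {i : ℤ} {K : ℕ} (hi : |i| < 4 ^ K) : OddVal (i + 4 ^ K) ↔ OddVal i := by
  have h4 : (4 : ℤ) ^ K = 2 ^ (2 * K) := by rw [pow_mul]; norm_num
  rw [h4] at hi ⊢
  by_cases hi0 : i = 0
  · subst hi0
    constructor
    · rintro ⟨k, hk, h3, h5⟩
      rw [zero_add] at h3 h5
      have h6 : k ≤ 2 * K := (Nat.pow_dvd_pow_iff_le_right (by norm_num : 1 < 2)).1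
        (by exact_mod_cast h3)
      have h7 : ¬ (k + 1 ≤ 2 * K) := fun h => h5 (pow_dvd_pow (2 : ℤ) h)
      have h8 : k = 2 * K := by omega
      rw [h8] at hk
      exact absurd hk (by simp)
    · rintro ⟨k, -, -, h5⟩
      exact absurd (dvd_zero _) h5
  · have hbig : ∀ k, 2 * K ≤ k → ¬ (2 : ℤ) ^ k ∣ i := by
      intro k hk h
      have h6 : (2 : ℤ) ^ (2 * K) ∣ i := (pow_dvd_pow (2 : ℤ) hk).trans h
      have h7 := Int.eq_zero_of_abs_lt_dvd h6 hi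
      exact hi0 h7
    constructor
    · rintro ⟨k, hk, h3, h5⟩
      have hkK : k + 1 ≤ 2 * K := by
        by_contra hcon
        have h6 : 2 * K ≤ k := by omega
        have h7 : (2 : ℤ) ^ (2 * K) ∣ i + 2 ^ (2 * K) := (pow_dvd_pow (2 : ℤ) h6).trans h3
        exact hbig (2 * K) le_rfl ((dvd_add_left dvd_rfl).1 h7)
      refine ⟨k, hk, (dvd_add_left (pow_dvd_pow (2 : ℤ) (by omega))).1 h3, fun h => h5 ?_⟩
      exact (dvd_add_left (pow_dvd_pow (2 : ℤ) hkK)).2 h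
    · rintro ⟨k, hk, h3, h5⟩
      have hkK : k + 1 ≤ 2 * K := by
        by_contra hcon
        exact hbig k (by omega) h3
      refine ⟨k, hk, (dvd_add_left (pow_dvd_pow (2 : ℤ) (by omega))).2 h3, fun h => h5 ?_⟩
      exact (dvd_add_left (pow_dvd_pow (2 : ℤ) hkK)).1 h

theorem exists_oddVal_ne {P : ℤ} (hP : 0 < P) : ∃ i : ℤ, 0 ≤ i ∧ ¬ (OddVal (i + P) ↔ OddVal i) := by
  obtain ⟨a, o, ho, hPo⟩ : ∃ (a : ℕ) (o : ℤ), ¬ (2 : ℤ) ∣ o ∧ P = 2 ^ a * o := by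
    obtain ⟨a, o, ho, hPo⟩ := Nat.exists_eq_pow_mul_and_not_dvd (n := P.toNat)
      (by omega) 2 (by norm_num)
    refine ⟨a, o, by exact_mod_cast ho, ?_⟩
    have : (P.toNat : ℤ) = P := Int.toNat_of_nonneg hP.le
    rw [← this, hPo]
    push_cast
    ring
  have hodd : ∀ j : ℤ, ¬ (2 : ℤ) ∣ j → ¬ (2 : ℤ) ^ (a + 1) ∣ 2 ^ a * j := by
    intro j hj h
    rw [pow_succ] at h
    exact hj (Int.dvd_of_mul_dvd_mul_left (by positivity) h)
  obtain ⟨j, hj0, hj, hjo⟩ : ∃ j : ℤ, 0 ≤ j ∧ ¬ (2 : ℤ) ∣ j ∧ ∃ q : ℤ, j + o = 2 * q ∧ ¬ (2 : ℤ) ∣ q := by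
    have h1 : o % 2 = 1 := by omega
    rcases (by omega : o % 4 = 1 ∨ o % 4 = 3) with h | h
    · exact ⟨1, by norm_num, by norm_num, (1 + o) / 2, by omega, by omega⟩
    · exact ⟨3, by norm_num, by norm_num, (3 + o) / 2, by omega, by omega⟩
  obtain ⟨q, hq, hq2⟩ := hjo
  have e1 : 2 ^ a * j + P = 2 ^ (a + 1) * q := by
    rw [hPo, ← mul_add, hq, pow_succ]
    ring
  refine ⟨2 ^ a * j, by positivity, ?_⟩
  rw [oddVal_iff (Dvd.intro _ rfl) (hodd j hj), e1]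
  have h2 : ¬ (2 : ℤ) ^ (a + 1 + 1) ∣ 2 ^ (a + 1) * q := by
    intro h
    rw [pow_succ _ (a + 1)] at h
    exact hq2 (Int.dvd_of_mul_dvd_mul_left (by positivity) h)
  rw [oddVal_iff (Dvd.intro _ rfl) h2, Nat.odd_add_one]
  tauto

open Classical in
/-- The sequence. -/
noncomputable def tz (i : ℤ) : ℤ := if OddVal i then 1 else 0

theorem tz_zero_or_one (i : ℤ) : tz i = 0 ∨ tz i = 1 := by
  unfold tz
  split_ifs
  · exact Or.inr rfl
  · exact Or.inl rfl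

theorem tz_add {i : ℤ} {K : ℕ} (hi : |i| < 4 ^ K) : tz (i + 4 ^ K) = tz i := by
  unfold tz
  rw [oddVal_add hi]

theorem exists_tz_ne {P : ℤ} (hP : 0 < P) : ∃ i : ℤ, 0 ≤ i ∧ tz (i + P) ≠ tz i := by
  obtain ⟨i, hi, h⟩ := exists_oddVal_ne hP
  refine ⟨i, hi, fun h' => h ?_⟩
  unfold tz at h'
  by_cases h1 : OddVal (i + P) <;> by_cases h2 : OddVal i <;> simp_all

end OmSt
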