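import Pool.Agent.OmSt.Isol
import Pool.Agent.OmSt.Dich2
import Pool.Agent.OmSt.Toeplitz

/-!
# A transverse homoclinic orbit gives a recurrent point which is not periodic
-/

open Set Filter Topology Manifold ContDiff Metric

set_option linter.unusedSectionVars false

namespace OmSt

variable {E : Type*} [NormedAddCommGroup E] [NormedSpace ℝ E]
  {M : Type*} [TopologicalSpace M]

/-- The time of the `k`-th step along a homoclinic orbit. -/
def tm (m J : ℕ) (k : ℤ) : ℕ := if k = 0 then J else m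

/-- The `k`-th step, in the chart. -/
noncomputable def chm (g : M → M) (e : OpenPartialHomeomorph M E) (m J : ℕ) (k : ℤ) (z : E) : E :=
  e (g^[tm m J k] (e.symm z))

/-- A transverse homoclinic orbit, seen in a chart. -/
structure HomData (g : M → M) (e : OpenPartialHomeomorph M E) (m J : ℕ) (c : E) (ρ : ℝ)
    (ξ : ℤ → E) (K : ℝ) : Prop where
  hm : 0 < m
  hρ : 0 < ρ
  target : closedBall c ρ ⊆ e.target
  src : ∀ z ∈ closedBall c ρ, g^[m] (e.symm z) ∈ e.source
  smooth : ∀ z ∈ closedBall c ρ, ContDiffAt ℝ 1 (fun z => e (g^[m] (e.symm z))) z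
  mem : ∀ k, ξ k ∈ closedBall c (ρ / 2)
  top : Tendsto ξ atTop (𝓝 c)
  bot : Tendsto ξ atBot (𝓝 c)
  src0 : g^[J] (e.symm (ξ 0)) ∈ e.source
  smooth0 : ContDiffAt ℝ 1 (fun z => e (g^[J] (e.symm z))) (ξ 0)
  step : ∀ k, chm g e m J k (ξ k) = ξ (k + 1)
  hK : 0 ≤ K
  dich : Dich (fun k => fderiv ℝ (chm g e m J k) (ξ k)) K
  ne : ξ 0 ≠ ξ (-1)

variable {g : M → M} {e : OpenPartialHomeomorph M E} {m J : ℕ} {c : E} {ρ : ℝ} {ξ : ℤ → E} {K : ℝ}

theorem chm_of_ne {k : ℤ} (hk : k ≠ 0) : chm g e m J k = fun z => e (g^[m] (e.symm z)) := by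
  unfold chm tm
  simp [hk]

theorem chm_zero : chm g e m J 0 = fun z => e (g^[J] (e.symm z)) := by
  unfold chm tm
  simp

/-- Uniform linear approximation along the homoclinic orbit. -/
theorem HomData.approx [FiniteDimensional ℝ E] (h : HomData g e m J c ρ ξ K) (hg : Continuous g)
    {η : ℝ} (hη : 0 < η) :
    ∃ δ > 0, δ ≤ ρ / 2 ∧ ∀ k, ∀ u ∈ closedBall (ξ k) δ, u ∈ e.target ∧
      g^[tm m J k] (e.symm u) ∈ e.source ∧ ContinuousAt (chm g e m J k) u ∧
      ∀ u' ∈ closedBall (ξ k) δ, ‖chm g e m J k u - chm g e m J k u' -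
        fderiv ℝ (chm g e m J k) (ξ k) (u - u')‖ ≤ η * ‖u - u'‖ := by
  have hρ := h.hρ
  set φ : E → E := fun z => e (g^[m] (e.symm z)) with hφ
  have hcont : ContinuousOn (fderiv ℝ φ) (closedBall c ρ) := fun z hz =>
    ((h.smooth z hz).continuousAt_fderiv (by simp)).continuousWithinAt
  have huc := (isCompact_closedBall c ρ).uniformContinuousOn_of_continuous hcont
  obtain ⟨δ₁, hδ₁, h1⟩ := Metric.uniformContinuousOn_iff.1 huc η hη
  have hsub : ∀ k, closedBall (ξ k) (ρ / 2) ⊆ closedBall c ρ := by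
    intro k
    refine closedBall_subset_closedBall' ?_
    have := h.mem k
    rw [mem_closedBall] at this
    linarith
  -- the exceptional step
  have h0t : ξ 0 ∈ e.target := h.target (hsub 0 (mem_closedBall_self (by positivity)))
  have hnh : e.target ∩ (fun z => g^[J] (e.symm z)) ⁻¹' e.source ∈ 𝓝 (ξ 0) := by
    refine inter_mem (e.open_target.mem_nhds h0t) ?_
    have hc : ContinuousAt (fun z => g^[J] (e.symm z)) (ξ 0) :=
      ((hg.iterate J).continuousAt).comp (e.continuousAt_symm h0t)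
    exact hc (e.open_source.mem_nhds h.src0)
  obtain ⟨δ₂, hδ₂, h2, h3, h4⟩ := exists_closedBall_approx h.smooth0 hnh hη
  refine ⟨min (min (δ₁ / 2) (ρ / 2)) δ₂, by positivity, (min_le_left _ _).trans (min_le_right _ _),
    fun k u hu => ?_⟩
  by_cases hk : k = 0
  · subst hk
    rw [chm_zero]
    have hmono : closedBall (ξ 0) (min (min (δ₁ / 2) (ρ / 2)) δ₂) ⊆ closedBall (ξ 0) δ₂ :=
      closedBall_subset_closedBall (min_le_right _ _)
    have e1 : tm m J 0 = J := by simp [tm]
    rw [e1]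
    exact ⟨(h2 (hmono hu)).1, (h2 (hmono hu)).2, (h3 _ (hmono hu)).1.continuousAt,
      fun u' hu' => h4 u (hmono hu) u' (hmono hu')⟩
  · rw [chm_of_ne hk]
    have e1 : tm m J k = m := by simp [tm, hk]
    rw [e1]
    have hmono : closedBall (ξ k) (min (min (δ₁ / 2) (ρ / 2)) δ₂) ⊆ closedBall (ξ k) (ρ / 2) :=
      closedBall_subset_closedBall ((min_le_left _ _).trans (min_le_right _ _))
    have hmono' : closedBall (ξ k) (min (min (δ₁ / 2) (ρ / 2)) δ₂) ⊆ closedBall (ξ k) (δ₁ / 2) :=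
      closedBall_subset_closedBall ((min_le_left _ _).trans (min_le_left _ _))
    have huc' := hsub k (hmono hu)
    refine ⟨h.target huc', h.src u huc', (h.smooth u huc').continuousAt, fun u' hu' => ?_⟩
    refine (convex_closedBall (ξ k) (min (min (δ₁ / 2) (ρ / 2)) δ₂)).norm_image_sub_le_of_norm_hasFDerivWithin_le'
      (f := φ) (f' := fderiv ℝ φ)
      (fun w hw => ((h.smooth w (hsub k (hmono hw))).differentiableAt
        (by simp)).hasFDerivAt.hasFDerivWithinAt)
      (fun w hw => ?_) hu' hu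
    have h5 := h1 w (hsub k (hmono hw)) (ξ k) (hsub k (mem_closedBall_self (by positivity))) (by
      have := hmono' hw
      rw [mem_closedBall] at this
      linarith)
    rw [dist_eq_norm] at h5
    exact h5.le

/-- The indices of the blocks. -/
def bi (h n : ℤ) : ℤ := (n + h) / (2 * h)

/-- The position in the block. -/
def bp (h n : ℤ) : ℤ := (n + h) % (2 * h) - h

/-- The position along the homoclinic orbit, for the sequence `ν`. -/
def kp (h : ℤ) (ν : ℤ → ℤ) (n : ℤ) : ℤ := bp h n - ν (bi h n)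

theorem bi_bp {h : ℤ} (n : ℤ) : n = bi h n * (2 * h) + bp h n := by
  unfold bi bp
  have := Int.mul_ediv_add_emod (n + h) (2 * h)
  linarith

theorem bp_mem {h : ℤ} (hh : 0 < h) (n : ℤ) : -h ≤ bp h n ∧ bp h n < h := by
  unfold bp
  have h1 := Int.emod_nonneg (n + h) (by omega : 2 * h ≠ 0)
  have h2 := Int.emod_lt_of_pos (n + h) (by omega : 0 < 2 * h)
  constructor <;> linarith

theorem bi_bp_unique {h : ℤ} (hh : 0 < h) {n i r : ℤ} (hr : -h ≤ r ∧ r < h)
    (hn : n = i * (2 * h) + r) : bi h n = i ∧ bp h n = r := by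
  have h1 := bi_bp (h := h) n
  have h2 := bp_mem hh n
  have h3 : bi h n = i := by
    by_contra hne
    rcases lt_or_gt_of_ne hne with h4 | h4
    · have h5 : (bi h n + 1) * (2 * h) ≤ i * (2 * h) := by
        have : bi h n + 1 ≤ i := h4
        nlinarith
      linarith [h2.2, hr.1]
    · have h5 : (i + 1) * (2 * h) ≤ bi h n * (2 * h) := by
        have : i + 1 ≤ bi h n := h4
        nlinarith
      linarith [h2.1, hr.2]
  refine ⟨h3, ?_⟩
  rw [h3] at h1
  linarith

theorem bi_add {h : ℤ} (hh : 0 < h) (n : ℤ) : bi h (n + 2 * h) = bi h n + 1 ∧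
    bp h (n + 2 * h) = bp h n := by
  refine bi_bp_unique hh (bp_mem hh n) ?_
  have := bi_bp (h := h) n
  linarith

theorem kp_shift {h : ℤ} (hh : 0 < h) (ν : ℤ → ℤ) (n : ℤ) :
    kp h (fun i => ν (i + 1)) n = kp h ν (n + 2 * h) := by
  unfold kp
  rw [(bi_add hh n).1, (bi_add hh n).2]

/-- The next position. -/
theorem kp_succ {h : ℤ} (hh : 0 < h) (ν : ℤ → ℤ) (n : ℤ) :
    kp h ν (n + 1) = kp h ν n + 1 ∨
      (kp h ν n + 1 = h - ν (bi h n) ∧ kp h ν (n + 1) = -h - ν (bi h n + 1)) := by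
  have h1 := bi_bp (h := h) n
  have h2 := bp_mem hh n
  by_cases h3 : bp h n + 1 < h
  · left
    obtain ⟨a, b⟩ := bi_bp_unique hh (n := n + 1) (i := bi h n) (r := bp h n + 1)
      ⟨by linarith, h3⟩ (by linarith)
    unfold kp
    rw [a, b]
    ring
  · right
    have h4 : bp h n = h - 1 := by omega
    obtain ⟨a, b⟩ := bi_bp_unique hh (n := n + 1) (i := bi h n + 1) (r := -h)
      ⟨by linarith, by linarith⟩ (by rw [h4] at h1; linarith)
    unfold kp
    rw [a, b, h4]
    constructor <;> ring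

end OmSt
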