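import Pool.Agent.OmSt.Hyper
import Pool.Agent.OmSt.Chain3

/-!
# Local analysis at hyperbolic periodic points; isolation
-/

open Set Filter Topology Manifold ContDiff Metric

set_option linter.unusedSectionVars false

namespace OmSt

section zi

variable {X : Type*}

/-- Integer iterates. -/
def zi (σ : Equiv.Perm X) (k : ℤ) (x : X) : X := (σ ^ k) x

theorem zi_zero (σ : Equiv.Perm X) (x : X) : zi σ 0 x = x := by simp [zi]

theorem zi_add (σ : Equiv.Perm X) (a b : ℤ) (x : X) : zi σ (a + b) x = zi σ a (zi σ b x) := by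
  simp [zi, zpow_add]

theorem zi_nat (σ : Equiv.Perm X) (n : ℕ) (x : X) : zi σ n x = σ^[n] x := by
  rw [zi, zpow_natCast, Equiv.Perm.iterate_eq_pow]

theorem zi_neg (σ : Equiv.Perm X) (n : ℕ) (x : X) : zi σ (-(n : ℤ)) x = σ.symm^[n] x := by
  rw [zi, zpow_neg, zpow_natCast, ← inv_pow]
  rfl

theorem zi_injective (σ : Equiv.Perm X) (k : ℤ) : Function.Injective (zi σ k) :=
  (σ ^ k).injective

theorem zi_mul_fix {σ : Equiv.Perm X} {m : ℕ} {x : X} (h : σ^[m] x = x) (k : ℤ) :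
    zi σ (m * k) x = x := by
  have h1 : (σ ^ m) x = x := h
  rw [zi, zpow_mul, zpow_natCast]
  exact Function.IsFixedPt.perm_zpow h1 k

/-- An orbit remains in a set. -/
theorem forall_zi {σ : Equiv.Perm X} {U : Set X} {x : X} (h1 : ∀ k : ℕ, σ^[k] x ∈ U)
    (h2 : ∀ k : ℕ, σ.symm^[k] x ∈ U) (k : ℤ) : zi σ k x ∈ U := by
  obtain ⟨n, rfl | rfl⟩ := k.eq_nat_or_neg
  · rw [zi_nat]; exact h1 n
  · rw [zi_neg]; exact h2 n

end zi

section Local

variable {E : Type*} [NormedAddCommGroup E] [NormedSpace ℝ E]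

/-- A `C¹` map is close to its derivative in a small ball. -/
theorem exists_closedBall_approx {φ : E → E} {c : E} (h : ContDiffAt ℝ 1 φ c) {U : Set E}
    (hU : U ∈ 𝓝 c) {η : ℝ} (hη : 0 < η) :
    ∃ ρ > 0, closedBall c ρ ⊆ U ∧ (∀ z ∈ closedBall c ρ, DifferentiableAt ℝ φ z ∧
      ‖fderiv ℝ φ z - fderiv ℝ φ c‖ ≤ η) ∧
      ∀ z ∈ closedBall c ρ, ∀ z' ∈ closedBall c ρ,
        ‖φ z - φ z' - fderiv ℝ φ c (z - z')‖ ≤ η * ‖z - z'‖ := by
  have h1 : ∀ᶠ z in 𝓝 c, DifferentiableAt ℝ φ z := by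
    filter_upwards [h.eventually (by simp)] with z hz
    exact hz.differentiableAt (by simp)
  have h2 : ∀ᶠ z in 𝓝 c, ‖fderiv ℝ φ z - fderiv ℝ φ c‖ ≤ η := by
    have h3 : Tendsto (fderiv ℝ φ) (𝓝 c) (𝓝 (fderiv ℝ φ c)) := h.continuousAt_fderiv (by simp)
    exact ((tendsto_iff_norm_sub_tendsto_zero.1 h3).eventually (Iio_mem_nhds hη)).mono
      fun z hz => le_of_lt hz
  obtain ⟨ρ, hρ, hb⟩ := Metric.nhds_basis_closedBall.mem_iff.1 ((h1.and h2).and hU)
  refine ⟨ρ, hρ, fun z hz => (hb hz).2, fun z hz => (hb hz).1, fun z hz z' hz' => ?_⟩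
  exact (convex_closedBall c ρ).norm_image_sub_le_of_norm_hasFDerivWithin_le'
      (f := φ) (f' := fderiv ℝ φ)
      (fun w hw => ((hb hw).1.1).hasFDerivAt.hasFDerivWithinAt)
      (fun w hw => (hb hw).1.2) hz' hz

end Local

variable {E : Type*} [NormedAddCommGroup E] [NormedSpace ℝ E]
  {M : Type*} [TopologicalSpace M] [ChartedSpace E M]
  {V : Type*} [NormedAddCommGroup V] [NormedSpace ℝ V] {r : ℕ∞} [IsManifold 𝓘(ℝ, E) ∞ M]

/-- The linear part of `g ^ m` at the fixed point `q`, in the chart at `q`. -/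
noncomputable def linAt (g : Dyn E M r) (m : ℕ) (q : M) : E →L[ℝ] E :=
  fderiv ℝ (fun z => (chartAt E q) (g^[m] ((chartAt E q).symm z))) (chartAt E q q)

theorem isHyp_linAt {g : Dyn E M r} (hr : 1 ≤ r) {m : ℕ} {q : M} (hq : g^[m] q = q)
    (h : IsHyp (D g^[m] q : E →L[ℝ] E)) : IsHyp (linAt g m q) := by
  obtain ⟨L, L', hL1, hL2, hL3⟩ := exists_chart_conj (E := E)
    (IsManifold.chart_mem_maximalAtlas (n := ∞) (I := 𝓘(ℝ, E)) q) (mem_chart_source E q)
  rw [linAt, (hL3 g^[m] (mdiff_iterate (Dyn.mdiff g hr) m q) hq).fderiv]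
  exact h.conj hL1 hL2

/-- The map in the chart, in a small ball. -/
theorem exists_local {g : Dyn E M r} (hr : 1 ≤ r) {m : ℕ} {q : M} (hq : g^[m] q = q) {U : Set M}
    (hU : U ∈ 𝓝 q) {η : ℝ} (hη : 0 < η) :
    ∃ ρ > 0, closedBall (chartAt E q q) ρ ⊆ (chartAt E q).target ∧
      (chartAt E q).symm '' closedBall (chartAt E q q) ρ ⊆ U ∧
      (∀ z ∈ closedBall (chartAt E q q) ρ, g^[m] ((chartAt E q).symm z) ∈ (chartAt E q).source ∧
        DifferentiableAt ℝ (fun z => (chartAt E q) (g^[m] ((chartAt E q).symm z))) z ∧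
        ‖fderiv ℝ (fun z => (chartAt E q) (g^[m] ((chartAt E q).symm z))) z - linAt g m q‖ ≤ η) ∧
      ∀ z ∈ closedBall (chartAt E q q) ρ, ∀ z' ∈ closedBall (chartAt E q q) ρ,
        ‖(chartAt E q) (g^[m] ((chartAt E q).symm z)) - (chartAt E q) (g^[m] ((chartAt E q).symm z'))
          - linAt g m q (z - z')‖ ≤ η * ‖z - z'‖ := by
  set e := chartAt E q with he
  have hmax : e ∈ IsManifold.maximalAtlas 𝓘(ℝ, E) ∞ M := IsManifold.chart_mem_maximalAtlas q
  have hqe : q ∈ e.source := mem_chart_source E q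
  have hct : e q ∈ e.target := e.map_source hqe
  have hsrc : g^[m] (e.symm (e q)) ∈ e.source := by rw [e.left_inv hqe, hq]; exact hqe
  have hφ : ContDiffAt ℝ 1 (fun z => e (g^[m] (e.symm z))) (e q) :=
    contDiffAt_chart_iterate hr hmax hmax m hct hsrc
  have hc : ContinuousAt (fun z => g^[m] (e.symm z)) (e q) :=
    ((g.continuous.iterate m).continuousAt).comp (e.continuousAt_symm hct)
  have h1 : e.target ∩ ((fun z => g^[m] (e.symm z)) ⁻¹' e.source ∩ e.symm ⁻¹' U) ∈ 𝓝 (e q) := by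
    refine inter_mem (e.open_target.mem_nhds hct) (inter_mem ?_ ?_)
    · exact hc (e.open_source.mem_nhds hsrc)
    · exact (e.continuousAt_symm hct) (by rwa [e.left_inv hqe])
  obtain ⟨ρ, hρ, h2, h3, h4⟩ := exists_closedBall_approx hφ h1 hη
  refine ⟨ρ, hρ, fun z hz => (h2 hz).1, ?_, fun z hz => ⟨(h2 hz).2.1, h3 z hz⟩, h4⟩
  rintro _ ⟨z, hz, rfl⟩
  exact (h2 hz).2.2

/-- Local uniqueness of the orbits near a hyperbolic periodic point. -/
theorem exists_unique_nhds [CompleteSpace E] {g : Dyn E M r} (hr : 1 ≤ r) {m : ℕ} {q : M}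
    (hq : g^[m] q = q)
    (h : IsHyp (D g^[m] q : E →L[ℝ] E)) :
    ∃ B ∈ 𝓝 q, ∀ y, (∀ k : ℤ, zi g.toEquiv (m * k) y ∈ B) → y = q := by
  obtain ⟨K, hK, hdich⟩ := (isHyp_linAt hr hq h).dich
  have hη : 0 < 1 / (2 * (K + 1)) := by positivity
  obtain ⟨ρ, hρ, hρt, -, h1, h2⟩ := exists_local hr hq univ_mem hη
  set e := chartAt E q with he
  have hqe : q ∈ e.source := mem_chart_source E q
  set c := e q with hc
  refine ⟨e.source ∩ e ⁻¹' closedBall c ρ, ?_, fun y hy => ?_⟩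
  · exact inter_mem (e.open_source.mem_nhds hqe) ((e.continuousAt hqe) (closedBall_mem_nhds _ hρ))
  have hKη : K * (1 / (2 * (K + 1))) ≤ 1 / 2 := by
    rw [mul_one_div, div_le_div_iff₀ (by positivity) (by norm_num)]
    nlinarith
  have huniq := hdich.newton_unique hK (F := fun _ => fun z => e (g^[m] (e.symm z)))
    (y := fun _ => c) (ρ := ρ) (η := 1 / (2 * (K + 1))) hη.le hKη (fun _ u hu u' hu' => h2 u hu u' hu')
    (z := fun k => e (zi g.toEquiv (m * k) y)) (z' := fun _ => c)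
    (fun k => by
      have := (hy k).2
      rwa [mem_preimage, mem_closedBall, dist_eq_norm] at this)
    (fun k => by simpa using hρ.le)
    (fun k => by
      change e (zi g.toEquiv (m * (k + 1)) y) = e (g^[m] (e.symm (e (zi g.toEquiv (m * k) y))))
      rw [e.left_inv (hy k).1]
      congr 1
      have e1 : (m : ℤ) * (k + 1) = m + m * k := by ring
      rw [e1, zi_add, zi_nat]
      rfl)
    (fun k => by
      change c = e (g^[m] (e.symm c))
      rw [hc, e.left_inv hqe, hq])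
  have h3 := congrFun huniq 0
  simp only [mul_zero, zi_zero] at h3
  have h4 := (hy 0).1
  rw [mul_zero, zi_zero] at h4
  exact e.injOn h4 hqe h3

end OmSt
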