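import Pool.Agent.OmSt.Isol

/-!
# Isolating neighbourhoods of hyperbolic periodic orbits; existence of cycles
-/

open Set Filter Topology Manifold ContDiff Metric

set_option linter.unusedSectionVars false

namespace OmSt

theorem exists_isolating {X : Type*} [TopologicalSpace X] [T3Space X] (f : X ≃ₜ X) {p : X} {m : ℕ}
    (hm : 0 < m) (hp : f^[m] p = p)
    (hloc : ∀ x ∈ orb f p, ∃ B ∈ 𝓝 x, ∀ y, (∀ k : ℤ, zi f.toEquiv (m * k) y ∈ B) → y = x) :
    ∃ U : Set X, IsClosed U ∧ orb f p ⊆ interior U ∧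
      ∀ y, (∀ k : ℕ, f^[k] y ∈ U) → (∀ k : ℕ, f.symm^[k] y ∈ U) → y ∈ orb f p := by
  classical
  have hper : p ∈ Function.periodicPts f := ⟨m, hm, hp⟩
  have hfin : (orb f p).Finite := by
    refine ((Set.finite_lt_nat m).image (fun i => f^[i] p)).subset ?_
    rintro _ ⟨i, rfl⟩
    refine ⟨i % m, Nat.mod_lt _ hm, ?_⟩
    exact Function.IsPeriodicPt.iterate_mod_apply hp i
  have hmaps : MapsTo f (orb f p) (orb f p) := by
    rintro _ ⟨i, rfl⟩
    exact ⟨i + 1, Function.iterate_succ_apply' f i p⟩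
  have hfix : ∀ x ∈ orb f p, f^[m] x = x := by
    rintro _ ⟨i, rfl⟩
    rw [← Function.iterate_add_apply, add_comm, Function.iterate_add_apply, hp]
  obtain ⟨U, hU, hdis⟩ := hfin.t2_separation
  -- the local neighbourhoods
  have hC : ∀ x : X, ∃ C : Set X, x ∈ orb f p → (C ∈ 𝓝 x ∧ IsClosed C ∧ C ⊆ U x ∧
      MapsTo f C (U (f x)) ∧ ∀ y, (∀ k : ℤ, zi f.toEquiv (m * k) y ∈ C) → y = x) := by
    intro x
    by_cases hx : x ∈ orb f p
    · obtain ⟨B, hB, hB'⟩ := hloc x hx
      have h1 : B ∩ (U x ∩ f ⁻¹' (U (f x))) ∈ 𝓝 x :=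
        inter_mem hB (inter_mem ((hU x).2.mem_nhds (hU x).1)
          (f.continuous.continuousAt ((hU (f x)).2.mem_nhds (hU (f x)).1)))
      obtain ⟨C, hC, hCc, hCs⟩ := exists_mem_nhds_isClosed_subset h1
      exact ⟨C, fun _ => ⟨hC, hCc, fun y hy => (hCs hy).2.1, fun y hy => (hCs hy).2.2,
        fun y hy => hB' y fun k => (hCs (hy k)).1⟩⟩
    · exact ⟨∅, fun h => absurd h hx⟩
  choose C hC using hC
  have hCmem : ∀ x ∈ orb f p, ∀ z ∈ orb f p, ∀ y, y ∈ U z → y ∈ C x → x = z := by
    intro x hx z hz y hyz hyx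
    by_contra hne
    exact (hdis hx hz hne).le_bot ⟨(hC x hx).2.2.1 hyx, hyz⟩
  refine ⟨⋃ x ∈ orb f p, C x, ?_, ?_, fun y hfw hbw => ?_⟩
  · exact hfin.isClosed_biUnion fun x hx => (hC x hx).2.1
  · intro x hx
    rw [mem_interior_iff_mem_nhds]
    exact mem_of_superset (hC x hx).1 (subset_biUnion_of_mem (u := fun x => C x) hx)
  · obtain ⟨x, hx, hyx⟩ := mem_iUnion₂.1 (hfw 0)
    simp only [Function.iterate_zero, id_eq] at hyx
    have hsymm : ∀ z ∈ orb f p, f.symm z ∈ orb f p := by
      intro z hz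
      have h2 : f.symm z = f^[m - 1] z := by
        rw [f.symm_apply_eq, ← Function.iterate_succ_apply' (⇑f) (m - 1) z,
          Nat.succ_eq_add_one, Nat.sub_add_cancel hm]
        exact (hfix z hz).symm
      rw [h2]
      exact hmaps.iterate _ hz
    have h1 : ∀ k : ℕ, f^[k] x ∈ orb f p ∧ f^[k] y ∈ C (f^[k] x) := by
      intro k
      induction k with
      | zero => exact ⟨hx, hyx⟩
      | succ k ih =>
        obtain ⟨z, hz, hyz⟩ := mem_iUnion₂.1 (hfw (k + 1))
        have h3 : f^[k + 1] x ∈ orb f p := by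
          rw [Function.iterate_succ_apply']
          exact hmaps ih.1
        refine ⟨h3, ?_⟩
        have h4 : f^[k + 1] y ∈ U (f^[k + 1] x) := by
          rw [Function.iterate_succ_apply', Function.iterate_succ_apply']
          exact (hC _ ih.1).2.2.2.1 ih.2
        rw [← hCmem z hz _ h3 _ h4 hyz]
        exact hyz
    have h2 : ∀ k : ℕ, f.symm^[k] x ∈ orb f p ∧ f.symm^[k] y ∈ C (f.symm^[k] x) := by
      intro k
      induction k with
      | zero => exact ⟨hx, hyx⟩
      | succ k ih =>
        obtain ⟨z, hz, hyz⟩ := mem_iUnion₂.1 (hbw (k + 1))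
        have h3 : f.symm^[k + 1] x ∈ orb f p := by
          rw [Function.iterate_succ_apply']
          exact hsymm _ ih.1
        refine ⟨h3, ?_⟩
        have h4 : f.symm^[k] y ∈ U (f z) := by
          have := (hC z hz).2.2.2.1 hyz
          rwa [Function.iterate_succ_apply', f.apply_symm_apply] at this
        have h5 := hCmem _ ih.1 _ (hmaps hz) _ h4 ih.2
        have h6 : f.symm^[k + 1] x = z := by
          rw [Function.iterate_succ_apply', h5, f.symm_apply_apply]
        rw [h6]
        exact hyz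
    have h3 : y = x := by
      refine (hC x hx).2.2.2.2 y fun k => ?_
      obtain ⟨n, rfl | rfl⟩ := k.eq_nat_or_neg
      · have e1 : (m : ℤ) * n = ((m * n : ℕ) : ℤ) := by push_cast; ring
        rw [e1, zi_nat]
        have := (h1 (m * n)).2
        have e2 : f^[m * n] x = x := by
          have h7 : Function.IsPeriodicPt f m x := hfix x hx
          exact h7.mul_const n
        rw [e2] at this
        exact this
      · have e1 : (m : ℤ) * (-n) = -((m * n : ℕ) : ℤ) := by push_cast; ring
        rw [e1, zi_neg]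
        have := (h2 (m * n)).2
        have e2 : f.symm^[m * n] x = x := by
          have h7 : f^[m * n] x = x := by
            have h8 : Function.IsPeriodicPt f m x := hfix x hx
            exact h8.mul_const n
          have h9 : f.symm^[m * n] (f^[m * n] x) = x :=
            (Function.LeftInverse.iterate f.symm_apply_apply (m * n)) x
          rwa [h7] at h9
        rw [e2] at this
        exact this
    rw [h3]
    exact hx

variable {E : Type*} [NormedAddCommGroup E] [NormedSpace ℝ E] {M : Type*}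

theorem Stab.hyps [FiniteDimensional ℝ E] [MetricSpace M] [CompactSpace M] [ChartedSpace E M]
    {r : ℕ∞} [IsManifold 𝓘(ℝ, E) ∞ M]
    {N : Set (Dyn E M r)} (hN : Stab N) (hr : 1 ≤ r)
    (hrec : ∀ g ∈ N, ∀ x, Recurrent g x → x ∈ Function.periodicPts g) {g : Dyn E M r}
    (hg : g ∈ N) : Hyps g.toHomeomorph where
  hrec := hrec g hg
  hfin n hn := hN.fix_finite hr n hn g hg
  hiso p hp := by
    obtain ⟨m, hm, hpm⟩ := hp
    refine exists_isolating g.toHomeomorph hm hpm fun x hx => ?_
    have hxm : g^[m] x = x := by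
      obtain ⟨i, rfl⟩ := hx
      change g^[m] (g^[i] p) = g^[i] p
      rw [← Function.iterate_add_apply, add_comm, Function.iterate_add_apply]
      exact congrArg g^[i] hpm
    exact exists_unique_nhds hr hxm (hN.isHyp hr hg hm hxm)

end OmSt
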