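import Pool.Agent.OmSt.Dich

/-!
# A dichotomy for invertible linear maps: hyperbolic, or with an eigenvalue of modulus one
-/

open Set Filter Topology Metric
open scoped NNReal

set_option linter.unusedSectionVars false

namespace OmSt

section Growth

variable {V : Type*} [NormedAddCommGroup V] [NormedSpace ℂ V]

theorem growth_bound (f : Module.End ℂ V) (μ : ℂ) {ν : ℝ} (hν : ‖μ‖ < ν) :
    ∀ (k : ℕ) (z : V), ((f - algebraMap ℂ (Module.End ℂ V) μ) ^ k) z = 0 →
      ∃ C : ℝ, 0 ≤ C ∧ ∀ n : ℕ, ‖(f ^ n) z‖ ≤ C * ν ^ n := by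
  have hν0 : 0 < ν := (norm_nonneg μ).trans_lt hν
  intro k
  induction k with
  | zero =>
    intro z hz
    have hz0 : z = 0 := by simpa using hz
    exact ⟨0, le_rfl, fun n => by simp [hz0]⟩
  | succ k ih =>
    intro z hz
    obtain ⟨C', hC'0, hC'⟩ := ih ((f - algebraMap ℂ (Module.End ℂ V) μ) z) (by
      rw [← Module.End.mul_apply, ← pow_succ]; exact hz)
    have hz' : (f - algebraMap ℂ (Module.End ℂ V) μ) z = f z - μ • z := by
      simp [LinearMap.sub_apply, Module.algebraMap_end_apply]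
    rw [hz'] at hC'
    have hd : 0 < ν - ‖μ‖ := by linarith
    refine ⟨max ‖z‖ (C' / (ν - ‖μ‖)), le_max_of_le_left (norm_nonneg _), ?_⟩
    set C := max ‖z‖ (C' / (ν - ‖μ‖)) with hC
    have hCC : C' ≤ C * (ν - ‖μ‖) := by
      rw [← div_le_iff₀ hd]
      exact le_max_right _ _
    intro n
    induction n with
    | zero =>
      simp only [pow_zero, mul_one, Module.End.one_apply]
      exact le_max_left _ _
    | succ n ihn =>
      have e : (f ^ (n + 1)) z = μ • (f ^ n) z + (f ^ n) (f z - μ • z) := by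
        rw [pow_succ, Module.End.mul_apply, map_sub, map_smul]
        abel
      rw [e]
      calc ‖μ • (f ^ n) z + (f ^ n) (f z - μ • z)‖
          ≤ ‖μ‖ * (C * ν ^ n) + C' * ν ^ n := by
            refine (norm_add_le _ _).trans (add_le_add ?_ (hC' n))
            rw [norm_smul]
            gcongr
        _ ≤ ‖μ‖ * (C * ν ^ n) + (C * (ν - ‖μ‖)) * ν ^ n := by gcongr
        _ = C * ν ^ (n + 1) := by ring

end Growth

variable {E : Type*} [NormedAddCommGroup E] [NormedSpace ℝ E] [FiniteDimensional ℝ E]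

/-- Vectors whose iterates decay exponentially. -/
def decay (T : E →L[ℝ] E) : Submodule ℝ E where
  carrier := {v | ∃ C ν : ℝ, 0 ≤ C ∧ 0 ≤ ν ∧ ν < 1 ∧ ∀ n : ℕ, ‖(T ^ n) v‖ ≤ C * ν ^ n}
  add_mem' := by
    rintro v w ⟨C, ν, hC, hν, hν1, h⟩ ⟨C', ν', hC', hν', hν1', h'⟩
    refine ⟨C + C', max ν ν', by positivity, le_max_of_le_left hν, max_lt hν1 hν1', fun n => ?_⟩
    rw [map_add, add_mul]
    refine (norm_add_le _ _).trans (add_le_add ((h n).trans ?_) ((h' n).trans ?_))
    · gcongr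
      exact le_max_left _ _
    · gcongr
      exact le_max_right _ _
  zero_mem' := ⟨0, 0, le_rfl, le_rfl, one_pos, fun n => by simp⟩
  smul_mem' := by
    rintro c v ⟨C, ν, hC, hν, hν1, h⟩
    refine ⟨‖c‖ * C, ν, by positivity, hν, hν1, fun n => ?_⟩
    rw [map_smul, norm_smul, mul_assoc]
    gcongr
    exact h n

theorem mem_decay {T : E →L[ℝ] E} {v : E} : v ∈ decay T ↔
    ∃ C ν : ℝ, 0 ≤ C ∧ 0 ≤ ν ∧ ν < 1 ∧ ∀ n : ℕ, ‖(T ^ n) v‖ ≤ C * ν ^ n := Iff.rfl

/-- Uniform decay of `T ^ n * P` if the range of `P` consists of decaying vectors. -/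
theorem decay_uniform {T P : E →L[ℝ] E} (hP : ∀ v, P v ∈ decay T) :
    ∃ C ν : ℝ, 0 ≤ C ∧ 0 ≤ ν ∧ ν < 1 ∧ ∀ n : ℕ, ‖T ^ n * P‖ ≤ C * ν ^ n := by
  let b := Module.finBasis ℝ E
  have h1 := fun i => mem_decay.1 (hP (b i))
  choose C ν hC hν hν1 h using h1
  obtain ⟨K, hK, hK'⟩ := b.exists_opNorm_le (F := E)
  have hne : ∃ ν' : ℝ, 0 ≤ ν' ∧ ν' < 1 ∧ ∀ i, ν i ≤ ν' := by
    by_cases he : Nonempty (Fin (Module.finrank ℝ E))
    · refine ⟨Finset.univ.sup' Finset.univ_nonempty ν, ?_, ?_, fun i =>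
        Finset.le_sup' ν (Finset.mem_univ i)⟩
      · obtain ⟨i⟩ := he
        exact (hν i).trans (Finset.le_sup' ν (Finset.mem_univ i))
      · rw [Finset.sup'_lt_iff]
        exact fun i _ => hν1 i
    · exact ⟨0, le_rfl, one_pos, fun i => absurd ⟨i⟩ he⟩
  obtain ⟨ν', hν'0, hν'1, hν'⟩ := hne
  refine ⟨K * ∑ i, C i, ν', by have := Finset.sum_nonneg (fun i (_ : i ∈ Finset.univ) => hC i); positivity, hν'0, hν'1, fun n => ?_⟩
  have hS : 0 ≤ ∑ i, C i := Finset.sum_nonneg (fun i _ => hC i)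
  rw [mul_assoc]
  refine hK' (by positivity) (fun i => ?_)
  rw [mul_apply_eq_comp]
  calc ‖(T ^ n) (P (b i))‖ ≤ C i * ν i ^ n := h i n
    _ ≤ (∑ i, C i) * ν' ^ n := by
        refine mul_le_mul (Finset.single_le_sum (fun i _ => hC i) (Finset.mem_univ i))
          (pow_le_pow_left₀ (hν i) (hν' i) n) (pow_nonneg (hν i) n) hS

theorem decay_invariant {T S : E →L[ℝ] E} (h : Commute T S) {v : E} (hv : v ∈ decay T) :
    S v ∈ decay T := by
  obtain ⟨C, ν, hC, hν, hν1, hb⟩ := mem_decay.1 hv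
  refine mem_decay.2 ⟨‖S‖ * C, ν, by positivity, hν, hν1, fun n => ?_⟩
  have : (T ^ n) (S v) = S ((T ^ n) v) := by
    rw [← mul_apply_eq_comp, ← mul_apply_eq_comp, (h.pow_left n).eq]
  rw [this, mul_assoc]
  exact (S.le_opNorm _).trans (by gcongr; exact hb n)

/-- If decaying vectors of `T` and of its inverse span the space, then `T` is hyperbolic. -/
theorem isHyp_of_sup {T T' : E →L[ℝ] E} (h1 : T * T' = 1) (h2 : T' * T = 1)
    (hsup : decay T ⊔ decay T' = ⊤) : IsHyp T := by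
  have hcomm : Commute T T' := by rw [Commute, SemiconjBy, h1, h2]
  have hcan : ∀ n : ℕ, T ^ n * T' ^ n = 1 := fun n => by
    rw [← hcomm.mul_pow, h1, one_pow]
  have hinf : decay T ⊓ decay T' = ⊥ := by
    set F := decay T ⊓ decay T' with hF
    obtain ⟨q, hq⟩ := Submodule.exists_isCompl F
    let PF : E →L[ℝ] E := LinearMap.toContinuousLinearMap (F.projection q hq)
    have hPF : ∀ v, PF v ∈ F := fun v => Submodule.projection_apply_mem hq v
    have hPi : ∀ v ∈ F, PF v = v := fun v hv => Submodule.projection_apply_left hq ⟨v, hv⟩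
    obtain ⟨C, ν, hC, hν, hν1, hb⟩ := decay_uniform (T := T) (P := PF) (fun v => (hPF v).1)
    rw [eq_bot_iff]
    intro v hv
    obtain ⟨C', ν', hC', hν', hν1', hb'⟩ := mem_decay.1 hv.2
    have hF' : ∀ n : ℕ, (T' ^ n) v ∈ F := by
      intro n
      exact ⟨decay_invariant (hcomm.pow_right n) hv.1,
        decay_invariant ((Commute.refl T').pow_right n) hv.2⟩
    have hle : ∀ n : ℕ, ‖v‖ ≤ (C * C') * ν ^ n := by
      intro n
      have e : v = (T ^ n * PF) ((T' ^ n) v) := by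
        rw [mul_apply_eq_comp, hPi _ (hF' n), ← mul_apply_eq_comp, hcan]
        rfl
      calc ‖v‖ = ‖(T ^ n * PF) ((T' ^ n) v)‖ := by rw [← e]
        _ ≤ (C * ν ^ n) * (C' * ν' ^ n) :=
            (ContinuousLinearMap.le_opNorm _ _).trans (by
              gcongr
              · exact hb n
              · exact hb' n)
        _ ≤ (C * ν ^ n) * (C' * 1) := by
            gcongr
            exact pow_le_one₀ hν' hν1'.le
        _ = (C * C') * ν ^ n := by ring
    have hlim : Tendsto (fun n : ℕ => (C * C') * ν ^ n) atTop (𝓝 0) := by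
      simpa using (tendsto_pow_atTop_nhds_zero_of_lt_one hν hν1).const_mul (C * C')
    have := ge_of_tendsto' hlim hle
    rw [Submodule.mem_bot]
    exact norm_le_zero_iff.1 this
  have hc : IsCompl (decay T) (decay T') :=
    ⟨disjoint_iff.2 hinf, codisjoint_iff.2 hsup⟩
  let P : E →L[ℝ] E := LinearMap.toContinuousLinearMap ((decay T).projection (decay T') hc)
  have hP1 : ∀ v, P v ∈ decay T := fun v => Submodule.projection_apply_mem hc v
  have hP2 : ∀ v ∈ decay T, P v = v := fun v hv => Submodule.projection_apply_left hc ⟨v, hv⟩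
  have hP3 : ∀ v ∈ decay T', P v = 0 := fun v hv =>
    Submodule.projection_apply_of_mem_right hc hv
  have hQ : ∀ v, (1 - P) v ∈ decay T' := by
    intro v
    have h3 : v ∈ decay T ⊔ decay T' := by rw [hsup]; trivial
    obtain ⟨a, ha, b, hb, rfl⟩ := Submodule.mem_sup.1 h3
    have : (1 - P) (a + b) = b := by
      simp [sub_apply, hP2 a ha, hP3 b hb]
    rw [this]
    exact hb
  obtain ⟨C, ν, hC, hν, hν1, hb⟩ := decay_uniform hP1
  obtain ⟨C', ν', hC', hν', hν1', hb'⟩ := decay_uniform hQ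
  refine ⟨T', P, max C C', max ν ν', h1, h2, ?_, ?_, le_max_of_le_left hC,
    le_max_of_le_left hν, max_lt hν1 hν1', fun n => ⟨(hb n).trans ?_, (hb' n).trans ?_⟩⟩
  · ext v
    exact hP2 _ (hP1 v)
  · ext v
    have h3 : v ∈ decay T ⊔ decay T' := by rw [hsup]; trivial
    obtain ⟨a, ha, b, hb, rfl⟩ := Submodule.mem_sup.1 h3
    simp only [mul_apply_eq_comp, map_add, hP2 a ha, hP3 b hb,
      hP2 _ (decay_invariant (Commute.refl T) ha), hP3 _ (decay_invariant hcomm.symm hb),
      map_zero]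
  · gcongr
    · exact le_max_left _ _
    · exact le_max_left _ _
  · gcongr
    · exact le_max_right _ _
    · exact le_max_right _ _

end OmSt
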