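import Pool.Agent.OmSt.LinAlg

/-!
# The dichotomy: hyperbolic, or an eigenvalue of modulus one
-/

open Set Filter Topology Metric
open scoped NNReal

set_option linter.unusedSectionVars false

namespace OmSt

variable {E : Type*} [NormedAddCommGroup E] [NormedSpace ℝ E] [FiniteDimensional ℝ E]

variable (E) in
/-- A basis. -/
noncomputable def bs : Module.Basis (Fin (Module.finrank ℝ E)) ℝ E := Module.finBasis ℝ E

variable (E) in
/-- Coordinates of the complexification. -/
abbrev CV : Type := Fin (Module.finrank ℝ E) → ℂ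

/-- The real part of a vector of the complexification. -/
noncomputable def reE : CV E →ₗ[ℝ] E where
  toFun z := ∑ j, (z j).re • bs E j
  map_add' z w := by simp [add_smul, Finset.sum_add_distrib]
  map_smul' c z := by simp [Finset.smul_sum, smul_smul]

/-- The complexification of an endomorphism. -/
noncomputable def cT (T : E →ₗ[ℝ] E) : Module.End ℂ (CV E) :=
  Matrix.mulVecLin ((LinearMap.toMatrix (bs E) (bs E) T).map (algebraMap ℝ ℂ))

theorem cT_mul (T S : E →ₗ[ℝ] E) : cT (T ∘ₗ S) = cT T * cT S := by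
  unfold cT
  rw [LinearMap.toMatrix_comp (bs E) (bs E) (bs E), Matrix.map_mul, Matrix.mulVecLin_mul]
  rfl

theorem cT_one : cT (LinearMap.id : E →ₗ[ℝ] E) = 1 := by
  unfold cT
  rw [LinearMap.toMatrix_id, Matrix.map_one _ (map_zero _) (map_one _), Matrix.mulVecLin_one]
  rfl

theorem cT_apply (T : E →ₗ[ℝ] E) (z : CV E) (i) :
    cT T z i = ∑ j, (LinearMap.toMatrix (bs E) (bs E) T i j : ℂ) * z j := by
  simp [cT, Matrix.mulVecLin_apply, Matrix.mulVec, dotProduct]

theorem re_cT (T : E →ₗ[ℝ] E) (z : CV E) : reE (cT T z) = T (reE z) := by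
  change ∑ i, (cT T z i).re • bs E i = T (∑ j, (z j).re • bs E j)
  have h1 : ∀ i, (cT T z i).re = ∑ j, LinearMap.toMatrix (bs E) (bs E) T i j * (z j).re := by
    intro i
    rw [cT_apply, Complex.re_sum]
    refine Finset.sum_congr rfl fun j _ => ?_
    simp
  simp_rw [h1, Finset.sum_smul]
  rw [Finset.sum_comm, map_sum]
  refine Finset.sum_congr rfl fun j _ => ?_
  rw [map_smul]
  have h2 : T (bs E j) = ∑ i, LinearMap.toMatrix (bs E) (bs E) T i j • bs E i := by
    conv_lhs => rw [← (bs E).sum_repr (T (bs E j))]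
    refine Finset.sum_congr rfl fun i _ => ?_
    rw [LinearMap.toMatrix_apply]
  rw [h2, Finset.smul_sum]
  refine Finset.sum_congr rfl fun i _ => ?_
  rw [smul_smul, mul_comm]

theorem reE_surj (v : E) : ∃ z : CV E, reE z = v := by
  refine ⟨fun j => ((bs E).repr v j : ℂ), ?_⟩
  change ∑ j, (((bs E).repr v j : ℂ)).re • bs E j = v
  simp only [Complex.ofReal_re]
  exact (bs E).sum_repr v

theorem reE_eq_zero {z : CV E} (h : reE z = 0) (j) : (z j).re = 0 := by
  have h1 : ∑ j, (z j).re • bs E j = 0 := h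
  exact Fintype.linearIndependent_iff.1 (bs E).linearIndependent _ h1 j

theorem norm_reE_le : ∃ C : ℝ, 0 ≤ C ∧ ∀ z : CV E, ‖reE z‖ ≤ C * ‖z‖ := by
  refine ⟨∑ j, ‖bs E j‖, Finset.sum_nonneg fun _ _ => norm_nonneg _, fun z => ?_⟩
  change ‖∑ j, (z j).re • bs E j‖ ≤ _
  rw [Finset.sum_mul]
  refine (norm_sum_le _ _).trans (Finset.sum_le_sum fun j _ => ?_)
  rw [norm_smul, mul_comm]
  gcongr
  exact (Complex.abs_re_le_norm _).trans (norm_le_pi_norm z j)

/-- Real parts of generalised eigenvectors for eigenvalues of modulus `< 1` decay. -/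
theorem reE_mem_decay {T : E →L[ℝ] E} {μ : ℂ} (hμ : ‖μ‖ < 1) {z : CV E} {k : ℕ}
    (hz : ((cT (T : E →ₗ[ℝ] E) - algebraMap ℂ (Module.End ℂ (CV E)) μ) ^ k) z = 0) :
    reE z ∈ decay T := by
  obtain ⟨ν, hν1, hν2⟩ := exists_between hμ
  obtain ⟨C, hC, hb⟩ := growth_bound _ μ hν1 k z hz
  obtain ⟨C', hC', hb'⟩ := norm_reE_le (E := E)
  refine mem_decay.2 ⟨C' * C, ν, by positivity, ((norm_nonneg μ).trans_lt hν1).le, hν2,
    fun n => ?_⟩
  have e : ∀ n : ℕ, (T ^ n) (reE z) = reE ((cT (T : E →ₗ[ℝ] E) ^ n) z) := by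
    intro n
    induction n with
    | zero => simp
    | succ n ih =>
      rw [pow_succ', mul_apply_eq_comp, ih, pow_succ', Module.End.mul_apply, re_cT]
      rfl
  rw [e n]
  calc _ ≤ C' * ‖(cT (T : E →ₗ[ℝ] E) ^ n) z‖ := hb' _
    _ ≤ C' * (C * ν ^ n) := by gcongr; exact hb n
    _ = C' * C * ν ^ n := by ring

/-- **Dichotomy.** An invertible linear map is hyperbolic, or it has an eigenvalue `±1`, or it
acts on a plane as the multiplication by a complex number of modulus one. -/
theorem hyp_or {T T' : E →L[ℝ] E} (h1 : T * T' = 1) (h2 : T' * T = 1) :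
    IsHyp T ∨ (∃ v : E, v ≠ 0 ∧ ∃ σ : ℝ, |σ| = 1 ∧ T v = σ • v) ∨
      ∃ ι : ℂ →ₗ[ℝ] E, Function.Injective ι ∧ ∃ ω : ℂ, ‖ω‖ = 1 ∧ ∀ ζ, T (ι ζ) = ι (ω * ζ) := by
  set f := cT (T : E →ₗ[ℝ] E) with hf
  set f' := cT (T' : E →ₗ[ℝ] E) with hf'
  have hff' : f * f' = 1 := by
    rw [hf, hf', ← cT_mul, ← cT_one]
    congr 1
    ext v
    exact congrArg (fun L : E →L[ℝ] E => L v) h1
  have hf'f : f' * f = 1 := by
    rw [hf, hf', ← cT_mul, ← cT_one]
    congr 1
    ext v
    exact congrArg (fun L : E →L[ℝ] E => L v) h2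
  by_cases hev : ∃ μ : ℂ, ‖μ‖ = 1 ∧ Module.End.HasEigenvalue f μ
  · right
    obtain ⟨μ, hμ, hev⟩ := hev
    obtain ⟨z, hz, hz0⟩ := hev.exists_hasEigenvector
    rw [Module.End.mem_eigenspace_iff] at hz
    let ι : ℂ →ₗ[ℝ] E := reE ∘ₗ
      ((LinearMap.toSpanSingleton ℂ (CV E) z).restrictScalars ℝ)
    have hι : ∀ ζ : ℂ, ι ζ = reE (ζ • z) := fun ζ => rfl
    have hTι : ∀ ζ : ℂ, T (ι ζ) = ι (μ * ζ) := by
      intro ζ
      rw [hι, hι, mul_comm, mul_smul, ← hz, ← map_smul]
      exact (re_cT (T : E →ₗ[ℝ] E) (ζ • z)).symm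
    by_cases hinj : Function.Injective ι
    · exact Or.inr ⟨ι, hinj, μ, hμ, hTι⟩
    · left
      rw [← LinearMap.ker_eq_bot, Submodule.eq_bot_iff] at hinj
      push Not at hinj
      obtain ⟨ζ₀, hζ₀, hζ₀0⟩ := hinj
      have hre : ∀ j, ((ζ₀ • z) j).re = 0 := reE_eq_zero hζ₀
      have hcomp : ∀ c : ℂ, ι (c * ζ₀) = (-c.im) • ι (-Complex.I * ζ₀) := by
        intro c
        rw [hι, hι, mul_smul, mul_smul]
        change ∑ j, ((c • (ζ₀ • z)) j).re • bs E j =
          (-c.im) • ∑ j, ((-Complex.I • (ζ₀ • z)) j).re • bs E j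
        rw [Finset.smul_sum]
        refine Finset.sum_congr rfl fun j _ => ?_
        have h3 := hre j
        simp only [Pi.smul_apply, smul_eq_mul] at h3 ⊢
        rw [smul_smul]
        congr 1
        rw [Complex.mul_re, h3]
        simp [Complex.mul_re, h3]
      set y := ι (-Complex.I * ζ₀) with hy
      have hy0 : y ≠ 0 := by
        intro h0
        apply hz0
        have h4 : ∀ j, ((-Complex.I * ζ₀) • z) j = 0 → z j = 0 := by
          intro j hj
          simp only [Pi.smul_apply, smul_eq_mul, mul_eq_zero, neg_eq_zero, Complex.I_ne_zero,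
            false_or] at hj
          exact hj.resolve_left hζ₀0
        funext j
        apply h4
        have h5 := reE_eq_zero (z := (-Complex.I * ζ₀) • z) h0 j
        apply Complex.ext
        · exact h5
        · have h3 := hre j
          simp only [Pi.smul_apply, smul_eq_mul] at h3 ⊢
          rw [mul_assoc, Complex.mul_im, h3]
          simp
      refine ⟨y, hy0, μ.re, ?_, ?_⟩
      · have h6 : ι (μ * ζ₀) = 0 := by
          rw [← hTι, hζ₀, map_zero]
        rw [hcomp] at h6
        have h7 : μ.im = 0 := by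
          rcases smul_eq_zero.1 h6 with h | h
          · linarith
          · exact absurd h hy0
        have h8 : μ = (μ.re : ℂ) := by
          apply Complex.ext <;> simp [h7]
        rw [h8] at hμ
        simpa using hμ
      · rw [hy, hTι, ← mul_assoc, hcomp, hcomp (-Complex.I), smul_smul]
        congr 1
        simp [Complex.mul_im]
  · left
    push Not at hev
    apply isHyp_of_sup h1 h2
    rw [eq_top_iff]
    intro v _
    obtain ⟨z, rfl⟩ := reE_surj v
    have hz : z ∈ ⨆ μ : ℂ, Module.End.maxGenEigenspace f μ := by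
      rw [Module.End.iSup_maxGenEigenspace_eq_top]
      trivial
    refine Submodule.iSup_induction _ (motive := fun z => reE z ∈ decay T ⊔ decay T') hz ?_ ?_ ?_
    · intro μ z hz
      rw [Module.End.mem_maxGenEigenspace] at hz
      obtain ⟨k, hk⟩ := hz
      have hk' : ((f - algebraMap ℂ (Module.End ℂ (CV E)) μ) ^ k) z = 0 := by
        rw [Algebra.algebraMap_eq_smul_one]
        exact hk
      rcases lt_trichotomy ‖μ‖ 1 with h | h | h
      · exact Submodule.mem_sup_left (reE_mem_decay h hk')
      · -- not an eigenvalue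
        have hne := hev μ h
        have hbot : Module.End.maxGenEigenspace f μ = ⊥ := by
          by_contra hcon
          apply hne
          rw [Submodule.eq_bot_iff] at hcon
          push Not at hcon
          obtain ⟨x, hx, hx0⟩ := hcon
          rw [Module.End.mem_maxGenEigenspace] at hx
          obtain ⟨m, hm⟩ := hx
          exact Module.End.hasEigenvalue_of_hasGenEigenvalue (k := m) (by
            change Module.End.genEigenspace f μ m ≠ ⊥
            intro hb
            rw [Submodule.eq_bot_iff] at hb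
            exact hx0 (hb x (by rw [Module.End.mem_genEigenspace_nat]; exact hm)))
        have hzz : z ∈ Module.End.maxGenEigenspace f μ := by
          rw [Module.End.mem_maxGenEigenspace]
          exact ⟨k, hk⟩
        rw [hbot, Submodule.mem_bot] at hzz
        rw [hzz, map_zero]
        exact Submodule.zero_mem _
      · refine Submodule.mem_sup_right ?_
        have hμ0 : μ ≠ 0 := by
          rintro rfl
          simp at h
          linarith
        have hinv : ‖μ⁻¹‖ < 1 := by
          rw [norm_inv]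
          exact inv_lt_one_of_one_lt₀ h
        refine reE_mem_decay (k := k) hinv ?_
        have e1 : f' - algebraMap ℂ (Module.End ℂ (CV E)) μ⁻¹ =
            (algebraMap ℂ (Module.End ℂ (CV E)) (-μ⁻¹) * f') *
              (f - algebraMap ℂ (Module.End ℂ (CV E)) μ) := by
          refine LinearMap.ext fun x => ?_
          have e3 : f' (f x) = x := congrArg (fun L : Module.End ℂ (CV E) => L x) hf'f
          change f' x - μ⁻¹ • x = (-μ⁻¹) • f' (f x - μ • x)
          rw [map_sub, map_smul, e3, smul_sub, smul_smul, neg_mul, inv_mul_cancel₀ hμ0, neg_smul,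
            neg_smul, one_smul]
          abel
        have hcommf : Commute (algebraMap ℂ (Module.End ℂ (CV E)) (-μ⁻¹) * f')
            (f - algebraMap ℂ (Module.End ℂ (CV E)) μ) := by
          have c1 : Commute f' f := by rw [Commute, SemiconjBy, hff', hf'f]
          have c2 : Commute f' (f - algebraMap ℂ (Module.End ℂ (CV E)) μ) :=
            c1.sub_right (Algebra.commutes μ f').symm
          have c3 : Commute (algebraMap ℂ (Module.End ℂ (CV E)) (-μ⁻¹))
            (f - algebraMap ℂ (Module.End ℂ (CV E)) μ) := Algebra.commutes _ _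
          exact c3.mul_left c2
        rw [e1, hcommf.mul_pow, Module.End.mul_apply, hk', map_zero]
    · rw [map_zero]
      exact Submodule.zero_mem _
    · intro z w hz hw
      rw [map_add]
      exact Submodule.add_mem _ hz hw

end OmSt
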