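import Pool.Agent.OmSt.Scale
import Pool.Agent.OmSt.LinAlg2

/-!
# Linear perturbations of non hyperbolic linear maps
-/

open Set Filter Topology Metric

set_option linter.unusedSectionVars false

namespace OmSt

variable {E : Type*} [NormedAddCommGroup E] [NormedSpace ℝ E]

theorem IsHyp.conj {T L L' : E →L[ℝ] E} (h1 : L * L' = 1) (h2 : L' * L = 1) (hT : IsHyp T) :
    IsHyp (L * T * L') := by
  obtain ⟨T', P, c, μ, a1, a2, a3, a4, a5, a6, a7, a8⟩ := hT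
  have hm : ∀ A B : E →L[ℝ] E, (L * A * L') * (L * B * L') = L * (A * B) * L' := by
    intro A B
    calc (L * A * L') * (L * B * L') = L * A * (L' * L) * B * L' := by simp only [mul_assoc]
      _ = L * (A * B) * L' := by rw [h2, mul_one]; simp only [mul_assoc]
  have hp : ∀ (A : E →L[ℝ] E) (n : ℕ), (L * A * L') ^ n = L * A ^ n * L' := by
    intro A n
    induction n with
    | zero => rw [pow_zero, pow_zero, mul_one, h1]
    | succ n ih => rw [pow_succ, pow_succ, ih, hm]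
  refine ⟨L * T' * L', L * P * L', ‖L‖ * c * ‖L'‖, μ, ?_, ?_, ?_, ?_, by positivity, a6, a7,
    fun n => ⟨?_, ?_⟩⟩
  · rw [hm, a1, mul_one, h1]
  · rw [hm, a2, mul_one, h1]
  · rw [hm, a3]
  · rw [hm, hm, a4]
  · rw [hp, hm]
    calc ‖L * (T ^ n * P) * L'‖ ≤ ‖L‖ * ‖T ^ n * P‖ * ‖L'‖ :=
          (norm_mul_le _ _).trans (by gcongr; exact norm_mul_le _ _)
      _ ≤ ‖L‖ * (c * μ ^ n) * ‖L'‖ := by gcongr; exact (a8 n).1
      _ = ‖L‖ * c * ‖L'‖ * μ ^ n := by ring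
  · have e1 : (1 : E →L[ℝ] E) - L * P * L' = L * (1 - P) * L' := by
      rw [mul_sub, sub_mul, mul_one, h1]
    rw [e1, hp, hm]
    calc ‖L * (T' ^ n * (1 - P)) * L'‖ ≤ ‖L‖ * ‖T' ^ n * (1 - P)‖ * ‖L'‖ :=
          (norm_mul_le _ _).trans (by gcongr; exact norm_mul_le _ _)
      _ ≤ ‖L‖ * (c * μ ^ n) * ‖L'‖ := by gcongr; exact (a8 n).2
      _ = ‖L‖ * c * ‖L'‖ * μ ^ n := by ring

theorem IsHyp.pow {T : E →L[ℝ] E} (hT : IsHyp T) {k : ℕ} (hk : 0 < k) : IsHyp (T ^ k) := by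
  obtain ⟨T', P, c, μ, a1, a2, a3, a4, a5, a6, a7, a8⟩ := hT
  have hc : Commute T T' := by rw [Commute, SemiconjBy, a1, a2]
  refine ⟨T' ^ k, P, c, μ ^ k, ?_, ?_, a3, ?_, a5, by positivity,
    pow_lt_one₀ a6 a7 hk.ne', fun n => ⟨?_, ?_⟩⟩
  · rw [← hc.mul_pow, a1, one_pow]
  · rw [← hc.symm.mul_pow, a2, one_pow]
  · exact (Commute.pow_right a4 k)
  · rw [← pow_mul, ← pow_mul]
    exact (a8 (k * n)).1
  · rw [← pow_mul, ← pow_mul]
    exact (a8 (k * n)).2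

/-- Solvability in finite dimension. -/
theorem ND.surj [FiniteDimensional ℝ E] {A : E →L[ℝ] E} (h : ND A) (w : E) : ∃ z, A z - z = w := by
  have hinj : Function.Injective ((A - 1 : E →L[ℝ] E) : E →ₗ[ℝ] E) := by
    rw [← LinearMap.ker_eq_bot, LinearMap.ker_eq_bot']
    intro u hu
    refine h u ?_
    have : A u - u = 0 := hu
    exact sub_eq_zero.1 this
  obtain ⟨z, hz⟩ := LinearMap.surjective_of_injective hinj w
  exact ⟨z, hz⟩

variable {𝕜 : Type*} [RCLike 𝕜]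

/-- The perturbation: multiplication by `c` on the range of `ι`, by `1 + ε` on the complement. -/
noncomputable def pertB (ι : 𝕜 →L[ℝ] E) (π : E →L[ℝ] 𝕜) (c : 𝕜) (ε : ℝ) : E →L[ℝ] E :=
  (ι.comp ((ContinuousLinearMap.mul ℝ 𝕜 (c - 1)).comp π)) + ε • (1 - ι.comp π)

theorem pertB_apply (ι : 𝕜 →L[ℝ] E) (π : E →L[ℝ] 𝕜) (c : 𝕜) (ε : ℝ) (u : E) :
    pertB ι π c ε u = ι ((c - 1) * π u) + ε • (u - ι (π u)) := rfl

theorem tendsto_pertB (ι : 𝕜 →L[ℝ] E) (π : E →L[ℝ] 𝕜) :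
    Tendsto (fun p : 𝕜 × ℝ => pertB ι π p.1 p.2) (𝓝 (1, 0)) (𝓝 0) := by
  have : Continuous (fun p : 𝕜 × ℝ => pertB ι π p.1 p.2) := by
    unfold pertB
    fun_prop
  refine this.tendsto' _ _ ?_
  ext u
  simp [pertB_apply]

/-- The set of nice non hyperbolic maps. -/
structure Nice (A : E →L[ℝ] E) (ι : 𝕜 →L[ℝ] E) (ω : 𝕜) (l : ℕ) : Prop where
  hl : 0 < l
  root : ω ^ l = 1
  inj : Function.Injective ι
  eig : ∀ ζ, A (ι ζ) = ι (ω * ζ)
  surj : ∀ w : E, ∃ (z : E) (ζ : 𝕜), (A ^ l) z - z + ι ζ = w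

theorem exists_nice [FiniteDimensional ℝ E] {A : E →L[ℝ] E} {ι : 𝕜 →L[ℝ] E}
    (hι : Function.Injective ι) {ω : 𝕜} (hω : ‖ω‖ = 1) (hA : ∀ ζ, A (ι ζ) = ι (ω * ζ))
    (hroot : ∀ U ∈ 𝓝 ω, ∃ ω' ∈ U, ∃ l > 0, ω' ^ l = 1) {𝒰 : Set (E →L[ℝ] E)}
    (h𝒰 : 𝒰 ∈ 𝓝 (0 : E →L[ℝ] E)) :
    ∃ B ∈ 𝒰, ∃ (ω' : 𝕜) (l : ℕ), Nice (A * (1 + B)) ι ω' l := by
  -- a left inverse of `ι`
  obtain ⟨π, hπ⟩ : ∃ π : E →L[ℝ] 𝕜, ∀ ζ, π (ι ζ) = ζ := by
    obtain ⟨π, hπ⟩ := LinearMap.exists_leftInverse_of_injective (ι : 𝕜 →ₗ[ℝ] E)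
      (LinearMap.ker_eq_bot.2 hι)
    exact ⟨LinearMap.toContinuousLinearMap π, fun ζ => congrArg (fun T : 𝕜 →ₗ[ℝ] 𝕜 => T ζ) hπ⟩
  have hω0 : ω ≠ 0 := by
    intro h
    rw [h, norm_zero] at hω
    exact zero_ne_one hω
  have h1 : ∀ᶠ p : 𝕜 × ℝ in 𝓝 (1, 0), pertB ι π p.1 p.2 ∈ 𝒰 := tendsto_pertB ι π h𝒰
  rw [nhds_prod_eq] at h1
  have h2 : ∀ᶠ c : 𝕜 in 𝓝 1, ∀ᶠ ε : ℝ in 𝓝 0, pertB ι π c ε ∈ 𝒰 := h1.curry
  have h3 : ∀ᶠ ω' : 𝕜 in 𝓝 ω, ∀ᶠ ε : ℝ in 𝓝 0, pertB ι π (ω⁻¹ * ω') ε ∈ 𝒰 := by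
    have : Tendsto (fun ω' : 𝕜 => ω⁻¹ * ω') (𝓝 ω) (𝓝 1) := by
      have h4 : Continuous (fun ω' : 𝕜 => ω⁻¹ * ω') := by fun_prop
      exact h4.tendsto' _ _ (inv_mul_cancel₀ hω0)
    exact this.eventually h2
  obtain ⟨ω', hω', l, hl, hω'l⟩ := hroot _ h3
  have hω' : ∀ᶠ ε : ℝ in 𝓝 0, pertB ι π (ω⁻¹ * ω') ε ∈ 𝒰 := hω'
  set c : 𝕜 := ω⁻¹ * ω' with hc
  set Q : E →L[ℝ] E := 1 - ι.comp π with hQ
  have hQa : ∀ u, Q u = u - ι (π u) := fun u => rfl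
  have hQι : ∀ ζ, Q (ι ζ) = 0 := fun ζ => by rw [hQa, hπ, sub_self]
  have hQQ : ∀ u, Q (Q u) = Q u := fun u => by rw [hQa u, map_sub, hQι, sub_zero, hQa]
  have h5 : ∀ᶠ ε : ℝ in 𝓝[≠] 0, ND ((1 + ε) ^ l • ((Q * A) ^ l : E →L[ℝ] E)) :=
    nd_scale ((Q * A) ^ l) hl
  obtain ⟨ε, hε1, hε2⟩ := ((Filter.Eventually.filter_mono nhdsWithin_le_nhds hω').and h5).exists
  refine ⟨pertB ι π c ε, hε1, ω', l, hl, hω'l, hι, ?_, ?_⟩
  · intro ζ
    change A (ι ζ + pertB ι π c ε (ι ζ)) = _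
    rw [pertB_apply, hπ, sub_self, smul_zero, add_zero, ← map_add, hA]
    congr 1
    have : ω * c = ω' := by rw [hc, ← mul_assoc, mul_inv_cancel₀ hω0, one_mul]
    rw [← this]
    ring
  · intro w
    set A' := A * (1 + pertB ι π c ε) with hA'
    set T : E →L[ℝ] E := (1 + ε) • (Q * A) with hT
    have hTl : T ^ l = (1 + ε) ^ l • ((Q * A) ^ l : E →L[ℝ] E) := by
      rw [hT, smul_pow]
    have hnd : ND (T ^ l) := by rw [hTl]; exact hε2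
    have hQA' : ∀ u, Q (A' u) = T (Q u) := by
      intro u
      have e1 : A' u = ι (ω * (c * π u)) + (1 + ε) • A (Q u) := by
        change A (u + pertB ι π c ε u) = _
        rw [← hA, ← map_smul, ← map_add]
        congr 1
        rw [pertB_apply, ← hQa]
        have e2 : u = ι (π u) + Q u := by rw [hQa]; abel
        calc u + (ι ((c - 1) * π u) + ε • Q u)
            = (ι (π u) + Q u) + (ι ((c - 1) * π u) + ε • Q u) := by rw [← e2]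
          _ = (ι (π u) + ι ((c - 1) * π u)) + (1 + ε) • Q u := by
              rw [add_smul, one_smul]; abel
          _ = ι (c * π u) + (1 + ε) • Q u := by
              rw [← map_add]
              congr 2
              ring
      rw [e1, map_add, hQι, zero_add, map_smul]
      rfl
    have hQA'k : ∀ (k : ℕ) (u : E), Q ((A' ^ k) u) = (T ^ k) (Q u) := by
      intro k
      induction k with
      | zero => intro u; simp
      | succ k ih =>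
        intro u
        have e3 : (A' ^ (k + 1)) u = A' ((A' ^ k) u) := by rw [pow_succ']; rfl
        have e4 : (T ^ (k + 1)) (Q u) = T ((T ^ k) (Q u)) := by rw [pow_succ']; rfl
        rw [e3, e4, hQA', ih]
    have hQT : ∀ u, Q (T u) = T u := by
      intro u
      change Q ((1 + ε) • Q (A u)) = (1 + ε) • Q (A u)
      rw [map_smul, hQQ]
    obtain ⟨z, hz⟩ := hnd.surj (Q w)
    obtain ⟨l', rfl⟩ := Nat.exists_eq_succ_of_ne_zero hl.ne'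
    have hQz : Q z = z := by
      have e1 : z = (T ^ (l' + 1)) z - Q w := by rw [← hz]; abel
      have e2 : Q ((T ^ (l' + 1)) z) = (T ^ (l' + 1)) z := by
        rw [pow_succ', mul_apply_eq_comp, hQT]
      calc Q z = Q ((T ^ (l' + 1)) z - Q w) := by rw [← e1]
        _ = (T ^ (l' + 1)) z - Q w := by rw [map_sub, e2, hQQ]
        _ = z := e1.symm
    have h6 : Q ((A' ^ (l' + 1)) z - z - w) = 0 := by
      rw [map_sub, map_sub, hQA'k, hQz]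
      have : (T ^ (l' + 1)) z - z = Q w := hz
      rw [this, sub_self]
    refine ⟨z, -π ((A' ^ (l' + 1)) z - z - w), ?_⟩
    rw [hQa, sub_eq_zero] at h6
    rw [map_neg, ← h6]
    abel

theorem root_real {ω : ℝ} (hω : ‖ω‖ = 1) : ∀ U ∈ 𝓝 ω, ∃ ω' ∈ U, ∃ l > 0, ω' ^ l = 1 := by
  intro U hU
  refine ⟨ω, mem_of_mem_nhds hU, 2, by norm_num, ?_⟩
  rw [← sq_abs, ← Real.norm_eq_abs, hω, one_pow]

theorem root_complex {ω : ℂ} (hω : ‖ω‖ = 1) : ∀ U ∈ 𝓝 ω, ∃ ω' ∈ U, ∃ l > 0, ω' ^ l = 1 := by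
  intro U hU
  obtain ⟨x, hx⟩ : ∃ x : ℝ, Complex.exp (2 * Real.pi * Complex.I * x) = ω := by
    refine ⟨Complex.arg ω / (2 * Real.pi), ?_⟩
    have h1 := Complex.norm_mul_exp_arg_mul_I ω
    rw [hω] at h1
    have hpi : (Real.pi : ℂ) ≠ 0 := by exact_mod_cast Real.pi_ne_zero
    have h4 : (2 * Real.pi * Complex.I * ((Complex.arg ω / (2 * Real.pi) : ℝ) : ℂ)) =
        (Complex.arg ω : ℂ) * Complex.I := by
      push_cast
      field_simp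
    rw [Complex.ofReal_one, one_mul] at h1
    rw [h4]
    exact h1
  have hcont : Continuous (fun y : ℝ => Complex.exp (2 * Real.pi * Complex.I * y)) := by fun_prop
  have h2 : (fun y : ℝ => Complex.exp (2 * Real.pi * Complex.I * y)) ⁻¹' U ∈ 𝓝 x :=
    hcont.continuousAt (by rw [hx]; exact hU)
  obtain ⟨q, hq⟩ := Rat.denseRange_cast (𝕜 := ℝ) |>.exists_mem_open isOpen_interior
    ⟨x, mem_interior_iff_mem_nhds.2 h2⟩
  refine ⟨_, interior_subset (s := (fun y : ℝ => Complex.exp (2 * Real.pi * Complex.I * y)) ⁻¹' U)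
    hq, q.den, q.den_pos, ?_⟩
  rw [← Complex.exp_nat_mul, Complex.exp_eq_one_iff]
  refine ⟨q.num, ?_⟩
  have hden : (q.den : ℂ) ≠ 0 := by exact_mod_cast q.den_nz
  have h3 : (((q : ℝ) : ℂ)) = (q.num : ℂ) / (q.den : ℂ) := by
    have := Rat.cast_def (K := ℂ) q
    rw [← this]
    simp
  rw [h3]
  field_simp

end OmSt
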