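import Mathlib

/-!
# Diffeomorphisms of a vector space close to the identity
-/

open Set Filter Topology Manifold ContDiff Metric
open scoped NNReal

namespace OmSt

variable {E : Type*} [NormedAddCommGroup E] [NormedSpace ℝ E]

theorem homeo_of_lip [CompleteSpace E] {u : E → E} {C : ℝ≥0} (hC : LipschitzWith C u)
    (hC1 : C < 1) : ∃ τ : E ≃ₜ E, ∀ y, τ y = y + u y := by
  have happ : ApproximatesLinearOn (fun y => y + u y)
      ((ContinuousLinearEquiv.refl ℝ E : E ≃L[ℝ] E) : E →L[ℝ] E) univ C := by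
    intro x _ y _
    have := hC.dist_le_mul x y
    rw [dist_eq_norm, dist_eq_norm] at this
    have e : (fun y => y + u y) x - (fun y => y + u y) y -
        ((ContinuousLinearEquiv.refl ℝ E : E ≃L[ℝ] E) : E →L[ℝ] E) (x - y) = u x - u y := by
      simp only [ContinuousLinearEquiv.coe_refl, ContinuousLinearMap.coe_id', id_eq]
      abel
    rw [e]
    exact this
  have hN : Subsingleton E ∨
      C < ‖((ContinuousLinearEquiv.refl ℝ E).symm : E →L[ℝ] E)‖₊⁻¹ := by
    rcases subsingleton_or_nontrivial E with h | h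
    · exact Or.inl h
    · right
      have : ‖((ContinuousLinearEquiv.refl ℝ E).symm : E →L[ℝ] E)‖₊ = 1 := by
        have h2 : ‖(ContinuousLinearMap.id ℝ E)‖ = 1 := ContinuousLinearMap.norm_id
        ext
        simp [h2]
      rw [this]
      simpa using hC1
  exact ⟨happ.toHomeomorph _ hN, fun y => rfl⟩

theorem diffeo_of_lip [CompleteSpace E] {u : E → E} (hu : ContDiff ℝ ∞ u) {C : ℝ≥0}
    (hC : LipschitzWith C u) (hC1 : C < 1) :
    ∃ τ : E ≃ₜ E, (∀ y, τ y = y + u y) ∧ ContDiff ℝ ∞ τ ∧ ContDiff ℝ ∞ τ.symm := by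
  obtain ⟨τ, hτ⟩ := homeo_of_lip hC hC1
  have hτc : ContDiff ℝ ∞ τ := by
    have : (τ : E → E) = fun y => y + u y := funext hτ
    rw [this]
    exact contDiff_id.add hu
  refine ⟨τ, hτ, hτc, ?_⟩
  have hlt : ∀ a, ‖fderiv ℝ u a‖ < 1 := fun a =>
    lt_of_le_of_lt (norm_fderiv_le_of_lipschitz ℝ hC) (by exact_mod_cast hC1)
  have hunit : ∀ a, IsUnit ((1 : E →L[ℝ] E) + fderiv ℝ u a) := by
    intro a
    have := (Units.oneSub (-(fderiv ℝ u a)) (by rw [norm_neg]; exact hlt a)).isUnit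
    simpa using this
  let F : E → (E ≃L[ℝ] E) := fun a =>
    ContinuousLinearEquiv.unitsEquiv ℝ E (hunit a).unit
  have hF : ∀ a, ((F a : E ≃L[ℝ] E) : E →L[ℝ] E) = 1 + fderiv ℝ u a := by
    intro a
    ext x
    simp only [F]
    rfl
  refine τ.contDiff_symm (f₀' := F) (fun a => ?_) hτc
  rw [hF]
  have h1 : HasFDerivAt u (fderiv ℝ u a) a :=
    (hu.differentiable (by simp) a).hasFDerivAt
  have h2 := (hasFDerivAt_id a).add h1
  have : (τ : E → E) = fun y => y + u y := funext hτ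
  rw [this]
  exact h2

end OmSt
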