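import Pool.Agent.OmSt.Dich

/-!
# Orbit segments which pass near a hyperbolic fixed point
-/

open Set Filter Topology Metric

set_option linter.unusedSectionVars false

namespace OmSt

variable {E : Type*} [NormedAddCommGroup E] [NormedSpace ℝ E]

theorem exists_transit [CompleteSpace E] {A : E →L[ℝ] E} {K η : ℝ} (hdich : Dich (fun _ => A) K)
    (hK : 0 ≤ K) (hη : 0 ≤ η) (hKη : K * η ≤ 1 / 2) {c : E} {ρ : ℝ} (hρ : 0 < ρ) {φ : E → E}
    (happ : ∀ z ∈ closedBall c ρ, ∀ z' ∈ closedBall c ρ,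
      ‖φ z - φ z' - A (z - z')‖ ≤ η * ‖z - z'‖) {α β : ℤ → E}
    (hα : ∀ k, 0 ≤ k → α k ∈ closedBall c (ρ / 2)) (hαs : ∀ k, 0 ≤ k → φ (α k) = α (k + 1))
    (hαt : Tendsto α atTop (𝓝 c))
    (hβ : ∀ k, k ≤ 0 → β k ∈ closedBall c (ρ / 2)) (hβs : ∀ k, k < 0 → φ (β k) = β (k + 1))
    (hβt : Tendsto β atBot (𝓝 c)) {ε : ℝ} (hε : 0 < ε) :
    ∀ᶠ j : ℕ in atTop, ∃ z : ℤ → E, (∀ i : ℤ, 0 ≤ i → i ≤ j → ‖z i - α i‖ ≤ ε) ∧
      (∀ i : ℤ, (j : ℤ) < i → i ≤ 2 * j → ‖z i - β (i - 2 * j)‖ ≤ ε) ∧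
      (∀ i, z i ∈ closedBall c ρ) ∧
      ∀ i : ℤ, 0 ≤ i → i < 2 * j → z (i + 1) = φ (z i) := by
  set e₀ : ℝ := min ε (ρ / 2) / (2 * (K + 1)) with he₀
  have he₀pos : 0 < e₀ := by positivity
  have he₀' : 2 * K * e₀ ≤ min ε (ρ / 2) := by
    rw [he₀, mul_div_assoc', div_le_iff₀ (by positivity)]
    have : 0 < min ε (ρ / 2) := by positivity
    nlinarith
  have hα1 : ∀ᶠ j : ℕ in atTop, ‖α (j + 1) - c‖ < e₀ / 2 := by
    have h1 : Tendsto (fun j : ℕ => α (j + 1)) atTop (𝓝 c) := by
      refine hαt.comp ?_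
      exact tendsto_atTop_add_const_right _ 1 (tendsto_natCast_atTop_atTop (R := ℤ))
    have h2 := (tendsto_iff_norm_sub_tendsto_zero.1 h1)
    exact h2.eventually (Iio_mem_nhds (half_pos he₀pos))
  have hβ1 : ∀ᶠ j : ℕ in atTop, ‖β (1 - j) - c‖ < e₀ / 2 := by
    have h1 : Tendsto (fun j : ℕ => β (1 - j)) atTop (𝓝 c) := by
      refine hβt.comp ?_
      have h3 : Tendsto (fun j : ℕ => (1 : ℤ) + -(j : ℤ)) atTop atBot :=
        tendsto_atBot_add_const_left _ 1
          (tendsto_neg_atTop_atBot.comp (tendsto_natCast_atTop_atTop (R := ℤ)))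
      exact h3
    have h2 := (tendsto_iff_norm_sub_tendsto_zero.1 h1)
    exact h2.eventually (Iio_mem_nhds (half_pos he₀pos))
  filter_upwards [hα1, hβ1, eventually_ge_atTop 1] with j h1 h2 hj
  set y : ℤ → E := fun i => if i ≤ j then α (max i 0) else β (min (i - 2 * j) 0) with hy
  have hyb : ∀ i, y i ∈ closedBall c (ρ / 2) := by
    intro i
    simp only [hy]
    split_ifs
    · exact hα _ (le_max_right _ _)
    · exact hβ _ (min_le_right _ _)
  set F : ℤ → E → E := fun i z => if 0 ≤ i ∧ i < 2 * j then φ z else y (i + 1) + A (z - y i)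
    with hF
  have hsub : ∀ i, closedBall (y i) (ρ / 2) ⊆ closedBall c ρ := by
    intro i
    refine closedBall_subset_closedBall' ?_
    have := hyb i
    rw [mem_closedBall] at this
    linarith
  have hlip : ∀ i, ∀ u ∈ closedBall (y i) (ρ / 2), ∀ u' ∈ closedBall (y i) (ρ / 2),
      ‖F i u - F i u' - A (u - u')‖ ≤ η * ‖u - u'‖ := by
    intro i u hu u' hu'
    simp only [hF]
    split_ifs
    · exact happ u (hsub i hu) u' (hsub i hu')
    · have : y (i + 1) + A (u - y i) - (y (i + 1) + A (u' - y i)) - A (u - u') = 0 := by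
        simp only [map_sub]
        abel
      rw [this, norm_zero]
      positivity
  have herr : ∀ i, ‖F i (y i) - y (i + 1)‖ ≤ e₀ := by
    intro i
    simp only [hF]
    split_ifs with hi
    · have hj' : (1 : ℤ) ≤ j := by exact_mod_cast hj
      rcases lt_trichotomy i j with hij | hij | hij
      · have e1 : y i = α i := by
          simp only [hy, if_pos hij.le, max_eq_left hi.1]
        have e2 : y (i + 1) = α (i + 1) := by
          simp only [hy, if_pos (by omega : i + 1 ≤ j), max_eq_left (by omega : (0 : ℤ) ≤ i + 1)]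
        rw [e1, e2, hαs i hi.1, sub_self, norm_zero]
        exact he₀pos.le
      · have e1 : y i = α i := by
          simp only [hy, if_pos hij.le, max_eq_left hi.1]
        have e2 : y (i + 1) = β (1 - j) := by
          simp only [hy, if_neg (by omega : ¬ i + 1 ≤ j)]
          congr 1
          omega
        rw [e1, e2, hαs i hi.1, hij]
        calc ‖α (j + 1) - β (1 - j)‖ = ‖(α (j + 1) - c) - (β (1 - j) - c)‖ := by congr 1; abel
          _ ≤ e₀ / 2 + e₀ / 2 := (norm_sub_le _ _).trans (add_le_add h1.le h2.le)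
          _ = e₀ := by ring
      · have e1 : y i = β (i - 2 * j) := by
          simp only [hy, if_neg (by omega : ¬ i ≤ j), min_eq_left (by omega : i - 2 * j ≤ 0)]
        have e2 : y (i + 1) = β (i - 2 * j + 1) := by
          simp only [hy, if_neg (by omega : ¬ i + 1 ≤ j),
            min_eq_left (by omega : i + 1 - 2 * j ≤ 0)]
          congr 1
          omega
        rw [e1, e2, hβs _ (by omega), sub_self, norm_zero]
        exact he₀pos.le
    · rw [sub_self, map_zero, add_zero, sub_self, norm_zero]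
      exact he₀pos.le
  obtain ⟨z, hz1, hz2⟩ := hdich.newton hK hη hKη hlip herr (he₀'.trans (min_le_right _ _))
  refine ⟨z, fun i hi hij => ?_, fun i hi hij => ?_, fun i => ?_, fun i hi hij => ?_⟩
  · have e1 : y i = α i := by
      simp only [hy, if_pos hij, max_eq_left hi]
    rw [← e1]
    exact (hz1 i).trans (he₀'.trans (min_le_left _ _))
  · have e1 : y i = β (i - 2 * j) := by
      simp only [hy, if_neg (by omega : ¬ i ≤ j), min_eq_left (by omega : i - 2 * j ≤ 0)]
    rw [← e1]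
    exact (hz1 i).trans (he₀'.trans (min_le_left _ _))
  · refine hsub i ?_
    rw [mem_closedBall, dist_eq_norm]
    exact (hz1 i).trans (he₀'.trans (min_le_right _ _))
  · rw [hz2 i]
    simp only [hF, if_pos (⟨hi, hij⟩ : 0 ≤ i ∧ i < 2 * (j : ℤ))]

end OmSt
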