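import Pool.Agent.OmSt.Away
import Pool.Agent.OmSt.Transit

/-!
# Merging two connections
-/

open Set Filter Topology Manifold ContDiff Metric

set_option linter.unusedSectionVars false

namespace OmSt

section Top

variable {X : Type*} [TopologicalSpace X]

/-- A connecting orbit. -/
structure IsConn (σ : Equiv.Perm X) (m : ℕ) (p q x : X) : Prop extends Asy σ m p q x where
  np : ∀ k : ℤ, k ≠ 0 → zi σ k x ≠ x

/-- A cycle of connecting orbits. -/
structure ZCyc (σ : Equiv.Perm X) (m n : ℕ) (p x : ℕ → X) : Prop where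
  hm : 0 < m
  hn : 0 < n
  per : ∀ i ≤ n, zi σ m (p i) = p i
  close : ∃ s : ℤ, p n = zi σ s (p 0)
  conn : ∀ i < n, IsConn σ m (p i) (p (i + 1)) (x i)

theorem zi_mul_of_fix {σ : Equiv.Perm X} {k : ℤ} {x : X} (h : zi σ k x = x) (l : ℤ) :
    zi σ (k * l) x = x := by
  unfold zi at h ⊢
  rw [zpow_mul]
  exact Function.IsFixedPt.perm_zpow h l

/-- An asymptotic orbit which is periodic is the limit. -/
theorem Asy.eq_of_periodic [T2Space X] {σ : Equiv.Perm X} {m : ℕ} {p q x : X}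
    (h : Asy σ m p q x) {k : ℤ} (hk : k ≠ 0) (hx : zi σ k x = x) : p = x := by
  have h1 : Tendsto (fun l : ℕ => zi σ (m * (-(|k| * l))) x) atTop (𝓝 p) := by
    refine h.bwd.comp (tendsto_neg_atTop_atBot.comp ?_)
    have h2 : 0 < |k| := abs_pos.2 hk
    exact (tendsto_natCast_atTop_atTop (R := ℤ)).const_mul_atTop' h2
  have h2 : ∀ l : ℕ, zi σ (m * (-(|k| * l))) x = x := by
    intro l
    rcases abs_cases k with ⟨h3, -⟩ | ⟨h3, -⟩
    · rw [h3]
      have : (m : ℤ) * (-(k * l)) = k * (-(m * l)) := by ring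
      rw [this]
      exact zi_mul_of_fix hx _
    · rw [h3]
      have : (m : ℤ) * (-(-k * l)) = k * (m * l) := by ring
      rw [this]
      exact zi_mul_of_fix hx _
  simp only [h2] at h1
  exact tendsto_nhds_unique h1 tendsto_const_nhds

theorem exists_away_finset [T2Space X] (f : X ≃ₜ X) {m : ℕ} (hm : 0 < m) (s : Finset ℕ)
    {y P Q : ℕ → X} (h : ∀ j ∈ s, Asy f.toEquiv m (P j) (Q j) (y j))
    (hP : ∀ j ∈ s, zi f.toEquiv m (P j) = P j ∧ zi f.toEquiv m (Q j) = Q j) {w : X}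
    (hw : ∀ j ∈ s, ∀ k : ℤ, zi f.toEquiv k (P j) ≠ w ∧ zi f.toEquiv k (Q j) ≠ w) :
    ∃ U ∈ 𝓝 w, ∀ j ∈ s, ∀ k : ℤ, zi f.toEquiv k (y j) ∈ U → zi f.toEquiv k (y j) = w := by
  have h1 : ∀ j : ℕ, ∃ U ∈ 𝓝 w, j ∈ s → ∀ k : ℤ, zi f.toEquiv k (y j) ∈ U →
      zi f.toEquiv k (y j) = w := by
    intro j
    by_cases hj : j ∈ s
    · obtain ⟨U, hU, hU'⟩ := (h j hj).exists_away f hm (hP j hj).1 (hP j hj).2
        (fun k => (hw j hj k).1) (fun k => (hw j hj k).2)
      exact ⟨U, hU, fun _ => hU'⟩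
    · exact ⟨univ, univ_mem, fun h => absurd h hj⟩
  choose U hU hU' using h1
  refine ⟨⋂ j ∈ s, U j, (Filter.biInter_finset_mem _).2 fun j _ => hU j, fun j hj k hk => ?_⟩
  exact hU' j hj k (mem_iInter₂.1 hk j hj)

/-- The orbit of the new connection. -/
theorem track [T2Space X] {σ σ' : Equiv.Perm X} {ψ : X → X}
    (hs : ∀ y, zi σ' 1 y = zi σ 1 (ψ y)) {W : Set X} (hψ : ∀ y ∉ W, ψ y = y) {m : ℕ} (hm : 0 < m)
    {p₀ p₁ p₂ x₀ x₁ : X} (h₀ : IsConn σ m p₀ p₁ x₀) (h₁ : IsConn σ m p₁ p₂ x₁)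
    (hp₀ : zi σ m p₀ = p₀)
    (hx₀ : ∀ k : ℤ, k ≠ 0 → zi σ k x₀ ∉ W) (hx₁ : ∀ k : ℤ, k ≠ 0 → zi σ k x₁ ∉ W)
    {z : X} {T : ℕ} (hT : 0 < T) (hz₀ : ψ x₀ = z) (hzT : ψ (zi σ (m * T) z) = x₁)
    (hz : ∀ t : ℤ, 0 < t → t < m * T → zi σ t z ∉ W) : IsConn σ' m p₀ p₂ x₀ := by
  have hmz : (0 : ℤ) < m := by exact_mod_cast hm
  have hTz : (0 : ℤ) < T := by exact_mod_cast hT
  have hmT : (0 : ℤ) < m * T := mul_pos hmz hTz
  have L1 : ∀ t : ℕ, (t : ℤ) + 1 ≤ m * T → zi σ' (t + 1) x₀ = zi σ (t + 1) z := by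
    intro t
    induction t with
    | zero =>
      intro _
      simp only [Nat.cast_zero, zero_add]
      rw [hs, hz₀]
    | succ t ih =>
      intro ht
      push_cast at ht ⊢
      have h1 := ih (by linarith)
      have e1 : (t : ℤ) + 1 + 1 = 1 + (t + 1) := by ring
      rw [e1, zi_add, h1, hs, hψ _ (hz _ (by positivity) (by linarith)), ← zi_add]
  have L1' : zi σ' (m * T) x₀ = zi σ (m * T) z := by
    obtain ⟨t, ht⟩ := Int.eq_ofNat_of_zero_le (by linarith : (0 : ℤ) ≤ m * T - 1)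
    have h1 := L1 t (by linarith)
    have e1 : (t : ℤ) + 1 = m * T := by linarith
    rwa [e1] at h1
  have L2 : ∀ t : ℕ, zi σ' (m * T + (t + 1)) x₀ = zi σ (t + 1) x₁ := by
    intro t
    induction t with
    | zero =>
      have e1 : (m : ℤ) * T + ((0 : ℕ) + 1) = 1 + m * T := by push_cast; ring
      rw [e1, zi_add, L1', hs, hzT]
      simp
    | succ t ih =>
      have e1 : (m : ℤ) * T + ((t + 1 : ℕ) + 1) = 1 + (m * T + (t + 1)) := by push_cast; ring
      have e2 : ((t + 1 : ℕ) : ℤ) + 1 = 1 + (t + 1) := by push_cast; ring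
      rw [e1, zi_add, ih, hs, hψ _ (hx₁ _ (by positivity)), ← zi_add, e2]
  have L3 : ∀ t : ℕ, zi σ' (-(t : ℤ)) x₀ = zi σ (-(t : ℤ)) x₀ := by
    intro t
    induction t with
    | zero => simp [zi_zero]
    | succ t ih =>
      apply zi_injective σ' 1
      have e1 : (1 : ℤ) + -((t + 1 : ℕ) : ℤ) = -t := by push_cast; ring
      rw [← zi_add, e1, ih, hs, hψ _ (hx₀ _ (by push_cast; omega)), ← zi_add, e1]
  have hasy : Asy σ' m p₀ p₂ x₀ := by
    constructor
    · have h1 : Tendsto (fun k : ℤ => zi σ (m * (k - T)) x₁) atTop (𝓝 p₂) :=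
        h₁.fwd.comp (tendsto_atTop_add_const_right _ (-(T : ℤ)) tendsto_id)
      refine h1.congr' ?_
      filter_upwards [eventually_gt_atTop (T : ℤ)] with k hk
      have h2 : 0 < (m : ℤ) * (k - T) := mul_pos hmz (by linarith)
      obtain ⟨t, ht⟩ := Int.eq_ofNat_of_zero_le (by linarith : (0 : ℤ) ≤ m * (k - T) - 1)
      have h3 := L2 t
      have e1 : (t : ℤ) + 1 = m * (k - T) := by linarith
      have e2 : (m : ℤ) * T + (t + 1) = m * k := by rw [e1]; ring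
      rw [e2, e1] at h3
      exact h3.symm
    · refine h₀.bwd.congr' ?_
      filter_upwards [eventually_le_atBot (0 : ℤ)] with k hk
      have h2 : 0 ≤ (m : ℤ) * -k := mul_nonneg hmz.le (by linarith)
      obtain ⟨t, ht⟩ := Int.eq_ofNat_of_zero_le h2
      have h3 := L3 t
      have e1 : -(t : ℤ) = m * k := by rw [← ht]; ring
      rw [e1] at h3
      exact h3.symm
  refine ⟨hasy, fun k hk hx => ?_⟩
  have h1 := hasy.eq_of_periodic hk hx
  rw [h1] at hp₀
  exact h₀.np m hmz.ne' hp₀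

/-- Connections of the cycle are in different orbits. -/
theorem ZCyc.distinct [T2Space X] {f : X ≃ₜ X} {m n : ℕ} {p x : ℕ → X}
    (h : ZCyc f.toEquiv m n p x)
    (hd : ∀ i j, i < j → j < n → ∀ s : ℤ, p j ≠ zi f.toEquiv s (p i)) {i j : ℕ} (hi : i < n)
    (hj : j < n) {k : ℤ} (hk : zi f.toEquiv k (x i) = x j) : i = j ∧ k = 0 := by
  have h1 := (h.conn i hi).toAsy.translate f k
  rw [hk] at h1
  have h2 := (h1.unique (h.conn j hj).toAsy).1
  have hij : i = j := by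
    rcases lt_trichotomy i j with h3 | h3 | h3
    · exact absurd h2.symm (hd i j h3 hj k)
    · exact h3
    · exfalso
      refine hd j i h3 hi (-k) ?_
      rw [← h2, ← zi_add, neg_add_cancel, zi_zero]
  refine ⟨hij, ?_⟩
  subst hij
  by_contra hk0
  exact (h.conn i hi).np k hk0 hk

theorem ZCyc.ne_per {σ : Equiv.Perm X} {m n : ℕ} {p x : ℕ → X} (h : ZCyc σ m n p x) {i j : ℕ}
    (hi : i ≤ n) (hj : j < n) (k : ℤ) : zi σ k (p i) ≠ x j := by
  intro heq
  have h1 : zi σ m (zi σ k (p i)) = zi σ k (p i) := by rw [zi_comm, h.per i hi]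
  rw [heq] at h1
  exact (h.conn j hj).np m (by exact_mod_cast h.hm.ne') h1

end Top

end OmSt
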